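import Mathlib

/-!
Abstract Zariski topologies given by coordinate functions, irreducible families and dimension
bounds.
-/

open MvPolynomial

namespace Pool.Agent.Helper819.Zar

section chain

variable {k R : Type*} [Field k] [CommRing R] [Algebra k R]

theorem aeval_cons {n : ℕ} (x : Fin n → R) (p : R) (f : MvPolynomial (Fin (n + 1)) k) :
    aeval (Fin.cons p x : Fin (n + 1) → R) f =
      Polynomial.eval₂ ((aeval x : MvPolynomial (Fin n) k →ₐ[k] R) : MvPolynomial (Fin n) k →+* R)
        p (finSuccEquiv k n f) := by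
  induction f using MvPolynomial.induction_on with
  | C a => simp [finSuccEquiv_apply]
  | add f g hf hg => simp [hf, hg]
  | mul_X f i hf =>
    rw [map_mul, map_mul, Polynomial.eval₂_mul, hf]
    congr 1
    refine Fin.cases ?_ (fun j => ?_) i
    · rw [finSuccEquiv_X_zero]; simp
    · rw [finSuccEquiv_X_succ]; simp

theorem exists_indep (n : ℕ) : ∀ (P : Fin (n + 1) → PrimeSpectrum R), StrictMono P →
    ∃ x : Fin n → R, ∀ f : MvPolynomial (Fin n) k, aeval x f ∈ (P 0).asIdeal → f = 0 := by
  induction n with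
  | zero =>
    intro P _
    refine ⟨Fin.elim0, fun f hf => ?_⟩
    obtain ⟨c, rfl⟩ := C_surjective (Fin 0) f
    by_contra hne
    have hc : c ≠ 0 := by rintro rfl; exact hne (by simp)
    rw [aeval_C] at hf
    exact (P 0).isPrime.ne_top (Ideal.eq_top_of_isUnit_mem _ hf ((IsUnit.mk0 c hc).map _))
  | succ n ih =>
    intro P hP
    obtain ⟨x, hx⟩ := ih (fun i => P i.succ) (fun i j hij => hP (Fin.succ_lt_succ_iff.mpr hij))
    have h01 : (P 0).asIdeal < (P 1).asIdeal := hP (by simp)
    obtain ⟨p, hp1, hp0⟩ := SetLike.exists_of_lt h01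
    refine ⟨Fin.cons p x, fun f hf => ?_⟩
    rw [aeval_cons] at hf
    have key : ∀ (m : ℕ) (g : Polynomial (MvPolynomial (Fin n) k)), g.natDegree ≤ m →
        Polynomial.eval₂ ((aeval x : MvPolynomial (Fin n) k →ₐ[k] R) :
          MvPolynomial (Fin n) k →+* R) p g ∈ (P 0).asIdeal → g = 0 := by
      intro m
      induction m with
      | zero =>
        intro g hg h
        rw [Polynomial.eq_C_of_natDegree_le_zero hg, Polynomial.eval₂_C] at h
        rw [Polynomial.eq_C_of_natDegree_le_zero hg, hx _ (h01.le h), Polynomial.C_0]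
      | succ m ihm =>
        intro g hg h
        rw [← Polynomial.divX_mul_X_add g, Polynomial.eval₂_add, Polynomial.eval₂_mul,
          Polynomial.eval₂_X, Polynomial.eval₂_C] at h
        have h1 : (aeval x : MvPolynomial (Fin n) k →ₐ[k] R) (g.coeff 0) ∈ (P 1).asIdeal := by
          have := (P 1).asIdeal.sub_mem (h01.le h) (Ideal.mul_mem_left _
            (Polynomial.eval₂ ((aeval x : MvPolynomial (Fin n) k →ₐ[k] R) :
              MvPolynomial (Fin n) k →+* R) p g.divX) hp1)
          simpa using this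
        have h2 := hx _ h1
        rw [h2] at h
        simp only [map_zero, add_zero] at h
        have h3 := ((P 0).isPrime.mem_or_mem h).resolve_right hp0
        have h4 : g.divX = 0 := ihm _ (by rw [Polynomial.natDegree_divX_eq_natDegree_tsub_one]; omega) h3
        rw [← Polynomial.divX_mul_X_add g, h4, h2]
        simp
    have := key _ _ le_rfl hf
    simpa using this

/-- If there is a chain of primes of length `m` above the kernel of a map to a polynomial ring in
`σ` variables, then `m ≤ card σ`. -/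
theorem chain_length_le {σ : Type*} [Fintype σ] (g : R →ₐ[k] MvPolynomial σ k) {m : ℕ}
    (P : Fin (m + 1) → PrimeSpectrum R) (hP : StrictMono P)
    (hg : ∀ r, g r = 0 → r ∈ (P 0).asIdeal) : m ≤ Fintype.card σ := by
  obtain ⟨x, hx⟩ := exists_indep (k := k) m P hP
  have hind : AlgebraicIndependent k (fun i => g (x i)) := by
    rw [algebraicIndependent_iff]
    intro f hf
    apply hx f
    apply hg
    rw [← hf]
    exact comp_aeval_apply x g f
  have h1 := hind.lift_cardinalMk_le_trdeg
  rw [MvPolynomial.trdeg_of_isDomain] at h1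
  simpa using h1

end chain

theorem eval_bind {k σ ι : Type*} [CommSemiring k] (x : σ → k) (q : ι → MvPolynomial σ k)
    (p : MvPolynomial ι k) :
    eval x (bind₁ q p) = eval (fun i => eval x (q i)) p :=
  eval₂Hom_bind₁ (RingHom.id k) x q p

section top

variable {k : Type} [Field k] {ι X : Type} [TopologicalSpace X]

/-- The topology of `X` is the Zariski topology for the coordinate functions `c`. -/
structure IsZar (c : X → ι → k) : Prop where
  eq : ‹TopologicalSpace X› = TopologicalSpace.generateFrom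
    {U | ∃ p : MvPolynomial ι k, U = {F | eval (c F) p ≠ 0}}

variable {c : X → ι → k}

theorem IsZar.isTopologicalBasis (hc : IsZar c) : TopologicalSpace.IsTopologicalBasis
    {U : Set X | ∃ p : MvPolynomial ι k, U = {F | eval (c F) p ≠ 0}} where
  exists_subset_inter := by
    rintro _ ⟨p, rfl⟩ _ ⟨q, rfl⟩ x ⟨hp, hq⟩
    refine ⟨_, ⟨p * q, rfl⟩, ?_, ?_⟩
    · simpa using ⟨hp, hq⟩
    · intro y hy
      simpa [not_or] using hy
  sUnion_eq := by
    apply Set.eq_univ_of_forall
    intro x
    exact ⟨_, ⟨1, rfl⟩, by simp⟩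
  eq_generateFrom := hc.eq

theorem IsZar.isOpen_ne (hc : IsZar c) (p : MvPolynomial ι k) :
    IsOpen {F | eval (c F) p ≠ 0} := hc.isTopologicalBasis.isOpen ⟨p, rfl⟩

theorem IsZar.isClosed_eq (hc : IsZar c) (p : MvPolynomial ι k) :
    IsClosed {F | eval (c F) p = 0} := by
  rw [← isOpen_compl_iff]
  exact hc.isOpen_ne p

theorem IsZar.mem_closure_iff (hc : IsZar c) (T : Set X) (F : X) :
    F ∈ closure T ↔ ∀ p : MvPolynomial ι k, (∀ G ∈ T, eval (c G) p = 0) → eval (c F) p = 0 := by
  rw [hc.isTopologicalBasis.mem_closure_iff]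
  constructor
  · intro h p hp
    by_contra hne
    obtain ⟨G, hG1, hG2⟩ := h _ ⟨p, rfl⟩ hne
    exact hG1 (hp G hG2)
  · rintro h _ ⟨p, rfl⟩ hF
    by_contra hne
    rw [Set.not_nonempty_iff_eq_empty] at hne
    apply hF
    apply h
    intro G hG
    by_contra hG'
    exact Set.eq_empty_iff_forall_notMem.mp hne G ⟨hG', hG⟩

/-- A map given by polynomials in coordinates is continuous. -/
theorem IsZar.continuous {ι' X' : Type} [TopologicalSpace X'] {c' : X' → ι' → k}
    (hc : IsZar c) (hc' : IsZar c') (f : X → X') (q : ι' → MvPolynomial ι k)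
    (hq : ∀ x i, c' (f x) i = eval (c x) (q i)) : Continuous f := by
  have : Continuous f := by
    refine hc'.isTopologicalBasis.continuous_iff.mpr ?_
    rintro _ ⟨p, rfl⟩
    have : f ⁻¹' {F | eval (c' F) p ≠ 0} = {F | eval (c F) (bind₁ q p) ≠ 0} := by
      ext x
      have h1 : c' (f x) = fun i => eval (c x) (q i) := funext (hq x)
      change eval (c' (f x)) p ≠ 0 ↔ eval (c x) (bind₁ q p) ≠ 0
      rw [h1, eval_bind]
    rw [this]
    exact hc.isOpen_ne _
  exact this

/-- The vanishing ideal of a set. -/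
def vid (c : X → ι → k) (T : Set X) : Ideal (MvPolynomial ι k) where
  carrier := {p | ∀ F ∈ T, eval (c F) p = 0}
  add_mem' := by
    intro a b ha hb F hF
    simp [ha F hF, hb F hF]
  zero_mem' := by intro F _; simp
  smul_mem' := by
    intro a b hb F hF
    simp [hb F hF]

omit [TopologicalSpace X] in
theorem mem_vid (T : Set X) (p : MvPolynomial ι k) :
    p ∈ vid c T ↔ ∀ F ∈ T, eval (c F) p = 0 := Iff.rfl

theorem vid_isPrime (hc : IsZar c) {T : Set X} (hT : IsIrreducible T) : (vid c T).IsPrime := by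
  refine ⟨?_, ?_⟩
  · intro h
    obtain ⟨F, hF⟩ := hT.nonempty
    have : (1 : MvPolynomial ι k) ∈ vid c T := by rw [h]; trivial
    simpa using this F hF
  · intro p q hpq
    by_contra hcon
    rw [not_or] at hcon
    obtain ⟨hp, hq⟩ := hcon
    rw [mem_vid] at hp hq
    push Not at hp hq
    obtain ⟨F, hF, hFp⟩ := hp
    obtain ⟨G, hG, hGq⟩ := hq
    obtain ⟨H, hH, hHp, hHq⟩ := hT.isPreirreducible _ _ (hc.isOpen_ne p) (hc.isOpen_ne q)
      ⟨F, hF, hFp⟩ ⟨G, hG, hGq⟩
    have := hpq H hH
    rw [map_mul, mul_eq_zero] at this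
    exact this.elim hHp hHq

theorem vid_closure (hc : IsZar c) (T : Set X) : vid c (closure T) = vid c T := by
  ext p
  rw [mem_vid, mem_vid]
  constructor
  · intro h F hF
    exact h F (subset_closure hF)
  · intro h F hF
    exact (hc.mem_closure_iff T F).mp hF p h

theorem vid_lt (hc : IsZar c) {S T : Set X} (hS : IsClosed S) (h : S < T) :
    vid c T < vid c S := by
  refine lt_of_le_of_ne (fun p hp F hF => hp F (h.le hF)) ?_
  intro heq
  apply h.not_ge
  intro F hF
  rw [← hS.closure_eq, hc.mem_closure_iff]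
  intro p hp
  have : p ∈ vid c T := by rw [heq]; exact hp
  exact this F hF

/-- Chains of irreducible closed subsets inside `T` have length at most `card σ`, when the ideal
of `T` contains the kernel of a map to a polynomial ring in `σ` variables. -/
theorem topologicalKrullDim_le (hc : IsZar c) (T : Set X) {σ : Type} [Fintype σ]
    (g : MvPolynomial ι k →ₐ[k] MvPolynomial σ k)
    (hg : ∀ p, g p = 0 → ∀ F ∈ T, eval (c F) p = 0) :
    topologicalKrullDim T ≤ Fintype.card σ := by
  unfold topologicalKrullDim Order.krullDim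
  refine iSup_le fun s => ?_
  have hemb : Topology.IsInducing (Subtype.val : T → X) := Topology.IsInducing.subtypeVal
  let Z : Fin (s.length + 1) → TopologicalSpace.IrreducibleCloseds X := fun i =>
    TopologicalSpace.IrreducibleCloseds.map Subtype.val hemb.continuous (s.toFun i)
  have hZ : StrictMono Z :=
    (TopologicalSpace.IrreducibleCloseds.map_strictMono_of_isInducing hemb).comp s.strictMono
  have hZT : ∀ i, (Z i : Set X) ⊆ closure T := by
    intro i
    have : (Z i : Set X) = closure (Subtype.val '' (s.toFun i : Set T)) := rfl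
    rw [this]
    apply closure_mono
    rintro _ ⟨y, _, rfl⟩
    exact y.2
  let P : Fin (s.length + 1) → PrimeSpectrum (MvPolynomial ι k) := fun i =>
    ⟨vid c (Z i.rev : Set X), vid_isPrime hc (Z i.rev).isIrreducible⟩
  have hP : StrictMono P := by
    intro i j hij
    have h1 : Z j.rev < Z i.rev := hZ (Fin.rev_lt_rev.mpr hij)
    exact vid_lt hc (Z j.rev).isClosed h1
  have := chain_length_le g P hP (by
    intro p hp
    change p ∈ vid c (Z (Fin.rev 0) : Set X)
    intro F hF
    have hF' := hZT _ hF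
    exact (hc.mem_closure_iff T F).mp hF' p (hg p hp))
  exact_mod_cast this

/-- Chains of irreducible closed subsets below `Z` have length at most `card σ`, when the ideal
of `Z` contains the kernel of a map to a polynomial ring in `σ` variables. -/
theorem height_le (hc : IsZar c) (Z : TopologicalSpace.IrreducibleCloseds X) {σ : Type} [Fintype σ]
    (g : MvPolynomial ι k →ₐ[k] MvPolynomial σ k)
    (hg : ∀ p, g p = 0 → ∀ F ∈ (Z : Set X), eval (c F) p = 0) :
    Order.height Z ≤ Fintype.card σ := by
  apply Order.height_le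
  intro s hs
  let P : Fin (s.length + 1) → PrimeSpectrum (MvPolynomial ι k) := fun i =>
    ⟨vid c (s.toFun i.rev : Set X), vid_isPrime hc (s.toFun i.rev).isIrreducible⟩
  have hP : StrictMono P := by
    intro i j hij
    have h1 : s.toFun j.rev < s.toFun i.rev := s.strictMono (Fin.rev_lt_rev.mpr hij)
    exact vid_lt hc (s.toFun j.rev).isClosed h1
  have := chain_length_le g P hP (by
    intro p hp
    change p ∈ vid c (s.toFun (Fin.rev 0) : Set X)
    have h0 : s.toFun (Fin.rev 0) = Z := by
      rw [Fin.rev_zero]; exact hs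
    rw [h0]
    exact hg p hp)
  exact_mod_cast this

/-- `T` is the image of the nonvanishing locus of `h` under the polynomial map `q`. -/
structure IsFam {σ : Type} (c : X → ι → k) (T : Set X) (h : MvPolynomial σ k)
    (q : ι → MvPolynomial σ k) : Prop where
  sub : ∀ F ∈ T, ∃ x : σ → k, eval x h ≠ 0 ∧ c F = fun i => eval x (q i)
  sup : ∀ x : σ → k, eval x h ≠ 0 → ∃ F ∈ T, c F = fun i => eval x (q i)

omit [TopologicalSpace X] in
theorem IsFam.vanish_iff [Infinite k] {σ : Type} {T : Set X} {h : MvPolynomial σ k}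
    {q : ι → MvPolynomial σ k} (hT : IsFam c T h q) (h0 : h ≠ 0) (p : MvPolynomial ι k) :
    (∀ F ∈ T, eval (c F) p = 0) ↔ bind₁ q p = 0 := by
  constructor
  · intro hv
    have : h * bind₁ q p = 0 := by
      apply MvPolynomial.funext
      intro x
      rw [map_mul, map_zero]
      by_cases hx : eval x h = 0
      · rw [hx, zero_mul]
      · obtain ⟨F, hF, hcF⟩ := hT.sup x hx
        rw [eval_bind, ← hcF, hv F hF, mul_zero]
    exact (mul_eq_zero.mp this).resolve_left h0
  · intro hb F hF
    obtain ⟨x, _, hcF⟩ := hT.sub F hF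
    rw [hcF, ← eval_bind, hb, map_zero]

theorem IsFam.isIrreducible [Infinite k] (hc : IsZar c) {σ : Type} {T : Set X}
    {h : MvPolynomial σ k} {q : ι → MvPolynomial σ k} (hT : IsFam c T h q) (h0 : h ≠ 0) :
    IsIrreducible T := by
  constructor
  · have : ∃ x, eval x h ≠ 0 := by
      by_contra hcon
      push Not at hcon
      exact h0 (MvPolynomial.funext (fun x => by rw [hcon x, map_zero]))
    obtain ⟨x, hx⟩ := this
    obtain ⟨F, hF, _⟩ := hT.sup x hx
    exact ⟨F, hF⟩
  · rintro U V hU hV ⟨F, hFT, hFU⟩ ⟨G, hGT, hGV⟩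
    obtain ⟨_, ⟨p, rfl⟩, hFp, hpU⟩ := hc.isTopologicalBasis.exists_subset_of_mem_open hFU hU
    obtain ⟨_, ⟨q', rfl⟩, hGq, hqV⟩ := hc.isTopologicalBasis.exists_subset_of_mem_open hGV hV
    have hp : bind₁ q p ≠ 0 := fun hb => hFp ((hT.vanish_iff h0 p).mpr hb F hFT)
    have hq : bind₁ q q' ≠ 0 := fun hb => hGq ((hT.vanish_iff h0 q').mpr hb G hGT)
    have hpq : bind₁ q (p * q') ≠ 0 := by
      rw [map_mul]; exact mul_ne_zero hp hq
    have : ¬ ∀ H ∈ T, eval (c H) (p * q') = 0 := fun hv => hpq ((hT.vanish_iff h0 _).mp hv)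
    push Not at this
    obtain ⟨H, hHT, hH⟩ := this
    rw [map_mul, mul_ne_zero_iff] at hH
    exact ⟨H, hHT, hpU hH.1, hqV hH.2⟩

theorem IsFam.krullDim_le [Infinite k] (hc : IsZar c) {σ : Type} [Fintype σ] {T : Set X}
    {h : MvPolynomial σ k} {q : ι → MvPolynomial σ k} (hT : IsFam c T h q) (h0 : h ≠ 0) :
    topologicalKrullDim (closure T) ≤ Fintype.card σ := by
  refine topologicalKrullDim_le hc (closure T) (bind₁ q) ?_
  intro p hp F hF
  exact (hc.mem_closure_iff T F).mp hF p ((hT.vanish_iff h0 p).mpr hp)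

theorem IsFam.height_le [Infinite k] (hc : IsZar c) {σ : Type} [Fintype σ] {T : Set X}
    {h : MvPolynomial σ k} {q : ι → MvPolynomial σ k} (hT : IsFam c T h q) (h0 : h ≠ 0)
    (Z : TopologicalSpace.IrreducibleCloseds X) (hZ : (Z : Set X) ⊆ closure T) :
    Order.height Z ≤ Fintype.card σ := by
  refine Zar.height_le hc Z (bind₁ q) ?_
  intro p hp F hF
  exact (hc.mem_closure_iff T F).mp (hZ hF) p ((hT.vanish_iff h0 p).mpr hp)

/-- The closure of an irreducible set. -/
def icl (T : Set X) (hT : IsIrreducible T) : TopologicalSpace.IrreducibleCloseds X where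
  carrier := closure T
  isIrreducible' := hT.closure
  isClosed' := isClosed_closure

theorem coe_icl (T : Set X) (hT : IsIrreducible T) : (icl T hT : Set X) = closure T := rfl

theorem icl_lt (hc : IsZar c) {S T : Set X} (hS : IsIrreducible S) (hT : IsIrreducible T)
    (hST : S ⊆ T) (p : MvPolynomial ι k) (hp : ∀ F ∈ S, eval (c F) p = 0) (G : X) (hG : G ∈ T)
    (hGp : eval (c G) p ≠ 0) : icl S hS < icl T hT := by
  refine lt_of_le_of_ne (closure_mono hST) ?_
  intro heq
  apply hGp
  have : G ∈ closure S := by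
    have h1 : (icl S hS : Set X) = icl T hT := by rw [heq]
    rw [coe_icl, coe_icl] at h1
    rw [h1]
    exact subset_closure hG
  exact (hc.mem_closure_iff S G).mp this p hp

theorem icl_lt2 (hc : IsZar c) {S T : Set X} (hS : IsIrreducible S) (hT : IsIrreducible T)
    (hST : S ⊆ T) (h : ∃ p : MvPolynomial ι k, (∀ F ∈ S, eval (c F) p = 0) ∧
      ∃ G ∈ T, eval (c G) p ≠ 0) : icl S hS < icl T hT := by
  obtain ⟨p, hp, G, hG, hGp⟩ := h
  exact icl_lt hc hS hT hST p hp G hG hGp

end top

end Pool.Agent.Helper819.Zar
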