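import Pool.Agent.Helper819.DynDefs
import Pool.Agent.Helper819.Zar

/-!
The conjugation action in polynomial form and basic topology of the moduli spaces.
-/

open MvPolynomial

namespace Pool.Agent.Helper819.Dyn

open Pool.Agent.Helper819.Zar

noncomputable section

/-- The conjugate of `F` by `A`, scaled so that its coefficients are polynomials in `A`. -/
def act {R : Type} [CommRing R] {N : ℕ} (A : Matrix (Fin (N + 1)) (Fin (N + 1)) R)
    (F : Tuple R N) : Tuple R N :=
  fun i => ∑ j, C (A.adjugate i j) * bind₁ (fun l => ∑ m, C (A l m) * X m) (F j)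

/-- Specialisation of a tuple with polynomial coefficients. -/
def spec {k σ : Type} [Field k] {N : ℕ} (x : σ → k) (F : Tuple (MvPolynomial σ k) N) : Tuple k N :=
  fun i => map (eval x) (F i)

theorem eval_act {R : Type} [CommRing R] {N : ℕ} (A : Matrix (Fin (N + 1)) (Fin (N + 1)) R)
    (F : Tuple R N) (P : Fin (N + 1) → R) (i : Fin (N + 1)) :
    eval P (act A F i) = ∑ j, A.adjugate i j * eval (A.mulVec P) (F j) := by
  unfold act
  rw [map_sum]
  refine Finset.sum_congr rfl fun j _ => ?_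
  rw [map_mul, eval_C, eval_bind]
  have : (fun l => eval P (∑ m, C (A l m) * X m)) = A.mulVec P := by
    funext l
    simp [Matrix.mulVec, dotProduct]
  rw [this]

theorem map_act {R S : Type} [CommRing R] [CommRing S] {N : ℕ} (φ : R →+* S)
    (A : Matrix (Fin (N + 1)) (Fin (N + 1)) R) (F : Tuple R N) (i : Fin (N + 1)) :
    map φ (act A F i) = act (A.map φ) (fun j => map φ (F j)) i := by
  unfold act
  rw [map_sum]
  refine Finset.sum_congr rfl fun j _ => ?_
  rw [map_mul, map_C, map_bind₁]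
  have h1 : (A.map φ).adjugate i j = φ (A.adjugate i j) := by
    have := RingHom.map_adjugate φ A
    rw [RingHom.mapMatrix_apply, RingHom.mapMatrix_apply] at this
    rw [← this]; rfl
  rw [h1]
  congr 2
  congr 1
  funext l
  simp

variable {k : Type} [Field k]

theorem act_act [Infinite k] {N : ℕ} (A B : Matrix (Fin (N + 1)) (Fin (N + 1)) k)
    (F : Tuple k N) : act B (act A F) = act (A * B) F := by
  funext i
  apply MvPolynomial.funext
  intro P
  rw [eval_act, eval_act, Matrix.adjugate_mul_distrib]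
  simp_rw [eval_act, Matrix.mulVec_mulVec, Matrix.mul_apply, Finset.mul_sum, Finset.sum_mul]
  rw [Finset.sum_comm]
  refine Finset.sum_congr rfl fun j _ => ?_
  refine Finset.sum_congr rfl fun l _ => ?_
  ring

theorem act_one {N : ℕ} (F : Tuple k N) : act 1 F = F := by
  funext i
  unfold act
  rw [Finset.sum_eq_single i]
  · have : (fun l => ∑ m, C ((1 : Matrix (Fin (N + 1)) (Fin (N + 1)) k) l m) * X m) =
        (X : Fin (N + 1) → MvPolynomial (Fin (N + 1)) k) := by
      funext l
      rw [Finset.sum_eq_single l]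
      · simp
      · intro b _ hb
        rw [Matrix.one_apply_ne hb.symm]; simp
      · simp
    rw [this, bind₁_X_left]
    simp
  · intro j _ hj
    rw [Matrix.adjugate_one, Matrix.one_apply_ne hj.symm]; simp
  · simp

theorem act_homog {R : Type} [CommRing R] {N d : ℕ} (A : Matrix (Fin (N + 1)) (Fin (N + 1)) R)
    {F : Tuple R N} (hF : ∀ i, (F i).IsHomogeneous d) (i : Fin (N + 1)) :
    (act A F i).IsHomogeneous d := by
  unfold act
  refine IsHomogeneous.sum _ _ _ fun j _ => ?_
  refine IsHomogeneous.C_mul ?_ _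
  have := (hF j).aeval (fun l => ∑ m, C (A l m) * X m) (n := 1) (by
    intro l
    refine IsHomogeneous.sum _ _ _ fun m _ => ?_
    exact isHomogeneous_C_mul_X _ _)
  simpa using this

theorem aeval_map_point {N : ℕ} {K : Type} [Field K] [Algebra k K] (x : Fin (N + 1) → k)
    (F : MvPolynomial (Fin (N + 1)) k) :
    aeval (fun i => algebraMap k K (x i)) F = algebraMap k K (eval x F) := by
  have := aeval_algebraMap_apply (B := K) x F
  rw [← coe_aeval_eq_eval]
  exact this

theorem isEnd_iff [IsAlgClosed k] {N d : ℕ} (F : Tuple k N) :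
    IsEnd d F ↔ (∀ i, (F i).IsHomogeneous d) ∧
      ∀ x : Fin (N + 1) → k, (∀ i, eval x (F i) = 0) → x = 0 := by
  unfold IsEnd
  refine and_congr_right fun _ => ?_
  constructor
  · intro h x hx
    have := h (fun i => algebraMap k _ (x i)) (by
      intro i
      rw [aeval_map_point, hx i, map_zero])
    funext i
    have h3 := congrFun this i
    exact (map_eq_zero (algebraMap k (AlgebraicClosure k))).mp h3
  · intro h x hx
    have hsurj := IsAlgClosed.algebraMap_bijective_of_isIntegral (k := k) (K := AlgebraicClosure k)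
    choose y hy using fun i => hsurj.2 (x i)
    have hxy : x = fun i => algebraMap k _ (y i) := funext fun i => (hy i).symm
    have : y = 0 := by
      apply h
      intro i
      have h2 := hx i
      rw [hxy] at h2
      rw [aeval_map_point] at h2
      exact (map_eq_zero (algebraMap k (AlgebraicClosure k))).mp h2
    rw [hxy, this]
    funext i
    simp

theorem act_isEnd [IsAlgClosed k] {N d : ℕ} (A : Matrix (Fin (N + 1)) (Fin (N + 1)) k)
    (hA : A.det ≠ 0) {F : Tuple k N} (hF : IsEnd d F) : IsEnd d (act A F) := by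
  rw [isEnd_iff] at hF ⊢
  refine ⟨act_homog A hF.1, fun x hx => ?_⟩
  have h1 : A.adjugate.mulVec (fun j => eval (A.mulVec x) (F j)) = 0 := by
    funext i
    have := hx i
    rw [eval_act] at this
    simpa [Matrix.mulVec, dotProduct] using this
  have h2 : (fun j => eval (A.mulVec x) (F j)) = 0 := by
    have h3 : A.mulVec (A.adjugate.mulVec (fun j => eval (A.mulVec x) (F j))) = 0 := by
      rw [h1, Matrix.mulVec_zero]
    rw [Matrix.mulVec_mulVec, Matrix.mul_adjugate, Matrix.smul_mulVec, Matrix.one_mulVec] at h3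
    exact (smul_eq_zero.mp h3).resolve_left hA
  have h3 := hF.2 _ (fun i => congrFun h2 i)
  have h4 : A.adjugate.mulVec (A.mulVec x) = 0 := by rw [h3, Matrix.mulVec_zero]
  rw [Matrix.mulVec_mulVec, Matrix.adjugate_mul, Matrix.smul_mulVec, Matrix.one_mulVec] at h4
  exact (smul_eq_zero.mp h4).resolve_left hA

/-- The action on `EndTuple`. -/
def actE [IsAlgClosed k] {N d : ℕ} (A : Matrix (Fin (N + 1)) (Fin (N + 1)) k)
    (hA : A.det ≠ 0) (F : EndTuple k N d) : EndTuple k N d :=
  ⟨act A F.1, act_isEnd A hA F.2⟩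

theorem conj_eval {N : ℕ} (φ : GL (Fin (N + 1)) k) (F : Tuple k N) (P : Fin (N + 1) → k)
    (i : Fin (N + 1)) : eval P (conj φ F i) =
      ∑ j, (↑(φ⁻¹) : Matrix (Fin (N + 1)) (Fin (N + 1)) k) i j *
        eval ((φ : Matrix (Fin (N + 1)) (Fin (N + 1)) k).mulVec P) (F j) := by
  unfold conj
  rw [map_sum]
  refine Finset.sum_congr rfl fun j _ => ?_
  rw [map_mul, eval_C, eval_bind]
  have : (fun l => eval P (∑ m, C ((φ : Matrix (Fin (N + 1)) (Fin (N + 1)) k) l m) * X m)) =
      (φ : Matrix (Fin (N + 1)) (Fin (N + 1)) k).mulVec P := by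
    funext l
    simp [Matrix.mulVec, dotProduct]
  rw [this]

theorem eval_smul_homog {N d : ℕ} {F : MvPolynomial (Fin (N + 1)) k} (hF : F.IsHomogeneous d)
    (a : k) (P : Fin (N + 1) → k) : eval (a • P) F = a ^ d * eval P F := by
  rw [eval_eq', eval_eq', Finset.mul_sum]
  refine Finset.sum_congr rfl fun m hm => ?_
  have hdeg : ∑ i, m i = d := by
    have := hF (mem_support_iff.mp hm)
    rw [← this]
    simp [Finsupp.weight_apply, Finsupp.sum_fintype]
  simp only [Pi.smul_apply, smul_eq_mul, mul_pow]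
  rw [Finset.prod_mul_distrib, Finset.prod_pow_eq_pow_sum, hdeg]
  ring

/-- Orbits are the images of matrices with nonzero determinant. -/
theorem rel_iff [IsAlgClosed k] {N d : ℕ} (hNd : 0 < N + d) (F G : EndTuple k N d) :
    Rel k N d F G ↔ ∃ (A : Matrix (Fin (N + 1)) (Fin (N + 1)) k) (hA : A.det ≠ 0),
      G = actE A hA F := by
  have hinf : Infinite k := IsAlgClosed.instInfinite
  constructor
  · rintro ⟨φ, c, hG⟩
    obtain ⟨M, hM⟩ : ∃ M : Matrix (Fin (N + 1)) (Fin (N + 1)) k, M = ↑φ := ⟨_, rfl⟩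
    have hdet : M.det ≠ 0 := by
      rw [hM]
      have := (Matrix.isUnit_iff_isUnit_det _).mp φ.isUnit
      exact this.ne_zero
    have hinv : (↑(φ⁻¹) : Matrix (Fin (N + 1)) (Fin (N + 1)) k) = M.det⁻¹ • M.adjugate := by
      rw [Matrix.coe_units_inv, Matrix.inv_def, hM, Ring.inverse_eq_inv']
    obtain ⟨a, ha⟩ := IsAlgClosed.exists_pow_nat_eq ((c : k) / M.det) hNd
    have ha0 : a ≠ 0 := by
      rintro rfl
      rw [zero_pow hNd.ne'] at ha
      exact div_ne_zero c.ne_zero hdet ha.symm
    refine ⟨a • M, ?_, ?_⟩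
    · rw [Matrix.det_smul]
      exact mul_ne_zero (pow_ne_zero _ ha0) hdet
    · apply Subtype.ext
      rw [hG]
      funext i
      apply MvPolynomial.funext
      intro P
      change _ = eval P (act (a • M) F.1 i)
      rw [eval_act, map_mul, eval_C, conj_eval, hinv, Finset.mul_sum]
      refine Finset.sum_congr rfl fun j _ => ?_
      rw [Matrix.adjugate_smul, Matrix.smul_mulVec, eval_smul_homog (F.2.1 j)]
      simp only [Matrix.smul_apply, smul_eq_mul, Fintype.card_fin, ← hM]
      have : (c : k) = a ^ (N + d) * M.det := by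
        rw [ha]; field_simp
      rw [this]
      simp only [Nat.add_sub_cancel]
      field_simp
      ring
  · rintro ⟨A, hA, rfl⟩
    have hu : IsUnit A := (Matrix.isUnit_iff_isUnit_det A).mpr (isUnit_iff_ne_zero.mpr hA)
    refine ⟨hu.unit, Units.mk0 A.det hA, ?_⟩
    funext i
    apply MvPolynomial.funext
    intro P
    change eval P (act A F.1 i) = _
    rw [eval_act, map_mul, eval_C, conj_eval, Finset.mul_sum]
    refine Finset.sum_congr rfl fun j _ => ?_
    have hinv : (↑(hu.unit⁻¹) : Matrix (Fin (N + 1)) (Fin (N + 1)) k) = A.det⁻¹ • A.adjugate := by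
      rw [Matrix.coe_units_inv, Matrix.inv_def, Ring.inverse_eq_inv']
      simp
    rw [hinv]
    simp only [Matrix.smul_apply, smul_eq_mul, Units.val_mk0, IsUnit.unit_spec]
    field_simp

theorem isZar_coords (k : Type) [Field k] (N d : ℕ) :
    IsZar (coords : EndTuple k N d → _ → k) := ⟨rfl⟩

/-- The generic tuple of forms of degree `d`. -/
def gen (k : Type) [Field k] (N d : ℕ) :
    Tuple (MvPolynomial (Fin (N + 1) × (Fin (N + 1) →₀ ℕ)) k) N :=
  fun i => ∑ m ∈ Finset.finsuppAntidiag Finset.univ d, monomial m (X (i, m))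

theorem spec_gen {N d : ℕ} (F : EndTuple k N d) : spec (coords F) (gen k N d) = F.1 := by
  funext i
  unfold spec gen
  rw [map_sum]
  simp only [map_monomial, eval_X]
  ext m
  rw [coeff_sum]
  simp only [coeff_monomial]
  rw [Finset.sum_ite_eq']
  split_ifs with h
  · rfl
  · symm
    apply (F.2.1 i).coeff_eq_zero
    intro hm
    apply h
    rw [Finset.mem_finsuppAntidiag]
    refine ⟨?_, Finset.subset_univ _⟩
    rw [← hm, Finsupp.degree_eq_sum]

theorem continuous_actE [IsAlgClosed k] {N d : ℕ} (A : Matrix (Fin (N + 1)) (Fin (N + 1)) k)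
    (hA : A.det ≠ 0) : Continuous (actE (d := d) A hA) := by
  refine (isZar_coords k N d).continuous (isZar_coords k N d) _
    (fun p => coeff p.2 (act (A.map C) (gen k N d) p.1)) ?_
  intro F p
  rw [← coeff_map, map_act]
  have h1 : (A.map (C : k →+* MvPolynomial (Fin (N + 1) × (Fin (N + 1) →₀ ℕ)) k)).map
      (eval (coords F)) = A := by
    ext i j; simp
  rw [h1]
  have h2 : (fun j => map (eval (coords F)) (gen k N d j)) = F.1 := spec_gen F
  rw [h2]
  rfl

theorem actE_actE [IsAlgClosed k] {N d : ℕ} (A B : Matrix (Fin (N + 1)) (Fin (N + 1)) k)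
    (hA : A.det ≠ 0) (hB : B.det ≠ 0) (F : EndTuple k N d) :
    actE B hB (actE A hA F) = actE (A * B) (by rw [Matrix.det_mul]; exact mul_ne_zero hA hB) F := by
  have hinf : Infinite k := IsAlgClosed.instInfinite
  exact Subtype.ext (act_act A B F.1)

/-- `IsFam` criterion for tuples. -/
theorem isFam_spec {N d : ℕ} {σ : Type} (h : MvPolynomial σ k) (G : Tuple (MvPolynomial σ k) N)
    (hG : ∀ x : σ → k, eval x h ≠ 0 → IsEnd d (spec x G)) :
    IsFam (coords : EndTuple k N d → _ → k)
      {F | ∃ x : σ → k, eval x h ≠ 0 ∧ F.1 = spec x G} h (fun p => coeff p.2 (G p.1)) where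
  sub := by
    rintro F ⟨x, hx, hF⟩
    refine ⟨x, hx, ?_⟩
    funext p
    unfold coords
    rw [hF]
    exact coeff_map _ _ _
  sup := by
    intro x hx
    refine ⟨⟨spec x G, hG x hx⟩, ⟨x, hx, rfl⟩, ?_⟩
    funext p
    exact coeff_map _ _ _

/-- The generic matrix specialises to any matrix. -/
theorem spec_act {N : ℕ} {σ : Type} (x : σ → k)
    (A : Matrix (Fin (N + 1)) (Fin (N + 1)) (MvPolynomial σ k)) (G : Tuple (MvPolynomial σ k) N) :
    spec x (act A G) = act (A.map (eval x)) (spec x G) := by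
  funext i
  exact map_act _ _ _ _

/-- The equivalence relation. -/
theorem rel_equiv [IsAlgClosed k] {N d : ℕ} (hNd : 0 < N + d) :
    Equivalence (Rel k N d) where
  refl F := by
    rw [rel_iff hNd]
    exact ⟨1, by simp, Subtype.ext (act_one F.1).symm⟩
  symm := by
    intro F G h
    rw [rel_iff hNd] at h ⊢
    obtain ⟨A, hA, rfl⟩ := h
    have hinv : A.det ≠ 0 := hA
    have hu : IsUnit A := (Matrix.isUnit_iff_isUnit_det A).mpr (isUnit_iff_ne_zero.mpr hA)
    refine ⟨A⁻¹, ?_, ?_⟩
    · rw [Matrix.det_nonsing_inv, Ring.inverse_eq_inv']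
      exact inv_ne_zero hA
    · rw [actE_actE]
      apply Subtype.ext
      change F.1 = act (A * A⁻¹) F.1
      rw [Matrix.mul_nonsing_inv _ (isUnit_iff_ne_zero.mpr hA), act_one]
  trans := by
    intro F G H h1 h2
    rw [rel_iff hNd] at h1 h2 ⊢
    obtain ⟨A, hA, rfl⟩ := h1
    obtain ⟨B, hB, rfl⟩ := h2
    exact ⟨A * B, _, actE_actE A B hA hB F⟩

theorem cls_eq_iff [IsAlgClosed k] {N d : ℕ} (hNd : 0 < N + d) (F G : EndTuple k N d) :
    cls F = cls G ↔ ∃ (A : Matrix (Fin (N + 1)) (Fin (N + 1)) k) (hA : A.det ≠ 0),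
      G = actE A hA F := by
  rw [← rel_iff hNd]
  exact Quot.eq.trans ((rel_equiv hNd).eqvGen_iff)

theorem continuous_cls {N d : ℕ} : Continuous (cls : EndTuple k N d → Moduli k N d) :=
  continuous_quot_mk

theorem cls_surjective {N d : ℕ} : Function.Surjective (cls : EndTuple k N d → Moduli k N d) :=
  Quot.mk_surjective

theorem isOpen_iff_cls {N d : ℕ} (U : Set (Moduli k N d)) : IsOpen U ↔ IsOpen (cls ⁻¹' U) :=
  Iff.rfl

theorem isClosed_iff_cls {N d : ℕ} (U : Set (Moduli k N d)) :
    IsClosed U ↔ IsClosed (cls ⁻¹' U) := by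
  rw [← isOpen_compl_iff, ← isOpen_compl_iff, isOpen_iff_cls, Set.preimage_compl]

theorem isOpenMap_cls [IsAlgClosed k] {N d : ℕ} (hNd : 0 < N + d) :
    IsOpenMap (cls : EndTuple k N d → Moduli k N d) := by
  intro U hU
  rw [isOpen_iff_cls]
  have : (cls : EndTuple k N d → Moduli k N d) ⁻¹' (cls '' U) =
      ⋃ (A : Matrix (Fin (N + 1)) (Fin (N + 1)) k) (hA : A.det ≠ 0), actE A hA ⁻¹' U := by
    ext F
    simp only [Set.mem_preimage, Set.mem_image, Set.mem_iUnion]
    constructor
    · rintro ⟨G, hG, hGF⟩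
      obtain ⟨A, hA, rfl⟩ := (cls_eq_iff hNd F G).mp hGF.symm
      exact ⟨A, hA, hG⟩
    · rintro ⟨A, hA, h⟩
      exact ⟨_, h, ((cls_eq_iff hNd F _).mpr ⟨A, hA, rfl⟩).symm⟩
  rw [this]
  exact isOpen_iUnion fun A => isOpen_iUnion fun hA => hU.preimage (continuous_actE A hA)

/-- Orbits are irreducible. -/
theorem fiber_irred [IsAlgClosed k] {N d : ℕ} (hNd : 0 < N + d) (m : Moduli k N d) :
    IsIrreducible ((cls : EndTuple k N d → Moduli k N d) ⁻¹' {m}) := by
  have hinf : Infinite k := IsAlgClosed.instInfinite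
  obtain ⟨F, rfl⟩ := cls_surjective m
  have hspec : ∀ x : (Fin (N + 1) × Fin (N + 1)) → k,
      spec x (act (Matrix.mvPolynomialX (Fin (N + 1)) (Fin (N + 1)) k)
        (fun i => map (C : k →+* MvPolynomial (Fin (N + 1) × Fin (N + 1)) k) (F.1 i))) =
      act (Matrix.of fun i j => x (i, j)) F.1 := by
    intro x
    rw [spec_act]
    have h1 : (Matrix.mvPolynomialX (Fin (N + 1)) (Fin (N + 1)) k).map (eval x) =
        Matrix.of fun i j => x (i, j) := by
      ext i j
      simp [Matrix.mvPolynomialX]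
    have h2 : spec x (fun i => map (C : k →+* MvPolynomial (Fin (N + 1) × Fin (N + 1)) k)
        (F.1 i)) = F.1 := by
      funext i
      unfold spec
      rw [map_map]
      have : (eval x).comp (C : k →+* MvPolynomial (Fin (N + 1) × Fin (N + 1)) k) =
          RingHom.id k := by
        ext a; simp
      rw [this, map_id]
    rw [h1, h2]
  have hdet : ∀ x : (Fin (N + 1) × Fin (N + 1)) → k,
      eval x (Matrix.mvPolynomialX (Fin (N + 1)) (Fin (N + 1)) k).det =
        (Matrix.of fun i j => x (i, j)).det := by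
    intro x
    rw [RingHom.map_det]
    congr 1
    ext i j
    simp [Matrix.mvPolynomialX]
  have hfam := isFam_spec (k := k) (d := d)
    (Matrix.mvPolynomialX (Fin (N + 1)) (Fin (N + 1)) k).det
    (act (Matrix.mvPolynomialX (Fin (N + 1)) (Fin (N + 1)) k)
        (fun i => map (C : k →+* MvPolynomial (Fin (N + 1) × Fin (N + 1)) k) (F.1 i))) (by
      intro x hx
      rw [hspec]
      rw [hdet] at hx
      exact act_isEnd _ hx F.2)
  have := hfam.isIrreducible (isZar_coords k N d) (Matrix.det_mvPolynomialX_ne_zero _ _)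
  convert this using 1
  ext G
  constructor
  · intro hG
    obtain ⟨A, hA, rfl⟩ := (cls_eq_iff hNd F G).mp (Eq.symm hG)
    refine ⟨fun p => A p.1 p.2, ?_, ?_⟩
    · rw [hdet]; exact hA
    · rw [hspec]; rfl
  · rintro ⟨x, hx, hG⟩
    refine Eq.symm ((cls_eq_iff hNd F G).mpr ⟨Matrix.of fun i j => x (i, j), ?_, ?_⟩)
    · rw [← hdet]; exact hx
    · apply Subtype.ext
      rw [hG, hspec]; rfl

/-- Preimages of irreducible sets are irreducible. -/
theorem preimage_irred [IsAlgClosed k] {N d : ℕ} (hNd : 0 < N + d) {Z : Set (Moduli k N d)}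
    (hZ : IsIrreducible Z) : IsIrreducible ((cls : EndTuple k N d → Moduli k N d) ⁻¹' Z) := by
  constructor
  · obtain ⟨m, hm⟩ := hZ.nonempty
    obtain ⟨F, rfl⟩ := cls_surjective m
    exact ⟨F, hm⟩
  · rintro U V hU hV ⟨F, hFZ, hFU⟩ ⟨G, hGZ, hGV⟩
    obtain ⟨m, hmZ, ⟨F', hF'U, hF'⟩, ⟨G', hG'V, hG'⟩⟩ := hZ.isPreirreducible _ _
      (isOpenMap_cls hNd U hU) (isOpenMap_cls hNd V hV) ⟨_, hFZ, F, hFU, rfl⟩ ⟨_, hGZ, G, hGV, rfl⟩
    obtain ⟨H, hH, hHU, hHV⟩ := (fiber_irred hNd m).isPreirreducible U V hU hV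
      ⟨F', hF', hF'U⟩ ⟨G', hG', hG'V⟩
    refine ⟨H, ?_, hHU, hHV⟩
    change cls H ∈ Z
    rw [show cls H = m from hH]
    exact hmZ

end

end Pool.Agent.Helper819.Dyn
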