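import Mathlib

/-!
The apolar pairing on polynomials and the Reynolds functional of the general linear group.
-/

open MvPolynomial

namespace Pool.Agent.Helper819.Apolar

noncomputable section

variable {σ : Type} {k : Type} [Field k]

/-- factorial of an exponent -/
def mfact (m : σ →₀ ℕ) : ℕ := m.prod fun _ e => e.factorial

theorem mfact_ne_zero (m : σ →₀ ℕ) : mfact m ≠ 0 := by
  unfold mfact Finsupp.prod
  exact Finset.prod_ne_zero_iff.mpr fun i _ => Nat.factorial_ne_zero _

theorem mfact_add_single (m : σ →₀ ℕ) (i : σ) :
    mfact (m + Finsupp.single i 1) = (m i + 1) * mfact m := by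
  classical
  unfold mfact
  have h1 : ∀ m : σ →₀ ℕ, m.prod (fun _ e => e.factorial) =
      ∏ j ∈ insert i m.support, (m j).factorial := by
    intro m
    rw [Finsupp.prod]
    by_cases h : i ∈ m.support
    · rw [Finset.insert_eq_of_mem h]
    · rw [Finset.prod_insert h, Finsupp.notMem_support_iff.mp h]
      simp
  rw [h1, h1 m]
  have hs : insert i (m + Finsupp.single i 1).support = insert i m.support := by
    ext j
    simp only [Finset.mem_insert, Finsupp.mem_support_iff, Finsupp.add_apply,
      Finsupp.single_apply]
    by_cases hj : i = j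
    · simp [hj]
    · simp [hj]
  rw [hs, ← Finset.mul_prod_erase _ _ (Finset.mem_insert_self i m.support),
    ← Finset.mul_prod_erase (insert i m.support) (fun j => (m j).factorial)
      (Finset.mem_insert_self i m.support), ← mul_assoc]
  congr 1
  · simp [Nat.factorial_succ]
  · refine Finset.prod_congr rfl fun j hj => ?_
    have : i ≠ j := (Finset.ne_of_mem_erase hj).symm
    simp [this]

/-- The apolar pairing. -/
def pr (f g : MvPolynomial σ k) : k :=
  ∑ m ∈ f.support, (mfact m : k) * coeff m f * coeff m g

theorem pr_eq_of_subset {f g : MvPolynomial σ k} {s : Finset (σ →₀ ℕ)} (hs : f.support ⊆ s) :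
    pr f g = ∑ m ∈ s, (mfact m : k) * coeff m f * coeff m g := by
  unfold pr
  refine Finset.sum_subset hs fun m _ hm => ?_
  rw [notMem_support_iff.mp hm]
  simp

theorem pr_comm (f g : MvPolynomial σ k) : pr f g = pr g f := by
  classical
  rw [pr_eq_of_subset (Finset.subset_union_left : f.support ⊆ f.support ∪ g.support),
    pr_eq_of_subset (Finset.subset_union_right : g.support ⊆ f.support ∪ g.support)]
  exact Finset.sum_congr rfl fun m _ => by ring

theorem pr_add_right (f g h : MvPolynomial σ k) : pr f (g + h) = pr f g + pr f h := by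
  unfold pr
  rw [← Finset.sum_add_distrib]
  exact Finset.sum_congr rfl fun m _ => by rw [coeff_add]; ring

theorem pr_smul_right (f g : MvPolynomial σ k) (r : k) : pr f (C r * g) = r * pr f g := by
  unfold pr
  rw [Finset.mul_sum]
  exact Finset.sum_congr rfl fun m _ => by rw [coeff_C_mul]; ring

theorem pr_add_left (f g h : MvPolynomial σ k) : pr (f + g) h = pr f h + pr g h := by
  rw [pr_comm, pr_add_right, pr_comm h f, pr_comm h g]

theorem pr_smul_left (f g : MvPolynomial σ k) (r : k) : pr (C r * f) g = r * pr f g := by
  rw [pr_comm, pr_smul_right, pr_comm]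

theorem pr_zero_right (f : MvPolynomial σ k) : pr f 0 = 0 := by
  unfold pr; simp

theorem pr_zero_left (f : MvPolynomial σ k) : pr 0 f = 0 := by
  unfold pr; simp

theorem pr_sum_right {ι : Type} (s : Finset ι) (f : MvPolynomial σ k)
    (g : ι → MvPolynomial σ k) : pr f (∑ i ∈ s, g i) = ∑ i ∈ s, pr f (g i) := by
  classical
  induction s using Finset.induction_on with
  | empty => simp [pr_zero_right]
  | insert a s ha ih => rw [Finset.sum_insert ha, Finset.sum_insert ha, pr_add_right, ih]

theorem pr_sum_left {ι : Type} (s : Finset ι) (f : MvPolynomial σ k)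
    (g : ι → MvPolynomial σ k) : pr (∑ i ∈ s, g i) f = ∑ i ∈ s, pr (g i) f := by
  rw [pr_comm, pr_sum_right]
  exact Finset.sum_congr rfl fun i _ => pr_comm _ _

theorem pr_monomial (m : σ →₀ ℕ) (a : k) (g : MvPolynomial σ k) :
    pr (monomial m a) g = (mfact m : k) * a * coeff m g := by
  classical
  rw [pr_eq_of_subset (support_monomial_subset (s := m) (a := a))]
  simp

theorem pr_X_mul (i : σ) (f g : MvPolynomial σ k) : pr (X i * f) g = pr f (pderiv i g) := by
  induction f using MvPolynomial.induction_on' with
  | monomial m a =>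
    have h1 : (X i * monomial m a : MvPolynomial σ k) = monomial (m + Finsupp.single i 1) a := by
      rw [add_comm, ← one_mul a, ← monomial_mul, one_mul]; rfl
    rw [h1, pr_monomial, pr_monomial, mfact_add_single]
    have h2 : coeff m (pderiv i g) = (m i + 1 : k) * coeff (m + Finsupp.single i 1) g := by
      rw [coeff_pderiv]
      ring
    rw [h2]
    push_cast
    ring
  | add p q hp hq => rw [mul_add, pr_add_left, pr_add_left, hp, hq]

section sub

variable [Fintype σ] [DecidableEq σ]

/-- linear substitution -/
def lsub (B : Matrix σ σ k) : MvPolynomial σ k →ₐ[k] MvPolynomial σ k :=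
  bind₁ (fun i => ∑ j, C (B i j) * X j)

theorem pderiv_lsub (B : Matrix σ σ k) (i : σ) (g : MvPolynomial σ k) :
    pderiv i (lsub B g) = ∑ j, C (B j i) * lsub B (pderiv j g) := by
  induction g using MvPolynomial.induction_on with
  | C a => simp [lsub]
  | add p q hp hq =>
    simp only [map_add, hp, hq, mul_add, Finset.sum_add_distrib]
  | mul_X p l hp =>
    rw [map_mul, Derivation.leibniz, hp]
    simp only [Derivation.leibniz, map_add, smul_eq_mul, map_mul]
    have h1 : pderiv i (lsub B (X l)) = C (B l i) := by
      unfold lsub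
      rw [bind₁_X_right, map_sum]
      simp only [pderiv_C_mul]
      rw [Finset.sum_eq_single i]
      · simp
      · intro j _ hj
        rw [pderiv_X_of_ne hj, mul_zero]
      · simp
    rw [h1]
    simp only [mul_add, Finset.sum_add_distrib]
    congr 1
    · rw [Finset.sum_eq_single l]
      · rw [pderiv_X_self, map_one]; ring
      · intro j _ hj
        rw [pderiv_X_of_ne hj.symm]; simp
      · simp
    · rw [Finset.mul_sum]
      exact Finset.sum_congr rfl fun j _ => by ring

theorem pr_lsub (B : Matrix σ σ k) (f g : MvPolynomial σ k) :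
    pr (lsub B.transpose f) g = pr f (lsub B g) := by
  induction f using MvPolynomial.induction_on generalizing g with
  | C a =>
    have h1 : lsub B.transpose (C a : MvPolynomial σ k) = C a := by simp [lsub]
    rw [h1]
    have h2 : (C a : MvPolynomial σ k) = monomial 0 a := rfl
    rw [h2, pr_monomial, pr_monomial]
    congr 1
    have h3 : ∀ p : MvPolynomial σ k, coeff 0 p = eval 0 p := by
      intro p
      rw [eval_zero]
      rfl
    rw [h3, h3]
    unfold lsub
    have h4 : eval (0 : σ → k) (bind₁ (fun i => ∑ j, C (B i j) * X j) g) =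
        eval (fun i => eval (0 : σ → k) (∑ j, C (B i j) * X j)) g :=
      eval₂Hom_bind₁ (RingHom.id k) _ _ _
    rw [h4]
    congr 1
    congr 1
    funext i
    simp
  | add p q hp hq => rw [map_add, pr_add_left, pr_add_left, hp, hq]
  | mul_X p i hp =>
    rw [map_mul, mul_comm p, pr_X_mul, pderiv_lsub, pr_sum_right]
    have h1 : lsub B.transpose (X i : MvPolynomial σ k) = ∑ j, C (B j i) * X j := by
      unfold lsub
      rw [bind₁_X_right]
      rfl
    rw [h1, Finset.mul_sum, pr_sum_left]
    refine Finset.sum_congr rfl fun j _ => ?_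
    have h2 : lsub B.transpose p * (C (B j i) * X j) = C (B j i) * (X j * lsub B.transpose p) := by
      ring
    rw [h2, pr_smul_left, pr_X_mul, hp, pr_smul_right]

end sub

theorem pr_ext [CharZero k] {f f' : MvPolynomial σ k} (h : ∀ g, pr f g = pr f' g) : f = f' := by
  ext m
  have h1 := h (monomial m 1)
  rw [pr_comm, pr_comm f', pr_monomial, pr_monomial] at h1
  exact mul_left_cancel₀ (by simpa using mfact_ne_zero m) h1

end

end Pool.Agent.Helper819.Apolar
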