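import Pool.Agent.Helper819.Val

/-!
Orbits are closed.
-/

open MvPolynomial

namespace Pool.Agent.Helper819.Dyn

open Pool.Agent.Helper819.Apolar

noncomputable section

set_option linter.unusedSectionVars false

theorem exists_val {k L ι : Type} [Field k] [Field L] [Algebra k L]
    (φ : MvPolynomial ι k →ₐ[k] L) (c1 : ι → k) (h : ∀ P, φ P = 0 → eval c1 P = 0) :
    ∃ O : ValuationSubring L, (∀ P, φ P ∈ O) ∧
      ∀ P, eval c1 P = 0 → O.valuation (φ P) < 1 := by
  let A : Subring L := φ.range.toSubring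
  let I : Ideal A :=
    { carrier := {a | ∃ P, eval c1 P = 0 ∧ φ P = a.1}
      add_mem' := by
        rintro a b ⟨P, hP, ha⟩ ⟨Q, hQ, hb⟩
        exact ⟨P + Q, by rw [map_add, hP, hQ, add_zero], by rw [map_add, ha, hb]; rfl⟩
      zero_mem' := ⟨0, by simp, by simp⟩
      smul_mem' := by
        rintro ⟨b, Q, hb⟩ a ⟨P, hP, ha⟩
        refine ⟨Q * P, by rw [map_mul, hP, mul_zero], ?_⟩
        rw [map_mul, ha]
        change _ = b * a.1
        rw [← hb]; rfl }
  have hI : I ≠ ⊤ := by
    intro hT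
    have h1 : (1 : A) ∈ I := by rw [hT]; trivial
    obtain ⟨P, hP, hP1⟩ := h1
    have h2 : φ (P - 1) = 0 := by
      rw [map_sub, map_one, hP1]; exact sub_self _
    have h3 := h _ h2
    rw [map_sub, hP, map_one, zero_sub] at h3
    exact one_ne_zero (neg_eq_zero.mp h3)
  obtain ⟨O, hO1, hO2⟩ := Ideal.image_subset_nonunits_valuationSubring I hI
  refine ⟨O, fun P => hO1 ⟨P, rfl⟩, fun P hP => ?_⟩
  have h1 : φ P ∈ A.subtype '' I := ⟨⟨φ P, P, rfl⟩, ⟨P, hP, rfl⟩, rfl⟩
  exact O.mem_nonunits_iff.mp (hO2 h1)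

theorem exists_mat {k L σ : Type} [Field k] [IsAlgClosed k] [Field L] [Algebra k L] [Finite σ]
    (O : ValuationSubring L) (hk : ∀ a : k, algebraMap k L a ∈ O) (M : σ → L)
    (hM : ∀ p, M p ∈ O) (q : MvPolynomial σ k) (hq : O.valuation (aeval M q) = 1) :
    ∃ y : σ → k, (∀ p : MvPolynomial σ k, O.valuation (aeval M p) < 1 → eval y p = 0) ∧
      eval y q ≠ 0 := by
  let r : k →+* O := (algebraMap k L).codRestrict O.toSubring hk
  let M' : σ → O := fun p => ⟨M p, hM p⟩
  let _ : Algebra k (IsLocalRing.ResidueField O) := ((IsLocalRing.residue O).comp r).toAlgebra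
  let ψ : MvPolynomial σ k →+* O := eval₂Hom r M'
  have h1 : ∀ p, ((ψ p : O) : L) = aeval M p := by
    intro p
    change O.subtype (ψ p) = _
    rw [aeval_def]
    exact hom_eval₂ p r O.subtype M'
  have h2 : ∀ p, IsLocalRing.residue O (ψ p) =
      aeval (fun i => IsLocalRing.residue O (M' i)) p := by
    intro p
    rw [aeval_def]
    exact hom_eval₂ p r (IsLocalRing.residue O) M'
  obtain ⟨y, hy1, hy2⟩ := exists_point (fun i => IsLocalRing.residue O (M' i)) q (by
    rw [← h2, Ne, IsLocalRing.residue_eq_zero_iff, O.valuation_lt_one_iff, h1, hq]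
    exact lt_irrefl _)
  refine ⟨y, fun p hp => hy1 p ?_, hy2⟩
  rw [← h2, IsLocalRing.residue_eq_zero_iff, O.valuation_lt_one_iff, h1]
  exact hp

section

variable {k : Type} [Field k] [IsAlgClosed k] {N d : ℕ}

theorem good_const {L : Type} [Field L] [Algebra k L] (O : ValuationSubring L)
    (hk : ∀ a : k, algebraMap k L a ∈ O) {f : Ix N d → k} (hf : NZ (tup f)) :
    Good O (fun p => (⟨algebraMap k L (f p), hk _⟩ : O)) := by
  let r : k →+* O := (algebraMap k L).codRestrict O.toSubring hk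
  let _ : Algebra k (IsLocalRing.ResidueField O) := ((IsLocalRing.residue O).comp r).toAlgebra
  have h1 := NZ_map (K := IsLocalRing.ResidueField O) hf
  unfold Good
  convert h1 using 1
  funext i
  rw [map_tup]
  rfl

theorem exists_max_entry {L Γ : Type} [Field L] [LinearOrderedCommGroupWithZero Γ]
    (v : Valuation L Γ) (A : Matrix (Fin (N + 1)) (Fin (N + 1)) L) :
    ∃ i0 j0, ∀ i j, v (A i j) ≤ v (A i0 j0) := by
  obtain ⟨p, _, hp⟩ := Finset.exists_max_image (Finset.univ : Finset (Fin (N + 1) × Fin (N + 1)))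
    (fun p => v (A p.1 p.2)) ⟨(0, 0), Finset.mem_univ _⟩
  exact ⟨p.1, p.2, fun i j => hp (i, j) (Finset.mem_univ _)⟩

theorem max_ne_zero {L Γ : Type} [Field L] [LinearOrderedCommGroupWithZero Γ]
    (v : Valuation L Γ) {A : Matrix (Fin (N + 1)) (Fin (N + 1)) L} (hA : A.det ≠ 0)
    {i0 j0 : Fin (N + 1)} (h : ∀ i j, v (A i j) ≤ v (A i0 j0)) : A i0 j0 ≠ 0 := by
  intro h0
  apply hA
  have h1 : A = 0 := by
    ext i j
    have := h i j
    rw [h0, map_zero, le_zero_iff] at this
    exact (map_eq_zero _).mp this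
  rw [h1]
  exact Matrix.det_zero

theorem aeval_orb_L {L : Type} [Field L] [Algebra k L] (f : Ix N d → k)
    (M : Matrix (Fin (N + 1)) (Fin (N + 1)) L) (p : Ix N d) :
    aeval (ent M) (orb f p) = actT M (fun p => algebraMap k L (f p)) p := by
  unfold orb
  have h1 := map_actT (aeval (ent M) : KA k N →ₐ[k] L).toRingHom (gm k N)
    (fun p => C (f p)) p
  change aeval (ent M) (actT (gm k N) (fun p => C (f p)) p) = _ at h1
  rw [h1]
  congr 1
  · ext i j
    simp [gm, Matrix.mvPolynomialX, ent]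
  · funext q
    exact algHom_C _ _

theorem aeval_dt_L {L : Type} [Field L] [Algebra k L]
    (M : Matrix (Fin (N + 1)) (Fin (N + 1)) L) :
    aeval (ent M) (dt (N + 1) k) = M.det := by
  unfold dt
  rw [AlgHom.map_det]
  congr 1
  ext i j
  simp [Matrix.mvPolynomialX, ent]

/-- Orbits of the special linear group of nondegenerate vectors are closed. -/
theorem closed_SL (hd : 2 ≤ d) {f : Ix N d → k} (hf : NZ (tup f)) (c1 : Ix N d → k)
    (h : ∀ P : SS k N d, (∀ A : Matrix (Fin (N + 1)) (Fin (N + 1)) k, A.det = 1 →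
      eval (actT A f) P = 0) → eval c1 P = 0) :
    ∃ A : Matrix (Fin (N + 1)) (Fin (N + 1)) k, A.det = 1 ∧ actT A f = c1 := by
  -- a prime ideal
  let S0 : Submonoid (KA k N) := Submonoid.map (aeval (orb f) : SS k N d →ₐ[k] KA k N)
    { carrier := {P : SS k N d | eval c1 P ≠ 0}
      mul_mem' := by
        intro a b ha hb
        change eval c1 (a * b) ≠ 0
        rw [map_mul]
        exact mul_ne_zero ha hb
      one_mem' := by
        change eval c1 1 ≠ 0
        rw [map_one]
        exact one_ne_zero }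
  have hdisj : Disjoint ((Ideal.span {dt (N + 1) k - 1} : Ideal (KA k N)) : Set (KA k N))
      (S0 : Set (KA k N)) := by
    rw [Set.disjoint_left]
    rintro x hx ⟨P, hP, rfl⟩
    apply hP
    apply h
    intro A hA
    obtain ⟨q, hq⟩ := Ideal.mem_span_singleton.mp hx
    have h1 := congrArg (eval (ent A)) hq
    have h2 : eval (ent A) (aeval (orb f) P) = eval (actT A f) P := eval_aeval_orb A f P
    rw [map_mul, map_sub, eval_dt, map_one, hA, sub_self, zero_mul] at h1
    rw [← h2]
    exact h1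
  obtain ⟨Q, hQ, hQ1, hQ2⟩ := Ideal.exists_le_prime_disjoint _ S0 hdisj
  let L := FractionRing (KA k N ⧸ Q)
  let π : KA k N →ₐ[k] L := (IsScalarTower.toAlgHom k (KA k N ⧸ Q) L).comp (Ideal.Quotient.mkₐ k Q)
  have hπ : ∀ x, π x = 0 ↔ x ∈ Q := by
    intro x
    change algebraMap (KA k N ⧸ Q) L (Ideal.Quotient.mk Q x) = 0 ↔ _
    rw [FaithfulSMul.algebraMap_eq_zero_iff, Ideal.Quotient.eq_zero_iff_mem]
  let M : Matrix (Fin (N + 1)) (Fin (N + 1)) L := Matrix.of fun i j => π (X (i, j))
  have hπM : ∀ x, π x = aeval (ent M) x := by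
    intro x
    have : π = aeval (ent M) := by
      apply algHom_ext
      intro p
      rw [aeval_X]
      rfl
    rw [this]
  have hdet : M.det = 1 := by
    rw [← aeval_dt_L (k := k), ← hπM, ← sub_eq_zero, ← map_one π, ← map_sub, hπ]
    exact hQ1 (Ideal.subset_span rfl)
  obtain ⟨O, hO1, hO2⟩ := exists_val (π.comp (aeval (orb f))) c1 (by
    intro P hP
    by_contra hne
    rw [AlgHom.comp_apply, hπ] at hP
    exact Set.disjoint_left.mp hQ2 hP ⟨P, hne, rfl⟩)
  have hk : ∀ a : k, algebraMap k L a ∈ O := by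
    intro a
    have h1 := hO1 (C a)
    rwa [AlgHom.comp_apply, algHom_C, AlgHom.commutes] at h1
  have hGX : ∀ p, (π.comp (aeval (orb f))) (X p) = actT M (fun p => algebraMap k L (f p)) p := by
    intro p
    rw [AlgHom.comp_apply, aeval_X, hπM, aeval_orb_L]
  obtain ⟨i0, j0, hmax⟩ := exists_max_entry O.valuation M
  have h0 := max_ne_zero O.valuation (by rw [hdet]; exact one_ne_zero) hmax
  have hkey := key_ineq O (good_const O hk hf) hd M (by
    intro p
    have := hO1 (X p)
    rwa [hGX p] at this) i0 j0 hmax h0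
  rw [hdet, map_one, one_mul] at hkey
  have ha : O.valuation (M i0 j0) ≤ 1 := by
    by_contra hcon
    push Not at hcon
    exact absurd hkey (not_le.mpr (one_lt_pow₀ hcon (by omega)))
  obtain ⟨y, hy1, _⟩ := exists_mat O hk (ent M) (fun p => (O.valuation_le_one_iff _).mp
    ((hmax p.1 p.2).trans ha)) (1 : KA k N) (by rw [map_one, map_one])
  obtain ⟨A, rfl⟩ := ent_surj y
  refine ⟨A, ?_, ?_⟩
  · have h1 := hy1 (dt (N + 1) k - 1) (by
      rw [map_sub, aeval_dt_L, hdet, map_one, sub_self, map_zero]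
      exact zero_lt_one)
    rw [map_sub, eval_dt, map_one, sub_eq_zero] at h1
    exact h1
  · funext p
    have h1 := hy1 (orb f p - C (c1 p)) (by
      have h2 := hO2 (X p - C (c1 p)) (by simp)
      rw [map_sub, hGX, algHom_C] at h2
      rw [map_sub, aeval_orb_L, algHom_C]
      exact h2)
    rw [map_sub, eval_orb, eval_C, sub_eq_zero] at h1
    exact h1

end

end

end Pool.Agent.Helper819.Dyn
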