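import Pool.Agent.Helper819.Close

/-!
Orbits are closed, for the general linear group.
-/

open MvPolynomial

namespace Pool.Agent.Helper819.Dyn

open Pool.Agent.Helper819.Apolar

noncomputable section

set_option linter.unusedSectionVars false

variable {k : Type} [Field k] [IsAlgClosed k] {N d : ℕ}

theorem det_le {L Γ : Type} [Field L] [LinearOrderedCommGroupWithZero Γ]
    (v : Valuation L Γ) {A : Matrix (Fin (N + 1)) (Fin (N + 1)) L} {a : Γ}
    (h : ∀ i j, v (A i j) ≤ a) : v A.det ≤ a ^ (N + 1) := by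
  rw [Matrix.det_apply]
  refine v.map_sum_le fun s _ => ?_
  have h1 : v (∏ i, A (s i) i) ≤ a ^ (N + 1) := by
    rw [map_prod]
    calc ∏ i, v (A (s i) i) ≤ ∏ _i : Fin (N + 1), a :=
          Finset.prod_le_prod' fun i _ => h _ _
      _ = a ^ (N + 1) := by rw [Finset.prod_const, Finset.card_univ, Fintype.card_fin]
  rcases Int.units_eq_one_or (Equiv.Perm.sign s) with h2 | h2
  · rw [h2, one_smul]; exact h1
  · rw [h2, Units.neg_smul, one_smul, Valuation.map_neg]; exact h1

theorem closed_GL (hd : 2 ≤ d) {f : Ix N d → k} (hf : NZ (tup f)) (c1 : Ix N d → k)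
    (hc1 : NZ (tup c1))
    (h : ∀ P : SS k N d, (∀ A : Matrix (Fin (N + 1)) (Fin (N + 1)) k, A.det ≠ 0 →
      eval (actT A f) P = 0) → eval c1 P = 0) :
    ∃ A : Matrix (Fin (N + 1)) (Fin (N + 1)) k, A.det ≠ 0 ∧ actT A f = c1 := by
  let L := FractionRing (KA k N)
  let π : KA k N →ₐ[k] L := IsScalarTower.toAlgHom k (KA k N) L
  have hπ : ∀ x, π x = 0 ↔ x = 0 := by
    intro x
    change algebraMap (KA k N) L x = 0 ↔ _
    rw [FaithfulSMul.algebraMap_eq_zero_iff]
  let M : Matrix (Fin (N + 1)) (Fin (N + 1)) L := Matrix.of fun i j => π (X (i, j))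
  have hπM : ∀ x, π x = aeval (ent M) x := by
    intro x
    have : π = aeval (ent M) := by
      apply algHom_ext
      intro p
      rw [aeval_X]
      rfl
    rw [this]
  have hdet : M.det ≠ 0 := by
    rw [← aeval_dt_L (k := k), ← hπM, Ne, hπ]
    exact Matrix.det_mvPolynomialX_ne_zero _ _
  obtain ⟨O, hO1, hO2⟩ := exists_val (π.comp (aeval (orb f))) c1 (by
    intro P hP
    rw [AlgHom.comp_apply, hπ] at hP
    apply h
    intro A _
    rw [← eval_aeval_orb, hP, map_zero])
  have hk : ∀ a : k, algebraMap k L a ∈ O := by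
    intro a
    have h1 := hO1 (C a)
    rwa [AlgHom.comp_apply, algHom_C, AlgHom.commutes] at h1
  let fL : Ix N d → L := fun p => algebraMap k L (f p)
  have hGX : ∀ p, (π.comp (aeval (orb f))) (X p) = actT M fL p := by
    intro p
    rw [AlgHom.comp_apply, aeval_X, hπM, aeval_orb_L]
  have hgO : ∀ p, actT M fL p ∈ O := by
    intro p
    have := hO1 (X p)
    rwa [hGX p] at this
  let g : Ix N d → O := fun p => ⟨actT M fL p, hgO p⟩
  have hgood : Good O g := by
    have h1 := good_const O hk hc1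
    unfold Good at h1 ⊢
    convert h1 using 3
    rename_i p
    rw [← sub_eq_zero, ← map_sub, IsLocalRing.residue_eq_zero_iff, O.valuation_lt_one_iff]
    have h2 := hO2 (X p - C (c1 p)) (by simp)
    rw [map_sub, hGX, algHom_C] at h2
    exact h2
  obtain ⟨i0, j0, hmax⟩ := exists_max_entry O.valuation M
  have h0 := max_ne_zero O.valuation hdet hmax
  have hkey := key_ineq O (good_const O hk hf) hd M hgO i0 j0 hmax h0
  -- the inverse
  let M' : Matrix (Fin (N + 1)) (Fin (N + 1)) L := M⁻¹
  have hMu : IsUnit M.det := isUnit_iff_ne_zero.mpr hdet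
  have hMM' : M * M' = 1 := Matrix.mul_nonsing_inv M hMu
  have hdet' : M'.det * M.det = 1 := by
    rw [mul_comm, ← Matrix.det_mul, hMM', Matrix.det_one]
  have hdet0' : M'.det ≠ 0 := left_ne_zero_of_mul_eq_one hdet'
  obtain ⟨i1, j1, hmax'⟩ := exists_max_entry O.valuation M'
  have h0' := max_ne_zero O.valuation hdet0' hmax'
  have hback : actT M' (fun p => ((g p : O) : L)) = fL := by
    change actT M' (actT M fL) = fL
    rw [actT_actT, hMM', actT_one]
  have hkey' := key_ineq O hgood hd M' (by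
    intro p
    rw [hback]
    exact hk _) i1 j1 hmax' h0'
  set v := O.valuation
  set a := v (M i0 j0)
  set a' := v (M' i1 j1)
  have ha : a ≠ 0 := (Valuation.ne_zero_iff _).mpr h0
  have ha' : a' ≠ 0 := (Valuation.ne_zero_iff _).mpr h0'
  have hvd : v M'.det * v M.det = 1 := by rw [← map_mul, hdet', map_one]
  have hD := det_le v hmax
  have hD' := det_le v hmax'
  -- 1 ≤ a * a'
  have haa : 1 ≤ a * a' := by
    have h1 : v ((M * M') 0 0) ≤ a * a' := by
      rw [Matrix.mul_apply]
      refine v.map_sum_le fun j _ => ?_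
      rw [map_mul]
      exact mul_le_mul' (hmax _ _) (hmax' _ _)
    rw [hMM', Matrix.one_apply_eq, map_one] at h1
    exact h1
  have haa2 : (a * a') ^ (d - 1) ≤ 1 := by
    calc (a * a') ^ (d - 1) = (v M'.det * v M.det) * (a * a') ^ (d - 1) := by rw [hvd, one_mul]
      _ = (v M.det * a ^ (d - 1)) * (v M'.det * a' ^ (d - 1)) := by
          rw [mul_pow, mul_comm (v M'.det), mul_mul_mul_comm]
      _ ≤ 1 * 1 := mul_le_mul' hkey hkey'
      _ = 1 := one_mul 1
  have haa3 : a * a' = 1 := by
    apply le_antisymm _ haa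
    by_contra hcon
    push Not at hcon
    exact absurd haa2 (not_le.mpr (one_lt_pow₀ hcon (by omega)))
  -- v det = a ^ (N+1)
  have hDe : v M.det = a ^ (N + 1) := by
    apply le_antisymm hD
    have h1 : a ^ (N + 1) * (v M'.det * v M.det) ≤ a ^ (N + 1) * (a' ^ (N + 1) * v M.det) :=
      mul_le_mul' le_rfl (mul_le_mul' hD' le_rfl)
    rw [hvd, mul_one, ← mul_assoc, ← mul_pow, haa3, one_pow, one_mul] at h1
    exact h1
  have hle : a ≤ 1 := by
    by_contra hcon
    push Not at hcon
    rw [hDe, ← pow_add] at hkey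
    exact absurd hkey (not_le.mpr (one_lt_pow₀ hcon (by omega)))
  have hle' : a' ≤ 1 := by
    by_contra hcon
    push Not at hcon
    have hDe' : v M'.det = a' ^ (N + 1) := by
      have h1 : v M'.det * a ^ (N + 1) * a' ^ (N + 1) = a' ^ (N + 1) := by
        rw [← hDe, hvd, one_mul]
      rw [mul_assoc, ← mul_pow, haa3, one_pow, mul_one] at h1
      exact h1
    rw [hDe', ← pow_add] at hkey'
    exact absurd hkey' (not_le.mpr (one_lt_pow₀ hcon (by omega)))
  have ha1 : a = 1 := by
    apply le_antisymm hle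
    calc (1 : _) = a * a' := haa3.symm
      _ ≤ a * 1 := mul_le_mul' le_rfl hle'
      _ = a := mul_one a
  obtain ⟨y, hy1, hy2⟩ := exists_mat O hk (ent M) (fun p => (O.valuation_le_one_iff _).mp
    ((hmax p.1 p.2).trans hle)) (dt (N + 1) k : KA k N) (by
      rw [aeval_dt_L]
      change v M.det = 1
      rw [hDe, ha1, one_pow])
  obtain ⟨A, rfl⟩ := ent_surj y
  refine ⟨A, ?_, ?_⟩
  · rwa [eval_dt] at hy2
  · funext p
    have h1 := hy1 (orb f p - C (c1 p)) (by
      have h2 := hO2 (X p - C (c1 p)) (by simp)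
      rw [map_sub, hGX, algHom_C] at h2
      rw [map_sub, aeval_orb_L, algHom_C]
      exact h2)
    rw [map_sub, eval_orb, eval_C, sub_eq_zero] at h1
    exact h1

end

end Pool.Agent.Helper819.Dyn
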