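import Pool.Agent.Helper819.Comb

/-!
The locus of maps with nontrivial automorphisms has codimension at least two.
-/

open MvPolynomial

namespace Pool.Agent.Helper819.Dyn

open Pool.Agent.Helper819.Apolar

noncomputable section

set_option linter.unusedSectionVars false

variable {k : Type} [Field k] {N d : ℕ}

/-- A homomorphism to a polynomial ring in few variables has a large kernel. -/
theorem exists_not_dvd {ι τ : Type} [Fintype ι] [Fintype τ]
    (s : MvPolynomial ι k) (hs0 : s ≠ 0) (hsu : ¬ IsUnit s) (Φ : MvPolynomial ι k →ₐ[k] MvPolynomial τ k)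
    (hcard : Fintype.card τ + 2 ≤ Fintype.card ι) : ∃ b, Φ b = 0 ∧ ¬ s ∣ b := by
  classical
  -- a variable occurring in `s`
  obtain ⟨p0, hp0⟩ : ∃ p0, s.degreeOf p0 ≠ 0 := by
    by_contra hcon
    push Not at hcon
    apply hsu
    have h1 : s.vars = ∅ := by
      rw [Finset.eq_empty_iff_forall_notMem]
      intro i hi
      rw [mem_vars_iff_degreeOf_ne_zero] at hi
      exact hi (hcon i)
    have h2 := vars_eq_empty_iff_eq_C.mp h1
    rw [h2]
    have h3 : coeff 0 s ≠ 0 := by
      intro h
      rw [h, C_0] at h2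
      exact hs0 h2
    exact (IsUnit.mk0 _ h3).map C
  have hdep : ¬ AlgebraicIndependent k (fun q : {q : ι // q ≠ p0} => Φ (X q.1)) := by
    intro hind
    have h1 := hind.lift_cardinalMk_le_trdeg
    rw [MvPolynomial.trdeg_of_isDomain] at h1
    have h2 : Fintype.card {q : ι // q ≠ p0} ≤ Fintype.card τ := by simpa using h1
    rw [Fintype.card_subtype_compl, Fintype.card_subtype_eq] at h2
    omega
  rw [algebraicIndependent_iff] at hdep
  push Not at hdep
  obtain ⟨P, hP, hP0⟩ := hdep
  refine ⟨rename Subtype.val P, ?_, ?_⟩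
  · rw [← hP]
    have h1 : Φ.comp (rename Subtype.val) =
        (aeval (fun q : {q : ι // q ≠ p0} => Φ (X q.1)) : _ →ₐ[k] MvPolynomial τ k) := by
      apply algHom_ext
      intro q
      rw [AlgHom.comp_apply, rename_X, aeval_X]
    rw [← h1]
    rfl
  · rintro ⟨t, ht⟩
    have hb : rename (Subtype.val : {q : ι // q ≠ p0} → ι) P ≠ 0 := by
      intro h
      exact hP0 (rename_injective _ Subtype.val_injective (by rw [h, map_zero]))
    have ht0 : t ≠ 0 := by
      rintro rfl
      rw [mul_zero] at ht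
      exact hb ht
    have h1 := degreeOf_mul_eq (n := p0) hs0 ht0
    rw [← ht] at h1
    have h2 : (rename (Subtype.val : {q : ι // q ≠ p0} → ι) P).degreeOf p0 = 0 := by
      by_contra hne
      rw [← Ne, ← mem_vars_iff_degreeOf_ne_zero] at hne
      have h3 := vars_rename (Subtype.val : {q : ι // q ≠ p0} → ι) P hne
      rw [Finset.mem_image] at h3
      obtain ⟨q, _, hq⟩ := h3
      exact q.2 hq
    omega

/-- block part -/
def blk {R : Type} [CommRing R] (l : Fin (N + 1) → k) [DecidableEq k]
    (h : Matrix (Fin (N + 1)) (Fin (N + 1)) R) : Matrix (Fin (N + 1)) (Fin (N + 1)) R :=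
  Matrix.of fun i j => if l i = l j then h i j else 0

theorem blk_comm (l : Fin (N + 1) → k) [DecidableEq k] (h : Matrix (Fin (N + 1)) (Fin (N + 1)) k) :
    blk l h * Matrix.diagonal l = Matrix.diagonal l * blk l h := by
  ext i j
  rw [Matrix.mul_diagonal, Matrix.diagonal_mul]
  unfold blk
  rw [Matrix.of_apply]
  split_ifs with hij
  · rw [hij, mul_comm]
  · simp

theorem inv_off (l : Fin (N + 1) → k) (z : Matrix (Fin (N + 1)) (Fin (N + 1)) k)
    (hz : IsUnit z.det) (h : z * Matrix.diagonal l = Matrix.diagonal l * z) (i j : Fin (N + 1))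
    (hij : l i ≠ l j) : z⁻¹ i j = 0 := by
  have h1 : Matrix.diagonal l * z⁻¹ = z⁻¹ * Matrix.diagonal l := by
    have h2 : z⁻¹ * (z * Matrix.diagonal l) * z⁻¹ = z⁻¹ * (Matrix.diagonal l * z) * z⁻¹ := by
      rw [h]
    rw [← mul_assoc, Matrix.nonsing_inv_mul _ hz, one_mul, ← mul_assoc, mul_assoc _ z,
      Matrix.mul_nonsing_inv _ hz, mul_one] at h2
    exact h2
  have h2 := congrFun (congrFun h1 i) j
  rw [Matrix.diagonal_mul, Matrix.mul_diagonal] at h2
  have h3 : (l i - l j) * z⁻¹ i j = 0 := by linear_combination h2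
  exact (mul_eq_zero.mp h3).resolve_left (sub_ne_zero.mpr hij)

/-- Coefficient vectors supported on `S`. -/
def Supp (S : Finset (Ix N d)) (c : Ix N d → k) : Prop := ∀ p, p ∉ S → c p = 0

open Classical in
/-- weight one coordinates -/
def goodS (l : Fin (N + 1) → k) : Finset (Ix N d) := Finset.univ.filter (fun p => chi l p = 1)

theorem supp_iff (l : Fin (N + 1) → k) (c : Ix N d → k) :
    Supp (goodS l) c ↔ actT (Matrix.diagonal l) c = c := by
  constructor
  · intro h
    funext p
    rw [actT_diag]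
    by_cases hp : chi l p = 1
    · rw [hp, one_mul]
    · rw [h p (by simp [goodS, hp]), mul_zero]
  · intro h p hp
    have h1 := congrFun h p
    rw [actT_diag] at h1
    have h2 : chi l p ≠ 1 := by
      intro hc
      exact hp (by simp [goodS, hc])
    have h3 : (chi l p - 1) * c p = 0 := by linear_combination h1
    exact (mul_eq_zero.mp h3).resolve_left (sub_ne_zero.mpr h2)

variable [IsAlgClosed k] [CharZero k]

open Classical in
theorem exists_family (hN : 2 ≤ N) (hd : 2 ≤ d) (l : Fin (N + 1) → k) (hl : ∀ i, l i ≠ 0)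
    (hne : ∃ i j, l i ≠ l j) (s : SS k N d) (hs0 : s ≠ 0) (hsu : ¬ IsUnit s) :
    ∃ b : SS k N d, ¬ s ∣ b ∧ ∀ (h : Matrix (Fin (N + 1)) (Fin (N + 1)) k) (c : Ix N d → k),
      Supp (goodS l) c → eval (actT h c) b = 0 := by
  obtain ⟨i0, j0, hij0⟩ := hne
  let τ : Type := {p : Ix N d // chi l p = 1} ⊕ {p : Fin (N + 1) × Fin (N + 1) // l p.1 ≠ l p.2}
  let cg : Ix N d → MvPolynomial τ k := fun p => if h : chi l p = 1 then X (Sum.inl ⟨p, h⟩) else 0
  let Ng : Matrix (Fin (N + 1)) (Fin (N + 1)) (MvPolynomial τ k) := Matrix.of fun i j =>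
    if h : l i ≠ l j then X (Sum.inr ⟨(i, j), h⟩) else 0
  let Φ : SS k N d →ₐ[k] MvPolynomial τ k := aeval (actT (1 + Ng) cg)
  have hcard : Fintype.card τ + 2 ≤ Fintype.card (Ix N d) := by
    rw [Fintype.card_sum, Fintype.card_subtype, Fintype.card_subtype]
    have h1 := count_bad (d := d) hN hd l hl i0 j0 hij0
    have h2 := Finset.card_filter_add_card_filter_not (s := (Finset.univ : Finset (Ix N d)))
      (fun p => chi l p = 1)
    rw [Finset.card_univ] at h2
    have h3 : (Finset.univ.filter (fun p : Ix N d => chi l p ≠ 1)).card =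
      (Finset.univ.filter (fun p : Ix N d => ¬ chi l p = 1)).card := rfl
    omega
  obtain ⟨b, hb, hsb⟩ := exists_not_dvd s hs0 hsu Φ hcard
  refine ⟨b, hsb, ?_⟩
  -- the special form
  have hspec : ∀ (M : Matrix (Fin (N + 1)) (Fin (N + 1)) k) (c : Ix N d → k),
      Supp (goodS l) c → (∀ i j, l i = l j → M i j = 0) → eval (actT (1 + M) c) b = 0 := by
    intro M c hc hM
    let x : τ → k := Sum.elim (fun p => c p.1) (fun p => M p.1.1 p.1.2)
    have h1 : eval x (Φ b) = eval (actT (1 + M) c) b := by
      have h2 : eval x (bind₁ (actT (1 + Ng) cg) b) =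
        eval (fun i => eval x (actT (1 + Ng) cg i)) b := eval_bind' _ _ _
      change eval x (aeval (actT (1 + Ng) cg) b) = _
      rw [aeval_eq_bind₁, h2]
      congr 2
      funext p
      rw [map_actT]
      congr 1
      · ext i j
        rw [Matrix.map_apply, Matrix.add_apply, Matrix.add_apply, map_add]
        congr 1
        · rw [Matrix.one_apply, Matrix.one_apply]
          split_ifs <;> simp
        · change eval x (if h : l i ≠ l j then X (Sum.inr ⟨(i, j), h⟩) else 0) = _
          split_ifs with h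
          · rw [eval_X]; rfl
          · rw [map_zero, hM i j (not_not.mp h)]
      · funext q
        change eval x (if h : chi l q = 1 then X (Sum.inl ⟨q, h⟩) else 0) = _
        split_ifs with h
        · rw [eval_X]; rfl
        · rw [map_zero, hc q (by simp [goodS, h])]
    rw [← h1, hb, map_zero]
  -- matrices with invertible block part
  have hblk : ∀ (h : Matrix (Fin (N + 1)) (Fin (N + 1)) k) (c : Ix N d → k),
      Supp (goodS l) c → (blk l h).det ≠ 0 → eval (actT h c) b = 0 := by
    intro h c hc hz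
    set z := blk l h with hzdef
    have hzu : IsUnit z.det := isUnit_iff_ne_zero.mpr hz
    have hzc := blk_comm l h
    rw [← hzdef] at hzc
    have h1 : Supp (goodS l) (actT z c) := by
      rw [supp_iff] at hc ⊢
      rw [actT_actT, hzc, ← actT_actT, hc]
    have h2 : actT h c = actT (1 + z⁻¹ * (h - z)) (actT z c) := by
      rw [actT_actT]
      congr 1
      rw [mul_add, mul_one, ← mul_assoc, Matrix.mul_nonsing_inv _ hzu, one_mul]
      abel
    rw [h2]
    apply hspec _ _ h1
    intro i j hij
    rw [Matrix.mul_apply]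
    apply Finset.sum_eq_zero
    intro a _
    by_cases hia : l i = l a
    · have h3 : (h - z) a j = 0 := by
        rw [Matrix.sub_apply, hzdef]
        unfold blk
        rw [Matrix.of_apply, if_pos (hia.symm.trans hij), sub_self]
      rw [h3, mul_zero]
    · rw [inv_off l z hzu hzc i a hia, zero_mul]
  -- general matrices
  intro h c hc
  have h1 : (blk l (gm k N)).det * aeval (orb c) b = 0 := by
    apply MvPolynomial.funext
    intro x
    obtain ⟨A, rfl⟩ := ent_surj x
    rw [map_mul, map_zero, eval_aeval_orb]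
    by_cases hA : (blk l A).det = 0
    · have h2 : eval (ent A) (blk l (gm k N)).det = (blk l A).det := by
        rw [RingHom.map_det]
        congr 1
        ext i j
        rw [RingHom.mapMatrix_apply, Matrix.map_apply]
        unfold blk
        rw [Matrix.of_apply, Matrix.of_apply]
        split_ifs
        · simp [gm, Matrix.mvPolynomialX, ent]
        · simp
      rw [h2, hA, zero_mul]
    · rw [hblk A c hc hA, mul_zero]
  have h2 : (blk l (gm k N)).det ≠ 0 := by
    intro h0
    have h3 := congrArg (eval (ent (1 : Matrix (Fin (N + 1)) (Fin (N + 1)) k))) h0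
    rw [map_zero, RingHom.map_det] at h3
    have h4 : (eval (ent (1 : Matrix (Fin (N + 1)) (Fin (N + 1)) k))).mapMatrix
        (blk l (gm k N)) = 1 := by
      ext i j
      rw [RingHom.mapMatrix_apply, Matrix.map_apply]
      unfold blk
      rw [Matrix.of_apply, Matrix.one_apply]
      by_cases hij : i = j
      · subst hij
        simp [gm, Matrix.mvPolynomialX, ent]
      · rw [if_neg hij]
        split_ifs
        · simp [gm, Matrix.mvPolynomialX, ent, Matrix.one_apply_ne hij]
        · simp
    rw [h4, Matrix.det_one] at h3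
    exact one_ne_zero h3
  have h3 := (mul_eq_zero.mp h1).resolve_left h2
  rw [← eval_aeval_orb, h3, map_zero]

/-- Every prime divisor contains free points off any given divisor. -/
theorem exists_free (hN : 2 ≤ N) (hd : 2 ≤ d) (s : SS k N d) (hs : Prime s) (u : SS k N d)
    (hu : ¬ s ∣ u) (huNZ : ∀ c, eval c u ≠ 0 → NZ (tup c)) :
    ∃ f : Ix N d → k, eval f s = 0 ∧ eval f u ≠ 0 ∧ NZ (tup f) ∧ IsFree f := by
  classical
  have hfam : ∀ S : Finset (Ix N d), ∃ b : SS k N d, ¬ s ∣ b ∧
      ((∃ l : Fin (N + 1) → k, (∀ i, l i ≠ 0) ∧ (∃ i j, l i ≠ l j) ∧ goodS l = S) →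
        ∀ (h : Matrix (Fin (N + 1)) (Fin (N + 1)) k) (c : Ix N d → k),
          Supp S c → eval (actT h c) b = 0) := by
    intro S
    by_cases hS : ∃ l : Fin (N + 1) → k, (∀ i, l i ≠ 0) ∧ (∃ i j, l i ≠ l j) ∧ goodS l = S
    · obtain ⟨l, hl, hne, rfl⟩ := hS
      obtain ⟨b, hb1, hb2⟩ := exists_family hN hd l hl hne s hs.ne_zero hs.not_isUnit
      exact ⟨b, hb1, fun _ => hb2⟩
    · exact ⟨1, fun h => hs.not_isUnit (isUnit_of_dvd_one h), fun h => absurd h hS⟩
  choose b hb1 hb2 using hfam
  let B : SS k N d := u * ∏ S, b S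
  have hB : ¬ s ∣ B := by
    intro h
    rcases hs.dvd_or_dvd h with h | h
    · exact hu h
    · obtain ⟨S, _, hS⟩ := (Prime.dvd_finsetProd_iff hs _).mp h
      exact hb1 S hS
  obtain ⟨f, hf1, hf2⟩ : ∃ f : Ix N d → k, eval f s = 0 ∧ eval f B ≠ 0 := by
    by_contra hcon
    push Not at hcon
    have h1 : B ∈ (Ideal.span {s} : Ideal (SS k N d)).radical := by
      rw [← vanishingIdeal_zeroLocus_eq_radical (K := k), mem_vanishingIdeal_iff]
      intro c hc
      have h2 : eval c s = 0 := by
        have := (mem_zeroLocus_iff.mp hc) s (Ideal.subset_span rfl)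
        rw [← coe_aeval_eq_eval]
        exact this
      have h3 := hcon c h2
      rw [← coe_aeval_eq_eval] at h3
      exact h3
    rw [((Ideal.span_singleton_prime hs.ne_zero).mpr hs).radical, Ideal.mem_span_singleton] at h1
    exact hB h1
  rw [map_mul, map_prod, mul_ne_zero_iff, Finset.prod_ne_zero_iff] at hf2
  obtain ⟨hfu, hfb⟩ := hf2
  have hNZ := huNZ f hfu
  refine ⟨f, hf1, hfu, hNZ, ?_⟩
  intro A hA hAf
  by_contra hns
  obtain ⟨g, l, hg, hgl⟩ := exists_diag hd hNZ A hA hAf
  have hgu : IsUnit g.det := isUnit_iff_ne_zero.mpr hg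
  have hAg : A = g * Matrix.diagonal l * g⁻¹ := by
    rw [← hgl, mul_assoc, Matrix.mul_nonsing_inv _ hgu, mul_one]
  have hl : ∀ i, l i ≠ 0 := by
    have h1 := congrArg Matrix.det hgl
    rw [Matrix.det_mul, Matrix.det_mul, Matrix.det_diagonal] at h1
    have h2 : ∏ i, l i ≠ 0 := by
      intro h0
      rw [h0, mul_zero] at h1
      exact mul_ne_zero hA hg h1
    intro i
    exact (Finset.prod_ne_zero_iff.mp h2) i (Finset.mem_univ i)
  have hne : ∃ i j, l i ≠ l j := by
    by_contra hcon
    push Not at hcon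
    apply hns
    refine ⟨l 0, ?_⟩
    have h1 : Matrix.diagonal l = l 0 • (1 : Matrix (Fin (N + 1)) (Fin (N + 1)) k) := by
      rw [Matrix.smul_one_eq_diagonal]
      congr 1
      funext i
      exact hcon i 0
    rw [hAg, h1, Matrix.mul_smul, mul_one, Matrix.smul_mul, Matrix.mul_nonsing_inv _ hgu]
  have hfix : Supp (goodS l) (actT g f) := by
    rw [supp_iff, actT_actT, ← hgl, ← actT_actT, hAf]
  apply hfb (goodS l) (Finset.mem_univ _)
  have h1 := hb2 (goodS l) ⟨l, hl, hne, rfl⟩ g⁻¹ (actT g f) hfix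
  rw [actT_actT, Matrix.mul_nonsing_inv _ hgu, actT_one] at h1
  exact h1

end

end Pool.Agent.Helper819.Dyn
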