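import Pool.Agent.Helper819.Free3

/-!
Weights of the diagonal torus and a counting inequality.
-/

open MvPolynomial

namespace Pool.Agent.Helper819.Dyn

open Pool.Agent.Helper819.Apolar

noncomputable section

set_option linter.unusedSectionVars false

variable {k : Type} [Field k] {N d : ℕ}

/-- weight of a coordinate -/
def chi (l : Fin (N + 1) → k) (p : Ix N d) : k :=
  (∏ j ∈ Finset.univ.erase p.1, l j) * ∏ j, l j ^ (p.2.1 j)

theorem actT_diag (l : Fin (N + 1) → k) (c : Ix N d → k) (p : Ix N d) :
    actT (Matrix.diagonal l) c p = chi l p * c p := by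
  unfold actT cf act
  rw [Matrix.adjugate_diagonal, Finset.sum_eq_single p.1]
  · rw [Matrix.diagonal_apply_eq, coeff_C_mul]
    unfold chi
    rw [mul_assoc]
    congr 1
    have h1 : (fun a => ∑ m, C (Matrix.diagonal l a m) * X m : Fin (N + 1) → MvPolynomial (Fin (N + 1)) k) =
        fun a => C (l a) * X a := by
      funext a
      rw [Finset.sum_eq_single a]
      · rw [Matrix.diagonal_apply_eq]
      · intro b _ hb
        rw [Matrix.diagonal_apply_ne _ hb.symm, C_0, zero_mul]
      · simp
    rw [h1]
    unfold tup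
    rw [map_sum, coeff_sum]
    have h2 : ∀ m : Ex N d, coeff p.2.1 (bind₁ (fun a => C (l a) * X a)
        (monomial m.1 (c (p.1, m)))) = if m = p.2 then (∏ j, l j ^ (p.2.1 j)) * c p else 0 := by
      intro m
      rw [bind₁_monomial]
      have h3 : ∏ i ∈ m.1.support, (C (l i) * X i : MvPolynomial (Fin (N + 1)) k) ^ m.1 i =
          C (∏ j, l j ^ (m.1 j)) * monomial m.1 1 := by
        simp_rw [mul_pow]
        rw [Finset.prod_mul_distrib, monomial_eq (s := m.1) (a := (1 : k)), C_1, one_mul,
          Finsupp.prod]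
        congr 1
        rw [map_prod, ← Finset.prod_subset (Finset.subset_univ m.1.support)]
        · exact Finset.prod_congr rfl fun j _ => (map_pow _ _ _).symm
        · intro j _ hj
          rw [Finsupp.notMem_support_iff.mp hj, pow_zero, C_1]
      rw [h3, coeff_C_mul, coeff_C_mul, coeff_monomial]
      by_cases h : m = p.2
      · rw [if_pos (by rw [h]), if_pos h, h]
        ring
      · rw [if_neg (fun h' => h (Subtype.ext h')), if_neg h]
        ring
    simp_rw [h2]
    rw [Finset.sum_ite_eq', if_pos (Finset.mem_univ _)]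
  · intro j _ hj
    rw [Matrix.diagonal_apply_ne _ hj.symm, C_0, zero_mul]
  · simp

theorem chi_mul (l : Fin (N + 1) → k) (p : Ix N d) :
    chi l p * l p.1 = (∏ j, l j) * ∏ j, l j ^ (p.2.1 j) := by
  unfold chi
  rw [← Finset.mul_prod_erase Finset.univ l (Finset.mem_univ p.1)]
  ring

section count

variable {n : ℕ}

open Classical in
/-- multiplicity -/
def mult (l : Fin n → k) (e : k) : ℕ := (Finset.univ.filter (fun a => l a = e)).card

open Classical in
theorem count_pairs (l : Fin n → k) (hl : ∀ i, l i ≠ 0) (γ : k) :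
    (Finset.univ.filter (fun p : Fin n × Fin n => l p.1 * l p.2 = γ)).card ≤
      (Finset.univ.filter (fun p : Fin n × Fin n => l p.1 = l p.2)).card := by
  have h0 : ∀ P : Fin n × Fin n → Prop, (Finset.univ.filter P).card =
      ∑ a, (Finset.univ.filter (fun b => P (a, b))).card := by
    intro P
    simp_rw [Finset.card_filter]
    rw [Fintype.sum_prod_type]
  have h1 : (Finset.univ.filter (fun p : Fin n × Fin n => l p.1 * l p.2 = γ)).card =
      ∑ e ∈ Finset.univ.image l, mult l e * mult l (γ / e) := by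
    rw [h0]
    have h2 : ∀ a, (Finset.univ.filter (fun b => l a * l b = γ)).card = mult l (γ / l a) := by
      intro a
      unfold mult
      congr 1
      ext b
      simp only [Finset.mem_filter, Finset.mem_univ, true_and]
      rw [eq_div_iff (hl a), mul_comm]
    simp_rw [h2]
    rw [Finset.sum_comp (fun e => mult l (γ / e)) l]
    rfl
  have h2 : (Finset.univ.filter (fun p : Fin n × Fin n => l p.1 = l p.2)).card =
      ∑ e ∈ Finset.univ.image l, mult l e * mult l e := by
    rw [h0]
    have h2 : ∀ a, (Finset.univ.filter (fun b => l a = l b)).card = mult l (l a) := by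
      intro a
      unfold mult
      congr 1
      ext b
      simp only [Finset.mem_filter, Finset.mem_univ, true_and]
      exact eq_comm
    simp_rw [h2]
    rw [Finset.sum_comp (fun e => mult l e) l]
    rfl
  rw [h1, h2]
  by_cases hγ : γ = 0
  · have h3 : ∀ e, mult l (γ / e) = 0 := by
      intro e
      unfold mult
      rw [hγ, zero_div, Finset.card_eq_zero, Finset.filter_eq_empty_iff]
      intro a _
      exact hl a
    simp_rw [h3, mul_zero]
    rw [Finset.sum_const_zero]
    exact Nat.zero_le _
  · have h3 : ∑ e ∈ Finset.univ.image l, mult l (γ / e) * mult l (γ / e) ≤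
        ∑ e ∈ Finset.univ.image l, mult l e * mult l e := by
      have hinj : Set.InjOn (fun e => γ / e) (Finset.univ.image l : Set k) := by
        intro e he e' he' h
        have he0 : e ≠ 0 := by
          obtain ⟨a, _, rfl⟩ := Finset.mem_image.mp he
          exact hl a
        have he0' : e' ≠ 0 := by
          obtain ⟨a, _, rfl⟩ := Finset.mem_image.mp he'
          exact hl a
        change γ / e = γ / e' at h
        rw [div_eq_div_iff he0 he0'] at h
        exact (mul_left_cancel₀ hγ h).symm
      rw [← Finset.sum_image (f := fun e => mult l e * mult l e) hinj]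
      refine Finset.sum_le_sum_of_ne_zero fun e _ he => ?_
      have h4 : mult l e ≠ 0 := fun h => he (by rw [h, mul_zero])
      unfold mult at h4
      obtain ⟨a, ha⟩ := Finset.card_pos.mp (Nat.pos_of_ne_zero h4)
      rw [Finset.mem_filter] at ha
      exact Finset.mem_image.mpr ⟨a, Finset.mem_univ _, ha.2⟩
    have h4 : 2 * ∑ e ∈ Finset.univ.image l, mult l e * mult l (γ / e) ≤
        ∑ e ∈ Finset.univ.image l, mult l e * mult l e +
          ∑ e ∈ Finset.univ.image l, mult l (γ / e) * mult l (γ / e) := by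
      rw [Finset.mul_sum, ← Finset.sum_add_distrib]
      refine Finset.sum_le_sum fun e _ => ?_
      nlinarith [sq_nonneg ((mult l e : ℤ) - mult l (γ / e)), two_mul_le_add_sq (mult l e) (mult l (γ / e))]
    omega

open Classical in
theorem count_off (l : Fin n → k) (i0 j0 : Fin n) (h : l i0 ≠ l j0) :
    2 * (n - 1) ≤ (Finset.univ.filter (fun p : Fin n × Fin n => l p.1 ≠ l p.2)).card := by
  let S := Finset.univ.filter (fun a => l a = l i0)
  let S' := Finset.univ.filter (fun a => ¬ l a = l i0)
  have hS : S.card + S'.card = n := by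
    have := Finset.card_filter_add_card_filter_not (s := (Finset.univ : Finset (Fin n)))
      (fun a => l a = l i0)
    rw [Finset.card_univ, Fintype.card_fin] at this
    exact this
  have h1 : 1 ≤ S.card := Finset.card_pos.mpr ⟨i0, by simp [S]⟩
  have h2 : 1 ≤ S'.card := Finset.card_pos.mpr ⟨j0, by simp [S', Ne.symm h]⟩
  have h3 : (S ×ˢ S' ∪ S' ×ˢ S).card ≤
      (Finset.univ.filter (fun p : Fin n × Fin n => l p.1 ≠ l p.2)).card := by
    apply Finset.card_le_card
    intro p hp
    rw [Finset.mem_union, Finset.mem_product, Finset.mem_product] at hp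
    simp only [S, S', Finset.mem_filter, Finset.mem_univ, true_and] at hp ⊢
    rcases hp with ⟨a, b⟩ | ⟨a, b⟩
    · intro hc
      exact b (hc ▸ a)
    · intro hc
      exact a (hc.trans b)
  have h4 : Disjoint (S ×ˢ S') (S' ×ˢ S) := by
    rw [Finset.disjoint_left]
    intro p hp hp'
    rw [Finset.mem_product] at hp hp'
    simp only [S, S', Finset.mem_filter, Finset.mem_univ, true_and] at hp hp'
    exact hp'.1 hp.1
  rw [Finset.card_union_of_disjoint h4, Finset.card_product, Finset.card_product] at h3
  have h5 : n - 1 ≤ S.card * S'.card := by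
    obtain ⟨a, ha⟩ := Nat.exists_eq_add_of_le h1
    obtain ⟨b, hb⟩ := Nat.exists_eq_add_of_le h2
    rw [ha, hb]
    have : n - 1 = a + b + 1 := by omega
    rw [this]
    nlinarith [Nat.zero_le (a * b)]
  nlinarith

theorem count_unordered (P : Fin n → Fin n → Prop)
    [DecidablePred (fun p : Fin n × Fin n => P p.1 p.2)]
    [DecidablePred (fun p : Fin n × Fin n => p.1 ≤ p.2 ∧ P p.1 p.2)]
    (hP : ∀ a b, P a b → P b a) :
    (Finset.univ.filter (fun p : Fin n × Fin n => P p.1 p.2)).card ≤
      2 * (Finset.univ.filter (fun p : Fin n × Fin n => p.1 ≤ p.2 ∧ P p.1 p.2)).card := by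
  let S := Finset.univ.filter (fun p : Fin n × Fin n => p.1 ≤ p.2 ∧ P p.1 p.2)
  have h1 : (Finset.univ.filter (fun p : Fin n × Fin n => P p.1 p.2)) ⊆ S ∪ S.image Prod.swap := by
    intro p hp
    rw [Finset.mem_filter] at hp
    rw [Finset.mem_union]
    rcases le_total p.1 p.2 with h | h
    · left
      exact Finset.mem_filter.mpr ⟨Finset.mem_univ _, h, hp.2⟩
    · right
      exact Finset.mem_image.mpr ⟨p.swap, Finset.mem_filter.mpr ⟨Finset.mem_univ _, h,
        hP _ _ hp.2⟩, Prod.swap_swap p⟩
  calc _ ≤ (S ∪ S.image Prod.swap).card := Finset.card_le_card h1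
    _ ≤ S.card + (S.image Prod.swap).card := Finset.card_union_le _ _
    _ ≤ S.card + S.card := Nat.add_le_add_left Finset.card_image_le _
    _ = 2 * S.card := (two_mul _).symm

end count

/-- the exponent `x_0^(d-2) x_a x_b` -/
def ex2 (hd : 2 ≤ d) (a b : Fin (N + 1)) : Ex N d :=
  ⟨Finsupp.single 0 (d - 2) + (Finsupp.single a 1 + Finsupp.single b 1), by
    rw [mem_Ex, map_add, map_add, Finsupp.degree_single, Finsupp.degree_single,
      Finsupp.degree_single]
    omega⟩

theorem prod_ex2 (hd : 2 ≤ d) (l : Fin (N + 1) → k) (a b : Fin (N + 1)) :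
    ∏ j, l j ^ ((ex2 hd a b).1 j) = l 0 ^ (d - 2) * (l a * l b) := by
  have h1 : ∀ (i : Fin (N + 1)) (m : ℕ), ∏ j, l j ^ (Finsupp.single i m j) = l i ^ m := by
    intro i m
    rw [Finset.prod_eq_single i]
    · simp
    · intro j _ hj
      rw [Finsupp.single_apply, if_neg hj.symm, pow_zero]
    · simp
  unfold ex2
  simp only [Finsupp.add_apply, pow_add, Finset.prod_mul_distrib, h1, pow_one]

open Classical in
/-- The number of coordinates with nontrivial weight. -/
theorem count_bad (hN : 2 ≤ N) (hd : 2 ≤ d) (l : Fin (N + 1) → k) (hl : ∀ i, l i ≠ 0)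
    (i0 j0 : Fin (N + 1)) (h : l i0 ≠ l j0) :
    (Finset.univ.filter (fun p : Fin (N + 1) × Fin (N + 1) => l p.1 ≠ l p.2)).card + 2 ≤
      (Finset.univ.filter (fun p : Ix N d => chi l p ≠ 1)).card := by
  set B := (Finset.univ.filter (fun p : Fin (N + 1) × Fin (N + 1) => l p.1 ≠ l p.2)).card with hB
  let γ : Fin (N + 1) → k := fun i => l i / ((∏ j, l j) * l 0 ^ (d - 2))
  let T : Fin (N + 1) → Finset (Fin (N + 1) × Fin (N + 1)) := fun i =>
    Finset.univ.filter (fun p => p.1 ≤ p.2 ∧ l p.1 * l p.2 ≠ γ i)
  have hprod : (∏ j, l j) * l 0 ^ (d - 2) ≠ 0 :=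
    mul_ne_zero (Finset.prod_ne_zero_iff.mpr fun j _ => hl j) (pow_ne_zero _ (hl 0))
  have hT : ∀ i, B ≤ 2 * (T i).card := by
    intro i
    have h1 := count_unordered (fun a b : Fin (N + 1) => l a * l b ≠ γ i) (by
      intro a b hab
      rwa [mul_comm])
    have h2 := count_pairs l hl (γ i)
    have h3 := Finset.card_filter_add_card_filter_not
      (s := (Finset.univ : Finset (Fin (N + 1) × Fin (N + 1)))) (fun p => l p.1 * l p.2 = γ i)
    have h4 := Finset.card_filter_add_card_filter_not
      (s := (Finset.univ : Finset (Fin (N + 1) × Fin (N + 1)))) (fun p => l p.1 = l p.2)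
    have h5 : B ≤ (Finset.univ.filter (fun p : Fin (N + 1) × Fin (N + 1) =>
        l p.1 * l p.2 ≠ γ i)).card := by
      change _ = B at hB
      have h6 : (Finset.univ.filter (fun p : Fin (N + 1) × Fin (N + 1) => ¬ l p.1 = l p.2)).card = B := rfl
      have h7 : (Finset.univ.filter (fun p : Fin (N + 1) × Fin (N + 1) =>
        l p.1 * l p.2 ≠ γ i)).card = (Finset.univ.filter (fun p : Fin (N + 1) × Fin (N + 1) =>
        ¬ l p.1 * l p.2 = γ i)).card := rfl
      omega
    exact h5.trans h1
  -- the injection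
  have hinj : ∑ i, (T i).card ≤ (Finset.univ.filter (fun p : Ix N d => chi l p ≠ 1)).card := by
    rw [← Finset.card_sigma]
    apply Finset.card_le_card_of_injOn (fun x : (Σ _ : Fin (N + 1), Fin (N + 1) × Fin (N + 1)) =>
      ((x.1, ex2 hd x.2.1 x.2.2) : Ix N d))
    · rintro ⟨i, a, b⟩ hx
      rw [Finset.mem_coe, Finset.mem_sigma] at hx
      have hx2 := (Finset.mem_filter.mp hx.2).2.2
      rw [Finset.mem_coe, Finset.mem_filter]
      refine ⟨Finset.mem_univ _, fun hc => hx2 ?_⟩
      have h1 := chi_mul l ((i, ex2 hd a b) : Ix N d)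
      rw [hc, one_mul] at h1
      change l i = (∏ j, l j) * ∏ j, l j ^ ((ex2 hd a b).1 j) at h1
      rw [prod_ex2] at h1
      change l a * l b = l i / ((∏ j, l j) * l 0 ^ (d - 2))
      rw [eq_div_iff hprod, h1]
      ring
    · rintro ⟨i, a, b⟩ hx ⟨i', a', b'⟩ hx' heq
      rw [Finset.mem_coe, Finset.mem_sigma] at hx hx'
      have hx2 := (Finset.mem_filter.mp hx.2).2.1
      have hx2' := (Finset.mem_filter.mp hx'.2).2.1
      change ((i, ex2 hd a b) : Ix N d) = (i', ex2 hd a' b') at heq
      rw [Prod.mk.injEq] at heq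
      obtain ⟨rfl, h2⟩ := heq
      have h3 := add_left_cancel (congrArg Subtype.val h2)
      rw [Finsupp.single_add_single_eq_single_add_single one_ne_zero one_ne_zero] at h3
      change a ≤ b at hx2
      change a' ≤ b' at hx2'
      rcases h3 with ⟨rfl, rfl⟩ | ⟨_, rfl, rfl⟩ | ⟨h4, _⟩
      · rfl
      · have : a = b := le_antisymm hx2 hx2'
        subst this
        rfl
      · exact absurd h4 (by norm_num)
  have hsum : (N + 1) * B ≤ 2 * ∑ i, (T i).card := by
    rw [Finset.mul_sum]
    calc (N + 1) * B = ∑ _i : Fin (N + 1), B := by simp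
      _ ≤ _ := Finset.sum_le_sum fun i _ => hT i
  have hoff := count_off l i0 j0 h
  change 2 * (N + 1 - 1) ≤ B at hoff
  rw [Nat.add_sub_cancel] at hoff
  have h6 : 2 * (B + 2) ≤ (N + 1) * B := by
    obtain ⟨t, rfl⟩ := Nat.exists_eq_add_of_le hN
    nlinarith [Nat.zero_le t, Nat.zero_le (t * B)]
  omega

end

end Pool.Agent.Helper819.Dyn
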