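import Pool.Agent.Helper819.Fam

/-!
The rational component.
-/

open MvPolynomial

namespace Pool.Agent.Helper819.Dyn

open Pool.Agent.Helper819.Zar

noncomputable section

set_option linter.unusedSectionVars false

variable {k : Type} [Field k] {N d n : ℕ}

/-- Forget the point, on tuples. -/
def base (x : PtTuple k N d n) : EndTuple k N d := ⟨x.1.1, x.2.1⟩

theorem coords_base (x : PtTuple k N d n) : coords (base x) = fc x := rfl

theorem continuous_base : Continuous (base : PtTuple k N d n → EndTuple k N d) := by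
  refine (isZar_ptCoords k N d n).continuous (isZar_coords k N d) _
    (fun p => X (Sum.inr p)) ?_
  intro x p
  rw [eval_X]
  rfl

variable [IsAlgClosed k]

theorem continuous_forget : Continuous (forget k N d n) := by
  refine continuous_def.mpr fun U hU => ?_
  rw [isOpen_iff_ptCls]
  exact hU.preimage (continuous_cls.comp continuous_base)

section

variable (hN : 2 ≤ N) (hd : 2 ≤ d) (hn : 1 ≤ n) {ζ : k} (hζ : IsPrimitiveRoot ζ (d ^ n - 1))

/-- The generic member. -/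
def GT (k : Type) [Field k] (N d : ℕ) : Tuple (MvPolynomial Unit k) N := famT N d (X ())

theorem spec_GT (y : Unit → k) : spec y (GT k N d) = famT N d (y ()) := by
  funext i
  unfold spec GT
  rw [map_famT, eval_X]

/-- The orbit of the family. -/
def DD (N d n : ℕ) (ζ : k) : Set (PtTuple k N d n) :=
  pfam d n (GT k N d) (fun i => C (ptz N ζ i))

theorem eval_ptz (y : Unit → k) :
    (fun i => eval y (C (ptz N ζ i) : MvPolynomial Unit k)) = ptz N ζ := by
  funext i
  rw [eval_C]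

include hN hd hn hζ in
theorem DD_irred : IsIrreducible (DD N d n ζ) := by
  refine pfam_irred _ _ fun y => ?_
  rw [spec_GT, eval_ptz]
  exact (xt hN hd hn hζ (y ())).2

theorem mem_DD (x : PtTuple k N d n) : x ∈ DD N d n ζ ↔
    ∃ (A : Matrix (Fin (N + 1)) (Fin (N + 1)) k) (hA : A.det ≠ 0) (s : k) (hs : s ≠ 0) (t : k),
      x = act2 A hA s hs (xt hN hd hn hζ t) := by
  constructor
  · rintro ⟨A, s, y, hA, hs, h1, h2⟩
    rw [spec_GT] at h1
    rw [eval_ptz] at h2
    exact ⟨A, hA, s, hs, y (), ptTuple_ext h1 h2⟩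
  · rintro ⟨A, hA, s, hs, t, rfl⟩
    refine ⟨A, s, fun _ => t, hA, hs, ?_, ?_⟩
    · rw [spec_GT]; rfl
    · rw [eval_ptz]; rfl

theorem xt_mem (t : k) : xt hN hd hn hζ t ∈ DD N d n ζ :=
  (mem_DD hN hd hn hζ _).mpr ⟨1, by simp, 1, one_ne_zero, t, (act2_one _).symm⟩

include hN hd hn hζ in
theorem image_DD : ptCls '' (DD N d n ζ) = Set.range fun t => ptCls (xt hN hd hn hζ t) := by
  have hNd : 0 < N + d := by omega
  ext m
  constructor
  · rintro ⟨x, hx, rfl⟩
    obtain ⟨A, hA, s, hs, t, rfl⟩ := (mem_DD hN hd hn hζ x).mp hx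
    exact ⟨t, (ptCls_eq_iff hNd _ _).mpr ⟨A, hA, s, hs, rfl⟩⟩
  · rintro ⟨t, rfl⟩
    exact ⟨_, xt_mem hN hd hn hζ t, rfl⟩

/-- The base curve. -/
def Gam (N d n : ℕ) (ζ : k) : Set (Moduli k N d) := closure (cls '' (base '' DD N d n ζ))

include hN hd hn hζ in
theorem Gam_irred : IsIrreducible (Gam N d n ζ) :=
  (((DD_irred hN hd hn hζ).image _ continuous_base.continuousOn).image _
    continuous_cls.continuousOn).closure

include hN hd hn hζ in
theorem preimage_Gam : cls ⁻¹' (Gam N d n ζ) = closure (base '' DD N d n ζ) := by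
  have hNd : 0 < N + d := by omega
  have hinf : Infinite k := IsAlgClosed.instInfinite
  unfold Gam
  rw [(isOpenMap_cls hNd).preimage_closure_eq_closure_preimage continuous_cls]
  congr 1
  ext F
  constructor
  · rintro ⟨_, ⟨x, hx, rfl⟩, hF⟩
    obtain ⟨A, hA, rfl⟩ := (cls_eq_iff hNd (base x) F).mp hF
    obtain ⟨B, hB, s, hs, t, rfl⟩ := (mem_DD hN hd hn hζ x).mp hx
    refine ⟨act2 A hA 1 one_ne_zero (act2 B hB s hs (xt hN hd hn hζ t)), ?_, rfl⟩
    rw [act2_act2]
    exact (mem_DD hN hd hn hζ _).mpr ⟨_, _, _, _, t, rfl⟩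
  · intro hF
    exact ⟨F, hF, rfl⟩

include hN hd hn hζ in
theorem DD_subset : ptCls '' (DD N d n ζ) ⊆ forget k N d n ⁻¹' (Gam N d n ζ) := by
  rintro _ ⟨x, hx, rfl⟩
  exact subset_closure ⟨base x, ⟨x, hx, rfl⟩, rfl⟩

include hN hd hn hζ in
theorem closure_subset :
    closure (ptCls '' (DD N d n ζ)) ⊆ forget k N d n ⁻¹' (Gam N d n ζ) :=
  closure_minimal (DD_subset hN hd hn hζ) (isClosed_closure.preimage continuous_forget)

theorem preirred_subtype {X : Type} [TopologicalSpace X] {W Z : Set X} (hZW : Z ⊆ W)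
    (hZ : IsIrreducible Z) : IsIrreducible ((Subtype.val : ↥W → X) ⁻¹' Z) := by
  constructor
  · obtain ⟨z, hz⟩ := hZ.nonempty
    exact ⟨⟨z, hZW hz⟩, hz⟩
  · rintro U V hU hV ⟨x, hxZ, hxU⟩ ⟨y, hyZ, hyV⟩
    obtain ⟨U', hU', rfl⟩ := isOpen_induced_iff.mp hU
    obtain ⟨V', hV', rfl⟩ := isOpen_induced_iff.mp hV
    obtain ⟨z, hzZ, hzU, hzV⟩ := hZ.isPreirreducible U' V' hU' hV' ⟨x, hxZ, hxU⟩ ⟨y, hyZ, hyV⟩
    exact ⟨⟨z, hZW hzZ⟩, hzZ, hzU, hzV⟩

include hN hd hn hζ in
theorem key {C : Set ↥(forget k N d n ⁻¹' Gam N d n ζ)} (hC : IsIrreducible C)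
    (hle : Subtype.val ⁻¹' closure (ptCls '' DD N d n ζ) ⊆ C) :
    C ⊆ Subtype.val ⁻¹' closure (ptCls '' DD N d n ζ) := by
  have hNd : 0 < N + d := by omega
  have hinf : Infinite k := IsAlgClosed.instInfinite
  have hCi : IsIrreducible (Subtype.val '' C) := hC.image _ continuous_subtype_val.continuousOn
  have hD' := ptPreimage_irred hNd hCi
  have hsub : DD N d n ζ ⊆ ptCls ⁻¹' (Subtype.val '' C) := by
    intro x hx
    have h1 : ptCls x ∈ closure (ptCls '' DD N d n ζ) := subset_closure ⟨x, hx, rfl⟩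
    exact ⟨⟨ptCls x, closure_subset hN hd hn hζ h1⟩, hle h1, rfl⟩
  have hI : ∀ a : MvPolynomial (Fin (N + 1) × (Fin (N + 1) →₀ ℕ)) k,
      (∀ x ∈ DD N d n ζ, eval (fc x) a = 0) →
        ∀ x ∈ ptCls ⁻¹' (Subtype.val '' C), eval (fc x) a = 0 := by
    rintro a ha x ⟨c, _, hcx⟩
    have h1 : base x ∈ cls ⁻¹' (Gam N d n ζ) := by
      have h2 := c.2
      rw [hcx] at h2
      exact h2
    rw [preimage_Gam hN hd hn hζ] at h1
    exact ((isZar_coords k N d).mem_closure_iff _ _).mp h1 a (by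
      rintro _ ⟨y, hy, rfl⟩
      exact ha y hy)
  have hscale : ∀ x ∈ DD N d n ζ, ∀ s : k, s ≠ 0 →
      ∃ y ∈ DD N d n ζ, y.1.1 = x.1.1 ∧ y.1.2 = s • x.1.2 := by
    intro x hx s hs
    refine ⟨act2 1 (by simp) s hs x, ?_, act_one _, ?_⟩
    · obtain ⟨B, hB, s', hs', t, rfl⟩ := (mem_DD hN hd hn hζ x).mp hx
      rw [act2_act2]
      exact (mem_DD hN hd hn hζ _).mpr ⟨_, _, _, _, t, rfl⟩
    · change s • (1 : Matrix (Fin (N + 1)) (Fin (N + 1)) k).adjugate.mulVec x.1.2 = s • x.1.2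
      rw [Matrix.adjugate_one, Matrix.one_mulVec]
  have h3 := subset_closure_of (DD N d n ζ) _ (DD_irred hN hd hn hζ) hD' hsub hscale hI
    (Nat.one_lt_pow (by omega) (by omega))
    ⟨1, by omega⟩ (xt hN hd hn hζ 0) (xt_mem hN hd hn hζ 0)
    (by
      change ptz N ζ ⟨1, by omega⟩ ≠ 0
      rw [ptz_one (by omega)]
      exact one_ne_zero)
    (delta_ne_zero _ rfl)
  intro c hc
  obtain ⟨y, hy⟩ := ptCls_surjective c.1
  have h4 : y ∈ closure (DD N d n ζ) := h3 ⟨c, hc, hy.symm⟩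
  have h5 := image_closure_subset_closure_image (continuous_ptCls (k := k) (N := N) (d := d)
    (n := n)) ⟨y, h4, rfl⟩
  change c.1 ∈ closure (ptCls '' DD N d n ζ)
  rw [← hy]
  exact h5

include hN hd hn hζ in
theorem main [CharZero k] : ∃ Γ : Set (Moduli k N d), IsClosed Γ ∧ IsIrreducible Γ ∧
    ∃ Δ ∈ irreducibleComponents ↥(forget k N d n ⁻¹' Γ),
      IsRationalCurve (Subtype.val '' Δ) := by
  have hNd : 0 < N + d := by omega
  have hcs := closure_subset hN hd hn hζ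
  have hirr : IsIrreducible (closure (ptCls '' (DD N d n ζ))) :=
    ((DD_irred hN hd hn hζ).image _ continuous_ptCls.continuousOn).closure
  refine ⟨Gam N d n ζ, isClosed_closure, Gam_irred hN hd hn hζ,
    Subtype.val ⁻¹' closure (ptCls '' DD N d n ζ), ?_, ?_⟩
  · refine ⟨preirred_subtype hcs hirr, ?_⟩
    intro C hC hle
    exact key hN hd hn hζ hC hle
  · rw [Subtype.image_preimage_coe, Set.inter_eq_right.mpr hcs]
    refine ⟨?_, fun i => famT N d Polynomial.X i, fun i => Polynomial.C (ptz N ζ i),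
      fun t => xt hN hd hn hζ t, ?_, ?_⟩
    · intro hs
      have h0 : ptCls (xt hN hd hn hζ 0) ∈ closure (ptCls '' DD N d n ζ) :=
        subset_closure ⟨_, xt_mem hN hd hn hζ 0, rfl⟩
      have h1 : ptCls (xt hN hd hn hζ 1) ∈ closure (ptCls '' DD N d n ζ) :=
        subset_closure ⟨_, xt_mem hN hd hn hζ 1, rfl⟩
      obtain ⟨A, hA, s, hs', h2⟩ := (ptCls_eq_iff hNd _ _).mp (hs h0 h1)
      have h3 : famT N d (1 : k) = act A (famT N d (0 : k)) :=
        congrArg (fun x : PtTuple k N d n => x.1.1) h2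
      exact famT_ne (by omega) hd A hA h3
    · intro t
      refine Prod.ext ?_ ?_
      · funext i
        change famT N d t i = map (Polynomial.evalRingHom t) (famT N d Polynomial.X i)
        rw [map_famT]
        simp
      · funext i
        change ptz N ζ i = _
        simp
    · rw [image_DD hN hd hn hζ]

end

theorem main_complex (N d n : ℕ) (hN : 2 ≤ N) (hd : 2 ≤ d) (hn : 1 ≤ n) :
    ∃ Γ : Set (Moduli ℂ N d), IsClosed Γ ∧ IsIrreducible Γ ∧
    ∃ Δ ∈ irreducibleComponents ↥(forget ℂ N d n ⁻¹' Γ),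
      IsRationalCurve (Subtype.val '' Δ) := by
  have hpos : 1 < d ^ n := Nat.one_lt_pow (by omega) (by omega)
  exact main hN hd hn (Complex.isPrimitiveRoot_exp (d ^ n - 1) (by omega))

end

end Pool.Agent.Helper819.Dyn
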