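import Pool.Agent.Helper819.Semi

/-!
Curves in generalized eigenspaces.
-/

open MvPolynomial

namespace Pool.Agent.Helper819.Dyn

open Pool.Agent.Helper819.Apolar

noncomputable section

set_option linter.unusedSectionVars false

variable {k : Type} [Field k] {N d : ℕ}

theorem prod_top {ι : Type} (s : Finset ι) (f : ι → Polynomial k) (n : ι → ℕ)
    (h : ∀ i, (f i).natDegree ≤ n i) :
    (∏ i ∈ s, f i).natDegree ≤ ∑ i ∈ s, n i ∧
      (∏ i ∈ s, f i).coeff (∑ i ∈ s, n i) = ∏ i ∈ s, (f i).coeff (n i) := by
  classical
  induction s using Finset.induction_on with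
  | empty => simp
  | insert a s ha ih =>
    rw [Finset.prod_insert ha, Finset.sum_insert ha, Finset.prod_insert ha]
    refine ⟨Polynomial.natDegree_mul_le_of_le (h a) ih.1, ?_⟩
    rw [Polynomial.coeff_mul_add_eq_of_natDegree_le (h a) ih.1, ih.2]

theorem aeval_top {σ : Type} {p : MvPolynomial σ k} (hp : p.IsHomogeneous d)
    (x : σ → Polynomial k) {M : ℕ} (hx : ∀ i, (x i).natDegree ≤ M) :
    (aeval x p).natDegree ≤ d * M ∧
      (aeval x p).coeff (d * M) = eval (fun i => (x i).coeff M) p := by
  have h0 : aeval x p = ∑ m ∈ p.support, Polynomial.C (coeff m p) *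
      ∏ i ∈ m.support, x i ^ m i := by
    rw [aeval_def, eval₂_eq]
    rfl
  have h1 : ∀ m ∈ p.support, (∏ i ∈ m.support, x i ^ m i).natDegree ≤ d * M ∧
      (∏ i ∈ m.support, x i ^ m i).coeff (d * M) =
        ∏ i ∈ m.support, (x i).coeff M ^ m i := by
    intro m hm
    have hdeg : ∑ i ∈ m.support, m i = d := by
      have : m.degree = d := by
        by_contra hne
        exact (mem_support_iff.mp hm) (hp.coeff_eq_zero hne)
      rw [← this]
      rfl
    have h2 := prod_top m.support (fun i => x i ^ m i) (fun i => m i * M)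
      (fun i => Polynomial.natDegree_pow_le_of_le _ (hx i))
    rw [← Finset.sum_mul, hdeg] at h2
    refine ⟨h2.1, h2.2.trans (Finset.prod_congr rfl fun i _ => ?_)⟩
    exact Polynomial.coeff_pow_of_natDegree_le (hx i)
  rw [h0]
  constructor
  · refine Polynomial.natDegree_sum_le_of_forall_le _ _ fun m hm => ?_
    exact (Polynomial.natDegree_C_mul_le _ _).trans (h1 m hm).1
  · rw [Polynomial.finsetSum_coeff, eval_eq]
    refine Finset.sum_congr rfl fun m hm => ?_
    rw [Polynomial.coeff_C_mul, (h1 m hm).2]

theorem deriv_aeval {σ A : Type} [Fintype σ] [CommRing A] [Algebra k A]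
    (δ : Derivation k A A) (x : σ → A)
    (p : MvPolynomial σ k) : δ (aeval x p) = ∑ l, aeval x (pderiv l p) * δ (x l) := by
  classical
  induction p using MvPolynomial.induction_on with
  | C a => simp
  | add p q hp hq => simp only [map_add, hp, hq, add_mul, Finset.sum_add_distrib]
  | mul_X p i hp =>
    rw [map_mul, aeval_X, Derivation.leibniz, hp]
    simp only [Derivation.leibniz, smul_eq_mul, map_add, map_mul, aeval_X, pderiv_X]
    simp only [add_mul, Finset.sum_add_distrib, Finset.mul_sum]
    congr 1
    · rw [Finset.sum_eq_single i]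
      · simp
      · intro b _ hb
        rw [Pi.single_eq_of_ne hb.symm]
        simp
      · simp
    · exact Finset.sum_congr rfl fun l _ => by ring

variable [CharZero k]

/-- the nilpotent part -/
abbrev gg (A : Matrix (Fin (N + 1)) (Fin (N + 1)) k) (μ : k) : Module.End k (Fin (N + 1) → k) :=
  Matrix.toLin' A - μ • 1

theorem gg_apply (A : Matrix (Fin (N + 1)) (Fin (N + 1)) k) (μ : k) (x : Fin (N + 1) → k)
    (i : Fin (N + 1)) : gg A μ x i = ∑ j, A i j * x j - μ * x i := by
  simp [gg, Matrix.mulVec, dotProduct]

theorem stepA {f : Ix N d → k} (hf : NZ (tup f)) (A : Matrix (Fin (N + 1)) (Fin (N + 1)) k)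
    (hA : ∀ i, ∑ l, (∑ m, C (A l m) * X m) * pderiv l (tup f i) =
      ∑ j, C (A i j) * tup f j - C A.trace * tup f i) (μ : k) (M : ℕ) (x0 : Fin (N + 1) → k)
    (h1 : ((gg A μ) ^ (M + 1)) x0 = 0) (h2 : ((gg A μ) ^ M) x0 ≠ 0) :
    ((gg A (A.trace + d * μ)) ^ (d * M + 1)) (fun i => eval x0 (tup f i)) = 0 ∧
    ((gg A (A.trace + d * μ)) ^ (d * M)) (fun i => eval x0 (tup f i)) ≠ 0 := by
  set μ' := A.trace + d * μ with hμ'
  -- the curve
  let x : Fin (N + 1) → Polynomial k := fun l =>
    ∑ j ∈ Finset.range (M + 1), Polynomial.monomial j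
      ((j.factorial : k)⁻¹ * ((gg A μ) ^ j) x0 l)
  have hzero : ∀ j, M + 1 ≤ j → ((gg A μ) ^ j) x0 = 0 := by
    intro j hj
    obtain ⟨t, rfl⟩ := Nat.exists_eq_add_of_le hj
    rw [add_comm (M + 1) t, pow_add, Module.End.mul_apply, h1, map_zero]
  have hx : ∀ l j, (x l).coeff j = (j.factorial : k)⁻¹ * ((gg A μ) ^ j) x0 l := by
    intro l j
    change (∑ j ∈ Finset.range (M + 1), Polynomial.monomial j
      ((j.factorial : k)⁻¹ * ((gg A μ) ^ j) x0 l)).coeff j = _
    rw [Polynomial.finsetSum_coeff]
    simp only [Polynomial.coeff_monomial]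
    rw [Finset.sum_ite_eq']
    split_ifs with h
    · rfl
    · rw [hzero j (by simpa using h)]
      simp
  have hxd : ∀ l, (x l).natDegree ≤ M := by
    intro l
    rw [Polynomial.natDegree_le_iff_coeff_eq_zero]
    intro j hj
    rw [hx, hzero j (by omega)]
    simp
  have hder : ∀ l, Polynomial.derivative (x l) =
      ∑ m, Polynomial.C (A l m) * x m - Polynomial.C μ * x l := by
    intro l
    ext j
    rw [Polynomial.coeff_derivative, hx, Polynomial.coeff_sub, Polynomial.finsetSum_coeff]
    simp only [Polynomial.coeff_C_mul, hx]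
    rw [pow_succ', Module.End.mul_apply, gg_apply, Nat.factorial_succ]
    push_cast
    have hj : ((j : k) + 1) ≠ 0 := by exact_mod_cast Nat.succ_ne_zero j
    have hj' : (j.factorial : k) ≠ 0 := by exact_mod_cast Nat.factorial_ne_zero j
    have e : ∑ m, A l m * ((j.factorial : k)⁻¹ * ((gg A μ) ^ j) x0 m) =
        (j.factorial : k)⁻¹ * ∑ m, A l m * ((gg A μ) ^ j) x0 m := by
      rw [Finset.mul_sum]
      exact Finset.sum_congr rfl fun m _ => by ring
    rw [e]
    field_simp
  -- the image curve
  let y : Fin (N + 1) → Polynomial k := fun i => aeval x (tup f i)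
  have hyder : ∀ i, Polynomial.derivative (y i) =
      ∑ j, Polynomial.C (A i j) * y j - Polynomial.C μ' * y i := by
    intro i
    have e1 : Polynomial.derivative (y i) =
        ∑ l, aeval x (pderiv l (tup f i)) * Polynomial.derivative (x l) :=
      deriv_aeval Polynomial.derivative' x (tup f i)
    have e2 := congrArg (aeval x) (hA i)
    have e3 := congrArg (aeval x) ((tup_homog f i).sum_X_mul_pderiv)
    simp only [map_sum, map_sub, map_mul, aeval_X, algHom_C] at e2
    simp only [map_sum, map_mul, aeval_X, nsmul_eq_mul, map_natCast] at e3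
    rw [e1]
    simp only [hder]
    have e4 : ∑ l, aeval x (pderiv l (tup f i)) *
        (∑ m, Polynomial.C (A l m) * x m - Polynomial.C μ * x l) =
        (∑ l, (∑ m, Polynomial.C (A l m) * x m) * aeval x (pderiv l (tup f i))) -
        Polynomial.C μ * ∑ l, x l * aeval x (pderiv l (tup f i)) := by
      rw [Finset.mul_sum, ← Finset.sum_sub_distrib]
      exact Finset.sum_congr rfl fun l _ => by ring
    rw [e4, e3]
    change _ = ∑ j, Polynomial.C (A i j) * aeval x (tup f j) -
      Polynomial.C μ' * aeval x (tup f i)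
    have e5 : (Polynomial.C μ' : Polynomial k) = Polynomial.C A.trace + d * Polynomial.C μ := by
      rw [hμ']; simp
    rw [e5]
    have e6 : ∀ r : k, algebraMap k (Polynomial k) r = Polynomial.C r := fun _ => rfl
    simp only [e6] at e2
    linear_combination e2
  -- coefficients of the image curve
  have hcoef : ∀ j, ((gg A μ') ^ j) (fun i => (y i).coeff 0) =
      fun i => (j.factorial : k) * (y i).coeff j := by
    intro j
    induction j with
    | zero => funext i; simp
    | succ j ih =>
      rw [pow_succ', Module.End.mul_apply, ih]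
      funext i
      rw [gg_apply]
      have e1 := congrArg (fun p => Polynomial.coeff p j) (hyder i)
      simp only [Polynomial.coeff_derivative, Polynomial.coeff_sub, Polynomial.finsetSum_coeff,
        Polynomial.coeff_C_mul] at e1
      rw [Nat.factorial_succ]
      push_cast
      have e2 : ∑ l, A i l * ((j.factorial : k) * (y l).coeff j) =
          (j.factorial : k) * ∑ l, A i l * (y l).coeff j := by
        rw [Finset.mul_sum]
        exact Finset.sum_congr rfl fun l _ => by ring
      rw [e2]
      linear_combination (-(j.factorial : k)) * e1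
  have hy0 : (fun i => (y i).coeff 0) = fun i => eval x0 (tup f i) := by
    funext i
    rw [Polynomial.coeff_zero_eq_eval_zero]
    change Polynomial.evalRingHom 0 (aeval x (tup f i)) = _
    rw [aeval_def, hom_eval₂]
    have e1 : (Polynomial.evalRingHom (0 : k)).comp (algebraMap k (Polynomial k)) =
        RingHom.id k := by
      ext a
      simp
    rw [e1]
    congr 1
    funext l
    rw [Polynomial.coe_evalRingHom, ← Polynomial.coeff_zero_eq_eval_zero, hx]
    simp
  rw [← hy0, hcoef, hcoef]
  have htop := fun i => aeval_top (tup_homog f i) x hxd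
  constructor
  · funext i
    rw [Polynomial.coeff_eq_zero_of_natDegree_lt (lt_of_le_of_lt (htop i).1 (Nat.lt_succ_self _))]
    simp
  · intro hcon
    have e1 : (fun i => (x i).coeff M) = 0 := by
      apply hf
      intro i
      rw [← (htop i).2]
      have := congrFun hcon i
      simp only [Pi.zero_apply] at this
      exact (mul_eq_zero.mp this).resolve_left (by exact_mod_cast Nat.factorial_ne_zero _)
    apply h2
    funext i
    have e2 := congrFun e1 i
    simp only [hx, Pi.zero_apply] at e2
    exact (mul_eq_zero.mp e2).resolve_left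
      (inv_ne_zero (by exact_mod_cast Nat.factorial_ne_zero _))

end

end Pool.Agent.Helper819.Dyn
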