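import Pool.Agent.Helper819.Lower2

/-!
Zariski density of continued fractions with integral partial quotients.
-/

open MvPolynomial

namespace Pool.Agent.Helper819.Dyn

open Pool.Agent.Helper819.Zar

noncomputable section

variable {k : Type} [Field k]

theorem eval_poly {ι : Type} (a : ι → Polynomial k) (P : MvPolynomial ι k) (t : k) :
    eval (fun i => (a i).eval t) P = (aeval a P : Polynomial k).eval t := by
  induction P using MvPolynomial.induction_on with
  | C c => simp
  | add p q hp hq => simp [hp, hq]
  | mul_X p i hp => simp [hp]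

theorem vanish {ι : Type} (a : ι → Polynomial k) (P : MvPolynomial ι k) (S : Set k)
    (hS : S.Infinite) (h : ∀ t ∈ S, eval (fun i => (a i).eval t) P = 0) (t : k) :
    eval (fun i => (a i).eval t) P = 0 := by
  have h0 : (aeval a P : Polynomial k) = 0 := by
    apply Polynomial.eq_zero_of_infinite_isRoot
    apply hS.mono
    intro s hs
    have := h s hs
    rw [eval_poly] at this
    exact this
  rw [eval_poly, h0, Polynomial.eval_zero]

/-- A version with an affine-linear dependence on `t`. -/
theorem vanish_affine {ι : Type} (u v : ι → k) (P : MvPolynomial ι k) (S : Set k)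
    (hS : S.Infinite) (h : ∀ t ∈ S, eval (fun i => t * u i + v i) P = 0) (t : k) :
    eval (fun i => t * u i + v i) P = 0 := by
  have key : ∀ s : k, (fun i => Polynomial.eval s
      (Polynomial.X * Polynomial.C (u i) + Polynomial.C (v i))) = fun i => s * u i + v i := by
    intro s
    funext i
    simp only [Polynomial.eval_add, Polynomial.eval_mul, Polynomial.eval_X, Polynomial.eval_C]
  have := vanish (fun i => Polynomial.X * Polynomial.C (u i) + Polynomial.C (v i)) P S hS (by
    intro s hs
    rw [key]
    exact h s hs) t
  rw [key] at this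
  exact this

/-- Coordinates of a pair of polynomials. -/
def cc (G R : Polynomial k) : Fin (1 + 1) × ℕ → k :=
  fun p => if p.1 = 0 then G.coeff p.2 else R.coeff p.2

theorem cc_affine (t : k) (G G' R R' : Polynomial k) :
    cc (Polynomial.C t * G + G') (Polynomial.C t * R + R') =
      fun p => t * cc G R p + cc G' R' p := by
  funext p
  unfold cc
  split_ifs <;> simp

theorem vanish_cc (G G' R R' : Polynomial k) (P : MvPolynomial (Fin (1 + 1) × ℕ) k) (S : Set k)
    (hS : S.Infinite)
    (h : ∀ t ∈ S, eval (cc (Polynomial.C t * G + G') (Polynomial.C t * R + R')) P = 0) (t : k) :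
    eval (cc (Polynomial.C t * G + G') (Polynomial.C t * R + R')) P = 0 := by
  rw [cc_affine]
  apply vanish_affine _ _ _ S hS
  intro s hs
  rw [← cc_affine]
  exact h s hs

/-- Numerators of continued fractions. -/
def cf : List (ℕ × ℤ) → ℕ → Polynomial ℤ × Polynomial ℤ
  | [], i => (Polynomial.C (2 ^ i), 0)
  | (a, n) :: l, i =>
    ((Polynomial.C (2 ^ a) * Polynomial.X + Polynomial.C n) * (cf l i).1 + (cf l i).2, (cf l i).1)

/-- substitution -/
def psi (u n : k) : Fin (1 + 1) × ℕ → MvPolynomial (Fin (1 + 1) × ℕ) k :=
  fun p => if p.1 = 0 then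
      (if p.2 = 0 then 0 else C u * X (0, p.2 - 1)) + C n * X (0, p.2) + X (1, p.2)
    else X (0, p.2)

theorem eval_psi (u n : k) (G R : Polynomial k) (P : MvPolynomial (Fin (1 + 1) × ℕ) k) :
    eval (cc G R) (bind₁ (psi u n) P) =
      eval (cc ((Polynomial.C u * Polynomial.X + Polynomial.C n) * G + R) G) P := by
  rw [eval_bind]
  congr 1
  congr 1
  funext p
  obtain ⟨s, m⟩ := p
  unfold psi cc
  simp only
  split_ifs with h1 h2
  · subst h2
    simp [add_mul, mul_assoc]
  · obtain ⟨m, rfl⟩ : ∃ m', m = m' + 1 := ⟨m - 1, by omega⟩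
    simp [add_mul, mul_assoc, Polynomial.coeff_X_mul]
  · simp

/-- substitution for the last step -/
def psi' (m : k) : Fin (1 + 1) × ℕ → MvPolynomial (Fin (1 + 1) × ℕ) k :=
  fun p => if p.1 = 0 then C m * X (0, p.2) + X (1, p.2) else X (0, p.2)

theorem eval_psi' (m : k) (G R : Polynomial k) (P : MvPolynomial (Fin (1 + 1) × ℕ) k) :
    eval (cc G R) (bind₁ (psi' m) P) = eval (cc (Polynomial.C m * G + R) G) P := by
  rw [eval_bind]
  congr 1
  congr 1
  funext p
  obtain ⟨s, n⟩ := p
  unfold psi' cc
  simp only
  split_ifs with h1 <;> simp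

variable [CharZero k]

theorem two_pow_infinite : (Set.range (fun a : ℕ => ((2 ^ a : ℤ) : k))).Infinite := by
  apply Set.infinite_range_of_injective
  intro a b h
  simp only at h
  have : (2 : ℤ) ^ a = 2 ^ b := Int.cast_injective h
  exact Int.pow_right_injective (by norm_num) this

theorem int_infinite : (Set.range (fun n : ℤ => (n : k))).Infinite :=
  Set.infinite_range_of_injective Int.cast_injective

theorem vanish_step {d : ℕ} (P : MvPolynomial (Fin (1 + 1) × ℕ) k)
    (h : ∀ (a : ℕ) (n : ℤ) (G R : Polynomial k), G.natDegree ≤ d → R.degree < d →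
      eval (cc ((Polynomial.C ((2 ^ a : ℤ) : k) * Polynomial.X + Polynomial.C (n : k)) * G + R) G)
        P = 0)
    (G R : Polynomial k) (hG : G.natDegree ≤ d + 1) (hR : R.degree < ((d + 1 : ℕ) : WithBot ℕ)) :
    eval (cc G R) P = 0 := by
  have h1 : ∀ (u : k) (n : ℤ) (G R : Polynomial k), G.natDegree ≤ d → R.degree < d →
      eval (cc ((Polynomial.C u * Polynomial.X + Polynomial.C (n : k)) * G + R) G) P = 0 := by
    intro u n G R hG hR
    have := vanish_cc (Polynomial.X * G) (Polynomial.C (n : k) * G + R) 0 G P _
      (two_pow_infinite (k := k)) (by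
        rintro _ ⟨a, rfl⟩
        rw [← h a n G R hG hR]
        congr 3
        · ring
        · simp) u
    rw [← this]
    congr 3
    · ring
    · simp
  have h2 : ∀ (u n : k) (G R : Polynomial k), G.natDegree ≤ d → R.degree < d →
      eval (cc ((Polynomial.C u * Polynomial.X + Polynomial.C n) * G + R) G) P = 0 := by
    intro u n G R hG hR
    have := vanish_cc G (Polynomial.C u * Polynomial.X * G + R) 0 G P _
      (int_infinite (k := k)) (by
        rintro _ ⟨m, rfl⟩
        rw [← h1 u m G R hG hR]
        congr 3
        · ring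
        · simp) n
    rw [← this]
    congr 3
    · ring
    · simp
  have h3 : ∀ (G R : Polynomial k), G.natDegree ≤ d + 1 → R.natDegree ≤ d →
      R.coeff d ≠ 0 → eval (cc G R) P = 0 := by
    intro G R hG hR hRd
    obtain ⟨u, hu⟩ : ∃ u : k, u * R.coeff d = G.coeff (d + 1) :=
      ⟨G.coeff (d + 1) / R.coeff d, by field_simp⟩
    obtain ⟨n, hn⟩ : ∃ n : k, n * R.coeff d =
        (G - Polynomial.C u * Polynomial.X * R).coeff d :=
      ⟨(G - Polynomial.C u * Polynomial.X * R).coeff d / R.coeff d, by field_simp⟩
    have hdeg : (G - (Polynomial.C u * Polynomial.X + Polynomial.C n) * R).degree <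
        ((d : ℕ) : WithBot ℕ) := by
      rw [Polynomial.degree_lt_iff_coeff_zero]
      intro m hm
      rcases Nat.lt_or_ge m (d + 1) with h4 | h4
      · have : m = d := by omega
        subst this
        have e : G - (Polynomial.C u * Polynomial.X + Polynomial.C n) * R =
          (G - Polynomial.C u * Polynomial.X * R) - Polynomial.C n * R := by ring
        rw [e, Polynomial.coeff_sub, ← hn, Polynomial.coeff_C_mul, sub_self]
      · rcases Nat.lt_or_ge m (d + 2) with h5 | h5
        · have : m = d + 1 := by omega
          subst this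
          rw [Polynomial.coeff_sub, add_mul, mul_assoc, Polynomial.coeff_add,
            Polynomial.coeff_C_mul, Polynomial.coeff_X_mul, Polynomial.coeff_C_mul, hu,
            Polynomial.coeff_eq_zero_of_natDegree_lt (by omega : R.natDegree < d + 1)]
          simp
        · obtain ⟨m, rfl⟩ : ∃ m', m = m' + 1 := ⟨m - 1, by omega⟩
          rw [Polynomial.coeff_sub, add_mul, mul_assoc, Polynomial.coeff_add,
            Polynomial.coeff_C_mul, Polynomial.coeff_X_mul, Polynomial.coeff_C_mul,
            Polynomial.coeff_eq_zero_of_natDegree_lt (by omega : R.natDegree < m + 1),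
            Polynomial.coeff_eq_zero_of_natDegree_lt (by omega : R.natDegree < m),
            Polynomial.coeff_eq_zero_of_natDegree_lt (by omega : G.natDegree < m + 1)]
          simp
    have := h2 u n R (G - (Polynomial.C u * Polynomial.X + Polynomial.C n) * R) hR hdeg
    rw [← this]
    congr 3
    ring
  have hR' : R.natDegree ≤ d := by
    rw [Polynomial.natDegree_le_iff_degree_le]
    exact Order.le_of_lt_succ (by simpa [Order.succ] using! hR)
  by_cases hRd : R.coeff d = 0
  · have := vanish_cc 0 G (Polynomial.X ^ d) R P {t | t ≠ 0} (by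
      have : Infinite k := inferInstance
      exact (Set.finite_singleton (0 : k)).infinite_compl) (by
        intro t ht
        apply h3
        · simpa using hG
        · refine (Polynomial.natDegree_add_le _ _).trans (max_le ?_ hR')
          exact (Polynomial.natDegree_C_mul_le _ _).trans (Polynomial.natDegree_X_pow_le _)
        · rw [Polynomial.coeff_add, Polynomial.coeff_C_mul, Polynomial.coeff_X_pow, hRd]
          simpa using ht) 0
    simpa using this
  · exact h3 G R hG hR' hRd

/-- A polynomial vanishing on all continued fractions vanishes everywhere. -/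
theorem vanish_cf : ∀ (d : ℕ) (P : MvPolynomial (Fin (1 + 1) × ℕ) k),
    (∀ (l : List (ℕ × ℤ)) (i : ℕ), l.length = d →
      eval (cc ((cf l i).1.map (Int.castRingHom k)) ((cf l i).2.map (Int.castRingHom k))) P = 0) →
    ∀ G R : Polynomial k, G.natDegree ≤ d → R.degree < d → eval (cc G R) P = 0 := by
  intro d
  induction d with
  | zero =>
    intro P h G R hG hR
    have hR0 : R = 0 := by
      rw [← Polynomial.degree_eq_bot]
      exact Nat.WithBot.lt_zero_iff.mp (by simpa using hR)
    have hG0 : G = Polynomial.C (G.coeff 0) := Polynomial.eq_C_of_natDegree_le_zero hG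
    have := vanish_cc 1 0 0 0 P _ (two_pow_infinite (k := k)) (by
      rintro _ ⟨a, rfl⟩
      rw [← h [] a rfl]
      unfold cf
      congr 3
      · simp [map_ofNat]
      · simp) (G.coeff 0)
    rw [hR0, hG0, ← this]
    congr 3
    · simp
    · simp
  | succ d ih =>
    intro P h G R hG hR
    refine vanish_step P ?_ G R hG hR
    intro a n G' R' hG' hR'
    have := ih (bind₁ (psi ((2 ^ a : ℤ) : k) (n : k)) P) (by
      intro l i hl
      rw [eval_psi]
      have h1 := h ((a, n) :: l) i (by simp [hl])
      rw [← h1]
      conv_rhs => unfold cf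
      congr 3
      simp [map_ofNat]) G' R' hG' hR'
    rw [eval_psi] at this
    exact this

/-- A polynomial vanishing on all `(m G + R, G)` with `(G, R)` a continued fraction and `m`
integral vanishes everywhere. -/
theorem vanish_cf' (d : ℕ) (P : MvPolynomial (Fin (1 + 1) × ℕ) k)
    (h : ∀ (m : ℤ) (l : List (ℕ × ℤ)) (i : ℕ), l.length = d →
      eval (cc ((Polynomial.C m * (cf l i).1 + (cf l i).2).map (Int.castRingHom k))
        ((cf l i).1.map (Int.castRingHom k))) P = 0)
    (F G : Polynomial k) (hF : F.natDegree ≤ d) (hG : G.natDegree ≤ d) :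
    eval (cc F G) P = 0 := by
  have h1 : ∀ (m : ℤ) (G R : Polynomial k), G.natDegree ≤ d → R.degree < d →
      eval (cc (Polynomial.C (m : k) * G + R) G) P = 0 := by
    intro m G R hG hR
    rw [← eval_psi']
    refine vanish_cf d _ ?_ G R hG hR
    intro l i hl
    rw [eval_psi', ← h m l i hl]
    congr 3
    simp
  have h2 : ∀ (m : k) (G R : Polynomial k), G.natDegree ≤ d → R.degree < d →
      eval (cc (Polynomial.C m * G + R) G) P = 0 := by
    intro m G R hG hR
    have := vanish_cc G R 0 G P _ (int_infinite (k := k)) (by
      rintro _ ⟨n, rfl⟩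
      rw [← h1 n G R hG hR]
      congr 3
      simp) m
    rw [← this]
    congr 3
    simp
  have h3 : ∀ (F G : Polynomial k), F.natDegree ≤ d → G.natDegree ≤ d → G.coeff d ≠ 0 →
      eval (cc F G) P = 0 := by
    intro F G hF hG hGd
    have hdeg : (F - Polynomial.C (F.coeff d / G.coeff d) * G).degree <
        ((d : ℕ) : WithBot ℕ) := by
      rw [Polynomial.degree_lt_iff_coeff_zero]
      intro m hm
      rcases Nat.lt_or_ge m (d + 1) with h4 | h4
      · have : m = d := by omega
        subst this
        rw [Polynomial.coeff_sub, Polynomial.coeff_C_mul]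
        field_simp
        ring
      · rw [Polynomial.coeff_sub, Polynomial.coeff_C_mul,
          Polynomial.coeff_eq_zero_of_natDegree_lt (by omega : F.natDegree < m),
          Polynomial.coeff_eq_zero_of_natDegree_lt (by omega : G.natDegree < m)]
        simp
    have := h2 (F.coeff d / G.coeff d) G _ hG hdeg
    rw [← this]
    congr 3
    ring
  by_cases hGd : G.coeff d = 0
  · have := vanish_cc 0 F (Polynomial.X ^ d) G P {t | t ≠ 0} (by
      exact (Set.finite_singleton (0 : k)).infinite_compl) (by
        intro t ht
        apply h3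
        · simpa using hF
        · refine (Polynomial.natDegree_add_le _ _).trans (max_le ?_ hG)
          exact (Polynomial.natDegree_C_mul_le _ _).trans (Polynomial.natDegree_X_pow_le _)
        · rw [Polynomial.coeff_add, Polynomial.coeff_C_mul, Polynomial.coeff_X_pow, hGd]
          simpa using ht) 0
    simpa using this
  · exact h3 F G hF hG hGd

end

end Pool.Agent.Helper819.Dyn
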