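import Pool.Agent.Helper819.Tan

/-!
Field-theoretic descent: derivations and embeddings.
-/

open MvPolynomial

namespace Pool.Agent.Helper819.Dyn

noncomputable section

set_option linter.unusedSectionVars false

/-- dual numbers, without algebra structures -/
def DN (L : Type) [Field L] : Type := DualNumber L

instance (L : Type) [Field L] : CommRing (DN L) := inferInstanceAs (CommRing (DualNumber L))

variable {k L ι : Type} [Field k] [Field L] [Algebra k L] [Fintype ι]

/-- projection -/
def fstDN (L : Type) [Field L] : DN L →+* L := (TrivSqZeroExt.fstHom L L L).toRingHom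

theorem fstDN_surj : Function.Surjective (fstDN L) := fun a => ⟨TrivSqZeroExt.inl a, rfl⟩

theorem mul_zero_of_fst (a b : DualNumber L) (ha : a.fst = 0) (hb : b.fst = 0) : a * b = 0 := by
  apply TrivSqZeroExt.ext
  · rw [TrivSqZeroExt.fst_mul, ha, zero_mul]; rfl
  · rw [DualNumber.snd_mul, ha, hb, zero_mul, mul_zero, add_zero]; rfl

theorem fstDN_nil : IsNilpotent (RingHom.ker (fstDN L)) := by
  refine ⟨2, ?_⟩
  rw [pow_two]
  change _ = (⊥ : Ideal (DN L))
  rw [eq_bot_iff, Ideal.mul_le]
  intro a ha b hb
  rw [RingHom.mem_ker] at ha hb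
  have ha' : TrivSqZeroExt.fst (R := L) (M := L) a = 0 := ha
  have hb' : TrivSqZeroExt.fst (R := L) (M := L) b = 0 := hb
  have h0 : (a : DN L) * b = 0 := by
    exact mul_zero_of_fst a b ha' hb'
  rw [h0]
  exact zero_mem _

theorem ext_of_smooth {K : Type} [Field K] [Algebra K L] [Algebra.FormallySmooth K L]
    (g : K →+* DualNumber L) (hg : ∀ a, (g a).fst = algebraMap K L a) :
    ∃ φ : L →+* DualNumber L, (∀ a, (φ a).fst = a) ∧ ∀ a, φ (algebraMap K L a) = g a := by
  let _ : Algebra K (DN L) := RingHom.toAlgebra (S := DN L) g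
  let g' : DN L →ₐ[K] L := { fstDN L with commutes' := hg }
  let φ : L →ₐ[K] DN L := Algebra.FormallySmooth.liftOfSurjective (AlgHom.id K L) g'
    fstDN_surj fstDN_nil
  refine ⟨φ.toRingHom, ?_, ?_⟩
  · intro a
    exact Algebra.FormallySmooth.liftOfSurjective_apply (AlgHom.id K L) g'
      fstDN_surj fstDN_nil a
  · intro a
    exact φ.commutes a

theorem aeval_dual (x v : ι → L) (P : MvPolynomial ι k) :
    aeval (fun p => algebraMap L (DualNumber L) (x p) +
      DualNumber.eps * algebraMap L (DualNumber L) (v p)) P =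
      algebraMap L (DualNumber L) (aeval x P) +
        DualNumber.eps * algebraMap L (DualNumber L) (∑ p, v p * aeval x (pderiv p P)) := by
  have h1 := eval_eps (R := L) (DualNumber.eps : DualNumber L) DualNumber.eps_mul_eps x v
    (map (algebraMap k L) P)
  rw [aeval_map_algebraMap] at h1
  rw [h1]
  have h2 : ∀ Q : MvPolynomial ι k, eval x (map (algebraMap k L) Q) = aeval x Q := by
    intro Q
    rw [eval_map, aeval_def]
  simp_rw [h2, pderiv_map, h2]

open scoped IntermediateField.algebraAdjoinAdjoin in
theorem exists_dual_adjoin (x v : ι → L)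
    (h : ∀ P : MvPolynomial ι k, aeval x P = 0 → ∑ p, v p * aeval x (pderiv p P) = 0) :
    ∃ g : IntermediateField.adjoin k (Set.range x) →+* DualNumber L,
      (∀ a, (g a).fst = a) ∧ (∀ (p : ι) (y : IntermediateField.adjoin k (Set.range x)),
        (y : L) = x p → g y = algebraMap L (DualNumber L) (x p) +
          DualNumber.eps * algebraMap L (DualNumber L) (v p)) ∧
      ∀ a : k, g (algebraMap k _ a) = algebraMap k (DualNumber L) a := by
  let A0 := Algebra.adjoin k (Set.range x)
  let ψ : MvPolynomial ι k →ₐ[k] DualNumber L := aeval (fun p => algebraMap L (DualNumber L) (x p) +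
      DualNumber.eps * algebraMap L (DualNumber L) (v p))
  let f : MvPolynomial ι k →ₐ[k] A0 := aeval (fun p => (⟨x p, Algebra.subset_adjoin ⟨p, rfl⟩⟩ : A0))
  have hf : ∀ P, ((f P : A0) : L) = aeval x P := by
    intro P
    exact comp_aeval_apply (fun p => (⟨x p, Algebra.subset_adjoin ⟨p, rfl⟩⟩ : A0)) A0.val P
  have hfs : Function.Surjective f := by
    rintro ⟨y, hy⟩
    have hy' : y ∈ Algebra.adjoin k (Set.range x) := hy
    rw [Algebra.adjoin_range_eq_range_aeval] at hy'
    obtain ⟨P, hP⟩ := hy'
    exact ⟨P, Subtype.ext ((hf P).trans hP)⟩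
  have hker : RingHom.ker f.toRingHom ≤ RingHom.ker ψ.toRingHom := by
    intro P hP
    have h1 : aeval x P = 0 := by
      rw [← hf]
      have : f P = 0 := hP
      rw [this]; rfl
    change ψ P = 0
    change aeval _ P = 0
    rw [aeval_dual, h1, h P h1]
    simp
  let g0 : A0 →ₐ[k] DualNumber L := AlgHom.liftOfSurjective f hfs ψ hker
  have hg0 : ∀ P, g0 (f P) = ψ P := AlgHom.liftOfSurjective_apply f hfs ψ hker
  have hg0f : ∀ a : A0, (g0 a).fst = a := by
    intro a
    obtain ⟨P, rfl⟩ := hfs a
    rw [hg0, hf]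
    change TrivSqZeroExt.fst (aeval _ P) = _
    rw [aeval_dual, fst_form]
  have hunit : ∀ y : nonZeroDivisors A0, IsUnit (g0.toRingHom y) := by
    rintro ⟨y, hy⟩
    rw [TrivSqZeroExt.isUnit_iff_isUnit_fst]
    change IsUnit ((g0 y).fst)
    rw [hg0f]
    rw [isUnit_iff_ne_zero]
    intro h0
    exact nonZeroDivisors.ne_zero hy (Subtype.ext h0)
  let g : IntermediateField.adjoin k (Set.range x) →+* DualNumber L :=
    IsLocalization.lift (M := nonZeroDivisors A0) hunit
  have hg : ∀ a : A0, g (algebraMap A0 _ a) = g0 a := fun a => IsLocalization.lift_eq hunit a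
  refine ⟨g, ?_, ?_, ?_⟩
  · have h1 : (TrivSqZeroExt.fstHom L L L).toRingHom.comp g =
        (IntermediateField.adjoin k (Set.range x)).val.toRingHom := by
      apply IsLocalization.ringHom_ext (nonZeroDivisors A0)
      ext a
      change (g (algebraMap A0 _ a)).fst = _
      rw [hg, hg0f]
      rfl
    intro a
    exact congrFun (congrArg DFunLike.coe h1) a
  · intro p y hy
    have h1 : y = algebraMap A0 (IntermediateField.adjoin k (Set.range x)) (f (X p)) := by
      apply Subtype.ext
      rw [hy, IntermediateField.algebraAdjoinAdjoin.coe_algebraMap, hf, aeval_X]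
    rw [h1, hg, hg0]
    change aeval _ (X p) = _
    rw [aeval_X]
  · intro a
    have h1 : algebraMap k (IntermediateField.adjoin k (Set.range x)) a =
        algebraMap A0 (IntermediateField.adjoin k (Set.range x)) (algebraMap k A0 a) := rfl
    rw [h1, hg, AlgHom.commutes]

theorem exists_dual_ext [CharZero k] [Algebra.EssFiniteType k L] (x v : ι → L)
    (h : ∀ P : MvPolynomial ι k, aeval x P = 0 → ∑ p, v p * aeval x (pderiv p P) = 0) :
    ∃ φ : L →+* DualNumber L, (∀ a, (φ a).fst = a) ∧
      (∀ a : k, φ (algebraMap k L a) = algebraMap k (DualNumber L) a) ∧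
      ∀ p, (φ (x p)).snd = v p := by
  obtain ⟨g, hg1, hg2, hg3⟩ := exists_dual_adjoin x v h
  have : Algebra.EssFiniteType (IntermediateField.adjoin k (Set.range x)) L :=
    Algebra.EssFiniteType.of_comp k _ L
  obtain ⟨φ, h1, h2⟩ := ext_of_smooth g hg1
  refine ⟨φ, h1, ?_, ?_⟩
  · intro a
    have := h2 (algebraMap k _ a)
    rw [hg3] at this
    exact this
  · intro p
    have h3 := h2 ⟨x p, IntermediateField.subset_adjoin _ _ ⟨p, rfl⟩⟩
    have h4 : algebraMap (IntermediateField.adjoin k (Set.range x)) L
        ⟨x p, IntermediateField.subset_adjoin _ _ ⟨p, rfl⟩⟩ = x p := rfl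
    rw [h4, hg2 p _ rfl] at h3
    rw [h3, snd_form]

/-- the ring hom given by a derivation -/
def dhom {K : Type} [Field K] [Algebra K L] (δ : Derivation K L L) : L →+* DualNumber L where
  toFun a := (a, δ a)
  map_one' := by
    apply TrivSqZeroExt.ext
    · rfl
    · change δ 1 = 0
      exact δ.map_one_eq_zero
  map_mul' a b := by
    apply TrivSqZeroExt.ext
    · rfl
    · rw [DualNumber.snd_mul]
      change δ (a * b) = a * δ b + δ a * b
      rw [Derivation.leibniz]
      simp only [smul_eq_mul]
      ring
  map_zero' := by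
    apply TrivSqZeroExt.ext
    · rfl
    · change δ 0 = 0
      exact map_zero δ
  map_add' a b := by
    apply TrivSqZeroExt.ext
    · rfl
    · change δ (a + b) = δ a + δ b
      exact map_add δ a b

theorem sep_of_unram [Algebra.EssFiniteType k L] (x : ι → L)
    (h : ∀ φ : L →+* DualNumber L, (∀ a, (φ a).fst = a) →
      (∀ a : k, φ (algebraMap k L a) = algebraMap k (DualNumber L) a) →
      (∀ p, (φ (x p)).snd = 0) → ∀ a, (φ a).snd = 0) :
    Algebra.IsSeparable (IntermediateField.adjoin k (Set.range x)) L := by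
  let K := IntermediateField.adjoin k (Set.range x)
  have : Algebra.EssFiniteType K L := Algebra.EssFiniteType.of_comp k _ L
  have h1 : ∀ δ : Derivation K L L, ∀ a, δ a = 0 := by
    intro δ
    apply h (dhom δ)
    · intro a; rfl
    · intro a
      apply TrivSqZeroExt.ext
      · rfl
      · change δ (algebraMap k L a) = 0
        have h2 : algebraMap k L a = algebraMap K L (algebraMap k K a) := rfl
        rw [h2]
        exact δ.map_algebraMap _
    · intro p
      change δ (x p) = 0
      have h2 : x p = algebraMap K L ⟨x p, IntermediateField.subset_adjoin _ _ ⟨p, rfl⟩⟩ := rfl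
      rw [h2]
      exact δ.map_algebraMap _
  have h2 : Subsingleton (Ω[L⁄K]) := by
    refine ⟨fun a b => ?_⟩
    rw [← sub_eq_zero]
    rw [← Module.forall_dual_apply_eq_zero_iff L]
    intro φ
    have h3 : φ = 0 := by
      apply (KaehlerDifferential.linearMapEquivDerivation K L).injective
      rw [map_zero]
      ext a
      exact h1 _ a
    rw [h3]
    rfl
  have h3 : Algebra.FormallyUnramified K L := ⟨h2⟩
  exact Algebra.FormallyUnramified.isSeparable K L

theorem mem_of_embeddings (x : ι → L)
    [Algebra.IsSeparable (IntermediateField.adjoin k (Set.range x)) L] (b : L)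
    (h : ∀ σ : L →+* AlgebraicClosure L, (∀ a : k, σ (algebraMap k L a) = algebraMap k _ a) →
      (∀ p, σ (x p) = algebraMap L _ (x p)) → σ b = algebraMap L _ b) :
    ∃ P Q : MvPolynomial ι k, aeval x Q ≠ 0 ∧ b * aeval x Q = aeval x P := by
  let K := IntermediateField.adjoin k (Set.range x)
  have hb : b ∈ K := by
    have h1 : (minpoly K b).rootSet (AlgebraicClosure L) = {algebraMap L _ b} := by
      rw [← Algebra.IsAlgebraic.range_eval_eq_rootSet_minpoly (AlgebraicClosure L) b]
      ext y
      constructor
      · rintro ⟨σ, rfl⟩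
        change σ b = _
        apply h σ.toRingHom
        · intro a
          exact σ.commutes (algebraMap k K a)
        · intro p
          exact σ.commutes (⟨x p, IntermediateField.subset_adjoin _ _ ⟨p, rfl⟩⟩ : K)
      · rintro rfl
        exact ⟨IsScalarTower.toAlgHom K L (AlgebraicClosure L), rfl⟩
    have h2 : (minpoly K b).natDegree = 1 := by
      rw [← Polynomial.card_rootSet_eq_natDegree (K := AlgebraicClosure L)
        (Algebra.IsSeparable.isSeparable K b) (IsAlgClosed.splits _)]
      have : Fintype.card ((minpoly K b).rootSet (AlgebraicClosure L)) =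
          Fintype.card ({algebraMap L (AlgebraicClosure L) b} : Set (AlgebraicClosure L)) := by
        apply Fintype.card_congr
        rw [h1]
      rw [this]
      simp
    obtain ⟨c, hc⟩ := minpoly.natDegree_eq_one_iff.mp h2
    rw [← hc]
    exact c.2
  obtain ⟨P, Q, hPQ⟩ := (IntermediateField.mem_adjoin_range_iff k x b).mp hb
  by_cases hQ : aeval x Q = 0
  · rw [hQ, div_zero] at hPQ
    exact ⟨0, 1, by simp, by rw [hPQ]; simp⟩
  · refine ⟨P, Q, hQ, ?_⟩
    rw [hPQ]
    field_simp

end

end Pool.Agent.Helper819.Dyn
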