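import Pool.Agent.Helper819.LieInj

/-!
Automorphisms are diagonalizable.
-/

open MvPolynomial

namespace Pool.Agent.Helper819.Dyn

open Pool.Agent.Helper819.Apolar

noncomputable section

set_option linter.unusedSectionVars false

variable {k : Type} [Field k] {N d : ℕ}

theorem stab_eq {f : Ix N d → k} {A : Matrix (Fin (N + 1)) (Fin (N + 1)) k}
    (hA : actT A f = f) (x : Fin (N + 1) → k) (i : Fin (N + 1)) :
    A.det * eval (A.mulVec x) (tup f i) = ∑ j, A i j * eval x (tup f j) := by
  have h1 : act A (tup f) = tup f := by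
    rw [← tup_actT, hA]
  have h2 := eval_act_vec A (tup f) x
  rw [h1] at h2
  have h3 : A.mulVec (fun i => eval x (tup f i)) =
      A.det • (fun i => eval (A.mulVec x) (tup f i)) := by
    rw [h2, Matrix.mulVec_mulVec, Matrix.mul_adjugate, Matrix.smul_mulVec, Matrix.one_mulVec]
  have h4 := congrFun h3 i
  simp only [Pi.smul_apply, smul_eq_mul] at h4
  rw [← h4]
  rfl

theorem pow_sub_one_apply (T : Module.End k (Fin (N + 1) → k)) (y0 : Fin (N + 1) → k)
    (P : Fin (N + 1) → Polynomial k) (hP : ∀ (j : ℕ) i, (P i).eval (j : k) = (T ^ j) y0 i)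
    (n : ℕ) (i : Fin (N + 1)) :
    ((T - 1) ^ n) y0 i = ((fwdDiff (1 : k))^[n] (P i).eval) 0 := by
  rw [fwdDiff_iter_eq_sum_shift, sub_eq_add_neg, (Commute.neg_one_right T).add_pow,
    LinearMap.sum_apply, Finset.sum_apply]
  refine Finset.sum_congr rfl fun m _ => ?_
  have h1 : (0 : k) + m • (1 : k) = (m : k) := by simp
  rw [h1, hP]
  have h2 : T ^ m * (-1) ^ (n - m) * (n.choose m : Module.End k (Fin (N + 1) → k)) =
      (((-1 : k) ^ (n - m) * (n.choose m : k)) • T ^ m) := by
    rw [mul_assoc]
    have h3 : ((-1 : Module.End k (Fin (N + 1) → k)) ^ (n - m) * (n.choose m)) =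
        ((-1 : k) ^ (n - m) * (n.choose m : k)) • 1 := by
      rw [← Algebra.algebraMap_eq_smul_one]
      simp
    rw [h3, mul_smul_comm, mul_one]
  rw [h2]
  simp only [LinearMap.smul_apply, Pi.smul_apply, smul_eq_mul, zsmul_eq_mul]
  push_cast
  ring

variable [CharZero k]

theorem stepB {f : Ix N d → k} (hf : NZ (tup f)) (A : Matrix (Fin (N + 1)) (Fin (N + 1)) k)
    (hdet : A.det ≠ 0) (hA : actT A f = f) (μ : k) (M : ℕ) (x0 : Fin (N + 1) → k)
    (h1 : ((gg A μ) ^ (M + 1)) x0 = 0) (h2 : ((gg A μ) ^ M) x0 ≠ 0) :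
    ((gg A (A.det * μ ^ d)) ^ (d * M + 1)) (fun i => eval x0 (tup f i)) = 0 ∧
    ((gg A (A.det * μ ^ d)) ^ (d * M)) (fun i => eval x0 (tup f i)) ≠ 0 := by
  -- the eigenvalue is not zero
  have hμ : μ ≠ 0 := by
    rintro rfl
    have e1 : ∀ j : ℕ, ∀ x : Fin (N + 1) → k, ((gg A 0) ^ j) x = 0 → x = 0 := by
      intro j
      induction j with
      | zero => intro x hx; simpa using hx
      | succ j ih =>
        intro x hx
        rw [pow_succ, Module.End.mul_apply] at hx
        have e2 := ih _ hx
        have e3 : A.mulVec x = 0 := by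
          rw [← e2]
          simp [gg]
        exact Matrix.eq_zero_of_mulVec_eq_zero hdet e3
    have e2 := e1 _ _ h1
    rw [e2, map_zero] at h2
    exact h2 rfl
  set μ' := A.det * μ ^ d with hμ'
  have hμ'0 : μ' ≠ 0 := mul_ne_zero hdet (pow_ne_zero _ hμ)
  have hzero : ∀ j, M + 1 ≤ j → ((gg A μ) ^ j) x0 = 0 := by
    intro j hj
    obtain ⟨t, rfl⟩ := Nat.exists_eq_add_of_le hj
    rw [add_comm (M + 1) t, pow_add, Module.End.mul_apply, h1, map_zero]
  -- the curve
  let a : ℕ → Fin (N + 1) → k := fun j l => (μ⁻¹) ^ j * ((gg A μ) ^ j) x0 l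
  let x : Fin (N + 1) → Polynomial k := fun l =>
    ∑ j ∈ Finset.range (M + 1), Polynomial.C ((j.factorial : k)⁻¹ * a j l) *
      descPochhammer k j
  have hxeval : ∀ (t : ℕ) l, (x l).eval (t : k) =
      ∑ j ∈ Finset.range (M + 1), (t.choose j : k) * a j l := by
    intro t l
    change (∑ j ∈ Finset.range (M + 1), Polynomial.C ((j.factorial : k)⁻¹ * a j l) *
      descPochhammer k j).eval (t : k) = _
    rw [Polynomial.eval_finsetSum]
    refine Finset.sum_congr rfl fun j _ => ?_
    rw [Polynomial.eval_mul, Polynomial.eval_C, descPochhammer_eval_eq_descFactorial,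
      Nat.descFactorial_eq_factorial_mul_choose]
    have hj' : (j.factorial : k) ≠ 0 := by exact_mod_cast Nat.factorial_ne_zero j
    push_cast
    field_simp
  have hxd : ∀ l, (x l).natDegree ≤ M := by
    intro l
    refine Polynomial.natDegree_sum_le_of_forall_le _ _ fun j hj => ?_
    refine (Polynomial.natDegree_C_mul_le _ _).trans ?_
    rw [descPochhammer_natDegree]
    have := Finset.mem_range.mp hj
    omega
  have hxM : ∀ l, (x l).coeff M = (M.factorial : k)⁻¹ * a M l := by
    intro l
    change (∑ j ∈ Finset.range (M + 1), Polynomial.C ((j.factorial : k)⁻¹ * a j l) *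
      descPochhammer k j).coeff M = _
    rw [Polynomial.finsetSum_coeff, Finset.sum_eq_single M]
    · rw [Polynomial.coeff_C_mul]
      have e1 : (descPochhammer k M).coeff M = 1 := by
        have := (monic_descPochhammer k M).coeff_natDegree
        rwa [descPochhammer_natDegree] at this
      rw [e1, mul_one]
    · intro j hj hne
      rw [Polynomial.coeff_C_mul, Polynomial.coeff_eq_zero_of_natDegree_lt, mul_zero]
      rw [descPochhammer_natDegree]
      have := Finset.mem_range.mp hj
      omega
    · intro h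
      exact absurd (Finset.self_mem_range_succ M) h
  -- the values of the curve
  have hval : ∀ t : ℕ, ((Matrix.toLin' A) ^ t) x0 = μ ^ t • (fun l => (x l).eval (t : k)) := by
    intro t
    induction t with
    | zero =>
      funext l
      simp only [pow_zero, Module.End.one_apply, one_smul]
      rw [hxeval, Finset.sum_range_succ']
      simp [a]
    | succ t ih =>
      rw [pow_succ', Module.End.mul_apply, ih]
      have e0 : ∀ v : Fin (N + 1) → k, Matrix.toLin' A v = gg A μ v + μ • v := by
        intro v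
        simp [gg]
      rw [map_smul, e0]
      funext l
      simp only [Pi.smul_apply, Pi.add_apply, smul_eq_mul]
      have e1 : gg A μ (fun l => (x l).eval (t : k)) =
          ∑ j ∈ Finset.range (M + 1), ((t.choose j : k) * (μ⁻¹) ^ j) • ((gg A μ) ^ (j + 1)) x0 := by
        have e2 : (fun l => (x l).eval (t : k)) =
            ∑ j ∈ Finset.range (M + 1), ((t.choose j : k) * (μ⁻¹) ^ j) • ((gg A μ) ^ j) x0 := by
          funext l
          rw [hxeval, Finset.sum_apply]
          refine Finset.sum_congr rfl fun j _ => ?_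
          simp only [Pi.smul_apply, smul_eq_mul, a]
          ring
        rw [e2, map_sum]
        refine Finset.sum_congr rfl fun j _ => ?_
        rw [map_smul, pow_succ', Module.End.mul_apply]
      rw [e1, Finset.sum_apply, hxeval, hxeval]
      rw [Finset.sum_range_succ (fun j => (((t.choose j : k) * (μ⁻¹) ^ j) •
        ((gg A μ) ^ (j + 1)) x0) l), hzero (M + 1) le_rfl]
      conv_rhs => rw [Finset.sum_range_succ']
      rw [Finset.sum_range_succ' (fun j => (t.choose j : k) * a j l)]
      have e3 : ∑ j ∈ Finset.range M, ((t + 1).choose (j + 1) : k) * a (j + 1) l =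
          μ⁻¹ * (∑ j ∈ Finset.range M, (((t.choose j : k) * (μ⁻¹) ^ j) •
            ((gg A μ) ^ (j + 1)) x0) l) +
          ∑ j ∈ Finset.range M, (t.choose (j + 1) : k) * a (j + 1) l := by
        rw [Finset.mul_sum, ← Finset.sum_add_distrib]
        refine Finset.sum_congr rfl fun j _ => ?_
        rw [Nat.choose_succ_succ]
        simp only [Pi.smul_apply, smul_eq_mul, a]
        push_cast
        ring
      rw [e3]
      simp only [smul_zero, Pi.zero_apply, add_zero, Nat.choose_zero_right]
      field_simp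
      ring
  -- the image
  let P : Fin (N + 1) → Polynomial k := fun i => aeval x (tup f i)
  let T : Module.End k (Fin (N + 1) → k) := μ'⁻¹ • Matrix.toLin' A
  let y0 : Fin (N + 1) → k := fun i => eval x0 (tup f i)
  have hF : ∀ t : ℕ, (fun i => eval (((Matrix.toLin' A) ^ t) x0) (tup f i)) =
      (A.det⁻¹) ^ t • ((Matrix.toLin' A) ^ t) y0 := by
    intro t
    induction t with
    | zero => simp [y0]
    | succ t ih =>
      have e1 : ((Matrix.toLin' A) ^ (t + 1)) x0 = A.mulVec (((Matrix.toLin' A) ^ t) x0) := by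
        rw [pow_succ', Module.End.mul_apply, Matrix.toLin'_apply]
      have e2 : ((Matrix.toLin' A) ^ (t + 1)) y0 = A.mulVec (((Matrix.toLin' A) ^ t) y0) := by
        rw [pow_succ', Module.End.mul_apply, Matrix.toLin'_apply]
      rw [e1, e2]
      funext i
      have e3 := stab_eq hA (((Matrix.toLin' A) ^ t) x0) i
      have e4 : ∑ j, A i j * eval (((Matrix.toLin' A) ^ t) x0) (tup f j) =
          (A.mulVec (fun j => eval (((Matrix.toLin' A) ^ t) x0) (tup f j))) i := rfl
      rw [e4, ih, Matrix.mulVec_smul] at e3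
      simp only [Pi.smul_apply, smul_eq_mul] at e3 ⊢
      rw [pow_succ']
      field_simp at e3 ⊢
      linear_combination e3
  have hPT : ∀ (t : ℕ) i, (P i).eval (t : k) = (T ^ t) y0 i := by
    intro t i
    have e1 : (P i).eval (t : k) = eval (fun l => (x l).eval (t : k)) (tup f i) := by
      change Polynomial.evalRingHom (t : k) (aeval x (tup f i)) = _
      rw [aeval_def, hom_eval₂]
      have e1 : (Polynomial.evalRingHom (t : k)).comp (algebraMap k (Polynomial k)) =
          RingHom.id k := by
        ext a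
        simp
      rw [e1]
      rfl
    have e2 : (fun l => (x l).eval (t : k)) = (μ⁻¹) ^ t • ((Matrix.toLin' A) ^ t) x0 := by
      rw [hval, smul_smul, ← mul_pow, inv_mul_cancel₀ hμ, one_pow, one_smul]
    have e3 : T ^ t = (μ'⁻¹) ^ t • (Matrix.toLin' A) ^ t := by
      rw [smul_pow]
    rw [e1, e2, eval_smul_hom (tup_homog f i), e3]
    have e4 := congrFun (hF t) i
    simp only [Pi.smul_apply, smul_eq_mul] at e4
    rw [e4]
    change _ = (μ'⁻¹) ^ t * ((Matrix.toLin' A) ^ t) y0 i
    have e5 : (μ'⁻¹) ^ t = ((μ⁻¹) ^ t) ^ d * (A.det⁻¹) ^ t := by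
      rw [hμ', mul_inv, mul_pow, mul_comm, ← pow_mul, mul_comm t d, pow_mul, inv_pow μ d]
    rw [e5, mul_assoc]
  have htop := fun i => aeval_top (tup_homog f i) x hxd
  have hgg : ∀ n : ℕ, ((gg A μ') ^ n) y0 = μ' ^ n • ((T - 1) ^ n) y0 := by
    intro n
    have e1 : gg A μ' = μ' • (T - 1) := by
      change Matrix.toLin' A - μ' • 1 = μ' • (μ'⁻¹ • Matrix.toLin' A - 1)
      rw [smul_sub, smul_smul, mul_inv_cancel₀ hμ'0, one_smul]
    rw [e1, smul_pow]
    rfl
  change ((gg A μ') ^ (d * M + 1)) y0 = 0 ∧ ((gg A μ') ^ (d * M)) y0 ≠ 0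
  rw [hgg, hgg]
  constructor
  · funext i
    rw [Pi.smul_apply, pow_sub_one_apply T y0 P hPT,
      Polynomial.fwdDiff_iter_eq_zero_of_degree_lt (lt_of_le_of_lt (htop i).1
        (Nat.lt_succ_self _))]
    simp
  · intro hcon
    rw [smul_eq_zero] at hcon
    have hcon' := hcon.resolve_left (pow_ne_zero _ hμ'0)
    have e1 : (fun i => (x i).coeff M) = 0 := by
      apply hf
      intro i
      rw [← (htop i).2]
      by_contra hne
      have e2 : (P i).natDegree = d * M :=
        le_antisymm (htop i).1 (Polynomial.le_natDegree_of_ne_zero hne)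
      have e3 := congrFun hcon' i
      rw [pow_sub_one_apply T y0 P hPT, ← e2, Polynomial.fwdDiff_iter_degree_eq_factorial] at e3
      simp only [Pi.smul_apply, Pi.zero_apply, smul_eq_mul] at e3
      rcases mul_eq_zero.mp e3 with e4 | e4
      · apply hne
        rw [← e2]
        exact e4
      · have e5 : ((P i).natDegree.factorial : k) = 0 := e4
        exact (by exact_mod_cast Nat.factorial_ne_zero _ : ((P i).natDegree.factorial : k) ≠ 0) e5
    apply h2
    funext i
    have e2 := congrFun e1 i
    simp only [hxM, Pi.zero_apply, a] at e2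
    have e3 := (mul_eq_zero.mp e2).resolve_left
      (inv_ne_zero (by exact_mod_cast Nat.factorial_ne_zero _))
    exact (mul_eq_zero.mp e3).resolve_left (pow_ne_zero _ (inv_ne_zero hμ))

end

end Pool.Agent.Helper819.Dyn
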