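import Pool.Agent.Helper819.Diag

/-!
Automorphisms are diagonalizable.
-/

open MvPolynomial

namespace Pool.Agent.Helper819.Dyn

open Pool.Agent.Helper819.Apolar

noncomputable section

set_option linter.unusedSectionVars false

variable {k : Type} [Field k] {N d : ℕ}

theorem diag_of_iSup (A : Matrix (Fin (N + 1)) (Fin (N + 1)) k)
    (h : ⨆ μ, Module.End.eigenspace (Matrix.toLin' A) μ = ⊤) :
    ∃ (g : Matrix (Fin (N + 1)) (Fin (N + 1)) k) (l : Fin (N + 1) → k),
      g.det ≠ 0 ∧ A * g = g * Matrix.diagonal l := by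
  let s : Set (Fin (N + 1) → k) := {x | ∃ μ : k, A.mulVec x = μ • x}
  have hs : ⊤ ≤ Submodule.span k s := by
    rw [← h]
    apply iSup_le
    intro μ x hx
    apply Submodule.subset_span
    rw [Module.End.mem_eigenspace_iff] at hx
    exact ⟨μ, hx⟩
  let b := Module.Basis.ofSpan hs
  have hb : ∀ i, b i ∈ s := fun i => Module.Basis.ofSpan_subset hs ⟨i, rfl⟩
  let e := b.indexEquiv (Pi.basisFun k (Fin (N + 1)))
  let b' : Module.Basis (Fin (N + 1)) k (Fin (N + 1) → k) := b.reindex e
  have hb' : ∀ i, b' i ∈ s := by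
    intro i
    change (b.reindex e) i ∈ s
    rw [Module.Basis.reindex_apply]
    exact hb _
  choose l hl using hb'
  refine ⟨Matrix.of fun i j => b' j i, l, ?_, ?_⟩
  · have h1 : IsUnit (Matrix.of fun i j => b' j i) := by
      rw [← Matrix.linearIndependent_cols_iff_isUnit]
      exact b'.linearIndependent
    exact ((Matrix.isUnit_iff_isUnit_det _).mp h1).ne_zero
  · ext i j
    rw [Matrix.mul_diagonal, Matrix.mul_apply]
    have h1 := congrFun (hl j) i
    simp only [Pi.smul_apply, smul_eq_mul] at h1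
    change ∑ x, A i x * b' j x = b' j i * l j
    rw [mul_comm, ← h1]
    rfl

variable [IsAlgClosed k] [CharZero k]

/-- Automorphisms of nondegenerate maps are diagonalizable. -/
theorem exists_diag (hd : 2 ≤ d) {f : Ix N d → k} (hf : NZ (tup f))
    (A : Matrix (Fin (N + 1)) (Fin (N + 1)) k) (hdet : A.det ≠ 0) (hA : actT A f = f) :
    ∃ (g : Matrix (Fin (N + 1)) (Fin (N + 1)) k) (l : Fin (N + 1) → k),
      g.det ≠ 0 ∧ A * g = g * Matrix.diagonal l := by
  apply diag_of_iSup
  apply iSup_eigen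
  apply no_growth hd
  intro μ M x hx1 hx2
  exact ⟨_, _, stepB hf A hdet hA μ M x hx1 hx2⟩

end

end Pool.Agent.Helper819.Dyn
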