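import Pool.Agent.Helper819.Line

/-!
Dimension of the moduli space of maps of the line.
-/

open MvPolynomial

namespace Pool.Agent.Helper819.Dyn

open Pool.Agent.Helper819.Zar

noncomputable section

section fam

variable {k : Type} [Field k] [IsAlgClosed k] {N d : ℕ} {σ τ : Type}

/-- All `A_x · G_y`. -/
def famSet (d : ℕ) (A : Matrix (Fin (N + 1)) (Fin (N + 1)) (MvPolynomial σ k))
    (h : MvPolynomial τ k) (G : Tuple (MvPolynomial τ k) N) : Set (EndTuple k N d) :=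
  {F | ∃ (x : σ → k) (y : τ → k), (A.map (eval x)).det ≠ 0 ∧ eval y h ≠ 0 ∧
    F.1 = act (A.map (eval x)) (spec y G)}

theorem isFam_famSet (A : Matrix (Fin (N + 1)) (Fin (N + 1)) (MvPolynomial σ k))
    (h : MvPolynomial τ k) (G : Tuple (MvPolynomial τ k) N)
    (hG : ∀ y, eval y h ≠ 0 → IsEnd d (spec y G)) :
    IsFam (coords : EndTuple k N d → _ → k) (famSet d A h G)
      (rename (Sum.inl : σ → σ ⊕ τ) A.det * rename (Sum.inr : τ → σ ⊕ τ) h)
      (fun p => coeff p.2 (act (A.map (rename (Sum.inl : σ → σ ⊕ τ)))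
        (fun i => map (rename (Sum.inr : τ → σ ⊕ τ)).toRingHom (G i)) p.1)) := by
  have hspec : ∀ z : σ ⊕ τ → k,
      spec z (act (A.map (rename (Sum.inl : σ → σ ⊕ τ)))
        (fun i => map (rename (Sum.inr : τ → σ ⊕ τ)).toRingHom (G i))) =
      act (A.map (eval (z ∘ Sum.inl))) (spec (z ∘ Sum.inr) G) := by
    intro z
    rw [spec_act]
    have h1 : (A.map (rename (Sum.inl : σ → σ ⊕ τ))).map (eval z) =
        A.map (eval (z ∘ Sum.inl)) := by
      ext i j
      simp [eval_rename]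
    have h2 : spec z (fun i => map (rename (Sum.inr : τ → σ ⊕ τ)).toRingHom (G i)) =
        spec (z ∘ Sum.inr) G := by
      funext i
      unfold spec
      rw [map_map]
      have h3 : (eval z).comp (rename (Sum.inr : τ → σ ⊕ τ)).toRingHom =
          eval (z ∘ Sum.inr) := by
        apply MvPolynomial.ringHom_ext
        · intro a; simp
        · intro a; simp
      rw [h3]
    rw [h1, h2]
  have hdet : ∀ z : σ ⊕ τ → k,
      eval z (rename (Sum.inl : σ → σ ⊕ τ) A.det * rename (Sum.inr : τ → σ ⊕ τ) h) =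
        (A.map (eval (z ∘ Sum.inl))).det * eval (z ∘ Sum.inr) h := by
    intro z
    rw [map_mul, eval_rename, eval_rename, RingHom.map_det]
    rfl
  have := isFam_spec (k := k) (d := d)
    (rename (Sum.inl : σ → σ ⊕ τ) A.det * rename (Sum.inr : τ → σ ⊕ τ) h)
    (act (A.map (rename (Sum.inl : σ → σ ⊕ τ)))
        (fun i => map (rename (Sum.inr : τ → σ ⊕ τ)).toRingHom (G i))) (by
      intro z hz
      rw [hdet, mul_ne_zero_iff] at hz
      rw [hspec]
      exact act_isEnd _ hz.1 (hG _ hz.2))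
  convert this using 1
  ext F
  constructor
  · rintro ⟨x, y, hx, hy, hF⟩
    refine ⟨Sum.elim x y, ?_, ?_⟩
    · rw [hdet]
      exact mul_ne_zero hx hy
    · rw [hspec]
      exact hF
  · rintro ⟨z, hz, hF⟩
    rw [hdet, mul_ne_zero_iff] at hz
    rw [hspec] at hF
    exact ⟨_, _, hz.1, hz.2, hF⟩

omit [IsAlgClosed k] in
theorem famSet_ne_zero {A : Matrix (Fin (N + 1)) (Fin (N + 1)) (MvPolynomial σ k)}
    {h : MvPolynomial τ k} (hA : A.det ≠ 0) (h0 : h ≠ 0) :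
    rename (Sum.inl : σ → σ ⊕ τ) A.det * rename (Sum.inr : τ → σ ⊕ τ) h ≠ 0 := by
  apply mul_ne_zero
  · rw [Ne, ← map_zero (rename (Sum.inl : σ → σ ⊕ τ)),
      (rename_injective _ Sum.inl_injective).eq_iff]
    exact hA
  · rw [Ne, ← map_zero (rename (Sum.inr : τ → σ ⊕ τ)),
      (rename_injective _ Sum.inr_injective).eq_iff]
    exact h0

theorem famSet_irred {A : Matrix (Fin (N + 1)) (Fin (N + 1)) (MvPolynomial σ k)}
    {h : MvPolynomial τ k} {G : Tuple (MvPolynomial τ k) N}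
    (hG : ∀ y, eval y h ≠ 0 → IsEnd d (spec y G)) (hA : A.det ≠ 0) (h0 : h ≠ 0) :
    IsIrreducible (famSet d A h G) := by
  have hinf : Infinite k := IsAlgClosed.instInfinite
  exact (isFam_famSet A h G hG).isIrreducible (isZar_coords k N d) (famSet_ne_zero hA h0)

theorem famSet_height [Fintype σ] [Fintype τ]
    {A : Matrix (Fin (N + 1)) (Fin (N + 1)) (MvPolynomial σ k)}
    {h : MvPolynomial τ k} {G : Tuple (MvPolynomial τ k) N}
    (hG : ∀ y, eval y h ≠ 0 → IsEnd d (spec y G)) (hA : A.det ≠ 0) (h0 : h ≠ 0)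
    (Z : TopologicalSpace.IrreducibleCloseds (EndTuple k N d))
    (hZ : (Z : Set (EndTuple k N d)) ⊆ closure (famSet d A h G)) :
    Order.height Z ≤ Fintype.card σ + Fintype.card τ := by
  have hinf : Infinite k := IsAlgClosed.instInfinite
  have := (isFam_famSet A h G hG).height_le (isZar_coords k N d) (famSet_ne_zero hA h0) Z hZ
  rw [Fintype.card_sum] at this
  exact_mod_cast this

end fam

section ev

variable {k : Type} [Field k]

/-- Evaluation of the `i`-th form at `P` as a polynomial in the coefficients. -/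
def evp (k : Type) [Field k] (N d : ℕ) (P : Fin (N + 1) → k) (i : Fin (N + 1)) :
    MvPolynomial (Fin (N + 1) × (Fin (N + 1) →₀ ℕ)) k :=
  eval (fun l => C (P l)) (gen k N d i)

theorem eval_evp {N d : ℕ} (F : EndTuple k N d) (P : Fin (N + 1) → k) (i : Fin (N + 1)) :
    eval (coords F) (evp k N d P i) = eval P (F.1 i) := by
  unfold evp
  rw [← congrFun (spec_gen F) i]
  unfold spec
  have h := eval₂_comp_left (eval (coords F)) (RingHom.id _) (fun l => C (P l)) (gen k N d i)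
  rw [eval₂_id] at h
  rw [eval_map, h]
  congr 1
  funext l
  simp

end ev

section line

variable {k : Type} [Field k]

/-- The invertible specialisations of a matrix with polynomial entries. -/
def grp {σ : Type} (A : Matrix (Fin (1 + 1)) (Fin (1 + 1)) (MvPolynomial σ k)) :
    Set (Matrix (Fin (1 + 1)) (Fin (1 + 1)) k) :=
  {B | ∃ x : σ → k, (A.map (eval x)).det ≠ 0 ∧ B = A.map (eval x)}

theorem famSet_eq {σ τ : Type} {d : ℕ} (A : Matrix (Fin (1 + 1)) (Fin (1 + 1)) (MvPolynomial σ k))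
    (h : MvPolynomial τ k) (G : Tuple (MvPolynomial τ k) 1) :
    famSet d A h G = {F | ∃ B ∈ grp A, ∃ y : τ → k, eval y h ≠ 0 ∧ F.1 = act B (spec y G)} := by
  ext F
  constructor
  · rintro ⟨x, y, hx, hy, hF⟩
    exact ⟨_, ⟨x, hx, rfl⟩, y, hy, hF⟩
  · rintro ⟨_, ⟨x, hx, rfl⟩, y, hy, hF⟩
    exact ⟨x, y, hx, hy, hF⟩

theorem famSet_mono {σ σ' τ : Type} {d : ℕ}
    {A : Matrix (Fin (1 + 1)) (Fin (1 + 1)) (MvPolynomial σ k)}
    {A' : Matrix (Fin (1 + 1)) (Fin (1 + 1)) (MvPolynomial σ' k)}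
    (hA : grp A ⊆ grp A') (h : MvPolynomial τ k) (G : Tuple (MvPolynomial τ k) 1) :
    famSet d A h G ⊆ famSet d A' h G := by
  rw [famSet_eq, famSet_eq]
  rintro F ⟨B, hB, y, hy, hF⟩
  exact ⟨B, hA hB, y, hy, hF⟩

variable (k)

/-- the identity -/
def A0 : Matrix (Fin (1 + 1)) (Fin (1 + 1)) (MvPolynomial (Fin 0) k) := 1
/-- scalars -/
def A1 : Matrix (Fin (1 + 1)) (Fin (1 + 1)) (MvPolynomial (Fin 1) k) := !![X 0, 0; 0, X 0]
/-- diagonal matrices -/
def A2 : Matrix (Fin (1 + 1)) (Fin (1 + 1)) (MvPolynomial (Fin 2) k) := !![X 0, 0; 0, X 1]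
/-- upper triangular matrices -/
def A3 : Matrix (Fin (1 + 1)) (Fin (1 + 1)) (MvPolynomial (Fin 3) k) := !![X 0, X 1; 0, X 2]
/-- all matrices -/
def A4 : Matrix (Fin (1 + 1)) (Fin (1 + 1)) (MvPolynomial (Fin 4) k) := !![X 0, X 1; X 2, X 3]

variable {k}

theorem mem_grp0 (B : Matrix (Fin (1 + 1)) (Fin (1 + 1)) k) : B ∈ grp (A0 k) ↔ B = 1 := by
  have h : ∀ x : Fin 0 → k, (A0 k).map (eval x) = 1 := by
    intro x
    unfold A0
    ext i j
    fin_cases i <;> fin_cases j <;> simp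
  constructor
  · rintro ⟨x, _, hB⟩
    rw [hB, h]
  · rintro rfl
    refine ⟨Fin.elim0, ?_, ?_⟩ <;> rw [h]
    simp

theorem mem_grp1 (B : Matrix (Fin (1 + 1)) (Fin (1 + 1)) k) :
    B ∈ grp (A1 k) ↔ ∃ a : k, a ≠ 0 ∧ B = !![a, 0; 0, a] := by
  have h : ∀ x : Fin 1 → k, (A1 k).map (eval x) = !![x 0, 0; 0, x 0] := by
    intro x
    unfold A1
    ext i j
    fin_cases i <;> fin_cases j <;> simp
  constructor
  · rintro ⟨x, hx, hB⟩
    rw [h, Matrix.det_fin_two_of] at hx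
    refine ⟨x 0, ?_, by rw [hB, h]⟩
    intro h0
    apply hx
    rw [h0]; ring
  · rintro ⟨a, ha, hB⟩
    refine ⟨![a], ?_, ?_⟩ <;> rw [h]
    · rw [Matrix.det_fin_two_of]
      simpa using ha
    · rw [hB]; rfl

theorem mem_grp2 (B : Matrix (Fin (1 + 1)) (Fin (1 + 1)) k) :
    B ∈ grp (A2 k) ↔ ∃ a e : k, a * e ≠ 0 ∧ B = !![a, 0; 0, e] := by
  have h : ∀ x : Fin 2 → k, (A2 k).map (eval x) = !![x 0, 0; 0, x 1] := by
    intro x
    unfold A2
    ext i j
    fin_cases i <;> fin_cases j <;> simp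
  constructor
  · rintro ⟨x, hx, hB⟩
    rw [h, Matrix.det_fin_two_of] at hx
    refine ⟨x 0, x 1, ?_, by rw [hB, h]⟩
    simpa using hx
  · rintro ⟨a, e, ha, hB⟩
    refine ⟨![a, e], ?_, ?_⟩ <;> rw [h]
    · rw [Matrix.det_fin_two_of]
      simpa using ha
    · rw [hB]; rfl

theorem mem_grp3 (B : Matrix (Fin (1 + 1)) (Fin (1 + 1)) k) :
    B ∈ grp (A3 k) ↔ ∃ a b e : k, a * e ≠ 0 ∧ B = !![a, b; 0, e] := by
  have h : ∀ x : Fin 3 → k, (A3 k).map (eval x) = !![x 0, x 1; 0, x 2] := by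
    intro x
    unfold A3
    ext i j
    fin_cases i <;> fin_cases j <;> simp
  constructor
  · rintro ⟨x, hx, hB⟩
    rw [h, Matrix.det_fin_two_of] at hx
    refine ⟨x 0, x 1, x 2, ?_, by rw [hB, h]⟩
    simpa using hx
  · rintro ⟨a, b, e, ha, hB⟩
    refine ⟨![a, b, e], ?_, ?_⟩ <;> rw [h]
    · rw [Matrix.det_fin_two_of]
      simpa using ha
    · rw [hB]; rfl

theorem mem_grp4 (B : Matrix (Fin (1 + 1)) (Fin (1 + 1)) k) :
    B ∈ grp (A4 k) ↔ ∃ a b c e : k, a * e - b * c ≠ 0 ∧ B = !![a, b; c, e] := by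
  have h : ∀ x : Fin 4 → k, (A4 k).map (eval x) = !![x 0, x 1; x 2, x 3] := by
    intro x
    unfold A4
    ext i j
    fin_cases i <;> fin_cases j <;> simp
  constructor
  · rintro ⟨x, hx, hB⟩
    rw [h, Matrix.det_fin_two_of] at hx
    exact ⟨x 0, x 1, x 2, x 3, hx, by rw [hB, h]⟩
  · rintro ⟨a, b, c, e, ha, hB⟩
    refine ⟨![a, b, c, e], ?_, ?_⟩ <;> rw [h]
    · rw [Matrix.det_fin_two_of]
      simpa using ha
    · rw [hB]; rfl

theorem grp01 : grp (A0 k) ⊆ grp (A1 k) := by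
  intro B hB
  rw [mem_grp0] at hB
  rw [mem_grp1]
  refine ⟨1, one_ne_zero, ?_⟩
  rw [hB]
  ext i j
  fin_cases i <;> fin_cases j <;> simp

theorem grp12 : grp (A1 k) ⊆ grp (A2 k) := by
  intro B hB
  rw [mem_grp1] at hB
  rw [mem_grp2]
  obtain ⟨a, ha, rfl⟩ := hB
  exact ⟨a, a, mul_ne_zero ha ha, rfl⟩

theorem grp23 : grp (A2 k) ⊆ grp (A3 k) := by
  intro B hB
  rw [mem_grp2] at hB
  rw [mem_grp3]
  obtain ⟨a, e, ha, rfl⟩ := hB
  exact ⟨a, 0, e, ha, rfl⟩

theorem grp34 : grp (A3 k) ⊆ grp (A4 k) := by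
  intro B hB
  rw [mem_grp3] at hB
  rw [mem_grp4]
  obtain ⟨a, b, e, ha, rfl⟩ := hB
  exact ⟨a, b, 0, e, by simpa using ha, rfl⟩

theorem det_A0 : (A0 k).det ≠ 0 := by simp [A0]

theorem det_ne_of_grp {σ : Type} {A : Matrix (Fin (1 + 1)) (Fin (1 + 1)) (MvPolynomial σ k)}
    (h : (grp A).Nonempty) : A.det ≠ 0 := by
  obtain ⟨B, x, hx, _⟩ := h
  intro h0
  apply hx
  have : (A.map (eval x)).det = eval x A.det := by
    rw [RingHom.map_det]; rfl
  rw [this, h0, map_zero]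

theorem one_mem_grp0 : (1 : Matrix (Fin (1 + 1)) (Fin (1 + 1)) k) ∈ grp (A0 k) :=
  (mem_grp0 _).mpr rfl

theorem det_A1 : (A1 k).det ≠ 0 := det_ne_of_grp ⟨_, grp01 one_mem_grp0⟩
theorem det_A2 : (A2 k).det ≠ 0 := det_ne_of_grp ⟨_, grp12 (grp01 one_mem_grp0)⟩
theorem det_A3 : (A3 k).det ≠ 0 := det_ne_of_grp ⟨_, grp23 (grp12 (grp01 one_mem_grp0))⟩
theorem det_A4 : (A4 k).det ≠ 0 := det_ne_of_grp ⟨_, grp34 (grp23 (grp12 (grp01 one_mem_grp0)))⟩

theorem eval_act0 (a b c e x y : k) (F : Tuple k 1) :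
    eval ![x, y] (act !![a, b; c, e] F 0) =
      e * eval ![a * x + b * y, c * x + e * y] (F 0) -
        b * eval ![a * x + b * y, c * x + e * y] (F 1) := by
  rw [eval_act, Fin.sum_univ_succ]
  have h : (!![a, b; c, e] : Matrix (Fin (1 + 1)) (Fin (1 + 1)) k).mulVec ![x, y] =
      ![a * x + b * y, c * x + e * y] := by
    funext i
    fin_cases i <;> simp [Matrix.mulVec, dotProduct, Fin.sum_univ_succ]
  rw [h, Matrix.adjugate_fin_two_of]
  simp
  ring

theorem eval_act1 (a b c e x y : k) (F : Tuple k 1) :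
    eval ![x, y] (act !![a, b; c, e] F 1) =
      a * eval ![a * x + b * y, c * x + e * y] (F 1) -
        c * eval ![a * x + b * y, c * x + e * y] (F 0) := by
  rw [eval_act, Fin.sum_univ_succ]
  have h : (!![a, b; c, e] : Matrix (Fin (1 + 1)) (Fin (1 + 1)) k).mulVec ![x, y] =
      ![a * x + b * y, c * x + e * y] := by
    funext i
    fin_cases i <;> simp [Matrix.mulVec, dotProduct, Fin.sum_univ_succ]
  rw [h, Matrix.adjugate_fin_two_of]
  simp
  ring

end line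

end

end Pool.Agent.Helper819.Dyn
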