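import Mathlib

/-!
Definitions for moduli spaces of endomorphisms of projective space, good reduction and the
Shafarevich dimension.
-/

open MvPolynomial IsDedekindDomain NumberField

namespace Pool.Agent.Helper819.Dyn

noncomputable section

/-- `(N+1)`-tuples of polynomials in `N+1` variables over `R`. -/
abbrev Tuple (R : Type) [CommSemiring R] (N : ℕ) : Type :=
  Fin (N + 1) → MvPolynomial (Fin (N + 1)) R

/-- `F` consists of homogeneous forms of degree `d` which have no common zero except the origin
over an algebraic closure; that is, `[F_0 : ... : F_N]` is a degree `d` morphism of `ℙ^N`. -/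
def IsEnd {k : Type} [Field k] {N : ℕ} (d : ℕ) (F : Tuple k N) : Prop :=
  (∀ i, (F i).IsHomogeneous d) ∧
    ∀ x : Fin (N + 1) → AlgebraicClosure k, (∀ i, aeval x (F i) = 0) → x = 0

/-- Coordinate tuple of `φ⁻¹ ∘ f ∘ φ`. -/
def conj {k : Type} [Field k] {N : ℕ} (φ : GL (Fin (N + 1)) k) (F : Tuple k N) : Tuple k N :=
  fun i => ∑ j, C ((↑(φ⁻¹) : Matrix (Fin (N + 1)) (Fin (N + 1)) k) i j) *
    bind₁ (fun l => ∑ m, C ((φ : Matrix (Fin (N + 1)) (Fin (N + 1)) k) l m) * X m) (F j)

/-- The coefficient tuples of degree `d` morphisms `ℙ^N → ℙ^N` over `k`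
(the affine cone over `End_d^N(k)`). -/
def EndTuple (k : Type) [Field k] (N d : ℕ) : Type := {F : Tuple k N // IsEnd d F}

/-- The coefficients of a tuple. -/
def coords {k : Type} [Field k] {N d : ℕ} (F : EndTuple k N d) :
    Fin (N + 1) × (Fin (N + 1) →₀ ℕ) → k :=
  fun p => coeff p.2 (F.1 p.1)

/-- The Zariski topology: it is generated by the sets where a polynomial in the coefficients does
not vanish. -/
instance zariski (k : Type) [Field k] (N d : ℕ) : TopologicalSpace (EndTuple k N d) :=
  TopologicalSpace.generateFrom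
    {U | ∃ p : MvPolynomial (Fin (N + 1) × (Fin (N + 1) →₀ ℕ)) k,
      U = {F | eval (coords F) p ≠ 0}}

/-- `F` and `G` define conjugate morphisms. -/
def Rel (k : Type) [Field k] (N d : ℕ) (F G : EndTuple k N d) : Prop :=
  ∃ (φ : GL (Fin (N + 1)) k) (c : kˣ), G.1 = fun i => C (c : k) * conj φ F.1 i

/-- The points of the moduli space `M_d^N = End_d^N / PGL_{N+1}` over an algebraically closed
field `k`. -/
def Moduli (k : Type) [Field k] (N d : ℕ) : Type := Quot (Rel k N d)

/-- The Zariski topology of the geometric quotient `M_d^N`, i.e. the quotient topology. -/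
instance zariskiModuli (k : Type) [Field k] (N d : ℕ) : TopologicalSpace (Moduli k N d) :=
  inferInstanceAs (TopologicalSpace (Quot (Rel k N d)))

/-- The class `[f]` in `M_d^N`. -/
def cls {k : Type} [Field k] {N d : ℕ} (F : EndTuple k N d) : Moduli k N d := Quot.mk _ F

/-- `f` over the number field `K` has good reduction at `v`: after a conjugation over `K` and
scaling it has coefficients in the valuation ring of `v` and its reduction is a morphism of
degree `d` over the residue field. -/
def HasGoodReductionAt {K : Type} [Field K] [NumberField K] {N : ℕ} (d : ℕ) (F : Tuple K N)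
    (v : HeightOneSpectrum (𝓞 K)) : Prop :=
  ∃ (φ : GL (Fin (N + 1)) K) (c : Kˣ) (G : Tuple (v.valuation K).valuationSubring N),
    (∀ i, map (algebraMap (v.valuation K).valuationSubring K) (G i) = C (c : K) * conj φ F i) ∧
    IsEnd d (fun i =>
      map (IsLocalRing.residue (v.valuation K).valuationSubring) (G i))

/-- `Σ(K, S)`: the classes of morphisms defined over `K` with good reduction at every finite place
of `K` outside `S`. -/
def goodSet (N d : ℕ) (K : IntermediateField ℚ (AlgebraicClosure ℚ)) [NumberField K]
    (S : Set (HeightOneSpectrum (𝓞 K))) : Set (Moduli (AlgebraicClosure ℚ) N d) :=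
  {m | ∃ (F : Tuple K N)
      (h : IsEnd d (fun i => map (algebraMap K (AlgebraicClosure ℚ)) (F i))),
    (∀ v, v ∉ S → HasGoodReductionAt d F v) ∧ m = cls ⟨_, h⟩}

/-- The Shafarevich dimension of `M_d^N`. -/
def shafDim (N d : ℕ) : WithBot ℕ∞ :=
  ⨆ (K : IntermediateField ℚ (AlgebraicClosure ℚ)) (_ : NumberField K)
    (S : Set (HeightOneSpectrum (𝓞 K))) (_ : S.Finite),
    topologicalKrullDim (closure (goodSet N d K S))

end

end Pool.Agent.Helper819.Dyn
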