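import Pool.Agent.Helper819.DynDefs

/-!
Moduli spaces of endomorphisms of projective space with a marked point of exact period `n`.
-/

open MvPolynomial

namespace Pool.Agent.Helper819.Dyn

noncomputable section

variable {k : Type} [Field k] {N : ℕ}

/-- The self-map of `k^(N+1)` given by a tuple of forms. -/
def evalMap (F : Tuple k N) (P : Fin (N + 1) → k) : Fin (N + 1) → k := fun i => eval P (F i)

/-- The point `[P]` of projective space has exact period `n` for the map `[F]`. -/
def HasExactPeriod (n : ℕ) (F : Tuple k N) (P : Fin (N + 1) → k) : Prop :=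
  P ≠ 0 ∧ (∃ c : k, (evalMap F)^[n] P = c • P) ∧
    ∀ m, 1 ≤ m → m < n → ¬ ∃ c : k, (evalMap F)^[m] P = c • P

/-- Coordinates `(F, P)` of the pairs `(f, P)` with `f ∈ End_d^N` and `P` a point of exact
period `n` of `f`. -/
def PtTuple (k : Type) [Field k] (N d n : ℕ) : Type :=
  {x : Tuple k N × (Fin (N + 1) → k) // IsEnd d x.1 ∧ HasExactPeriod n x.1 x.2}

/-- The coordinates of a pair: those of the point and the coefficients of the map. -/
def ptCoords {d n : ℕ} (x : PtTuple k N d n) :
    Fin (N + 1) ⊕ (Fin (N + 1) × (Fin (N + 1) →₀ ℕ)) → k :=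
  Sum.elim x.1.2 (fun p => coeff p.2 (x.1.1 p.1))

/-- The Zariski topology on pairs. -/
instance zariskiPt (k : Type) [Field k] (N d n : ℕ) : TopologicalSpace (PtTuple k N d n) :=
  TopologicalSpace.generateFrom
    {U | ∃ p : MvPolynomial (Fin (N + 1) ⊕ (Fin (N + 1) × (Fin (N + 1) →₀ ℕ))) k,
      U = {x | eval (ptCoords x) p ≠ 0}}

/-- Two pairs are conjugate: `(f, P) ∼ (φ⁻¹ ∘ f ∘ φ, φ⁻¹(P))`. -/
def PtRel (k : Type) [Field k] (N d n : ℕ) (x y : PtTuple k N d n) : Prop :=
  ∃ (φ : GL (Fin (N + 1)) k) (c c' : kˣ),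
    (y.1.1 = fun i => C (c : k) * conj φ x.1.1 i) ∧
    y.1.2 = (c' : k) • (↑(φ⁻¹) : Matrix (Fin (N + 1)) (Fin (N + 1)) k).mulVec x.1.2

/-- The moduli space `M_d^N[n]` over an algebraically closed field. -/
def ModuliPt (k : Type) [Field k] (N d n : ℕ) : Type := Quot (PtRel k N d n)

/-- Its Zariski topology, i.e. the quotient topology. -/
instance zariskiModuliPt (k : Type) [Field k] (N d n : ℕ) :
    TopologicalSpace (ModuliPt k N d n) :=
  inferInstanceAs (TopologicalSpace (Quot (PtRel k N d n)))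

/-- The class of a pair. -/
def ptCls {d n : ℕ} (x : PtTuple k N d n) : ModuliPt k N d n := Quot.mk _ x

/-- The map `i_n : M_d^N[n] → M_d^N` forgetting the point. -/
def forget (k : Type) [Field k] (N d n : ℕ) : ModuliPt k N d n → Moduli k N d :=
  Quot.map (fun x => ⟨x.1.1, x.2.1⟩) (fun _ _ ⟨φ, c, _, h, _⟩ => ⟨φ, c, h⟩)

/-- `Δ ⊆ M_d^N[n]` is a rational curve: it is not a point and it is the closure of the image of a
morphism from the affine line, given by a family `(F_t, P_t)` depending polynomially on `t`. -/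
def IsRationalCurve {d n : ℕ} (Δ : Set (ModuliPt k N d n)) : Prop :=
  ¬ Δ.Subsingleton ∧
  ∃ (F : Tuple (Polynomial k) N) (P : Fin (N + 1) → Polynomial k) (x : k → PtTuple k N d n),
    (∀ t, (x t).1 = (fun i => map (Polynomial.evalRingHom t) (F i), fun i => (P i).eval t)) ∧
    Δ = closure (Set.range fun t => ptCls (x t))

end

end Pool.Agent.Helper819.Dyn
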