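import Pool.Agent.Helper819.Pt

/-!
Elimination: periodic points depend algebraically on the map.
-/

open MvPolynomial

namespace Pool.Agent.Helper819.Dyn

open Pool.Agent.Helper819.Zar

noncomputable section

set_option linter.unusedSectionVars false

/-- Iterates of a tuple. -/
def iterT {R : Type} [CommRing R] {N : ℕ} (F : Tuple R N) : ℕ → Tuple R N
  | 0 => X
  | m + 1 => fun i => bind₁ (iterT F m) (F i)

theorem map_iterT {R S : Type} [CommRing R] [CommRing S] {N : ℕ} (φ : R →+* S) (F : Tuple R N)
    (m : ℕ) : (fun i => map φ (iterT F m i)) = iterT (fun i => map φ (F i)) m := by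
  induction m with
  | zero => funext i; simp [iterT]
  | succ m ih =>
    funext i
    change map φ (bind₁ (iterT F m) (F i)) =
      bind₁ (iterT (fun i => map φ (F i)) m) (map φ (F i))
    rw [map_bind₁, ih]

theorem iterT_homog {R : Type} [CommRing R] {N d : ℕ} {F : Tuple R N}
    (hF : ∀ i, (F i).IsHomogeneous d) (m : ℕ) (i : Fin (N + 1)) :
    (iterT F m i).IsHomogeneous (d ^ m) := by
  induction m generalizing i with
  | zero => simpa [iterT] using isHomogeneous_X R i
  | succ m ih =>
    change (bind₁ (iterT F m) (F i)).IsHomogeneous (d ^ (m + 1))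
    rw [pow_succ]
    exact (hF i).aeval (iterT F m) ih

theorem eval_iterT {k : Type} [Field k] {N : ℕ} (F : Tuple k N) (m : ℕ)
    (P : Fin (N + 1) → k) (i : Fin (N + 1)) :
    eval P (iterT F m i) = ((evalMap F)^[m] P) i := by
  induction m generalizing i with
  | zero => simp [iterT]
  | succ m ih =>
    change eval P (bind₁ (iterT F m) (F i)) = _
    rw [eval_bind, Function.iterate_succ_apply']
    unfold evalMap
    congr 2
    funext j
    rw [ih j]
    rfl

theorem gen_homog (k : Type) [Field k] (N d : ℕ) (i : Fin (N + 1)) :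
    (gen k N d i).IsHomogeneous d := by
  unfold gen
  refine IsHomogeneous.sum _ _ _ fun m hm => ?_
  apply isHomogeneous_monomial
  rw [Finset.mem_finsuppAntidiag] at hm
  rw [Finsupp.degree_eq_sum]
  exact hm.1

variable {k : Type} [Field k] {N d n : ℕ}

/-- Coefficients of the map. -/
def fc (x : PtTuple k N d n) : Fin (N + 1) × (Fin (N + 1) →₀ ℕ) → k :=
  fun p => coeff p.2 (x.1.1 p.1)

/-- Polynomials in the point with coefficients polynomials in the map. -/
abbrev BB (k : Type) [Field k] (N : ℕ) : Type :=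
  MvPolynomial (Fin (N + 1)) (MvPolynomial (Fin (N + 1) × (Fin (N + 1) →₀ ℕ)) k)

/-- Evaluation at a pair. -/
def evB (x : PtTuple k N d n) : BB k N →+* k := (eval x.1.2).comp (map (eval (fc x)))

theorem evB_X (x : PtTuple k N d n) (i : Fin (N + 1)) : evB x (X i) = x.1.2 i := by
  simp [evB]

theorem evB_C (x : PtTuple k N d n) (a : MvPolynomial (Fin (N + 1) × (Fin (N + 1) →₀ ℕ)) k) :
    evB x (C a) = eval (fc x) a := by
  simp [evB]

theorem eval_ptCoords (x : PtTuple k N d n)
    (p : MvPolynomial (Fin (N + 1) ⊕ (Fin (N + 1) × (Fin (N + 1) →₀ ℕ))) k) :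
    eval (ptCoords x) p = evB x (sumAlgEquiv k _ _ p) := by
  induction p using MvPolynomial.induction_on with
  | C a => rw [sumAlgEquiv_C_inl, eval_C, evB_C, eval_C]
  | add p q hp hq => simp only [map_add, hp, hq]
  | mul_X p i hp =>
    rw [map_mul, map_mul, map_mul, hp]
    congr 1
    rcases i with i | i
    · rw [sumAlgEquiv_X_inl, evB_X, eval_X]; rfl
    · rw [sumAlgEquiv_X_inr, evB_C, eval_X, eval_X]; rfl

/-- Ideal of a set of pairs. -/
def JJ (T : Set (PtTuple k N d n)) : Ideal (BB k N) where
  carrier := {b | ∀ x ∈ T, evB x b = 0}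
  add_mem' := by
    intro a b ha hb x hx
    rw [map_add, ha x hx, hb x hx, add_zero]
  zero_mem' := by intro x _; rw [map_zero]
  smul_mem' := by
    intro a b hb x hx
    rw [smul_eq_mul, map_mul, hb x hx, mul_zero]

theorem mem_JJ (T : Set (PtTuple k N d n)) (b : BB k N) : b ∈ JJ T ↔ ∀ x ∈ T, evB x b = 0 :=
  Iff.rfl

theorem JJ_isPrime {T : Set (PtTuple k N d n)} (hT : IsIrreducible T) : (JJ T).IsPrime := by
  have hp := vid_isPrime (isZar_ptCoords k N d n) hT
  have : JJ T = (vid (ptCoords : PtTuple k N d n → _ → k) T).comap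
      (sumAlgEquiv k (Fin (N + 1)) (Fin (N + 1) × (Fin (N + 1) →₀ ℕ))).symm := by
    ext b
    rw [Ideal.mem_comap, mem_vid, mem_JJ]
    refine forall₂_congr fun x _ => ?_
    rw [eval_ptCoords]
    simp
  rw [this]
  exact Ideal.comap_isPrime _ _

/-- The generic iterate. -/
def GG (k : Type) [Field k] (N d n : ℕ) : Fin (N + 1) → BB k N := iterT (gen k N d) n

theorem evB_GG (x : PtTuple k N d n) (i : Fin (N + 1)) :
    evB x (GG k N d n i) = ((evalMap x.1.1)^[n] x.1.2) i := by
  unfold evB GG
  rw [RingHom.comp_apply]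
  have h1 : map (eval (fc x)) (iterT (gen k N d) n i) =
      iterT (fun j => map (eval (fc x)) (gen k N d j)) n i :=
    congrFun (map_iterT (eval (fc x)) (gen k N d) n) i
  rw [h1]
  have h2 : (fun j => map (eval (fc x)) (gen k N d j)) = x.1.1 :=
    spec_gen (⟨x.1.1, x.2.1⟩ : EndTuple k N d)
  rw [h2, eval_iterT]

theorem GG_prop (x : PtTuple k N d n) (i j : Fin (N + 1)) :
    evB x (GG k N d n i) * evB x (X j) = evB x (GG k N d n j) * evB x (X i) := by
  rw [evB_GG, evB_GG, evB_X, evB_X]
  obtain ⟨c, hc⟩ := x.2.2.2.1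
  rw [hc]
  simp only [Pi.smul_apply, smul_eq_mul]
  ring

/-- Exponents of total degree `M`. -/
abbrev Ex (N M : ℕ) : Type := {α : Fin (N + 1) →₀ ℕ // α ∈ Finset.finsuppAntidiag Finset.univ M}

theorem mem_Ex {M : ℕ} (α : Fin (N + 1) →₀ ℕ) :
    α ∈ Finset.finsuppAntidiag (Finset.univ : Finset (Fin (N + 1))) M ↔ α.degree = M := by
  rw [Finset.mem_finsuppAntidiag, Finsupp.degree_eq_sum]
  exact ⟨fun h => h.1, fun h => ⟨h, Finset.subset_univ _⟩⟩

/-- An index with large exponent. -/
theorem exists_large {D M : ℕ} (hM : (N + 1) * (D - 1) < M) (α : Ex N M) :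
    ∃ i, D ≤ α.1 i := by
  by_contra hcon
  push Not at hcon
  have h1 := (mem_Ex α.1).mp α.2
  rw [Finsupp.degree_eq_sum] at h1
  have h2 : ∑ i, α.1 i ≤ ∑ _i : Fin (N + 1), (D - 1) :=
    Finset.sum_le_sum fun i _ => by have := hcon i; omega
  rw [Finset.sum_const, Finset.card_univ, Fintype.card_fin, smul_eq_mul] at h2
  omega

section elim

variable (k N d n)

/-- the exponent bound -/
def MM : ℕ := (N + 1) * (d ^ n - 1) + 1

/-- the chosen index -/
def ch (α : Ex N (MM N d n)) : Fin (N + 1) :=
  (exists_large (D := d ^ n) (by unfold MM; omega) α).choose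

theorem ch_spec (α : Ex N (MM N d n)) : d ^ n ≤ α.1 (ch N d n α) :=
  (exists_large (D := d ^ n) (by unfold MM; omega) α).choose_spec

/-- the reduced exponent -/
def rd (α : Ex N (MM N d n)) : Fin (N + 1) →₀ ℕ := α.1 - Finsupp.single (ch N d n α) (d ^ n)

theorem rd_add (α : Ex N (MM N d n)) :
    rd N d n α + Finsupp.single (ch N d n α) (d ^ n) = α.1 := by
  unfold rd
  apply tsub_add_cancel_of_le
  rw [Finsupp.single_le_iff]
  exact ch_spec N d n α

theorem rd_degree (α : Ex N (MM N d n)) : (rd N d n α).degree + d ^ n = MM N d n := by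
  have h := congrArg Finsupp.degree (rd_add N d n α)
  rw [map_add, Finsupp.degree_single] at h
  rw [h]
  exact (mem_Ex α.1).mp α.2

/-- The elimination matrix. -/
def TM : Matrix (Ex N (MM N d n)) (Ex N (MM N d n))
    (MvPolynomial (Fin (N + 1) × (Fin (N + 1) →₀ ℕ)) k) :=
  fun α β => coeff β.1 (monomial (rd N d n α) 1 * GG k N d n (ch N d n α))

theorem TM_row (α : Ex N (MM N d n)) :
    monomial (rd N d n α) 1 * GG k N d n (ch N d n α) =
      ∑ β : Ex N (MM N d n), C (TM k N d n α β) * monomial β.1 1 := by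
  have hh : (monomial (rd N d n α) (1 : MvPolynomial (Fin (N + 1) × (Fin (N + 1) →₀ ℕ)) k) *
      GG k N d n (ch N d n α)).IsHomogeneous (MM N d n) := by
    rw [← rd_degree N d n α]
    exact (isHomogeneous_monomial _ rfl).mul (iterT_homog (gen_homog k N d) n _)
  ext1 m
  rw [coeff_sum]
  simp only [coeff_C_mul, coeff_monomial]
  by_cases hm : m.degree = MM N d n
  · rw [Finset.sum_eq_single ⟨m, (mem_Ex m).mpr hm⟩]
    · simp [TM]
    · intro b _ hb
      rw [if_neg, mul_zero]
      intro h
      exact hb (Subtype.ext h)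
    · simp
  · rw [hh.coeff_eq_zero hm]
    symm
    apply Finset.sum_eq_zero
    intro β _
    rw [if_neg, mul_zero]
    intro h
    apply hm
    rw [← h]
    exact (mem_Ex β.1).mp β.2

/-- The determinant. -/
def delta : MvPolynomial (Fin (N + 1) × (Fin (N + 1) →₀ ℕ)) k := (TM k N d n).det

theorem delta_mul (β : Ex N (MM N d n)) :
    C (delta k N d n) * monomial β.1 1 =
      ∑ α, C ((TM k N d n).adjugate β α) *
        (monomial (rd N d n α) 1 * GG k N d n (ch N d n α)) := by
  have h1 : ∀ γ, ∑ α, (TM k N d n).adjugate β α * TM k N d n α γ =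
      if β = γ then delta k N d n else 0 := by
    intro γ
    have := congrFun (congrFun (Matrix.adjugate_mul (TM k N d n)) β) γ
    rw [Matrix.mul_apply] at this
    rw [this, Matrix.smul_apply, Matrix.one_apply]
    unfold delta
    split_ifs <;> simp
  simp_rw [TM_row, Finset.mul_sum]
  rw [Finset.sum_comm]
  have h2 : ∀ γ : Ex N (MM N d n), ∑ α, C ((TM k N d n).adjugate β α) *
      (C (TM k N d n α γ) * monomial γ.1 1) =
      C (if β = γ then delta k N d n else 0) * monomial γ.1 1 := by
    intro γ
    rw [← h1 γ, map_sum, Finset.sum_mul]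
    refine Finset.sum_congr rfl fun α _ => ?_
    rw [map_mul, mul_assoc]
  simp_rw [h2]
  rw [Finset.sum_eq_single β]
  · simp
  · intro γ _ hγ
    rw [if_neg hγ.symm]
    simp
  · simp

variable {k N d n}

/-- One reduction step. -/
theorem reduce_step (e : Fin (N + 1)) {m : ℕ} (hm : MM N d n ≤ m) (b : BB k N)
    (hb : b.IsHomogeneous m) : ∃ b' : BB k N, b'.IsHomogeneous (m + 1 - d ^ n) ∧
      ∀ x : PtTuple k N d n, evB x (C (delta k N d n)) * evB x (X e) * evB x b =
        evB x (GG k N d n e) * evB x b' := by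
  classical
  -- monomials
  have hmono : ∀ β : Fin (N + 1) →₀ ℕ, β.degree = m → ∃ b' : BB k N,
      b'.IsHomogeneous (m + 1 - d ^ n) ∧
      ∀ x : PtTuple k N d n, evB x (C (delta k N d n)) * evB x (X e) * evB x (monomial β 1) =
        evB x (GG k N d n e) * evB x b' := by
    intro β hβ
    obtain ⟨β', hle, hdeg⟩ := Finsupp.exists_le_degree_eq β (MM N d n) (by omega)
    let β0 : Ex N (MM N d n) := ⟨β', (mem_Ex β').mpr hdeg⟩
    refine ⟨∑ α, C ((TM k N d n).adjugate β0 α) *
      (monomial (rd N d n α) 1 * X (ch N d n α) * monomial (β - β') 1), ?_, ?_⟩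
    · refine IsHomogeneous.sum _ _ _ fun α _ => ?_
      refine IsHomogeneous.C_mul ?_ _
      have h1 : m + 1 - d ^ n = (rd N d n α).degree + 1 + (β - β').degree := by
        have h2 := rd_degree N d n α
        have h3 : (β - β').degree + β'.degree = β.degree := by
          rw [← map_add, tsub_add_cancel_of_le hle]
        omega
      rw [h1]
      exact ((isHomogeneous_monomial _ rfl).mul (isHomogeneous_X _ _)).mul
        (isHomogeneous_monomial _ rfl)
    · intro x
      have h1 : (monomial β 1 : BB k N) = monomial β' 1 * monomial (β - β') 1 := by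
        rw [monomial_mul, add_tsub_cancel_of_le hle, one_mul]
      have h2 := congrArg (evB x) (delta_mul k N d n β0)
      rw [map_mul] at h2
      change evB x (C (delta k N d n)) * evB x (monomial β' 1) = _ at h2
      rw [h1, map_mul]
      calc evB x (C (delta k N d n)) * evB x (X e) *
            (evB x (monomial β' 1) * evB x (monomial (β - β') 1))
          = (evB x (C (delta k N d n)) * evB x (monomial β' 1)) *
            (evB x (X e) * evB x (monomial (β - β') 1)) := by ring
        _ = _ := by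
            rw [h2, map_sum, map_sum, Finset.sum_mul, Finset.mul_sum]
            refine Finset.sum_congr rfl fun α _ => ?_
            rw [map_mul, map_mul, map_mul, map_mul, map_mul]
            have h3 := GG_prop x (ch N d n α) e
            linear_combination (evB x (C ((TM k N d n).adjugate β0 α)) *
              evB x (monomial (rd N d n α) 1) * evB x (monomial (β - β') 1)) * h3
  choose! bm hbm1 hbm2 using hmono
  refine ⟨∑ β ∈ b.support, C (coeff β b) * bm β, ?_, ?_⟩
  · refine IsHomogeneous.sum _ _ _ fun β hβ => ?_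
    refine IsHomogeneous.C_mul (hbm1 β ?_) _
    by_contra h
    exact (mem_support_iff.mp hβ) (hb.coeff_eq_zero h)
  · intro x
    conv_lhs => rw [b.as_sum]
    rw [map_sum, map_sum, Finset.mul_sum, Finset.mul_sum]
    refine Finset.sum_congr rfl fun β hβ => ?_
    have hdeg : β.degree = m := by
      by_contra h
      exact (mem_support_iff.mp hβ) (hb.coeff_eq_zero h)
    have h1 : (monomial β (coeff β b) : BB k N) = C (coeff β b) * monomial β 1 := by
      rw [C_mul_monomial, mul_one]
    rw [h1, map_mul, map_mul]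
    have h2 := hbm2 β hdeg x
    linear_combination (evB x (C (coeff β b))) * h2

/-- Iterated reduction. -/
theorem reduce (hdn : 2 ≤ d ^ n) (e : Fin (N + 1)) : ∀ m : ℕ, ∃ s m' : ℕ, m' < MM N d n ∧
    ∀ b : BB k N, b.IsHomogeneous m → ∃ b' : BB k N, b'.IsHomogeneous m' ∧
      ∀ x : PtTuple k N d n, (evB x (C (delta k N d n)) * evB x (X e)) ^ s * evB x b =
        (evB x (GG k N d n e)) ^ s * evB x b' := by
  intro m
  induction m using Nat.strong_induction_on with
  | _ m ih =>
    by_cases hm : m < MM N d n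
    · exact ⟨0, m, hm, fun b hb => ⟨b, hb, fun x => by simp⟩⟩
    · have hm' : MM N d n ≤ m := by omega
      have hpos : 1 ≤ MM N d n := by unfold MM; omega
      obtain ⟨s, m', hm'', h⟩ := ih (m + 1 - d ^ n) (by omega)
      refine ⟨s + 1, m', hm'', fun b hb => ?_⟩
      obtain ⟨b1, hb1, h1⟩ := reduce_step (k := k) (N := N) (d := d) (n := n) e hm' b hb
      obtain ⟨b2, hb2, h2⟩ := h b1 hb1
      refine ⟨b2, hb2, fun x => ?_⟩
      have e1 := h1 x
      have e2 := h2 x
      rw [pow_succ, pow_succ]
      linear_combination ((evB x (C (delta k N d n)) * evB x (X e)) ^ s) * e1 +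
        (evB x (GG k N d n e)) * e2

end elim

/-- Vectors with polynomial entries, more than the dimension, are dependent modulo a prime. -/
theorem exists_dep {A : Type} [CommRing A] (I : Ideal A) (hI : I ≠ ⊤) {ι : Type} [Fintype ι]
    (r : ℕ) (hr : Fintype.card ι < r + 1) (w : Fin (r + 1) → ι → A) :
    ∃ a : Fin (r + 1) → A, (∃ i, a i ∉ I) ∧ ∀ γ, ∑ i, a i * w i γ ∈ I := by
  classical
  have hnt : Nontrivial (A ⧸ I) := Ideal.Quotient.nontrivial_iff.mpr hI
  have hnot : ¬ LinearIndependent (A ⧸ I)
      (fun i : Fin (r + 1) => fun γ : ι => (Ideal.Quotient.mk I (w i γ))) := by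
    intro h
    have := h.fintype_card_le_finrank
    rw [Module.finrank_fintype_fun_eq_card, Fintype.card_fin] at this
    omega
  rw [Fintype.not_linearIndependent_iff] at hnot
  obtain ⟨g, hg, i, hi⟩ := hnot
  choose a ha using fun i => Ideal.Quotient.mk_surjective (g i)
  refine ⟨a, ⟨i, ?_⟩, ?_⟩
  · intro h
    apply hi
    rw [← ha i]
    exact Ideal.Quotient.eq_zero_iff_mem.mpr h
  · intro γ
    rw [← Ideal.Quotient.eq_zero_iff_mem, map_sum]
    have := congrFun hg γ
    rw [Finset.sum_apply] at this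
    refine Eq.trans ?_ this
    refine Finset.sum_congr rfl fun i _ => ?_
    rw [map_mul, ha]
    rfl

end

end Pool.Agent.Helper819.Dyn
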