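import Pool.Agent.Helper819.Max

/-!
The family `[x_0^d : ... : x_{N-1}^d : x_N^d + t x_0^{d-1} x_N]` with a marked point.
-/

open MvPolynomial

namespace Pool.Agent.Helper819.Dyn

open Pool.Agent.Helper819.Zar

noncomputable section

set_option linter.unusedSectionVars false

/-- The family. -/
def famT {R : Type} [CommRing R] (N d : ℕ) (t : R) : Tuple R N :=
  fun i => X i ^ d + (if i = Fin.last N then C t * (X 0 ^ (d - 1) * X i) else 0)

theorem map_famT {R S : Type} [CommRing R] [CommRing S] (φ : R →+* S) (N d : ℕ) (t : R)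
    (i : Fin (N + 1)) : map φ (famT N d t i) = famT N d (φ t) i := by
  unfold famT
  rw [map_add, map_pow, map_X]
  congr 1
  split_ifs
  · simp
  · simp

theorem eval_famT {R : Type} [CommRing R] (N d : ℕ) (t : R) (P : Fin (N + 1) → R)
    (i : Fin (N + 1)) : eval P (famT N d t i) =
      P i ^ d + (if i = Fin.last N then t * (P 0 ^ (d - 1) * P i) else 0) := by
  unfold famT
  rw [map_add, map_pow, eval_X]
  congr 1
  split_ifs
  · simp
  · simp

theorem famT_homog {R : Type} [CommRing R] {N d : ℕ} (hd : 1 ≤ d) (t : R) (i : Fin (N + 1)) :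
    (famT N d t i).IsHomogeneous d := by
  unfold famT
  refine IsHomogeneous.add ?_ ?_
  · have := (isHomogeneous_X R i).pow d
    rwa [one_mul] at this
  · split_ifs
    · refine IsHomogeneous.C_mul ?_ _
      have := ((isHomogeneous_X R (0 : Fin (N + 1))).pow (d - 1)).mul (isHomogeneous_X R i)
      rwa [one_mul, Nat.sub_add_cancel hd] at this
    · exact isHomogeneous_zero _ _ _

variable {k : Type} [Field k] [IsAlgClosed k] {N d n : ℕ}

theorem famT_isEnd (hN : 1 ≤ N) (hd : 2 ≤ d) (t : k) : IsEnd d (famT N d t) := by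
  rw [isEnd_iff]
  refine ⟨famT_homog (by omega) t, fun x hx => ?_⟩
  have h1 : ∀ i, i ≠ Fin.last N → x i = 0 := by
    intro i hi
    have := hx i
    rw [eval_famT, if_neg hi, add_zero] at this
    exact pow_eq_zero_iff (by omega) |>.mp this
  have h0 : x 0 = 0 := h1 0 (by
    intro h
    have := congrArg Fin.val h
    simp at this
    omega)
  funext i
  by_cases hi : i = Fin.last N
  · have := hx i
    rw [eval_famT, if_pos hi, h0, zero_pow (by omega : d - 1 ≠ 0), zero_mul, mul_zero,
      add_zero] at this
    exact pow_eq_zero_iff (by omega) |>.mp this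
  · exact h1 i hi

/-- The marked point. -/
def ptz {R : Type} [CommRing R] (N : ℕ) (ζ : R) : Fin (N + 1) → R :=
  fun i => if i = 0 then ζ else if (i : ℕ) = 1 then 1 else 0

theorem ptz_zero {R : Type} [CommRing R] (N : ℕ) (ζ : R) : ptz N ζ 0 = ζ := by
  simp [ptz]

theorem ptz_one {R : Type} [CommRing R] (hN : 1 ≤ N) (ζ : R) : ptz N ζ ⟨1, by omega⟩ = 1 := by
  simp [ptz]

theorem ptz_last {R : Type} [CommRing R] (hN : 2 ≤ N) (ζ : R) : ptz N ζ (Fin.last N) = 0 := by
  unfold ptz
  rw [if_neg, if_neg]
  · simp; omega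
  · intro h
    have := congrArg Fin.val h
    simp at this
    omega

theorem evalMap_ptz (hN : 2 ≤ N) (hd : 1 ≤ d) (t ζ : k) :
    evalMap (famT N d t) (ptz N ζ) = ptz N (ζ ^ d) := by
  funext i
  unfold evalMap
  rw [eval_famT]
  by_cases hi : i = Fin.last N
  · rw [if_pos hi, hi, ptz_last hN, ptz_last hN, zero_pow (by omega)]
    simp
  · rw [if_neg hi, add_zero]
    unfold ptz
    split_ifs
    · rfl
    · rw [one_pow]
    · rw [zero_pow (by omega)]

theorem iter_ptz (hN : 2 ≤ N) (hd : 1 ≤ d) (t ζ : k) (m : ℕ) :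
    (evalMap (famT N d t))^[m] (ptz N ζ) = ptz N (ζ ^ d ^ m) := by
  induction m with
  | zero => simp
  | succ m ih =>
    rw [Function.iterate_succ_apply', ih, evalMap_ptz hN hd, ← pow_mul, ← pow_succ]

theorem period_ptz (hN : 2 ≤ N) (hd : 1 ≤ d) (t : k) {ζ : k} (hζ0 : ζ ≠ 0) (m : ℕ) :
    (∃ c : k, (evalMap (famT N d t))^[m] (ptz N ζ) = c • ptz N ζ) ↔ ζ ^ (d ^ m - 1) = 1 := by
  rw [iter_ptz hN hd]
  have h1 : ζ ^ d ^ m = ζ ^ (d ^ m - 1) * ζ := by
    rw [← pow_succ]
    congr 1
    have := Nat.one_le_pow m d (by omega)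
    omega
  constructor
  · rintro ⟨c, hc⟩
    have e0 := congrFun hc 0
    have e1 := congrFun hc ⟨1, by omega⟩
    rw [Pi.smul_apply, ptz_zero, ptz_zero, smul_eq_mul] at e0
    rw [Pi.smul_apply, ptz_one (by omega), ptz_one (by omega), smul_eq_mul, mul_one] at e1
    rw [← e1, one_mul, h1] at e0
    exact mul_right_cancel₀ hζ0 (by rw [e0, one_mul])
  · intro h
    refine ⟨1, ?_⟩
    rw [h1, h, one_mul, one_smul]

theorem exact_ptz (hN : 2 ≤ N) (hd : 2 ≤ d) (hn : 1 ≤ n) (t : k) {ζ : k}
    (hζ : IsPrimitiveRoot ζ (d ^ n - 1)) : HasExactPeriod n (famT N d t) (ptz N ζ) := by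
  have hpos : 1 < d ^ n := Nat.one_lt_pow (by omega) (by omega)
  have hζ0 : ζ ≠ 0 := hζ.ne_zero (by omega)
  refine ⟨?_, ?_, ?_⟩
  · intro h
    apply hζ0
    have := congrFun h 0
    rwa [ptz_zero] at this
  · exact (period_ptz hN (by omega) t hζ0 n).mpr hζ.pow_eq_one
  · intro m hm hmn h
    have h1 := (period_ptz hN (by omega) t hζ0 m).mp h
    have h2 := hζ.dvd_of_pow_eq_one _ h1
    have h3 : 1 < d ^ m := Nat.one_lt_pow (by omega) (by omega)
    have h4 := Nat.le_of_dvd (by omega) h2
    have h5 : d ^ m < d ^ n := Nat.pow_lt_pow_right (by omega) hmn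
    omega

/-- The pairs. -/
def xt (hN : 2 ≤ N) (hd : 2 ≤ d) (hn : 1 ≤ n) {ζ : k} (hζ : IsPrimitiveRoot ζ (d ^ n - 1))
    (t : k) : PtTuple k N d n :=
  ⟨(famT N d t, ptz N ζ), famT_isEnd (by omega) hd t, exact_ptz hN hd hn t hζ⟩

theorem iterT_pow (N d : ℕ) (m : ℕ) (i : Fin (N + 1)) :
    iterT (famT N d (0 : k)) m i = X i ^ d ^ m := by
  have h0 : ∀ i, famT N d (0 : k) i = X i ^ d := by
    intro i
    unfold famT
    split_ifs <;> simp
  induction m generalizing i with
  | zero => simp [iterT]
  | succ m ih =>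
    change bind₁ (iterT (famT N d (0 : k)) m) (famT N d (0 : k) i) = _
    rw [h0, map_pow, bind₁_X_right, ih, ← pow_mul, ← pow_succ]

theorem delta_ne_zero (x : PtTuple k N d n) (hx : x.1.1 = famT N d (0 : k)) :
    eval (fc x) (delta k N d n) ≠ 0 := by
  have h1 : (TM k N d n).map (eval (fc x)) = 1 := by
    ext α β
    rw [Matrix.map_apply]
    unfold TM
    rw [← coeff_map, map_mul, map_monomial, map_one]
    have h2 : map (eval (fc x)) (GG k N d n (ch N d n α)) =
        iterT (fun j => map (eval (fc x)) (gen k N d j)) n (ch N d n α) :=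
      congrFun (map_iterT (eval (fc x)) (gen k N d) n) _
    have h3 : (fun j => map (eval (fc x)) (gen k N d j)) = x.1.1 :=
      spec_gen (⟨x.1.1, x.2.1⟩ : EndTuple k N d)
    rw [h2, h3, hx, iterT_pow, X_pow_eq_monomial, monomial_mul, rd_add, one_mul, coeff_monomial,
      Matrix.one_apply]
    congr 1
    exact propext Subtype.ext_iff.symm
  unfold delta
  rw [RingHom.map_det, RingHom.mapMatrix_apply, h1, Matrix.det_one]
  exact one_ne_zero

/-- The family is not constant. -/
theorem famT_ne [CharZero k] (hN : 1 ≤ N) (hd : 2 ≤ d)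
    (A : Matrix (Fin (N + 1)) (Fin (N + 1)) k) (hA : A.det ≠ 0) :
    famT N d (1 : k) ≠ act A (famT N d (0 : k)) := by
  intro h
  have hlast : (0 : Fin (N + 1)) ≠ Fin.last N := by
    intro h
    have := congrArg Fin.val h
    simp at this
    omega
  -- the column of `A`
  have hcol : ∀ i, A i (Fin.last N) = 0 := by
    intro i
    -- identity of polynomials
    have hpoly : (Polynomial.C (A i 0) + (Polynomial.X ^ d + Polynomial.X) *
        Polynomial.C (A i (Fin.last N)) - Polynomial.C A.det *
        (Polynomial.C (A i 0) + Polynomial.X * Polynomial.C (A i (Fin.last N))) ^ d :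
        Polynomial k) = 0 := by
      apply Polynomial.funext
      intro c
      simp only [Polynomial.eval_sub, Polynomial.eval_add, Polynomial.eval_C, Polynomial.eval_mul,
        Polynomial.eval_pow, Polynomial.eval_X, Polynomial.eval_zero]
      let Q : Fin (N + 1) → k := fun j => if j = 0 then 1 else if j = Fin.last N then c else 0
      have hmul : ∀ (a b : k) (l : Fin (N + 1)), A.mulVec (fun j => if j = 0 then a else
          if j = Fin.last N then b else 0) l = A l 0 * a + A l (Fin.last N) * b := by
        intro a b l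
        change ∑ j, A l j * (if j = 0 then a else if j = Fin.last N then b else 0) = _
        rw [← Finset.sum_erase_add _ _ (Finset.mem_univ (0 : Fin (N + 1))),
          ← Finset.sum_erase_add _ _ (Finset.mem_erase.mpr ⟨hlast.symm, Finset.mem_univ _⟩)]
        have hz : ∑ j ∈ (Finset.univ.erase (0 : Fin (N + 1))).erase (Fin.last N),
            A l j * (if j = 0 then a else if j = Fin.last N then b else 0) = 0 := by
          apply Finset.sum_eq_zero
          intro j hj
          rw [Finset.mem_erase, Finset.mem_erase] at hj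
          rw [if_neg hj.2.1, if_neg hj.1, mul_zero]
        rw [hz, if_pos rfl, if_neg hlast.symm, if_pos rfl, zero_add, add_comm]
      have h1 : (fun j => eval Q (famT N d (1 : k) j)) = fun j => if j = 0 then 1 else
          if j = Fin.last N then c ^ d + c else 0 := by
        funext j
        rw [eval_famT]
        by_cases hj0 : j = 0
        · rw [if_pos hj0, hj0, if_neg hlast]
          simp [Q]
        · by_cases hjl : j = Fin.last N
          · rw [if_pos hjl, if_neg hj0, if_pos hjl, hjl]
            simp [Q, hlast.symm]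
          · rw [if_neg hjl, if_neg hj0, if_neg hjl]
            simp only [Q]
            rw [if_neg hj0, if_neg hjl, zero_pow (by omega), add_zero]
      have h2 : (fun j => eval Q (famT N d (1 : k) j)) =
          A.adjugate.mulVec (fun j => (A.mulVec Q j) ^ d) := by
        rw [h]
        funext j
        rw [eval_act]
        unfold Matrix.mulVec dotProduct
        refine Finset.sum_congr rfl fun l _ => ?_
        rw [eval_famT]
        congr 1
        split_ifs <;> simp
      have h3 := congrFun (congrArg A.mulVec (h1.symm.trans h2)) i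
      rw [hmul, Matrix.mulVec_mulVec, Matrix.mul_adjugate, Matrix.smul_mulVec,
        Matrix.one_mulVec, Pi.smul_apply, smul_eq_mul, hmul] at h3
      rw [mul_one] at h3
      linear_combination h3
    have h0 := congrArg (Polynomial.eval 0) hpoly
    have h1 := congrArg (fun p => Polynomial.eval 0 (Polynomial.derivative p)) hpoly
    simp only [Polynomial.eval_sub, Polynomial.eval_add, Polynomial.eval_C, Polynomial.eval_mul,
      Polynomial.eval_pow, Polynomial.eval_X, Polynomial.eval_zero, Polynomial.derivative_sub,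
      Polynomial.derivative_add, Polynomial.derivative_mul, Polynomial.derivative_C,
      Polynomial.derivative_pow, Polynomial.derivative_X,
      Polynomial.derivative_zero, Polynomial.eval_one,
      zero_pow (by omega : d ≠ 0), zero_pow (by omega : d - 1 ≠ 0), zero_mul, mul_zero, add_zero,
      zero_add, mul_one, one_mul] at h0 h1
    by_contra hne
    have ha : A i 0 ≠ 0 := by
      intro ha
      rw [ha, zero_pow (by omega : d - 1 ≠ 0)] at h1
      simp at h1
      exact hne h1
    have e1 : A.det * A i 0 ^ (d - 1) = 1 := by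
      have e2 : A i 0 ^ d = A i 0 ^ (d - 1) * A i 0 := by
        rw [← pow_succ]
        congr 1
        omega
      rw [e2] at h0
      have e3 : (1 - A.det * A i 0 ^ (d - 1)) * A i 0 = 0 := by linear_combination h0
      have e4 := (mul_eq_zero.mp e3).resolve_right ha
      linear_combination -e4
    have e5 : ((d : k) - 1) * A i (Fin.last N) = 0 := by
      linear_combination -h1 - (d * A i (Fin.last N)) * e1
    have e6 : (d : k) - 1 ≠ 0 := by
      intro h
      have : (d : k) = ((1 : ℕ) : k) := by rw [Nat.cast_one]; linear_combination h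
      have := Nat.cast_injective this
      omega
    exact hne ((mul_eq_zero.mp e5).resolve_left e6)
  exact hA (Matrix.det_eq_zero_of_column_eq_zero (Fin.last N) hcol)

end

end Pool.Agent.Helper819.Dyn
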