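import Pool.Agent.Helper819.Desc

/-!
Maps with trivial automorphism group: functions on the orbit.
-/

open MvPolynomial

namespace Pool.Agent.Helper819.Dyn

open Pool.Agent.Helper819.Apolar

noncomputable section

set_option linter.unusedSectionVars false

variable {k : Type} [Field k] {N d : ℕ}

/-- trivial automorphism group -/
def IsFree (f : Ix N d → k) : Prop :=
  ∀ A : Matrix (Fin (N + 1)) (Fin (N + 1)) k, A.det ≠ 0 → actT A f = f → ∃ r : k, A = r • 1

/-- descent for the infinitesimal orbit -/
theorem xi_descent {L : Type} [Field L] [Algebra k L] (f v : Ix N d → k)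
    (Y : Matrix (Fin (N + 1)) (Fin (N + 1)) L)
    (h : xi Y (fun p => algebraMap k L (f p)) = fun p => algebraMap k L (v p)) :
    ∃ Y0 : Matrix (Fin (N + 1)) (Fin (N + 1)) k, xi Y0 f = v := by
  by_contra hcon
  have hv : v ∉ LinearMap.range (xiL f) := by
    rintro ⟨Y0, hY0⟩
    exact hcon ⟨Y0, hY0⟩
  obtain ⟨l, hl1, hl2⟩ := Submodule.exists_le_ker_of_notMem hv
  let lp : Ix N d → k := fun p => l (Pi.single p 1)
  have hlp : ∀ u : Ix N d → k, l u = ∑ p, lp p * u p := by
    intro u
    conv_lhs => rw [pi_eq_sum_univ u, map_sum]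
    refine Finset.sum_congr rfl fun p _ => ?_
    rw [map_smul, smul_eq_mul, mul_comm]
    congr 1
    change l _ = l _
    congr 1
    funext q
    rw [Pi.single_apply]
    simp only [eq_comm]
  -- the extended functional
  let LL : (Ix N d → L) →ₗ[L] L := ∑ p, algebraMap k L (lp p) • LinearMap.proj p
  have hLL : ∀ u : Ix N d → L, LL u = ∑ p, algebraMap k L (lp p) * u p := by
    intro u
    change (∑ p, algebraMap k L (lp p) • LinearMap.proj p : (Ix N d → L) →ₗ[L] L) u = _
    rw [LinearMap.sum_apply]
    rfl
  have hLk : ∀ u : Ix N d → k, LL (fun p => algebraMap k L (u p)) = algebraMap k L (l u) := by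
    intro u
    rw [hLL, hlp, map_sum]
    exact Finset.sum_congr rfl fun p _ => (map_mul _ _ _).symm
  have hzero : LL ∘ₗ xiL (fun p => algebraMap k L (f p)) = 0 := by
    apply Matrix.ext_linearMap
    intro i j
    ext
    have h1 : xi (Matrix.single i j (1 : L)) (fun p => algebraMap k L (f p)) =
        fun p => algebraMap k L (xi (Matrix.single i j (1 : k)) f p) := by
      funext p
      rw [map_xi]
      congr 1
      ext a b
      simp only [Matrix.map_apply, Matrix.single_apply]
      split_ifs <;> simp
    change LL (xi (Matrix.single i j (1 : L)) (fun p => algebraMap k L (f p))) = 0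
    rw [h1, hLk]
    have h2 : l (xi (Matrix.single i j (1 : k)) f) = 0 := hl2 ⟨Matrix.single i j 1, rfl⟩
    rw [h2, map_zero]
  have h1 : LL (xi Y (fun p => algebraMap k L (f p))) = 0 :=
    congrFun (congrArg DFunLike.coe hzero) Y
  rw [h, hLk] at h1
  exact hl1 ((map_eq_zero _).mp h1)

theorem tup_inj {R : Type} [CommRing R] {c c' : Ix N d → R} (h : tup c = tup c') : c = c' := by
  rw [← cf_tup c, ← cf_tup c', h]

variable [IsAlgClosed k] [CharZero k]

/-- injectivity of the infinitesimal action over extensions -/
theorem xi_inj (hd : 2 ≤ d) {L : Type} [Field L] [Algebra k L] {f : Ix N d → k}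
    (hf : NZ (tup f)) (Y : Matrix (Fin (N + 1)) (Fin (N + 1)) L)
    (h : xi Y (fun p => algebraMap k L (f p)) = 0) : Y = 0 := by
  let K := AlgebraicClosure L
  have hchar : CharZero K := charZero_of_injective_algebraMap
    (algebraMap k K).injective
  have hNZ : NZ (tup (fun p => algebraMap k K (f p))) := by
    have := NZ_map (K := K) hf
    convert this using 1
    funext i
    exact (map_tup _ f i).symm
  have h1 : xi (Y.map (algebraMap L K)) (fun p => algebraMap k K (f p)) = 0 := by
    funext p
    have h2 := map_xi (algebraMap L K) Y (fun p => algebraMap k L (f p)) p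
    rw [h, Pi.zero_apply, map_zero] at h2
    rw [Pi.zero_apply]
    rw [h2]
    congr 1
  have h2 : Y.map (algebraMap L K) = 0 := by
    apply lie_inj hd hNZ
    intro i
    have h3 : lieT (Y.map (algebraMap L K)) (tup (fun p => algebraMap k K (f p))) i = 0 := by
      rw [← tup_xi (by omega), h1]
      simp [tup]
    unfold lieT at h3
    linear_combination h3
  ext i j
  have h3 := congrFun (congrFun h2 i) j
  rw [Matrix.map_apply, Matrix.zero_apply] at h3
  rw [Matrix.zero_apply]
  exact (map_eq_zero _).mp h3

theorem NZ_ne_zero {f : Ix N d → k} (hf : NZ (tup f)) : f ≠ 0 := by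
  rintro rfl
  have h1 := hf (fun _ => 1) (by
    intro i
    simp [tup])
  exact one_ne_zero (congrFun h1 0)

/-- freeness over extensions -/
theorem free_ext {K : Type} [Field K] [Algebra k K] {f : Ix N d → k} (hfree : IsFree f)
    (B : Matrix (Fin (N + 1)) (Fin (N + 1)) K) (hB : B.det ≠ 0)
    (h : actT B (fun p => algebraMap k K (f p)) = fun p => algebraMap k K (f p)) :
    ∃ r : K, B = r • 1 := by
  have key : ∀ g : KA k N, (∀ r : k, eval (ent (r • (1 : Matrix (Fin (N + 1)) (Fin (N + 1)) k))) g = 0) →
      aeval (ent B) g = 0 := by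
    intro g hg
    by_contra hne
    obtain ⟨y, hy1, hy2⟩ := exists_point (ent B) (dt (N + 1) k * g) (by
      rw [map_mul, aeval_dt_S]
      exact mul_ne_zero hB hne)
    obtain ⟨A, rfl⟩ := ent_surj y
    rw [map_mul, eval_dt] at hy2
    obtain ⟨r, hr⟩ := hfree A (left_ne_zero_of_mul hy2) (by
      funext p
      have h1 := hy1 (orb f p - C (f p)) (by
        rw [map_sub, aeval_orb_S, algHom_C, h, sub_self])
      rw [map_sub, eval_orb, eval_C, sub_eq_zero] at h1
      exact h1)
    apply right_ne_zero_of_mul hy2
    rw [hr]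
    exact hg r
  refine ⟨B 0 0, ?_⟩
  ext i j
  rw [Matrix.smul_apply, Matrix.one_apply]
  split_ifs with hij
  · subst hij
    have h1 := key (X (i, i) - X (0, 0)) (by
      intro r
      simp [ent])
    rw [map_sub, aeval_X, aeval_X, sub_eq_zero] at h1
    simpa [ent] using h1
  · have h1 := key (X (i, j)) (by
      intro r
      simp [ent, Matrix.one_apply_ne hij])
    rw [aeval_X] at h1
    simpa [ent] using h1

end

end Pool.Agent.Helper819.Dyn
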