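import Pool.Agent.Helper819.Free

/-!
Maps with trivial automorphism group: the function field of the orbit.
-/

open MvPolynomial

namespace Pool.Agent.Helper819.Dyn

open Pool.Agent.Helper819.Apolar

noncomputable section

set_option linter.unusedSectionVars false

variable {k : Type} [Field k] {N d : ℕ}

/-- the function field of the space of matrices -/
abbrev LL (k : Type) [Field k] (N : ℕ) : Type := FractionRing (KA k N)

/-- inclusion -/
def pi0 (k : Type) [Field k] (N : ℕ) : KA k N →ₐ[k] LL k N :=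
  IsScalarTower.toAlgHom k (KA k N) (LL k N)

/-- the generic matrix -/
def M0 (k : Type) [Field k] (N : ℕ) : Matrix (Fin (N + 1)) (Fin (N + 1)) (LL k N) :=
  Matrix.of fun i j => pi0 k N (X (i, j))

theorem pi0_eq (x : KA k N) : pi0 k N x = aeval (ent (M0 k N)) x := by
  have : pi0 k N = aeval (ent (M0 k N)) := by
    apply algHom_ext
    intro p
    rw [aeval_X]
    rfl
  rw [this]

theorem pi0_inj : Function.Injective (pi0 k N) := by
  change Function.Injective (algebraMap (KA k N) (LL k N))
  exact FaithfulSMul.algebraMap_injective _ _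

theorem det_M0 : (M0 k N).det ≠ 0 := by
  rw [← aeval_dt_S (k := k), ← pi0_eq, Ne, map_eq_zero_iff _ pi0_inj]
  exact Matrix.det_mvPolynomialX_ne_zero _ _

theorem pi0_orb (f : Ix N d → k) (p : Ix N d) :
    pi0 k N (orb f p) = actT (M0 k N) (fun p => algebraMap k (LL k N) (f p)) p := by
  rw [pi0_eq, aeval_orb_S]

theorem pi0_aeval_orb (f : Ix N d → k) (P : SS k N d) :
    pi0 k N (aeval (orb f) P) = aeval (fun p => pi0 k N (orb f p)) P :=
  comp_aeval_apply (orb f) (pi0 k N) P

theorem pi0_qq (f v : Ix N d → k) (P : SS k N d) :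
    pi0 k N (qq f v P) = ∑ p, pi0 k N (orb v p) *
      aeval (fun p => pi0 k N (orb f p)) (pderiv p P) := by
  unfold qq
  rw [map_sum]
  refine Finset.sum_congr rfl fun p _ => ?_
  rw [map_mul, pi0_aeval_orb]

/-- the effect of a dual number valued homomorphism on the orbit map -/
theorem dual_orb (φ : LL k N →+* DualNumber (LL k N)) (h1 : ∀ a, (φ a).fst = a)
    (h2 : ∀ a : k, φ (algebraMap k _ a) = algebraMap k (DualNumber (LL k N)) a)
    (Y : Matrix (Fin (N + 1)) (Fin (N + 1)) (LL k N))
    (hY : ∀ i j, (φ (M0 k N i j)).snd = (Y * M0 k N) i j) (f : Ix N d → k) (p : Ix N d) :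
    (φ (pi0 k N (orb f p))).snd =
      actT (M0 k N) (xi Y (fun p => algebraMap k (LL k N) (f p))) p := by
  rw [pi0_orb]
  have e1 := map_actT φ (M0 k N) (fun p => algebraMap k (LL k N) (f p)) p
  rw [e1]
  have e2 : (M0 k N).map φ = oneEps (DualNumber.eps : DualNumber (LL k N)) Y *
      (M0 k N).map (algebraMap (LL k N) (DualNumber (LL k N))) := by
    ext1 i j
    have e3 : (oneEps (DualNumber.eps : DualNumber (LL k N)) Y *
      (M0 k N).map (algebraMap (LL k N) (DualNumber (LL k N)))) i j =
        algebraMap (LL k N) (DualNumber (LL k N)) (M0 k N i j) +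
          DualNumber.eps * algebraMap (LL k N) (DualNumber (LL k N)) ((Y * M0 k N) i j) := by
      unfold oneEps
      rw [add_mul, one_mul, Matrix.add_apply, Matrix.map_apply, Matrix.smul_mul,
        Matrix.smul_apply, ← Matrix.map_mul, Matrix.map_apply, smul_eq_mul]
    rw [e3, Matrix.map_apply]
    apply TrivSqZeroExt.ext
    · rw [h1, fst_form]
    · rw [hY, snd_form]
  have e4 : (fun p => φ (algebraMap k (LL k N) (f p))) =
      fun p => algebraMap (LL k N) (DualNumber (LL k N)) (algebraMap k (LL k N) (f p)) := by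
    funext q
    rw [h2]
    rfl
  rw [e2, e4, ← actT_actT]
  have e5 : actT (oneEps (DualNumber.eps : DualNumber (LL k N)) Y)
      (fun p => algebraMap (LL k N) (DualNumber (LL k N)) (algebraMap k (LL k N) (f p))) =
      (fun p => algebraMap (LL k N) (DualNumber (LL k N)) (algebraMap k (LL k N) (f p))) +
        (DualNumber.eps : DualNumber (LL k N)) • (fun p => algebraMap (LL k N) (DualNumber (LL k N))
          (xi Y (fun p => algebraMap k (LL k N) (f p)) p)) := by
    funext q
    exact actT_eps _ DualNumber.eps_mul_eps Y _ q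
  rw [e5, actT_add, actT_smul]
  simp only [Pi.add_apply, Pi.smul_apply, smul_eq_mul]
  rw [← map_actT, ← map_actT, snd_form]

/-- existence of the matrix `Y` -/
theorem exists_Y (φ : LL k N →+* DualNumber (LL k N)) :
    ∃ Y : Matrix (Fin (N + 1)) (Fin (N + 1)) (LL k N),
      ∀ i j, (φ (M0 k N i j)).snd = (Y * M0 k N) i j := by
  refine ⟨(Matrix.of fun i j => (φ (M0 k N i j)).snd) * (M0 k N)⁻¹, fun i j => ?_⟩
  rw [mul_assoc, Matrix.nonsing_inv_mul _ (isUnit_iff_ne_zero.mpr det_M0), mul_one]
  rfl

theorem actT_M0_inj {c c' : Ix N d → LL k N} (h : actT (M0 k N) c = actT (M0 k N) c') : c = c' := by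
  have h1 := congrArg (actT (M0 k N)⁻¹) h
  rw [actT_actT, actT_actT, Matrix.mul_nonsing_inv _ (isUnit_iff_ne_zero.mpr det_M0), actT_one,
    actT_one] at h1
  exact h1

theorem snd_zero_of_M0 (φ : LL k N →+* DualNumber (LL k N)) (h1 : ∀ a, (φ a).fst = a)
    (h2 : ∀ a : k, φ (algebraMap k _ a) = algebraMap k (DualNumber (LL k N)) a)
    (h3 : ∀ i j, (φ (M0 k N i j)).snd = 0) (a : LL k N) : (φ a).snd = 0 := by
  have h4 : φ.comp (pi0 k N).toRingHom =
      (algebraMap (LL k N) (DualNumber (LL k N))).comp (pi0 k N).toRingHom := by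
    apply MvPolynomial.ringHom_ext
    · intro a
      change φ (pi0 k N (C a)) = algebraMap _ _ (pi0 k N (C a))
      rw [algHom_C, h2]
      rfl
    · rintro ⟨i, j⟩
      change φ (M0 k N i j) = algebraMap _ _ (M0 k N i j)
      apply TrivSqZeroExt.ext
      · rw [h1]; rfl
      · rw [h3]; rfl
  have h5 : ∀ q : KA k N, φ (pi0 k N q) = algebraMap (LL k N) (DualNumber (LL k N)) (pi0 k N q) :=
    fun q => congrFun (congrArg DFunLike.coe h4) q
  obtain ⟨⟨p, q⟩, hpq⟩ := IsLocalization.surj (nonZeroDivisors (KA k N)) a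
  have hq : pi0 k N (q : KA k N) ≠ 0 := by
    rw [Ne, map_eq_zero_iff _ pi0_inj]
    exact nonZeroDivisors.ne_zero q.2
  have h6 : a * pi0 k N (q : KA k N) = pi0 k N p := hpq
  have h7 := congrArg φ h6
  rw [map_mul, h5, h5] at h7
  have h8 := congrArg TrivSqZeroExt.snd h7
  rw [DualNumber.snd_mul, TrivSqZeroExt.algebraMap_eq_inl, TrivSqZeroExt.snd_inl,
    TrivSqZeroExt.snd_inl, mul_zero, zero_add, TrivSqZeroExt.fst_inl] at h8
  exact (mul_eq_zero.mp h8).resolve_right hq

variable [IsAlgClosed k] [CharZero k]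

instance : Algebra.EssFiniteType k (LL k N) := by
  have h1 : Algebra.EssFiniteType (KA k N) (LL k N) :=
    Algebra.EssFiniteType.of_isLocalization _ (nonZeroDivisors (KA k N))
  exact Algebra.EssFiniteType.comp k (KA k N) (LL k N)

/-- Step 1: there is a function vanishing on the orbit with nonzero derivative. -/
theorem exists_qq_ne (f v : Ix N d → k)
    (hv : ∀ Y : Matrix (Fin (N + 1)) (Fin (N + 1)) k, xi Y f ≠ v) :
    ∃ P : SS k N d, aeval (orb f) P = 0 ∧ qq f v P ≠ 0 := by
  by_contra hcon
  push Not at hcon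
  obtain ⟨φ, h1, h2, h3⟩ := exists_dual_ext (k := k) (L := LL k N)
    (fun p => pi0 k N (orb f p)) (fun p => pi0 k N (orb v p)) (by
    intro P hP
    rw [← pi0_aeval_orb, map_eq_zero_iff _ pi0_inj] at hP
    rw [← pi0_qq, hcon P hP, map_zero])
  obtain ⟨Y, hY⟩ := exists_Y φ
  have h4 : xi Y (fun p => algebraMap k (LL k N) (f p)) = fun p => algebraMap k (LL k N) (v p) := by
    apply actT_M0_inj
    funext p
    rw [← dual_orb φ h1 h2 Y hY, h3, pi0_orb]
  obtain ⟨Y0, hY0⟩ := xi_descent f v Y h4
  exact hv Y0 hY0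

/-- Step 2: the function field of matrices is separable over that of the orbit. -/
theorem orbit_sep (hd : 2 ≤ d) {f : Ix N d → k} (hf : NZ (tup f)) :
    Algebra.IsSeparable (IntermediateField.adjoin k
      (Set.range (fun p => pi0 k N (orb f p)))) (LL k N) := by
  apply sep_of_unram
  intro φ h1 h2 h3
  apply snd_zero_of_M0 φ h1 h2
  obtain ⟨Y, hY⟩ := exists_Y φ
  have h4 : xi Y (fun p => algebraMap k (LL k N) (f p)) = 0 := by
    apply actT_M0_inj
    funext p
    rw [← dual_orb φ h1 h2 Y hY, h3]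
    have h5 := actT_smul (M0 k N) 0 (0 : Ix N d → LL k N)
    rw [zero_smul, zero_smul] at h5
    rw [h5]
    rfl
  have h5 := xi_inj hd hf Y h4
  intro i j
  rw [hY, h5, zero_mul, Matrix.zero_apply]

/-- Step 3: the derivative functions are rational functions on the orbit. -/
theorem exists_fraction (hd : 2 ≤ d) {f : Ix N d → k} (hf : NZ (tup f)) (hfree : IsFree f)
    (v : Ix N d → k) (P : SS k N d) :
    ∃ b1 b2 : SS k N d, aeval (orb f) b2 ≠ 0 ∧
      qq f v P * aeval (orb f) b2 = aeval (orb f) b1 := by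
  have hsep := orbit_sep hd hf
  obtain ⟨b1, b2, h1, h2⟩ := mem_of_embeddings (k := k) (L := LL k N)
    (fun p => pi0 k N (orb f p)) (pi0 k N (qq f v P)) (by
    intro σ hσk hσx
    let K := AlgebraicClosure (LL k N)
    let ι : LL k N →+* K := algebraMap (LL k N) K
    have hιk : ∀ a : k, ι (algebraMap k _ a) = algebraMap k K a := fun a => rfl
    let A' : Matrix (Fin (N + 1)) (Fin (N + 1)) K := (M0 k N).map σ
    let Ab : Matrix (Fin (N + 1)) (Fin (N + 1)) K := (M0 k N).map ι
    have hA' : A'.det ≠ 0 := by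
      have e1 : A'.det = σ (M0 k N).det := by
        rw [RingHom.map_det]; rfl
      rw [e1]
      exact (map_ne_zero σ).mpr det_M0
    have hAb : Ab.det ≠ 0 := by
      have e1 : Ab.det = ι (M0 k N).det := by
        rw [RingHom.map_det]; rfl
      rw [e1]
      exact (map_ne_zero ι).mpr det_M0
    have hσorb : ∀ (c : Ix N d → k) p, σ (pi0 k N (orb c p)) =
        actT A' (fun p => algebraMap k K (c p)) p := by
      intro c p
      rw [pi0_orb, map_actT]
      simp only [hσk]
      rfl
    have hιorb : ∀ (c : Ix N d → k) p, ι (pi0 k N (orb c p)) =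
        actT Ab (fun p => algebraMap k K (c p)) p := by
      intro c p
      rw [pi0_orb, map_actT]
      simp only [hιk]
      rfl
    have hAf : actT A' (fun p => algebraMap k K (f p)) = actT Ab (fun p => algebraMap k K (f p)) := by
      funext p
      rw [← hσorb, ← hιorb]
      exact hσx p
    have hAbu : IsUnit Ab.det := isUnit_iff_ne_zero.mpr hAb
    have h3 : actT (A' * Ab⁻¹) (fun p => algebraMap k K (f p)) =
        fun p => algebraMap k K (f p) := by
      rw [← actT_actT, hAf, actT_actT, Matrix.mul_nonsing_inv _ hAbu, actT_one]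
    obtain ⟨r, hr⟩ := free_ext hfree (A' * Ab⁻¹) (by
      rw [Matrix.det_mul, Matrix.det_nonsing_inv, Ring.inverse_eq_inv']
      exact mul_ne_zero hA' (inv_ne_zero hAb)) h3
    have hA'r : A' = r • Ab := by
      have e1 : A' * Ab⁻¹ * Ab = A' := by
        rw [mul_assoc, Matrix.nonsing_inv_mul _ hAbu, mul_one]
      rw [← e1, hr, Matrix.smul_mul, one_mul]
    have hr1 : r ^ (N + d) = 1 := by
      rw [hr, actT_scalar] at h3
      obtain ⟨p, hp⟩ := Function.ne_iff.mp (NZ_ne_zero hf)
      have e1 := congrFun h3 p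
      rw [Pi.smul_apply, smul_eq_mul] at e1
      have e2 : algebraMap k K (f p) ≠ 0 := (map_ne_zero _).mpr hp
      exact mul_right_cancel₀ e2 (e1.trans (one_mul _).symm)
    have hσι : ∀ (c : Ix N d → k) p, σ (pi0 k N (orb c p)) = ι (pi0 k N (orb c p)) := by
      intro c p
      rw [hσorb, hιorb, hA'r]
      have e1 : r • Ab = (r • (1 : Matrix (Fin (N + 1)) (Fin (N + 1)) K)) * Ab := by
        rw [Matrix.smul_mul, one_mul]
      rw [e1, ← actT_actT, actT_scalar, hr1, one_smul]
    have hσpoly : ∀ Q : SS k N d, σ (aeval (fun p => pi0 k N (orb f p)) Q) =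
        ι (aeval (fun p => pi0 k N (orb f p)) Q) := by
      intro Q
      induction Q using MvPolynomial.induction_on with
      | C a => rw [algHom_C, hσk, hιk]
      | add p q hp hq => rw [map_add, map_add, map_add, hp, hq]
      | mul_X p i hp => rw [map_mul, map_mul, map_mul, hp, aeval_X, hσι]
    change σ _ = ι _
    rw [pi0_qq, map_sum, map_sum]
    refine Finset.sum_congr rfl fun p _ => ?_
    rw [map_mul, map_mul, hσι, hσpoly])
  refine ⟨b1, b2, ?_, ?_⟩
  · intro h0
    apply h1
    rw [← pi0_aeval_orb, h0, map_zero]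
  · apply pi0_inj
    rw [map_mul, pi0_aeval_orb, pi0_aeval_orb]
    exact h2

end

end Pool.Agent.Helper819.Dyn
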