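import Pool.Agent.Helper819.Free2

/-!
Maps with trivial automorphism group: differentials of semi-invariants.
-/

open MvPolynomial

namespace Pool.Agent.Helper819.Dyn

open Pool.Agent.Helper819.Apolar

noncomputable section

set_option linter.unusedSectionVars false

variable {k : Type} [Field k] {N d : ℕ}

theorem dd_compT [Infinite k] (P : SS k N d)
    (B : Matrix (Fin (N + 1)) (Fin (N + 1)) k) (c v : Ix N d → k) :
    dd (compT B P) c v = dd P (actT B c) (actT B v) := by
  have h3 : actT (B.map (algebraMap k (DualNumber k))) (fun p => algebraMap k (DualNumber k) (c p) +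
    DualNumber.eps * algebraMap k (DualNumber k) (v p)) =
      fun p => algebraMap k (DualNumber k) (actT B c p) +
        DualNumber.eps * algebraMap k (DualNumber k) (actT B v p) := by
    have e1 : (fun p => algebraMap k (DualNumber k) (c p) +
        DualNumber.eps * algebraMap k (DualNumber k) (v p)) =
        (fun p => algebraMap k (DualNumber k) (c p)) +
          (DualNumber.eps : DualNumber k) • (fun p => algebraMap k (DualNumber k) (v p)) := rfl
    rw [e1, actT_add, actT_smul]
    funext p
    simp only [Pi.add_apply, Pi.smul_apply, smul_eq_mul]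
    rw [map_actT, map_actT]
  have h2 := aeval_compT_S B (fun p => algebraMap k (DualNumber k) (c p) +
    DualNumber.eps * algebraMap k (DualNumber k) (v p)) P
  rw [h3, eval_eps _ DualNumber.eps_mul_eps, eval_eps _ DualNumber.eps_mul_eps] at h2
  have h4 := congrArg TrivSqZeroExt.snd h2
  rw [snd_form, snd_form] at h4
  exact h4

theorem qq_compT [Infinite k] (P : SS k N d) (B : Matrix (Fin (N + 1)) (Fin (N + 1)) k)
    (c v : Ix N d → k) : qq c v (compT B P) = Rsub B (qq c v P) := by
  apply poly_ext
  intro A _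
  rw [eval_Rsub, eval_qq, eval_qq, dd_compT, actT_actT, actT_actT]

theorem qq_add (c v : Ix N d → k) (P Q : SS k N d) : qq c v (P + Q) = qq c v P + qq c v Q := by
  unfold qq
  simp only [map_add, mul_add, Finset.sum_add_distrib]

theorem qq_zero (c v : Ix N d → k) : qq c v 0 = 0 := by
  unfold qq
  simp

theorem qq_mul (c v : Ix N d → k) (P Q : SS k N d) (hQ : aeval (orb c) Q = 0) :
    qq c v (P * Q) = aeval (orb c) P * qq c v Q := by
  unfold qq
  rw [Finset.mul_sum]
  refine Finset.sum_congr rfl fun p _ => ?_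
  rw [Derivation.leibniz, map_add, smul_eq_mul, smul_eq_mul, map_mul, map_mul, hQ]
  ring

/-- the ideal of functions whose pull back to the group is a derivative -/
def nn (f v : Ix N d → k) : Ideal (SS k N d) where
  carrier := {b | ∃ P : SS k N d, aeval (orb f) P = 0 ∧ qq f v P = aeval (orb f) b}
  add_mem' := by
    rintro a b ⟨P, hP1, hP2⟩ ⟨Q, hQ1, hQ2⟩
    exact ⟨P + Q, by rw [map_add, hP1, hQ1, add_zero], by rw [qq_add, hP2, hQ2, map_add]⟩
  zero_mem' := ⟨0, by rw [map_zero], by rw [qq_zero, map_zero]⟩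
  smul_mem' := by
    rintro a b ⟨P, hP1, hP2⟩
    refine ⟨a * P, by rw [map_mul, hP1, mul_zero], ?_⟩
    rw [qq_mul _ _ _ _ hP1, hP2, smul_eq_mul, map_mul]

variable [IsAlgClosed k] [CharZero k]

/-- At a map with trivial automorphism group, the differentials of the semi-invariants vanishing at
the point separate the directions transversal to the orbit. -/
theorem free_span (hd : 2 ≤ d) {f : Ix N d → k} (hf : NZ (tup f)) (hfree : IsFree f)
    {w : ℕ} {R : SS k N d} (hR : IsSemi w R) (hRf : eval f R ≠ 0)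
    (hRNZ : ∀ c, eval c R ≠ 0 → NZ (tup c)) (v : Ix N d → k)
    (hv : ∀ Y : Matrix (Fin (N + 1)) (Fin (N + 1)) k, xi Y f ≠ v) :
    ∃ (m : ℕ) (P : SS k N d), IsSemi (w * m) P ∧ eval f P = 0 ∧ dd P f v ≠ 0 := by
  have hinf : Infinite k := inferInstance
  obtain ⟨P0, hP0, hq0⟩ := exists_qq_ne f v hv
  obtain ⟨b1, b2, hb2, hb⟩ := exists_fraction hd hf hfree v P0
  have hb1 : b1 ∈ nn f v := ⟨b2 * P0, by rw [map_mul, hP0, mul_zero], by
    rw [qq_mul _ _ _ _ hP0, ← hb, mul_comm]⟩
  have hb1ne : aeval (orb f) b1 ≠ 0 := by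
    rw [← hb]
    exact mul_ne_zero hq0 hb2
  obtain ⟨A1, hA1, hA1b⟩ : ∃ A : Matrix (Fin (N + 1)) (Fin (N + 1)) k, A.det ≠ 0 ∧
      eval (actT A f) b1 ≠ 0 := by
    by_contra hcon
    push Not at hcon
    apply hb1ne
    apply poly_ext
    intro A hA
    rw [eval_aeval_orb, map_zero]
    exact hcon A hA
  have hR' : R ∈ (nn f v).radical := by
    rw [← vanishingIdeal_zeroLocus_eq_radical (K := k), mem_vanishingIdeal_iff]
    intro c hc
    have hc' : ∀ b ∈ nn f v, eval c b = 0 := by
      intro b hb
      have := (mem_zeroLocus_iff.mp hc) b hb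
      rw [← coe_aeval_eq_eval]
      exact this
    have goal : eval c R = 0 := by
      by_contra hne
      obtain ⟨A, hA, hAc⟩ := closed_GL hd hf c (hRNZ c hne) (by
        intro P hP
        apply hc'
        have h1 : aeval (orb f) P = 0 := by
          apply poly_ext
          intro A hA
          rw [eval_aeval_orb, map_zero]
          exact hP A hA
        exact ⟨0, by rw [map_zero], by rw [qq_zero, h1]⟩)
      have hAu : IsUnit A.det := isUnit_iff_ne_zero.mpr hA
      have h1 : compT (A⁻¹ * A1) b1 ∈ nn f v := by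
        obtain ⟨P, hP1, hP2⟩ := hb1
        refine ⟨compT (A⁻¹ * A1) P, ?_, ?_⟩
        · rw [← Rsub_aeval_orb, hP1, map_zero]
        · rw [qq_compT, hP2, Rsub_aeval_orb]
      have h2 := hc' _ h1
      rw [eval_compT, ← hAc, actT_actT, ← mul_assoc, Matrix.mul_nonsing_inv _ hAu, one_mul] at h2
      exact hA1b h2
    rw [← coe_aeval_eq_eval] at goal
    exact goal
  obtain ⟨m, P, hP1, hP2⟩ := hR'
  refine ⟨m, sharp (w * m) P, isSemi_sharp _ _, ?_, ?_⟩
  · rw [eval_sharp, hP1, rho_zero]
  · rw [dd_sharp, hP2]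
    have h1 : aeval (orb f) (R ^ m) = C (eval f R ^ m) * dt (N + 1) k ^ (w * m) := by
      apply poly_ext
      intro A _
      rw [eval_aeval_orb, map_mul, eval_C, map_pow, map_pow, eval_dt, hR A f, mul_pow, pow_mul,
        mul_comm]
    rw [h1, rho_smul, rho_dt, mul_one]
    exact pow_ne_zero _ hRf

end

end Pool.Agent.Helper819.Dyn
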