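import Pool.Agent.Helper819.Density

/-!
Continued fractions with unit leading coefficients have good reduction.
-/

open MvPolynomial IsDedekindDomain NumberField

namespace Pool.Agent.Helper819.Dyn

open Pool.Agent.Helper819.Zar

noncomputable section

/-- Facts about continued fractions over a field in which `2 ≠ 0`. -/
theorem cf_facts {κ : Type} [Field κ] (h2 : (2 : κ) ≠ 0) (l : List (ℕ × ℤ)) (i : ℕ) :
    ((cf l i).1.map (Int.castRingHom κ)).natDegree ≤ l.length ∧
    ((cf l i).1.map (Int.castRingHom κ)).coeff l.length ≠ 0 ∧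
    ((cf l i).2.map (Int.castRingHom κ)).degree < ((l.length : ℕ) : WithBot ℕ) ∧
    ∀ t, ¬ (((cf l i).1.map (Int.castRingHom κ)).eval t = 0 ∧
      ((cf l i).2.map (Int.castRingHom κ)).eval t = 0) := by
  induction l with
  | nil =>
    unfold cf
    refine ⟨?_, ?_, ?_, ?_⟩
    · simp
    · rw [Polynomial.map_C]
      simp only [List.length_nil, Polynomial.coeff_C_zero]
      simp [h2]
    · simp
    · rintro t ⟨h, _⟩
      rw [Polynomial.map_C] at h
      simp [h2] at h
  | cons p l ih =>
    obtain ⟨a, n⟩ := p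
    obtain ⟨ih1, ih2, ih3, ih4⟩ := ih
    have e1 : (cf ((a, n) :: l) i).1.map (Int.castRingHom κ) =
        (Polynomial.C (2 ^ a : κ) * Polynomial.X + Polynomial.C (n : κ)) *
          (cf l i).1.map (Int.castRingHom κ) + (cf l i).2.map (Int.castRingHom κ) := by
      conv_lhs => unfold cf
      simp [map_ofNat]
    have e2 : (cf ((a, n) :: l) i).2.map (Int.castRingHom κ) =
        (cf l i).1.map (Int.castRingHom κ) := rfl
    have hRnat : ((cf l i).2.map (Int.castRingHom κ)).natDegree ≤ l.length := by
      rw [Polynomial.natDegree_le_iff_degree_le]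
      exact ih3.le
    rw [e1, e2]
    refine ⟨?_, ?_, ?_, ?_⟩
    · refine (Polynomial.natDegree_add_le _ _).trans (max_le ?_ ?_)
      · refine Polynomial.natDegree_mul_le.trans ?_
        have : (Polynomial.C (2 ^ a : κ) * Polynomial.X + Polynomial.C (n : κ)).natDegree ≤ 1 :=
          Polynomial.natDegree_linear_le
        simp only [List.length_cons]
        omega
      · simp only [List.length_cons]
        omega
    · simp only [List.length_cons]
      rw [Polynomial.coeff_add, add_mul, mul_assoc, Polynomial.coeff_add, Polynomial.coeff_C_mul,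
        Polynomial.coeff_X_mul, Polynomial.coeff_C_mul,
        Polynomial.coeff_eq_zero_of_natDegree_lt (by omega :
          ((cf l i).1.map (Int.castRingHom κ)).natDegree < l.length + 1),
        Polynomial.coeff_eq_zero_of_natDegree_lt (by omega :
          ((cf l i).2.map (Int.castRingHom κ)).natDegree < l.length + 1)]
      simp only [mul_zero, add_zero]
      exact mul_ne_zero (pow_ne_zero _ h2) ih2
    · simp only [List.length_cons]
      rw [Polynomial.degree_lt_iff_coeff_zero]
      intro m hm
      exact Polynomial.coeff_eq_zero_of_natDegree_lt (by omega)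
    · rintro t ⟨h5, h6⟩
      apply ih4 t
      refine ⟨h6, ?_⟩
      rw [Polynomial.eval_add, Polynomial.eval_mul, h6, mul_zero, zero_add] at h5
      exact h5

/-- The integral map. -/
def goodT (R : Type) [CommRing R] (d : ℕ) (m : ℤ) (l : List (ℕ × ℤ)) (i : ℕ) : Tuple R 1 :=
  fun s => map (Int.castRingHom R)
    ((![hom d (Polynomial.C m * (cf l i).1 + (cf l i).2), hom d (cf l i).1] : Tuple ℤ 1) s)

theorem goodT_eq (R : Type) [CommRing R] (d : ℕ) (m : ℤ) (l : List (ℕ × ℤ)) (i : ℕ) :
    goodT R d m l i = ![hom d ((Polynomial.C m * (cf l i).1 + (cf l i).2).map (Int.castRingHom R)),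
      hom d ((cf l i).1.map (Int.castRingHom R))] := by
  funext s
  unfold goodT
  fin_cases s
  · exact map_hom _ _ _
  · exact map_hom _ _ _

theorem map_goodT {R S : Type} [CommRing R] [CommRing S] (φ : R →+* S) (d : ℕ) (m : ℤ)
    (l : List (ℕ × ℤ)) (i : ℕ) :
    (fun s => map φ (goodT R d m l i s)) = goodT S d m l i := by
  funext s
  unfold goodT
  rw [map_map]
  congr 1
  rw [RingHom.ext_int (φ.comp (Int.castRingHom R)) (Int.castRingHom S)]

theorem goodT_isEnd {κ : Type} [Field κ] (h2 : (2 : κ) ≠ 0) {d : ℕ} (m : ℤ)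
    (l : List (ℕ × ℤ)) (hl : l.length = d) (i : ℕ) : IsEnd d (goodT κ d m l i) := by
  rw [goodT_eq]
  obtain ⟨h3, h4, h5, _⟩ := cf_facts h2 l i
  rw [hl] at h3 h4 h5
  apply isEnd_hom
  · rw [Polynomial.map_add, Polynomial.map_mul, Polynomial.map_C]
    refine (Polynomial.natDegree_add_le _ _).trans (max_le ?_ ?_)
    · exact (Polynomial.natDegree_C_mul_le _ _).trans h3
    · rw [Polynomial.natDegree_le_iff_degree_le]
      exact h5.le
  · exact h3
  · exact Or.inr h4
  · intro t
    have h2' : (2 : AlgebraicClosure κ) ≠ 0 := by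
      have : (2 : AlgebraicClosure κ) = algebraMap κ (AlgebraicClosure κ) 2 := by
        rw [map_ofNat]
      rw [this]
      exact (map_ne_zero _).mpr h2
    obtain ⟨_, _, _, h6⟩ := cf_facts h2' l i
    have key : ∀ p : Polynomial ℤ, Polynomial.aeval t (p.map (Int.castRingHom κ)) =
        (p.map (Int.castRingHom (AlgebraicClosure κ))).eval t := by
      intro p
      rw [Polynomial.aeval_def, ← Polynomial.eval_map, Polynomial.map_map,
        RingHom.ext_int ((algebraMap κ (AlgebraicClosure κ)).comp (Int.castRingHom κ))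
          (Int.castRingHom (AlgebraicClosure κ))]
    rintro ⟨h7, h8⟩
    rw [key] at h7 h8
    apply h6 t
    refine ⟨h8, ?_⟩
    rw [Polynomial.map_add, Polynomial.map_mul, Polynomial.eval_add, Polynomial.eval_mul, h8,
      mul_zero, zero_add] at h7
    exact h7

theorem conj_one {k : Type} [Field k] {N : ℕ} (F : Tuple k N) : conj 1 F = F := by
  have h : conj 1 F = act 1 F := by
    funext i
    unfold conj act
    simp
  rw [h, act_one]

theorem goodT_good {K : Type} [Field K] [NumberField K] (v : HeightOneSpectrum (𝓞 K))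
    (hv : v.valuation K 2 = 1) {d : ℕ} (m : ℤ) (l : List (ℕ × ℤ)) (hl : l.length = d) (i : ℕ) :
    HasGoodReductionAt d (goodT K d m l i) v := by
  refine ⟨1, 1, goodT (v.valuation K).valuationSubring d m l i, ?_, ?_⟩
  · intro s
    have := congrFun (map_goodT (algebraMap (v.valuation K).valuationSubring K) d m l i) s
    rw [conj_one, this]
    simp
  · rw [map_goodT]
    apply goodT_isEnd _ m l hl i
    intro h0
    have h1 : IsLocalRing.residue (v.valuation K).valuationSubring 2 = 0 := by
      rw [map_ofNat]; exact h0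
    rw [IsLocalRing.residue_eq_zero_iff, IsLocalRing.mem_maximalIdeal, mem_nonunits_iff] at h1
    apply h1
    have h20 : (2 : K) ≠ 0 := two_ne_zero
    have hinv : (2⁻¹ : K) ∈ (v.valuation K).valuationSubring := by
      rw [Valuation.mem_valuationSubring_iff, map_inv₀, hv, inv_one]
    have hmul : (2 : (v.valuation K).valuationSubring) * ⟨2⁻¹, hinv⟩ = 1 := by
      apply Subtype.ext
      change (2 : K) * 2⁻¹ = 1
      exact mul_inv_cancel₀ h20
    exact IsUnit.of_mul_eq_one _ hmul

theorem finite_bad (K : Type) [Field K] [NumberField K] :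
    {v : HeightOneSpectrum (𝓞 K) | v.valuation K 2 ≠ 1}.Finite := by
  have h := HeightOneSpectrum.Support.finite (𝓞 K) (K := K) (2⁻¹ : K)
  refine h.subset ?_
  intro v hv
  change 1 < v.valuation K 2⁻¹
  have h1 : v.valuation K 2 ≤ 1 := by
    have h3 := v.valuation_le_one (K := K) (algebraMap ℤ (𝓞 K) 2)
    have h4 : (algebraMap (𝓞 K) K (algebraMap ℤ (𝓞 K) 2)) = 2 := by
      rw [← IsScalarTower.algebraMap_apply]
      simp
    rw [← h4]
    exact h3
  have h2 : v.valuation K 2 ≠ 0 := (Valuation.ne_zero_iff _).mpr two_ne_zero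
  rw [map_inv₀]
  exact (one_lt_inv₀ (zero_lt_iff.mpr h2)).mpr (lt_of_le_of_ne h1 hv)

/-- Polynomials in the coefficients of a map in terms of univariate polynomials. -/
theorem eval_coords {k : Type} [Field k] {d : ℕ} (F : EndTuple k 1 d) (f g : Polynomial k)
    (hf : F.1 0 = hom d f) (hg : F.1 1 = hom d g)
    (p : MvPolynomial (Fin (1 + 1) × (Fin (1 + 1) →₀ ℕ)) k) :
    eval (coords F) p = eval (cc f g) (bind₁ (fun q : Fin (1 + 1) × (Fin (1 + 1) →₀ ℕ) =>
      if q.2 0 + q.2 1 = d then (X (q.1, q.2 0) : MvPolynomial (Fin (1 + 1) × ℕ) k) else 0) p) := by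
  rw [eval_bind]
  congr 2
  funext q
  obtain ⟨i, m⟩ := q
  simp only [coords]
  have h0 : i = 0 ∨ i = 1 := by
    fin_cases i
    · left; rfl
    · right; rfl
  rcases h0 with rfl | rfl
  · rw [hf, coeff_hom]
    split_ifs with h
    · rw [eval_X]; rfl
    · rw [map_zero]
  · rw [hg, coeff_hom]
    split_ifs with h
    · rw [eval_X]; rfl
    · rw [map_zero]

/-- The classes with good reduction outside the places above `2` are dense. -/
theorem goodSet_dense (d : ℕ) (K : IntermediateField ℚ (AlgebraicClosure ℚ)) [NumberField K] :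
    closure (goodSet 1 d K {v : HeightOneSpectrum (𝓞 K) | v.valuation K 2 ≠ 1}) = Set.univ := by
  have hmem : ∀ (m : ℤ) (l : List (ℕ × ℤ)) (hl : l.length = d) (i : ℕ),
      cls ⟨goodT (AlgebraicClosure ℚ) d m l i, goodT_isEnd two_ne_zero m l hl i⟩ ∈
        goodSet 1 d K {v : HeightOneSpectrum (𝓞 K) | v.valuation K 2 ≠ 1} := by
    intro m l hl i
    have h1 := map_goodT (algebraMap K (AlgebraicClosure ℚ)) d m l i
    refine ⟨goodT K d m l i, ?_, ?_, ?_⟩
    · rw [h1]
      exact goodT_isEnd two_ne_zero m l hl i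
    · intro v hv
      have hv' : v.valuation K 2 = 1 := by
        by_contra hcon
        exact hv hcon
      exact goodT_good v hv' m l hl i
    · congr 1
      exact Subtype.ext h1.symm
  by_contra hcon
  rw [← Ne, Set.ne_univ_iff_exists_notMem] at hcon
  obtain ⟨m, hm⟩ := hcon
  obtain ⟨F, rfl⟩ := cls_surjective m
  have hopen : IsOpen ((cls : EndTuple (AlgebraicClosure ℚ) 1 d → _) ⁻¹'
      (closure (goodSet 1 d K {v : HeightOneSpectrum (𝓞 K) | v.valuation K 2 ≠ 1}))ᶜ) :=
    isClosed_closure.isOpen_compl.preimage continuous_cls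
  obtain ⟨_, ⟨p, rfl⟩, hFp, hpU⟩ :=
    (isZar_coords (AlgebraicClosure ℚ) 1 d).isTopologicalBasis.exists_subset_of_mem_open
      (show F ∈ _ from hm) hopen
  apply hFp
  obtain ⟨f, g, hf, hg, hf', hg', _, _⟩ := exists_pair F
  rw [eval_coords F f g hf' hg']
  refine vanish_cf' d _ ?_ f g hf hg
  intro n l i hl
  by_contra hne
  have h1 : (⟨goodT (AlgebraicClosure ℚ) d n l i, goodT_isEnd two_ne_zero n l hl i⟩ :
      EndTuple (AlgebraicClosure ℚ) 1 d) ∈ {F | eval (coords F) p ≠ 0} := by
    change eval (coords _) p ≠ 0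
    rw [eval_coords _ _ _ (congrFun (goodT_eq _ d n l i) 0) (congrFun (goodT_eq _ d n l i) 1)]
    exact hne
  exact hpU h1 (subset_closure (hmem n l hl i))

/-- The Shafarevich dimension of `M_d^1` is `2 d - 2`. -/
theorem shafDim_line (d : ℕ) (hd : 2 ≤ d) : shafDim 1 d = ((2 * d - 2 : ℕ) : WithBot ℕ∞) := by
  apply le_antisymm
  · refine iSup_le fun K => iSup_le fun hK => iSup_le fun S => iSup_le fun _ => ?_
    rw [← krullDim_moduli (k := AlgebraicClosure ℚ) hd]
    exact topologicalKrullDim_subspace_le _ _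
  · have hfd : FiniteDimensional ℚ (⊥ : IntermediateField ℚ (AlgebraicClosure ℚ)) :=
      LinearEquiv.finiteDimensional
        (IntermediateField.botEquiv ℚ (AlgebraicClosure ℚ)).symm.toLinearEquiv
    have hK : NumberField (⊥ : IntermediateField ℚ (AlgebraicClosure ℚ)) :=
      { to_charZero := inferInstance, to_finiteDimensional := hfd }
    refine le_trans ?_ (le_iSup_of_le (⊥ : IntermediateField ℚ (AlgebraicClosure ℚ))
      (le_iSup_of_le hK (le_iSup_of_le
        {v : HeightOneSpectrum (𝓞 (⊥ : IntermediateField ℚ (AlgebraicClosure ℚ))) |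
          v.valuation _ 2 ≠ 1} (le_iSup_of_le (finite_bad _) le_rfl))))
    rw [goodSet_dense, ← krullDim_moduli (k := AlgebraicClosure ℚ) hd]
    exact (IsHomeomorph.topologicalKrullDim_eq _
      (Homeomorph.Set.univ (Moduli (AlgebraicClosure ℚ) 1 d)).isHomeomorph).ge

end

end Pool.Agent.Helper819.Dyn
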