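import Pool.Agent.Helper819.Diag2

/-!
The infinitesimal action.
-/

open MvPolynomial

namespace Pool.Agent.Helper819.Dyn

open Pool.Agent.Helper819.Apolar

noncomputable section

set_option linter.unusedSectionVars false

section general

variable {R S : Type} [CommRing R] [CommRing S] {N d : ℕ}

/-- The infinitesimal action on tuples of forms. -/
def lieT (A : Matrix (Fin (N + 1)) (Fin (N + 1)) R) (F : Tuple R N) : Tuple R N := fun i =>
  (∑ l, (∑ m, C (A l m) * X m) * pderiv l (F i)) - (∑ j, C (A i j) * F j) + C A.trace * F i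

/-- The infinitesimal action on coefficient vectors. -/
def xi (A : Matrix (Fin (N + 1)) (Fin (N + 1)) R) (c : Ix N d → R) : Ix N d → R :=
  cf (lieT A (tup c))

theorem lieT_homog (hd : 1 ≤ d) (A : Matrix (Fin (N + 1)) (Fin (N + 1)) R) {F : Tuple R N}
    (hF : ∀ i, (F i).IsHomogeneous d) (i : Fin (N + 1)) : (lieT A F i).IsHomogeneous d := by
  unfold lieT
  have h1 : (∑ l, (∑ m, C (A l m) * X m) * pderiv l (F i)).IsHomogeneous d := by
    refine IsHomogeneous.sum _ _ _ fun l _ => ?_
    have h2 : (∑ m, C (A l m) * X m : MvPolynomial (Fin (N + 1)) R).IsHomogeneous 1 :=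
      IsHomogeneous.sum _ _ _ fun m _ => isHomogeneous_C_mul_X _ _
    have h3 := h2.mul ((hF i).pderiv (i := l))
    rwa [Nat.add_sub_cancel' hd] at h3
  have h2 : (∑ j, C (A i j) * F j).IsHomogeneous d :=
    IsHomogeneous.sum _ _ _ fun j _ => (hF j).C_mul _
  exact (h1.sub h2).add ((hF i).C_mul _)

theorem tup_xi (hd : 1 ≤ d) (A : Matrix (Fin (N + 1)) (Fin (N + 1)) R) (c : Ix N d → R) :
    tup (xi A c) = lieT A (tup c) := tup_cf (lieT_homog hd A (tup_homog c))

theorem lieT_add (A B : Matrix (Fin (N + 1)) (Fin (N + 1)) R) (F : Tuple R N) :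
    lieT (A + B) F = lieT A F + lieT B F := by
  funext i
  simp only [lieT, Matrix.add_apply, Matrix.trace_add, map_add, add_mul, Finset.sum_add_distrib,
    Pi.add_apply]
  ring

theorem lieT_smul (r : R) (A : Matrix (Fin (N + 1)) (Fin (N + 1)) R) (F : Tuple R N) :
    lieT (r • A) F = fun i => C r * lieT A F i := by
  funext i
  simp only [lieT, Matrix.smul_apply, Matrix.trace_smul, smul_eq_mul, map_mul, mul_add, mul_sub,
    Finset.mul_sum, Finset.sum_mul, mul_assoc]

theorem xi_add (A B : Matrix (Fin (N + 1)) (Fin (N + 1)) R) (c : Ix N d → R) :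
    xi (A + B) c = xi A c + xi B c := by
  unfold xi
  rw [lieT_add, cf_add]

theorem xi_smul (r : R) (A : Matrix (Fin (N + 1)) (Fin (N + 1)) R) (c : Ix N d → R) :
    xi (r • A) c = r • xi A c := by
  unfold xi
  rw [lieT_smul, cf_C_mul]

/-- linear version in the matrix -/
def xiL (c : Ix N d → R) : Matrix (Fin (N + 1)) (Fin (N + 1)) R →ₗ[R] (Ix N d → R) where
  toFun A := xi A c
  map_add' A B := xi_add A B c
  map_smul' r A := xi_smul r A c

theorem map_lieT (φ : R →+* S) (A : Matrix (Fin (N + 1)) (Fin (N + 1)) R) (F : Tuple R N)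
    (i : Fin (N + 1)) : map φ (lieT A F i) = lieT (A.map φ) (fun j => map φ (F j)) i := by
  simp only [lieT, map_add, map_sub, map_sum, map_mul, map_C, map_X, Matrix.map_apply,
    pderiv_map, Matrix.trace, Matrix.diag_apply]

theorem map_xi (φ : R →+* S) (A : Matrix (Fin (N + 1)) (Fin (N + 1)) R) (c : Ix N d → R)
    (p : Ix N d) : φ (xi A c p) = xi (A.map φ) (fun p => φ (c p)) p := by
  unfold xi cf
  rw [← coeff_map, map_lieT]
  congr 2
  funext j
  exact map_tup φ c j

variable [Algebra R S] (e : S)

theorem bind_eps {σ : Type} [Fintype σ] (he : e * e = 0) (Y : σ → MvPolynomial σ R)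
    (F : MvPolynomial σ R) :
    bind₁ (fun l => X l + C e * map (algebraMap R S) (Y l)) (map (algebraMap R S) F) =
      map (algebraMap R S) F + C e * map (algebraMap R S) (∑ l, Y l * pderiv l F) := by
  classical
  induction F using MvPolynomial.induction_on with
  | C a => simp
  | add p q hp hq =>
    simp only [map_add, hp, hq, mul_add, Finset.sum_add_distrib]
    ring
  | mul_X p i hp =>
    have h1 : ∑ l, Y l * pderiv l (p * X i) = X i * (∑ l, Y l * pderiv l p) + p * Y i := by
      simp only [Derivation.leibniz, smul_eq_mul, pderiv_X, mul_add, Finset.sum_add_distrib]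
      rw [add_comm]
      congr 1
      · rw [Finset.mul_sum]
        exact Finset.sum_congr rfl fun l _ => by ring
      · rw [Finset.sum_eq_single i]
        · simp; ring
        · intro b _ hb
          rw [Pi.single_eq_of_ne hb.symm]
          simp
        · simp
    rw [h1, map_mul, map_mul, hp, map_X, bind₁_X_right, map_add, map_mul, map_mul, map_X]
    have h2 : (C e * C e : MvPolynomial σ S) = 0 := by rw [← C_mul, he, C_0]
    linear_combination (map (algebraMap R S) (∑ l, Y l * pderiv l p) *
      map (algebraMap R S) (Y i)) * h2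

/-- `1 + e A` -/
def oneEps (A : Matrix (Fin (N + 1)) (Fin (N + 1)) R) : Matrix (Fin (N + 1)) (Fin (N + 1)) S :=
  1 + e • A.map (algebraMap R S)

theorem det_oneEps (he : e * e = 0) (A : Matrix (Fin (N + 1)) (Fin (N + 1)) R) :
    (oneEps e A).det = 1 + e * algebraMap R S A.trace := by
  unfold oneEps
  rw [Matrix.det_one_add_smul, pow_two, he, mul_zero, add_zero]
  have h1 : (A.map (algebraMap R S)).trace = algebraMap R S A.trace := by
    simp [Matrix.trace]
  rw [h1]
  ring

theorem adj_oneEps (he : e * e = 0) (A : Matrix (Fin (N + 1)) (Fin (N + 1)) R)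
    (i j : Fin (N + 1)) : (oneEps e A).adjugate i j =
      (if i = j then 1 else 0) + e * ((if i = j then algebraMap R S A.trace else 0) -
        algebraMap R S (A i j)) := by
  have h1 : (oneEps e A) * (1 - e • A.map (algebraMap R S)) = 1 := by
    unfold oneEps
    rw [mul_sub, mul_one, add_mul, one_mul, smul_mul_smul_comm, he, zero_smul, add_zero]
    abel
  have h2 : (oneEps e A).adjugate = (oneEps e A).det • (1 - e • A.map (algebraMap R S)) := by
    calc (oneEps e A).adjugate = (oneEps e A).adjugate *
          ((oneEps e A) * (1 - e • A.map (algebraMap R S))) := by rw [h1, mul_one]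
      _ = _ := by rw [← mul_assoc, Matrix.adjugate_mul, Matrix.smul_mul, one_mul]
  rw [h2, det_oneEps e he, Matrix.smul_apply, Matrix.sub_apply, Matrix.smul_apply,
    Matrix.map_apply, Matrix.one_apply]
  simp only [smul_eq_mul]
  split_ifs with h
  · linear_combination (-(algebraMap R S A.trace) * algebraMap R S (A i j)) * he
  · linear_combination (-(algebraMap R S A.trace) * algebraMap R S (A i j)) * he

theorem act_eps (he : e * e = 0) (A : Matrix (Fin (N + 1)) (Fin (N + 1)) R) (F : Tuple R N)
    (i : Fin (N + 1)) : act (oneEps e A) (fun i => map (algebraMap R S) (F i)) i =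
      map (algebraMap R S) (F i) + C e * map (algebraMap R S) (lieT A F i) := by
  unfold act
  have h1 : (fun l => ∑ m, C ((oneEps e A) l m) * X m : Fin (N + 1) → MvPolynomial (Fin (N + 1)) S) =
      fun l => X l + C e * map (algebraMap R S) (∑ m, C (A l m) * X m) := by
    funext l
    have h2 : ∀ m, C ((oneEps e A) l m) * (X m : MvPolynomial (Fin (N + 1)) S) =
        (if l = m then X m else 0) + C e * (C (algebraMap R S (A l m)) * X m) := by
      intro m
      unfold oneEps
      rw [Matrix.add_apply, Matrix.smul_apply, Matrix.map_apply, Matrix.one_apply, map_add,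
        add_mul, smul_eq_mul, map_mul, mul_assoc]
      congr 1
      split_ifs <;> simp
    simp_rw [h2]
    rw [Finset.sum_add_distrib, Finset.sum_ite_eq, if_pos (Finset.mem_univ _), map_sum,
      Finset.mul_sum]
    simp only [map_mul, map_C, map_X]
  rw [h1]
  simp_rw [bind_eps e he, adj_oneEps e he]
  have h3 : (C e * C e : MvPolynomial (Fin (N + 1)) S) = 0 := by rw [← C_mul, he, C_0]
  have h4 : ∀ j, C ((if i = j then (1 : S) else 0) + e * ((if i = j then algebraMap R S A.trace else 0) -
        algebraMap R S (A i j))) * (map (algebraMap R S) (F j) + C e * map (algebraMap R S)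
          (∑ l, (∑ m, C (A l m) * X m) * pderiv l (F j))) =
      (if i = j then (map (algebraMap R S) (F j) + C e * (map (algebraMap R S)
          (∑ l, (∑ m, C (A l m) * X m) * pderiv l (F j)) + C (algebraMap R S A.trace) *
          map (algebraMap R S) (F j))) else 0) -
        C e * (C (algebraMap R S (A i j)) * map (algebraMap R S) (F j)) := by
    intro j
    split_ifs with h
    · simp only [map_add, map_mul, map_sub, map_one]
      linear_combination ((C (algebraMap R S A.trace) - C (algebraMap R S (A i j))) *
        map (algebraMap R S) (∑ l, (∑ m, C (A l m) * X m) * pderiv l (F j))) * h3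
    · simp only [map_add, map_mul, map_sub, map_zero]
      linear_combination ((- C (algebraMap R S (A i j))) *
        map (algebraMap R S) (∑ l, (∑ m, C (A l m) * X m) * pderiv l (F j))) * h3
  simp_rw [h4]
  rw [Finset.sum_sub_distrib, Finset.sum_ite_eq, if_pos (Finset.mem_univ _), ← Finset.mul_sum]
  unfold lieT
  rw [map_add, map_sub, map_mul, map_C, map_sum _ (fun j => C (A i j) * F j)]
  simp only [map_mul, map_C]
  ring

theorem actT_eps (he : e * e = 0) (A : Matrix (Fin (N + 1)) (Fin (N + 1)) R) (c : Ix N d → R)
    (p : Ix N d) : actT (oneEps e A) (fun p => algebraMap R S (c p)) p =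
      algebraMap R S (c p) + e * algebraMap R S (xi A c p) := by
  have h1 : tup (fun p => algebraMap R S (c p)) =
      fun i => map (algebraMap R S) (tup c i) := by
    funext i
    exact (map_tup _ c i).symm
  unfold actT cf
  rw [h1, act_eps e he, coeff_add, coeff_C_mul, coeff_map, coeff_map, coeff_tup]
  rfl

theorem actT_eps' (he : e * e = 0) (A : Matrix (Fin (N + 1)) (Fin (N + 1)) R) (c v : Ix N d → R)
    (p : Ix N d) :
    actT (oneEps e A) (fun p => algebraMap R S (c p) + e * algebraMap R S (v p)) p =
      algebraMap R S (c p) + e * algebraMap R S (xi A c p + v p) := by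
  have h1 : (fun p => algebraMap R S (c p) + e * algebraMap R S (v p)) =
      (fun p => algebraMap R S (c p)) + e • (fun p => algebraMap R S (v p)) := rfl
  rw [h1, actT_add, actT_smul]
  simp only [Pi.add_apply, Pi.smul_apply, smul_eq_mul]
  rw [actT_eps e he, actT_eps e he, map_add]
  linear_combination (algebraMap R S (xi A v p)) * he

theorem eval_eps {σ : Type} [Fintype σ] (he : e * e = 0) (x v : σ → R) (P : MvPolynomial σ R) :
    aeval (fun p => algebraMap R S (x p) + e * algebraMap R S (v p)) P =
      algebraMap R S (eval x P) + e * algebraMap R S (∑ p, v p * eval x (pderiv p P)) := by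
  have h1 := congrArg (eval (fun p => algebraMap R S (x p)))
    (bind_eps e he (fun p => C (v p)) P)
  have h2 : ∀ Q : MvPolynomial σ R, eval (fun p => algebraMap R S (x p))
      (map (algebraMap R S) Q) = algebraMap R S (eval x Q) := by
    intro Q
    rw [eval_map, ← coe_aeval_eq_eval]
    exact (hom_eval₂ Q (RingHom.id R) (algebraMap R S) x).symm
  rw [map_add, map_mul, eval_C, h2, h2, map_sum] at h1
  simp only [map_mul, eval_C] at h1
  rw [← h1]
  have h3 : eval (fun p => algebraMap R S (x p)) (bind₁ (fun l => X l + C e *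
      map (algebraMap R S) (C (v l) : MvPolynomial σ R)) (map (algebraMap R S) P)) =
      eval (fun l => eval (fun p => algebraMap R S (x p)) (X l + C e *
      map (algebraMap R S) (C (v l) : MvPolynomial σ R))) (map (algebraMap R S) P) :=
    eval₂Hom_bind₁ (RingHom.id S) _ _ _
  rw [h3, eval_map, aeval_def]
  congr 1
  funext p
  simp

end general

end

end Pool.Agent.Helper819.Dyn
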