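import Pool.Agent.Helper819.CloseGL

/-!
The nondegenerate locus is open; semi-invariants separating orbits from closed invariant sets.
-/

open MvPolynomial

namespace Pool.Agent.Helper819.Dyn

open Pool.Agent.Helper819.Apolar

noncomputable section

set_option linter.unusedSectionVars false

theorem homComp_mul {σ R : Type} [CommRing R] {F : MvPolynomial σ R} {d : ℕ}
    (hF : F.IsHomogeneous d) (G : MvPolynomial σ R) (m : ℕ) :
    homogeneousComponent (m + d) (G * F) = homogeneousComponent m G * F := by
  conv_lhs => rw [← sum_homogeneousComponent G]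
  rw [Finset.sum_mul, map_sum]
  have h1 : ∀ j, homogeneousComponent (m + d) (homogeneousComponent j G * F) =
      if m = j then homogeneousComponent j G * F else 0 := by
    intro j
    rw [homogeneousComponent_of_mem ((homogeneousComponent_isHomogeneous j G).mul hF)]
    simp
  simp_rw [h1]
  rw [Finset.sum_ite_eq]
  split_ifs with h
  · rfl
  · rw [homogeneousComponent_eq_zero _ _ (by simpa using h), zero_mul]

variable {k : Type} [Field k] [IsAlgClosed k] {N d : ℕ}

theorem exists_pow_mem {f : Ix N d → k} (hf : NZ (tup f)) :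
    ∃ m : ℕ, ∀ i, (X i : MvPolynomial (Fin (N + 1)) k) ^ m ∈
      Ideal.span (Set.range (tup f)) := by
  have h1 : ∀ i, ∃ m : ℕ, (X i : MvPolynomial (Fin (N + 1)) k) ^ m ∈
      Ideal.span (Set.range (tup f)) := by
    intro i
    have h2 : (X i : MvPolynomial (Fin (N + 1)) k) ∈
        (Ideal.span (Set.range (tup f))).radical := by
      rw [← vanishingIdeal_zeroLocus_eq_radical (K := k), mem_vanishingIdeal_iff]
      intro x hx
      have h3 : x = 0 := by
        apply hf
        intro j
        have := (mem_zeroLocus_iff.mp hx) (tup f j) (Ideal.subset_span ⟨j, rfl⟩)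
        rw [← coe_aeval_eq_eval]
        exact this
      rw [h3]
      simp
    exact h2
  choose m hm using h1
  refine ⟨∑ i, m i, fun i => ?_⟩
  have h2 : m i ≤ ∑ i, m i := Finset.single_le_sum (fun _ _ => Nat.zero_le _) (Finset.mem_univ i)
  rw [← Nat.add_sub_cancel' h2, pow_add]
  exact Ideal.mul_mem_right _ _ (hm i)

theorem exists_open {f : Ix N d → k} (hf : NZ (tup f)) :
    ∃ P : SS k N d, eval f P ≠ 0 ∧ ∀ c, eval c P ≠ 0 → NZ (tup c) := by
  classical
  obtain ⟨m, hm⟩ := exists_pow_mem hf
  -- the degree
  let M : ℕ := (N + 1) * m + d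
  have hmem : ∀ α : Ex N (M + 1), (monomial α.1 1 : MvPolynomial (Fin (N + 1)) k) ∈
      Ideal.span (Set.range (tup f)) := by
    intro α
    obtain ⟨i, hi⟩ := exists_large (D := m) (M := M + 1) (by
      have : (N + 1) * (m - 1) ≤ (N + 1) * m := Nat.mul_le_mul_left _ (by omega)
      omega) α
    have h1 : (monomial α.1 1 : MvPolynomial (Fin (N + 1)) k) =
        monomial (α.1 - Finsupp.single i m) 1 * X i ^ m := by
      rw [X_pow_eq_monomial, monomial_mul, one_mul, tsub_add_cancel_of_le
        (Finsupp.single_le_iff.mpr hi)]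
    rw [h1]
    exact Ideal.mul_mem_left _ _ (hm i)
  have hG : ∀ α : Ex N (M + 1), ∃ G : Fin (N + 1) → MvPolynomial (Fin (N + 1)) k,
      (∀ j, (G j).IsHomogeneous (M + 1 - d)) ∧ ∑ j, G j * tup f j = monomial α.1 1 := by
    intro α
    obtain ⟨G, hG⟩ := Ideal.mem_span_range_iff_exists_fun.mp (hmem α)
    refine ⟨fun j => homogeneousComponent (M + 1 - d) (G j),
      fun j => homogeneousComponent_isHomogeneous _ _, ?_⟩
    have h1 := congrArg (homogeneousComponent (M + 1)) hG
    rw [homogeneousComponent_eq_self (isHomogeneous_monomial _ ((mem_Ex α.1).mp α.2)),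
      map_sum] at h1
    rw [← h1]
    refine Finset.sum_congr rfl fun j _ => ?_
    have h2 : M + 1 = (M + 1 - d) + d := by omega
    conv_rhs => rw [h2]
    rw [homComp_mul (tup_homog f j)]
  choose G hG1 hG2 using hG
  let 𝕄 : Matrix (Ex N (M + 1)) (Ex N (M + 1)) (SS k N d) := fun α β =>
    coeff β.1 (∑ j, map C (G α j) * tup (X : Ix N d → SS k N d) j)
  have h𝕄 : ∀ (c : Ix N d → k) α β, eval c (𝕄 α β) = coeff β.1 (∑ j, G α j * tup c j) := by
    intro c α β
    change eval c (coeff β.1 (∑ j, map C (G α j) * tup (X : Ix N d → SS k N d) j)) = _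
    rw [← coeff_map, map_sum]
    congr 1
    refine Finset.sum_congr rfl fun j _ => ?_
    rw [map_mul, map_tup, map_map]
    congr 1
    · have h1 : (eval c).comp (C : k →+* SS k N d) = RingHom.id k := by
        ext a; simp
      rw [h1, map_id]
    · congr 1
      funext p
      simp
  have hdet : ∀ c : Ix N d → k, eval c 𝕄.det =
      (Matrix.of fun α β : Ex N (M + 1) => coeff β.1 (∑ j, G α j * tup c j)).det := by
    intro c
    rw [RingHom.map_det]
    congr 1
    ext α β
    exact h𝕄 c α β
  refine ⟨𝕄.det, ?_, fun c hc x hx => ?_⟩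
  · have h1 : (Matrix.of fun α β : Ex N (M + 1) =>
        coeff β.1 (∑ j, G α j * tup f j)) = 1 := by
      ext α β
      rw [Matrix.of_apply, hG2, coeff_monomial, Matrix.one_apply]
      by_cases h : α = β
      · rw [if_pos h, if_pos (by rw [h])]
      · rw [if_neg h, if_neg (fun h' => h (Subtype.ext h'))]
    rw [hdet, h1, Matrix.det_one]
    exact one_ne_zero
  · rw [hdet] at hc
    have h1 : ∀ α : Ex N (M + 1), ∑ β : Ex N (M + 1),
        coeff β.1 (∑ j, G α j * tup c j) * eval x (monomial β.1 1) = 0 := by
      intro α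
      have hh : (∑ j, G α j * tup c j).IsHomogeneous (M + 1) := by
        refine IsHomogeneous.sum _ _ _ fun j _ => ?_
        have h2 : M + 1 = (M + 1 - d) + d := by omega
        rw [h2]
        exact (hG1 α j).mul (tup_homog c j)
      have h2 : eval x (∑ j, G α j * tup c j) = 0 := by
        rw [map_sum]
        apply Finset.sum_eq_zero
        intro j _
        rw [map_mul, hx j, mul_zero]
      rw [← h2]
      generalize (∑ j, G α j * tup c j) = Q at hh
      have h3 : Q = ∑ β : Ex N (M + 1), C (coeff β.1 Q) * monomial β.1 1 := by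
        ext1 γ
        rw [coeff_sum]
        simp only [coeff_C_mul, coeff_monomial]
        by_cases hγ : γ.degree = M + 1
        · rw [Finset.sum_eq_single ⟨γ, (mem_Ex γ).mpr hγ⟩]
          · simp
          · intro b _ hb
            rw [if_neg, mul_zero]
            intro h
            exact hb (Subtype.ext h)
          · simp
        · rw [hh.coeff_eq_zero hγ]
          symm
          apply Finset.sum_eq_zero
          intro β _
          rw [if_neg, mul_zero]
          intro h
          apply hγ
          rw [← h]
          exact (mem_Ex β.1).mp β.2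
      conv_rhs => rw [h3]
      rw [map_sum]
      refine Finset.sum_congr rfl fun β _ => ?_
      rw [map_mul, eval_C]
    have h2 : (Matrix.of fun α β : Ex N (M + 1) =>
        coeff β.1 (∑ j, G α j * tup c j)).mulVec (fun β => eval x (monomial β.1 1)) = 0 := by
      funext α
      exact h1 α
    have h3 := Matrix.eq_zero_of_mulVec_eq_zero hc h2
    funext i
    have h4 := congrFun h3 ⟨Finsupp.single i (M + 1), (mem_Ex _).mpr (Finsupp.degree_single _ _)⟩
    change eval x (monomial (Finsupp.single i (M + 1)) 1) = 0 at h4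
    rw [← X_pow_eq_monomial, map_pow, eval_X] at h4
    exact pow_eq_zero_iff (by omega) |>.mp h4

end

end Pool.Agent.Helper819.Dyn
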