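import Pool.Agent.Helper819.Nak

/-!
The Jacobian of generators of the maximal ideal.
-/

open MvPolynomial Topology

namespace Pool.Agent.Helper819.Dyn

open Pool.Agent.Helper819.Apolar Pool.Agent.Helper819.Zar

noncomputable section

set_option linter.unusedSectionVars false

variable {k : Type} [Field k] {N d : ℕ}

theorem exists_select {V : Type} [AddCommGroup V] [Module k V] [FiniteDimensional k V]
    (S : Set (Module.Dual k V)) (E : Submodule k V) {D : ℕ}
    (hD : Module.finrank k V = D + Module.finrank k E)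
    (h : ∀ v, (∀ ω ∈ S, ω v = 0) ↔ v ∈ E) :
    ∃ ω : Fin D → Module.Dual k V, (∀ j, ω j ∈ S) ∧ ∀ v, (∀ j, ω j v = 0) → v ∈ E := by
  classical
  obtain ⟨b, hbS, hspan, hb⟩ := exists_linearIndependent k S
  have hE : (Submodule.span k S).dualCoannihilator = E := by
    ext v
    rw [Submodule.mem_dualCoannihilator, ← h]
    constructor
    · intro h1 ω hω
      exact h1 ω (Submodule.subset_span hω)
    · intro h1 ω hω
      induction hω using Submodule.span_induction with
      | mem x hx => exact h1 x hx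
      | zero => rfl
      | add x y _ _ hx hy => rw [LinearMap.add_apply, hx, hy, add_zero]
      | smul a x _ hx => rw [LinearMap.smul_apply, hx, smul_zero]
  have hfin : Module.finrank k (Submodule.span k S) = D := by
    have h1 := Subspace.finrank_add_finrank_dualCoannihilator_eq (Submodule.span k S)
    rw [hE] at h1
    omega
  have hbfin : b.Finite := hb.setFinite
  have : Fintype b := hbfin.fintype
  have hcard : Fintype.card b = D := by
    rw [← hfin, ← hspan, finrank_span_set_eq_card hb, Set.toFinset_card]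
  let e : Fin D ≃ b := (finCongr hcard.symm).trans (Fintype.equivFin b).symm
  refine ⟨fun j => (e j : Module.Dual k V), fun j => hbS (e j).2, fun v hv => ?_⟩
  rw [← hE, Submodule.mem_dualCoannihilator, ← hspan]
  intro ω hω
  induction hω using Submodule.span_induction with
  | mem x hx =>
    have h1 : (e (e.symm ⟨x, hx⟩) : Module.Dual k V) v = 0 := hv (e.symm ⟨x, hx⟩)
    rw [Equiv.apply_symm_apply] at h1
    exact h1
  | zero => rfl
  | add x y _ _ hx hy => rw [LinearMap.add_apply, hx, hy, add_zero]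
  | smul a x _ hx => rw [LinearMap.smul_apply, hx, smul_zero]

/-- pairs of indices -/
abbrev F2 (N : ℕ) : Type := Fin (N + 1) × Fin (N + 1)

/-- rows of the Jacobian -/
def rowM {R : Type} [CommRing R] {D : ℕ} (G : Fin D → Ix N d → R) (c : F2 N → Ix N d → R) :
    Matrix (Fin D ⊕ F2 N) (Ix N d) R := Matrix.of (Sum.elim G c)

/-- the Jacobian -/
def jac {R : Type} [CommRing R] {D : ℕ} (e : Ix N d ≃ Fin D ⊕ F2 N) (G : Fin D → Ix N d → R)
    (c : F2 N → Ix N d → R) : R :=
  ((rowM G c).submatrix e id).det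

theorem jac_trans {R : Type} [CommRing R] {D : ℕ} (e : Ix N d ≃ Fin D ⊕ F2 N)
    (G G' : Fin D → Ix N d → R) (c : F2 N → Ix N d → R) (B : Fin D → R)
    (A : Matrix (Fin D) (Fin D) R) (h : ∀ j p, B j * G' j p = ∑ i, A j i * G i p) :
    (∏ j, B j) * jac e G' c = A.det * jac e G c := by
  have h1 : Matrix.fromBlocks (Matrix.diagonal B) 0 0 (1 : Matrix (F2 N) (F2 N) R) *
      rowM G' c = Matrix.fromBlocks A 0 0 (1 : Matrix (F2 N) (F2 N) R) * rowM G c := by
    ext r p
    rw [Matrix.mul_apply, Matrix.mul_apply, Fintype.sum_sum_type, Fintype.sum_sum_type]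
    rcases r with j | a
    · simp only [Matrix.fromBlocks_apply₁₁, Matrix.fromBlocks_apply₁₂, Matrix.zero_apply,
        zero_mul, Finset.sum_const_zero, add_zero]
      have h2 : ∀ i, rowM G' c (Sum.inl i) p = G' i p := fun _ => rfl
      have h3 : ∀ i, rowM G c (Sum.inl i) p = G i p := fun _ => rfl
      simp_rw [h2, h3]
      rw [← h j p, Finset.sum_eq_single j]
      · rw [Matrix.diagonal_apply_eq]
      · intro i _ hi
        rw [Matrix.diagonal_apply_ne _ hi.symm, zero_mul]
      · simp
    · simp only [Matrix.fromBlocks_apply₂₁, Matrix.fromBlocks_apply₂₂, Matrix.zero_apply,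
        zero_mul, Finset.sum_const_zero, zero_add]
      rfl
  have h2 : (Matrix.submatrix (Matrix.fromBlocks (Matrix.diagonal B) 0 0
      (1 : Matrix (F2 N) (F2 N) R) * rowM G' c) e id).det = (Matrix.submatrix
      (Matrix.fromBlocks A 0 0 (1 : Matrix (F2 N) (F2 N) R) * rowM G c) e id).det := by
    rw [h1]
  rw [← Matrix.submatrix_mul_equiv _ _ _ e, ← Matrix.submatrix_mul_equiv _ _ _ e,
    Matrix.det_mul, Matrix.det_mul, Matrix.det_submatrix_equiv_self,
    Matrix.det_submatrix_equiv_self, Matrix.det_fromBlocks_zero₂₁, Matrix.det_fromBlocks_zero₂₁,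
    Matrix.det_one, mul_one, mul_one, Matrix.det_diagonal] at h2
  exact h2

theorem map_jac {R S : Type} [CommRing R] [CommRing S] (φ : R →+* S) {D : ℕ}
    (e : Ix N d ≃ Fin D ⊕ F2 N) (G : Fin D → Ix N d → R) (c : F2 N → Ix N d → R) :
    φ (jac e G c) = jac e (fun j p => φ (G j p)) (fun a p => φ (c a p)) := by
  unfold jac
  rw [RingHom.map_det]
  congr 1
  ext i p
  change φ (rowM G c (e i) p) = rowM _ _ (e i) p
  rcases e i with j | a <;> rfl

/-- Over a field, a nonzero Jacobian means that no nonzero vector is killed. -/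
theorem jac_ne_zero_iff {D : ℕ} (e : Ix N d ≃ Fin D ⊕ F2 N) (G : Fin D → Ix N d → k)
    (c : F2 N → Ix N d → k) :
    jac e G c ≠ 0 ↔ ∀ v : Ix N d → k, (∀ j, ∑ p, G j p * v p = 0) → (∀ a, ∑ p, c a p * v p = 0) →
      v = 0 := by
  constructor
  · intro h v h1 h2
    apply Matrix.eq_zero_of_mulVec_eq_zero h
    funext i
    change ∑ p, rowM G c (e i) p * v p = 0
    rcases e i with j | a
    · exact h1 j
    · exact h2 a
  · intro h h0
    obtain ⟨v, hv, hv0⟩ := Matrix.exists_mulVec_eq_zero_iff.mpr h0
    apply hv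
    apply h
    · intro j
      have h1 := congrFun hv0 (e.symm (Sum.inl j))
      change ∑ p, rowM G c (e (e.symm (Sum.inl j))) p * v p = 0 at h1
      rw [Equiv.apply_symm_apply] at h1
      exact h1
    · intro a
      have h1 := congrFun hv0 (e.symm (Sum.inr a))
      change ∑ p, rowM G c (e (e.symm (Sum.inr a))) p * v p = 0 at h1
      rw [Equiv.apply_symm_apply] at h1
      exact h1

/-- gradient as a functional -/
def ddL (P : SS k N d) (c : Ix N d → k) : Module.Dual k (Ix N d → k) where
  toFun v := dd P c v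
  map_add' v w := by
    unfold dd
    simp only [Pi.add_apply, add_mul, Finset.sum_add_distrib]
  map_smul' a v := by
    unfold dd
    simp only [Pi.smul_apply, smul_eq_mul, Finset.mul_sum, RingHom.id_apply, mul_assoc]

theorem ddL_apply (P : SS k N d) (c v : Ix N d → k) : ddL P c v = dd P c v := rfl

/-- gradient of a fraction with vanishing numerator -/
theorem sum_Wr (P Q : SS k N d) (c v : Ix N d → k) (hP : eval c P = 0) :
    ∑ p, eval c (Wr P Q p) * v p = eval c Q * dd P c v := by
  unfold dd Wr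
  rw [Finset.mul_sum]
  refine Finset.sum_congr rfl fun p _ => ?_
  rw [map_sub, map_mul, map_mul, hP]
  ring

theorem exists_prime_factor {R : Type} [CommRing R] [IsDomain R] [UniqueFactorizationMonoid R]
    (I : Ideal R) [I.IsPrime] (J : R) (hJ : J ∈ I) (hJ0 : J ≠ 0) :
    ∃ s, Prime s ∧ s ∈ I ∧ s ∣ J := by
  obtain ⟨f, hf, u, hu⟩ := UniqueFactorizationMonoid.exists_prime_factors J hJ0
  have h1 : f.prod ∈ I := by
    have h2 : f.prod * u ∈ I := by rw [hu]; exact hJ
    exact ((‹I.IsPrime›).mem_or_mem h2).resolve_right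
      (fun h => (‹I.IsPrime›).ne_top (Ideal.eq_top_of_isUnit_mem _ h u.isUnit))
  obtain ⟨s, hs, hsI⟩ := (‹I.IsPrime›.multiset_prod_mem_iff_exists_mem f).mp h1
  refine ⟨s, hf s hs, hsI, ?_⟩
  rw [← hu]
  exact (Multiset.dvd_prod hs).mul_right _

end

end Pool.Agent.Helper819.Dyn
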