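import Pool.Agent.Helper819.Jac

/-!
The Jacobian of generators of the maximal ideal does not vanish.
-/

open MvPolynomial Topology

namespace Pool.Agent.Helper819.Dyn

open Pool.Agent.Helper819.Apolar Pool.Agent.Helper819.Zar

noncomputable section

set_option linter.unusedSectionVars false

variable {k : Type} [Field k] {N d : ℕ}

theorem xi_sum {R : Type} [CommRing R] (Y : Matrix (Fin (N + 1)) (Fin (N + 1)) R)
    (c : Ix N d → R) :
    xi Y c = ∑ b : F2 N, Y b.1 b.2 • xi (Matrix.single b.1 b.2 1) c := by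
  have h1 : Y = ∑ b : F2 N, Y b.1 b.2 • Matrix.single b.1 b.2 (1 : R) := by
    conv_lhs => rw [Matrix.matrix_eq_sum_single Y]
    rw [Fintype.sum_prod_type]
    refine Finset.sum_congr rfl fun i _ => Finset.sum_congr rfl fun j _ => ?_
    rw [Matrix.smul_single, smul_eq_mul, mul_one]
  have h2 : xiL c Y = ∑ b : F2 N, Y b.1 b.2 • xiL c (Matrix.single b.1 b.2 1) := by
    conv_lhs => rw [h1]
    rw [map_sum]
    refine Finset.sum_congr rfl fun b _ => ?_
    rw [map_smul]
  exact h2

/-- the transversality determinant -/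
def tr0 (c : F2 N → Ix N d → k) : SS k N d :=
  (Matrix.of fun (a b : F2 N) => ∑ p, C (c a p) * xi (Matrix.single b.1 b.2 1)
    (X : Ix N d → SS k N d) p).det

theorem eval_tr0 (c : F2 N → Ix N d → k) (f : Ix N d → k) :
    eval f (tr0 c) = (Matrix.of fun (a b : F2 N) => ∑ p, c a p *
      xi (Matrix.single b.1 b.2 1) f p).det := by
  unfold tr0
  rw [RingHom.map_det]
  congr 1
  ext a b
  rw [RingHom.mapMatrix_apply, Matrix.map_apply, Matrix.of_apply, Matrix.of_apply, map_sum]
  refine Finset.sum_congr rfl fun p _ => ?_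
  rw [map_mul, eval_C, map_xi]
  congr 2
  · ext i j
    rw [Matrix.map_apply, Matrix.single_apply, Matrix.single_apply]
    split_ifs <;> simp
  · funext q
    exact eval_X _

/-- vectors tangent to the orbit and killed by the transversal functionals vanish -/
theorem tr0_inj (c : F2 N → Ix N d → k) (f : Ix N d → k) (h : eval f (tr0 c) ≠ 0)
    (Y : Matrix (Fin (N + 1)) (Fin (N + 1)) k) (hY : ∀ a, ∑ p, c a p * xi Y f p = 0) :
    xi Y f = 0 := by
  rw [eval_tr0] at h
  have h1 : (fun b : F2 N => Y b.1 b.2) = 0 := by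
    apply Matrix.eq_zero_of_mulVec_eq_zero h
    funext a
    change ∑ b : F2 N, (∑ p, c a p * xi (Matrix.single b.1 b.2 1) f p) * Y b.1 b.2 = 0
    rw [← hY a, xi_sum Y f]
    simp only [Finset.sum_apply, Pi.smul_apply, smul_eq_mul, Finset.mul_sum, Finset.sum_mul]
    rw [Finset.sum_comm]
    refine Finset.sum_congr rfl fun p _ => Finset.sum_congr rfl fun b _ => ?_
    ring
  rw [xi_sum Y f]
  apply Finset.sum_eq_zero
  intro b _
  have h2 := congrFun h1 b
  simp only [Pi.zero_apply] at h2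
  rw [h2, zero_smul]

variable [IsAlgClosed k] [CharZero k]

theorem jac_ne (hN : 2 ≤ N) (hd : 2 ≤ d) {f : Ix N d → k} (hf : NZ (tup f)) {D : ℕ}
    (hD : Fintype.card (Ix N d) = D + (N + 1) * (N + 1))
    (x : Fin D → Of f) (hx : Ideal.span (Set.range x) = IsLocalRing.maximalIdeal (Of f)) {w : ℕ}
    {P : Fin D → SS k N d} {Q : SS k N d} (hrep : ∀ i, Rep f w (P i) Q (x i))
    (e : Ix N d ≃ Fin D ⊕ F2 N) (c : F2 N → Ix N d → k) (hc : eval f (tr0 c) ≠ 0) :
    jac e (fun i p => eval f (Wr (P i) Q p)) c ≠ 0 := by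
  intro h0
  obtain ⟨w0, R, hRs, hRf, hRNZ⟩ := exists_semi_NZ hd hf
  set J : SS k N d := jac e (fun i => Wr (P i) Q) (fun a p => C (c a p)) with hJdef
  have hevJ : ∀ g : Ix N d → k, eval g J = jac e (fun i p => eval g (Wr (P i) Q p)) c := by
    intro g
    rw [hJdef, map_jac]
    congr 1
    funext a p
    exact eval_C _
  have hJf : J ∈ mf f := by
    rw [mem_mf, hevJ, h0]
  -- a prime factor
  obtain ⟨s, hs, hsf, hsJ⟩ : ∃ s, Prime s ∧ s ∈ mf f ∧ s ∣ J := by
    by_cases hJ0 : J = 0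
    · have hne : Nonempty (Ix N d) := by
        obtain ⟨p, _⟩ := Function.ne_iff.mp (NZ_ne_zero hf)
        exact ⟨p⟩
      obtain ⟨p0⟩ := hne
      have hX0 : (X p0 - C (f p0) : SS k N d) ≠ 0 := by
        intro h
        have h1 := congrArg (eval (fun _ => f p0 + 1)) h
        rw [map_sub, eval_X, eval_C, map_zero] at h1
        simp at h1
      obtain ⟨s, hs, hsf, _⟩ := exists_prime_factor (mf f) (X p0 - C (f p0))
        (by rw [mem_mf]; simp) hX0
      exact ⟨s, hs, hsf, by rw [hJ0]; exact dvd_zero s⟩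
    · exact exists_prime_factor (mf f) J hJf hJ0
  rw [mem_mf] at hsf
  obtain ⟨g, hgs, hgT, hgNZ, hgfree⟩ := exists_free hN hd s hs (tr0 c * R) (by
    rintro ⟨t, ht⟩
    have h1 := congrArg (eval f) ht
    rw [map_mul, map_mul, hsf, zero_mul] at h1
    exact mul_ne_zero hc hRf h1) (by
    intro c' hc'
    rw [map_mul] at hc'
    exact hRNZ c' (right_ne_zero_of_mul hc'))
  have hgc : eval g (tr0 c) ≠ 0 := by
    rw [map_mul] at hgT
    exact left_ne_zero_of_mul hgT
  have hgR : eval g R ≠ 0 := by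
    rw [map_mul] at hgT
    exact right_ne_zero_of_mul hgT
  -- many invariants at `g`
  have hinf : Infinite k := IsAlgClosed.instInfinite
  obtain ⟨ω, hωS, hω⟩ := exists_select
    {ω : Module.Dual k (Ix N d → k) | ∃ (m : ℕ) (P' : SS k N d), IsSemi (w0 * m) P' ∧
      eval g P' = 0 ∧ ω = ddL P' g} (LinearMap.range (xiL g)) (D := D) (by
      rw [finrank_xi hd hgNZ, Module.finrank_fintype_fun_eq_card, hD]) (by
    intro v
    constructor
    · intro hv
      by_contra hcon
      obtain ⟨m, P', hP', hP'g, hP'v⟩ := free_span hd hgNZ hgfree hRs hgR hRNZ v (by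
        intro Y hY
        exact hcon ⟨Y, hY⟩)
      exact hP'v (hv _ ⟨m, P', hP', hP'g, rfl⟩)
    · rintro ⟨Y, rfl⟩ _ ⟨m, P', hP', hP'g, rfl⟩
      rw [ddL_apply]
      change dd P' g (xi Y g) = 0
      rw [semi_lie hP', hP'g, mul_zero])
  choose m P' hP' hP'g hωP' using hωS
  have hnak := fun j => nak f x hx hrep (hP' j) (hRs.pow (m j)) (by
    rw [map_pow]; exact pow_ne_zero _ hRf)
  choose A B hBf hAB using hnak
  have htrans := jac_trans e (fun i => Wr (P i) Q) (fun j => Wr (P' j) (R ^ m j))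
    (fun a p => C (c a p)) B A (fun j p => hAB j p)
  have hdvd : s ∣ (∏ j, B j) * jac e (fun j => Wr (P' j) (R ^ m j)) (fun a p => C (c a p)) := by
    rw [htrans]
    exact hsJ.mul_left _
  have hdvd2 : s ∣ jac e (fun j => Wr (P' j) (R ^ m j)) (fun a p => C (c a p)) := by
    refine (hs.dvd_or_dvd hdvd).resolve_left ?_
    rintro ⟨t, ht⟩
    have h1 := congrArg (eval f) ht
    rw [map_mul, hsf, zero_mul, map_prod, Finset.prod_eq_zero_iff] at h1
    obtain ⟨j, _, hj⟩ := h1
    exact hBf j hj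
  have hzero : eval g (jac e (fun j => Wr (P' j) (R ^ m j)) (fun a p => C (c a p))) = 0 := by
    obtain ⟨t, ht⟩ := hdvd2
    rw [ht, map_mul, hgs, zero_mul]
  rw [map_jac] at hzero
  have hcC : (fun (a : F2 N) (p : Ix N d) => eval g (C (c a p) : SS k N d)) = c := by
    funext a p
    exact eval_C _
  rw [hcC] at hzero
  apply (jac_ne_zero_iff e _ c).mpr _ hzero
  intro v hv1 hv2
  have h1 : v ∈ LinearMap.range (xiL g) := by
    apply hω
    intro j
    have h2 := hv1 j
    rw [sum_Wr _ _ _ _ (hP'g j), map_pow] at h2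
    rw [hωP' j, ddL_apply]
    exact (mul_eq_zero.mp h2).resolve_left (pow_ne_zero _ hgR)
  obtain ⟨Y, rfl⟩ := h1
  exact tr0_inj c g hgc Y hv2

end

end Pool.Agent.Helper819.Dyn
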