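import Pool.Agent.Helper819.OfLocal

/-!
An upper bound for the Krull dimension.
-/

open MvPolynomial Topology

namespace Pool.Agent.Helper819.Dyn

open Pool.Agent.Helper819.Apolar Pool.Agent.Helper819.Zar

noncomputable section

set_option linter.unusedSectionVars false

variable {k : Type} [Field k] {N d : ℕ}

theorem indep_card_le {σ : Type} [Fintype σ] {m : ℕ}
    (x : Fin m → FractionRing (MvPolynomial σ k)) (hx : AlgebraicIndependent k x) :
    m ≤ Fintype.card σ := by
  have h1 := hx.lift_cardinalMk_le_trdeg
  have h2 : Algebra.trdeg (MvPolynomial σ k) (FractionRing (MvPolynomial σ k)) = 0 := by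
    have : Algebra.IsAlgebraic (MvPolynomial σ k) (FractionRing (MvPolynomial σ k)) :=
      IsLocalization.isAlgebraic _ (nonZeroDivisors (MvPolynomial σ k))
    exact trdeg_eq_zero
  have h3 := trdeg_add_eq k (MvPolynomial σ k) (A := FractionRing (MvPolynomial σ k))
  rw [h2, add_zero, MvPolynomial.trdeg_of_isDomain] at h3
  rw [← h3] at h1
  simpa using h1

theorem fst_aeval_eps (q : Polynomial k) :
    (Polynomial.aeval (DualNumber.eps : DualNumber k) q).fst = q.coeff 0 := by
  have h1 : (TrivSqZeroExt.fstHom k k k) (Polynomial.aeval (DualNumber.eps : DualNumber k) q) =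
      Polynomial.aeval ((TrivSqZeroExt.fstHom k k k) (DualNumber.eps : DualNumber k)) q := by
    rw [Polynomial.aeval_algHom_apply]
  change (TrivSqZeroExt.fstHom k k k) (Polynomial.aeval (DualNumber.eps : DualNumber k) q) = _
  rw [h1]
  have h2 : (TrivSqZeroExt.fstHom k k k) (DualNumber.eps : DualNumber k) = 0 := DualNumber.fst_eps
  rw [h2, Polynomial.coeff_zero_eq_aeval_zero]

theorem snd_aeval_eps (q : Polynomial k) :
    (Polynomial.aeval (DualNumber.eps : DualNumber k) q).snd = q.coeff 1 := by
  conv_lhs => rw [← Polynomial.divX_mul_X_add q]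
  rw [map_add, map_mul, Polynomial.aeval_X, Polynomial.aeval_C, TrivSqZeroExt.snd_add,
    DualNumber.snd_mul, DualNumber.snd_eps, DualNumber.fst_eps, mul_zero, add_zero, mul_one,
    fst_aeval_eps, TrivSqZeroExt.algebraMap_eq_inl, TrivSqZeroExt.snd_inl, add_zero,
    Polynomial.coeff_divX]

theorem slice_zero [Infinite k] (f : Ix N d → k) (C' : Submodule k (Ix N d → k))
    (hC : LinearMap.range (xiL f) ⊔ C' = ⊤) {w : ℕ} {P : SS k N d} (hP : IsSemi w P)
    (h : ∀ u ∈ C', eval (f + u) P = 0) : P = 0 := by
  classical
  by_contra hne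
  let Pf : SS k N d := bind₁ (fun p => X p + C (f p)) P
  have hPf : ∀ v, eval v Pf = eval (f + v) P := by
    intro v
    have h1 : eval v (bind₁ (fun p => (X p + C (f p) : SS k N d)) P) =
      eval (fun p => eval v (X p + C (f p) : SS k N d)) P := eval_bind' _ _ _
    change eval v (bind₁ (fun p => X p + C (f p)) P) = _
    rw [h1]
    congr 2
    funext p
    simp [add_comm]
  have hPfne : Pf ≠ 0 := by
    intro h0
    apply hne
    apply MvPolynomial.funext
    intro c
    have h1 := hPf (c - f)
    rw [h0, map_zero, add_sub_cancel] at h1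
    rw [← h1, map_zero]
  have hex : ∃ m, homogeneousComponent m Pf ≠ 0 := by
    by_contra hcon
    push Not at hcon
    apply hPfne
    rw [← sum_homogeneousComponent Pf]
    exact Finset.sum_eq_zero fun i _ => hcon i
  let m := Nat.find hex
  have hm : homogeneousComponent m Pf ≠ 0 := Nat.find_spec hex
  have hmin : ∀ j, j < m → homogeneousComponent j Pf = 0 := by
    intro j hj
    by_contra h0
    exact Nat.find_min hex hj h0
  apply hm
  apply MvPolynomial.funext
  intro v
  rw [map_zero]
  -- decompose `v`
  have hv : v ∈ LinearMap.range (xiL f) ⊔ C' := by rw [hC]; trivial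
  obtain ⟨v1, ⟨Y, rfl⟩, u, hu, rfl⟩ := Submodule.mem_sup.mp hv
  -- the curve
  let c : Ix N d → Polynomial k := actT (oneEps (Polynomial.X : Polynomial k) Y)
    (fun p => algebraMap k (Polynomial k) (f p) + Polynomial.X * algebraMap k (Polynomial k) (u p))
  have hc0 : ∀ t : k, (fun p => (c p).eval t) = actT (1 + t • Y) (f + t • u) := by
    intro t
    funext p
    change Polynomial.evalRingHom t (actT _ _ p) = _
    rw [map_actT]
    congr 1
    · ext i j
      simp [oneEps, Matrix.one_apply, apply_ite]
      exact mul_comm _ _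
    · funext q
      simp
      exact mul_comm _ _
  have hceps : ∀ p, Polynomial.aeval (DualNumber.eps : DualNumber k) (c p) =
      algebraMap k (DualNumber k) (f p) + DualNumber.eps *
        algebraMap k (DualNumber k) (xi Y f p + u p) := by
    intro p
    rw [← actT_eps' (DualNumber.eps : DualNumber k) DualNumber.eps_mul_eps Y f u p]
    change (Polynomial.aeval (DualNumber.eps : DualNumber k)).toRingHom (actT _ _ p) = _
    rw [map_actT]
    congr 1
    · ext1 i j
      rw [Matrix.map_apply]
      unfold oneEps
      rw [Matrix.add_apply, Matrix.add_apply, Matrix.smul_apply, Matrix.smul_apply,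
        Matrix.map_apply, Matrix.map_apply, Matrix.one_apply, Matrix.one_apply]
      change Polynomial.aeval _ _ = _
      simp only [smul_eq_mul, map_add, map_mul, Polynomial.aeval_X]
      congr 1
      · split_ifs <;> simp
      · rw [Polynomial.algebraMap_eq, Polynomial.aeval_C]
    · funext q
      change Polynomial.aeval _ _ = _
      simp only [map_add, map_mul, Polynomial.aeval_X]
      rw [Polynomial.algebraMap_eq, Polynomial.aeval_C, Polynomial.aeval_C]
  have hc_0 : ∀ p, (c p).coeff 0 = f p := by
    intro p
    rw [← fst_aeval_eps, hceps, fst_form]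
  have hc_1 : ∀ p, (c p).coeff 1 = xi Y f p + u p := by
    intro p
    rw [← snd_aeval_eps, hceps, snd_form]
  have hG : aeval c P = 0 := by
    apply Polynomial.funext
    intro t
    rw [Polynomial.eval_zero]
    change Polynomial.evalRingHom t (aeval c P) = 0
    rw [aeval_def, hom_eval₂]
    have e1 : (Polynomial.evalRingHom t).comp (algebraMap k (Polynomial k)) = RingHom.id k := by
      ext a; simp
    rw [e1]
    change eval (fun p => (c p).eval t) P = 0
    rw [hc0, hP, h (t • u) (C'.smul_mem t hu), mul_zero]
  let q : Ix N d → Polynomial k := fun p => (c p).divX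
  have hcq : ∀ p, c p = Polynomial.X * q p + Polynomial.C (f p) := by
    intro p
    rw [← hc_0 p, mul_comm]
    exact (Polynomial.divX_mul_X_add (c p)).symm
  have hG2 : aeval c P = aeval (fun p => Polynomial.X * q p) Pf := by
    change _ = aeval (fun p => Polynomial.X * q p) (bind₁ (fun p => X p + C (f p)) P)
    rw [aeval_bind₁]
    congr 2
    funext p
    rw [hcq]
    simp [Polynomial.algebraMap_eq]
  have hhom : ∀ j, aeval (fun p => Polynomial.X * q p) (homogeneousComponent j Pf) =
      Polynomial.X ^ j * aeval q (homogeneousComponent j Pf) := by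
    intro j
    have h1 := homogeneousComponent_isHomogeneous j Pf
    generalize homogeneousComponent j Pf = H at h1
    rw [aeval_def, aeval_def, eval₂_eq, eval₂_eq, Finset.mul_sum]
    refine Finset.sum_congr rfl fun α hα => ?_
    have hdeg : ∑ i ∈ α.support, α i = j := by
      have : α.degree = j := by
        by_contra hne
        exact (mem_support_iff.mp hα) (h1.coeff_eq_zero hne)
      rw [← this]
      rfl
    simp_rw [mul_pow]
    rw [Finset.prod_mul_distrib, Finset.prod_pow_eq_pow_sum, hdeg]
    ring
  have h1 : (aeval (fun p => Polynomial.X * q p) Pf).coeff m =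
      eval (fun p => (q p).coeff 0) (homogeneousComponent m Pf) := by
    conv_lhs => rw [← sum_homogeneousComponent Pf]
    rw [map_sum, Polynomial.finsetSum_coeff]
    simp_rw [hhom]
    rw [Finset.sum_eq_single m]
    · rw [Polynomial.coeff_X_pow_mul', if_pos le_rfl, Nat.sub_self]
      rw [Polynomial.coeff_zero_eq_eval_zero]
      change Polynomial.evalRingHom 0 (aeval q _) = _
      rw [aeval_def, hom_eval₂]
      have e1 : (Polynomial.evalRingHom (0 : k)).comp (algebraMap k (Polynomial k)) =
          RingHom.id k := by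
        ext a; simp
      rw [e1]
      change eval _ _ = _
      congr 2
      funext p
      simp [Polynomial.coeff_zero_eq_eval_zero]
    · intro j _ hj
      rcases lt_or_gt_of_ne hj with h2 | h2
      · rw [hmin j h2, map_zero, mul_zero, Polynomial.coeff_zero]
      · rw [Polynomial.coeff_X_pow_mul', if_neg (by omega)]
    · intro hn
      rw [homogeneousComponent_eq_zero _ _ (by simpa using hn)]
      simp
  rw [← hG2, hG, Polynomial.coeff_zero] at h1
  have h2 : (fun p => (q p).coeff 0) = (xiL f) Y + u := by
    funext p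
    change ((c p).divX).coeff 0 = xi Y f p + u p
    rw [Polynomial.coeff_divX, zero_add, hc_1]
  rw [h2] at h1
  exact h1.symm

/-- the slice homomorphism -/
def slh {D : ℕ} (f : Ix N d → k) (b : Fin D → (Ix N d → k)) :
    SS k N d →ₐ[k] MvPolynomial (Fin D) k :=
  bind₁ (fun p => C (f p) + ∑ j, X j * C (b j p))

theorem eval_slh {D : ℕ} (f : Ix N d → k) (b : Fin D → (Ix N d → k)) (P : SS k N d)
    (y : Fin D → k) : eval y (slh f b P) = eval (f + ∑ j, y j • b j) P := by
  have h1 : eval y (bind₁ (fun p => (C (f p) + ∑ j, X j * C (b j p) : MvPolynomial (Fin D) k)) P) =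
      eval (fun p => eval y (C (f p) + ∑ j, X j * C (b j p) : MvPolynomial (Fin D) k)) P :=
    eval_bind' _ _ _
  unfold slh
  rw [h1]
  congr 2
  funext p
  rw [map_add, eval_C, map_sum, Pi.add_apply, Finset.sum_apply]
  congr 1
  exact Finset.sum_congr rfl fun j _ => by rw [map_mul, eval_X, eval_C]; rfl

variable [IsAlgClosed k] [CharZero k]

theorem finrank_xi (hd : 2 ≤ d) {f : Ix N d → k} (hf : NZ (tup f)) :
    Module.finrank k (LinearMap.range (xiL f)) = (N + 1) * (N + 1) := by
  rw [LinearMap.finrank_range_of_inj]
  · rw [Module.finrank_matrix]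
    simp
  · rw [injective_iff_map_eq_zero]
    intro Y hY
    exact xi_inj hd hf Y hY

theorem krullDim_le (hd : 2 ≤ d) {f : Ix N d → k} (hf : NZ (tup f)) :
    ringKrullDim (Of f) ≤ ((Fintype.card (Ix N d) - (N + 1) * (N + 1) : ℕ) : WithBot ℕ∞) := by
  have hinf : Infinite k := IsAlgClosed.instInfinite
  obtain ⟨C', hC⟩ := Submodule.exists_isCompl (LinearMap.range (xiL f))
  have hfr : Module.finrank k C' = Fintype.card (Ix N d) - (N + 1) * (N + 1) := by
    have h1 := Submodule.finrank_add_eq_of_isCompl hC
    rw [finrank_xi hd hf, Module.finrank_fintype_fun_eq_card] at h1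
    omega
  let b := Module.finBasisOfFinrankEq k C' hfr
  let b' : Fin (Fintype.card (Ix N d) - (N + 1) * (N + 1)) → (Ix N d → k) := fun j => b j
  let K := FractionRing (MvPolynomial (Fin (Fintype.card (Ix N d) - (N + 1) * (N + 1))) k)
  let τ : SS k N d →+* K := (algebraMap (MvPolynomial (Fin (Fintype.card (Ix N d) -
    (N + 1) * (N + 1))) k) K).comp (slh f b').toRingHom
  have hτ : ∀ Q, eval f Q ≠ 0 → IsUnit (τ Q) := by
    intro Q hQ
    rw [isUnit_iff_ne_zero]
    intro h0
    have h1 : slh f b' Q = 0 :=
      (map_eq_zero_iff _ (FaithfulSMul.algebraMap_injective _ _)).mp h0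
    have h2 := eval_slh f b' Q 0
    rw [h1, map_zero] at h2
    apply hQ
    rw [h2]
    congr 2
    simp
  let φ0 : Of f →+* K := (liftL f τ hτ).comp (incO f)
  have hφrep : ∀ (x : Of f) (w : ℕ) (P Q : SS k N d), Rep f w P Q x → φ0 x * τ Q = τ P := by
    intro x w P Q h
    exact liftL_eq f τ hτ (incO f x) P Q h.2.2.2
  have hφinj : Function.Injective φ0 := by
    rw [injective_iff_map_eq_zero]
    intro x hx
    obtain ⟨w, P, Q, h⟩ := x.2
    have h1 := hφrep x w P Q h
    rw [hx, zero_mul] at h1
    have h2 : slh f b' P = 0 :=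
      (map_eq_zero_iff _ (FaithfulSMul.algebraMap_injective _ _)).mp h1.symm
    have h3 : P = 0 := by
      apply slice_zero f C' hC.sup_eq_top h.1
      intro u hu
      have h4 := eval_slh f b' P (fun j => b.repr ⟨u, hu⟩ j)
      rw [h2, map_zero] at h4
      rw [h4]
      congr 2
      congr 1
      have h5 := congrArg (Subtype.val : C' → Ix N d → k) (b.sum_repr ⟨u, hu⟩)
      refine h5.symm.trans ?_
      simp only [Submodule.coe_sum, Submodule.coe_smul]
      rfl
    apply Subtype.ext
    have h4 := h.2.2.2
    rw [h3] at h4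
    have h5 : am (0 : SS k N d) = 0 := map_zero _
    rw [h5] at h4
    exact (mul_eq_zero.mp h4).resolve_right (am_ne_zero (ne_zero_of_eval h.2.2.1))
  let φ : Of f →ₐ[k] K := { φ0 with
    commutes' := by
      intro a
      have h1 := liftL_eq f τ hτ (incO f (algebraMap k (Of f) a)) (C a) 1 (by
        change am (C a) * am 1 = am (C a)
        simp [am])
      rw [map_one, mul_one] at h1
      refine h1.trans ?_
      change algebraMap _ K (slh f b' (C a)) = _
      rw [algHom_C]
      rfl }
  unfold ringKrullDim Order.krullDim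
  refine iSup_le fun s => ?_
  obtain ⟨x, hx⟩ := exists_indep (k := k) s.length s.toFun s.strictMono
  have hind : AlgebraicIndependent k x := by
    rw [algebraicIndependent_iff]
    intro g hg
    apply hx g
    rw [hg]
    exact zero_mem _
  have hind2 : AlgebraicIndependent k (fun i => φ (x i)) :=
    hind.map' (f := φ) hφinj
  have h1 := indep_card_le _ hind2
  rw [Fintype.card_fin] at h1
  exact_mod_cast h1

end

end Pool.Agent.Helper819.Dyn
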