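import Pool.Agent.Helper819.Curve

/-!
Infinitesimal automorphisms vanish.
-/

open MvPolynomial

namespace Pool.Agent.Helper819.Dyn

open Pool.Agent.Helper819.Apolar

noncomputable section

set_option linter.unusedSectionVars false

variable {k : Type} [Field k] {N d : ℕ}

theorem order_lt (g : Module.End k (Fin (N + 1) → k)) (x : Fin (N + 1) → k) (M : ℕ)
    (h1 : (g ^ (M + 1)) x = 0) (h2 : (g ^ M) x ≠ 0) : M < N + 1 := by
  by_contra hcon
  push Not at hcon
  have hf : Module.finrank k (Fin (N + 1) → k) = N + 1 := by simp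
  have e1 := Module.End.ker_pow_eq_ker_pow_finrank_of_le (f := g) (m := M) (by omega)
  have e2 := Module.End.ker_pow_eq_ker_pow_finrank_of_le (f := g) (m := M + 1) (by omega)
  apply h2
  rw [← LinearMap.mem_ker, e1, ← e2, LinearMap.mem_ker]
  exact h1

theorem no_growth (hd : 2 ≤ d) (T : Module.End k (Fin (N + 1) → k))
    (h : ∀ (μ : k) (M : ℕ) (x : Fin (N + 1) → k), ((T - μ • 1) ^ (M + 1)) x = 0 →
      ((T - μ • 1) ^ M) x ≠ 0 → ∃ (μ' : k) (y : Fin (N + 1) → k),
        ((T - μ' • 1) ^ (d * M + 1)) y = 0 ∧ ((T - μ' • 1) ^ (d * M)) y ≠ 0) :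
    ∀ (μ : k) (x : Fin (N + 1) → k),
      ((T - μ • 1) ^ 2 : Module.End k (Fin (N + 1) → k)) x = 0 → (T - μ • 1) x = 0 := by
  intro μ x hx
  by_contra hne
  have key : ∀ r : ℕ, ∃ (μ' : k) (y : Fin (N + 1) → k),
      ((T - μ' • 1) ^ (d ^ r + 1)) y = 0 ∧ ((T - μ' • 1) ^ (d ^ r)) y ≠ 0 := by
    intro r
    induction r with
    | zero => exact ⟨μ, x, by simpa using hx, by simpa using hne⟩
    | succ r ih =>
      obtain ⟨μ', y, h1, h2⟩ := ih
      obtain ⟨μ'', z, h3, h4⟩ := h μ' _ y h1 h2
      rw [← pow_succ'] at h3 h4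
      exact ⟨μ'', z, h3, h4⟩
  obtain ⟨μ', y, h1, h2⟩ := key (N + 1)
  have h3 := order_lt _ y _ h1 h2
  have h4 : N + 1 < 2 ^ (N + 1) := Nat.lt_two_pow_self
  have h5 : 2 ^ (N + 1) ≤ d ^ (N + 1) := Nat.pow_le_pow_left hd _
  omega

variable [IsAlgClosed k]

theorem iSup_eigen (T : Module.End k (Fin (N + 1) → k))
    (h : ∀ (μ : k) (x : Fin (N + 1) → k),
      ((T - μ • 1) ^ 2 : Module.End k (Fin (N + 1) → k)) x = 0 → (T - μ • 1) x = 0) :
    ⨆ μ, T.eigenspace μ = ⊤ := by
  have h1 : ∀ (μ : k) (j : ℕ) (x : Fin (N + 1) → k), ((T - μ • 1) ^ (j + 1)) x = 0 →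
      (T - μ • 1) x = 0 := by
    intro μ j
    induction j with
    | zero => intro x hx; simpa using hx
    | succ j ih =>
      intro x hx
      apply h
      rw [pow_two, Module.End.mul_apply]
      apply ih
      rw [pow_succ, Module.End.mul_apply] at hx
      exact hx
  rw [eq_top_iff, ← Module.End.iSup_maxGenEigenspace_eq_top T]
  apply iSup_mono
  intro μ x hx
  rw [Module.End.mem_maxGenEigenspace] at hx
  obtain ⟨j, hj⟩ := hx
  rw [Module.End.mem_eigenspace_iff, ← sub_eq_zero]
  have h2 := h1 μ j x (by rw [pow_succ', Module.End.mul_apply, hj, map_zero])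
  rw [← h2]
  simp

variable [CharZero k]

theorem lie_inj (hd : 2 ≤ d) {f : Ix N d → k} (hf : NZ (tup f))
    (A : Matrix (Fin (N + 1)) (Fin (N + 1)) k)
    (hA : ∀ i, ∑ l, (∑ m, C (A l m) * X m) * pderiv l (tup f i) =
      ∑ j, C (A i j) * tup f j - C A.trace * tup f i) : A = 0 := by
  have hd1 : ((d : k) - 1) ≠ 0 := by
    intro h
    have : (d : k) = 1 := by linear_combination h
    have h2 : d = 1 := by exact_mod_cast this
    omega
  obtain ⟨T, hT⟩ : ∃ T : Module.End k (Fin (N + 1) → k), T = Matrix.toLin' A := ⟨_, rfl⟩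
  have h1 := no_growth hd T (by
    intro μ M x hx1 hx2
    rw [hT] at hx1 hx2 ⊢
    exact ⟨_, _, stepA hf A hA μ M x hx1 hx2⟩)
  have h2 := iSup_eigen T h1
  -- all eigenvalues are equal
  set μ0 : k := -A.trace / ((d : k) - 1) with hμ0
  have hμ0' : A.trace = μ0 - d * μ0 := by
    rw [hμ0]; field_simp; ring
  have hev : ∀ μ : k, T.HasEigenvalue μ → T.HasEigenvalue (A.trace + d * μ) := by
    intro μ hμ
    obtain ⟨x, hx⟩ := hμ.exists_hasEigenvector
    rw [Module.End.hasEigenvector_iff, Module.End.mem_eigenspace_iff] at hx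
    have h3 := stepA hf A hA μ 0 x (by
      rw [zero_add, pow_one]
      change Matrix.toLin' A x - μ • x = 0
      rw [← hT, hx.1, sub_self]) (by
      rw [pow_zero]; exact hx.2)
    rw [mul_zero, zero_add, pow_one, pow_zero] at h3
    refine Module.End.hasEigenvalue_of_hasEigenvector (x := fun i => eval x (tup f i)) ?_
    rw [Module.End.hasEigenvector_iff, Module.End.mem_eigenspace_iff]
    refine ⟨?_, h3.2⟩
    have h4 := h3.1
    change Matrix.toLin' A _ - (A.trace + d * μ) • _ = 0 at h4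
    rwa [← hT, sub_eq_zero] at h4
  have hall : ∀ μ : k, T.HasEigenvalue μ → μ = μ0 := by
    intro μ hμ
    have hseq : ∀ r : ℕ, T.HasEigenvalue (μ0 + (d : k) ^ r * (μ - μ0)) := by
      intro r
      induction r with
      | zero => simpa using hμ
      | succ r ih =>
        have h3 := hev _ ih
        have h4 : A.trace + d * (μ0 + (d : k) ^ r * (μ - μ0)) =
            μ0 + (d : k) ^ (r + 1) * (μ - μ0) := by
          rw [hμ0', pow_succ]; ring
        rwa [h4] at h3
    have hfin : Finite {μ // T.HasEigenvalue μ} :=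
      Set.finite_coe_iff.mpr (Module.End.finite_hasEigenvalue (f := T))
    obtain ⟨r, s, hrs, he⟩ := Finite.exists_ne_map_eq_of_infinite
      (fun r : ℕ => (⟨_, hseq r⟩ : {μ // T.HasEigenvalue μ}))
    · have h3 : (d : k) ^ r * (μ - μ0) = (d : k) ^ s * (μ - μ0) :=
        add_left_cancel (congrArg Subtype.val he)
      have h4 : ((d : k) ^ r - (d : k) ^ s) * (μ - μ0) = 0 := by linear_combination h3
      rcases mul_eq_zero.mp h4 with h5 | h5
      · exfalso
        have h6 : (d : k) ^ r = (d : k) ^ s := by linear_combination h5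
        have h7 : d ^ r = d ^ s := by exact_mod_cast h6
        exact hrs (Nat.pow_right_injective hd h7)
      · linear_combination h5
  have htop : T.eigenspace μ0 = ⊤ := by
    rw [eq_top_iff, ← h2]
    apply iSup_le
    intro μ x hx
    by_cases hx0 : x = 0
    · rw [hx0]; exact zero_mem _
    · have h3 : T.HasEigenvalue μ := Module.End.hasEigenvalue_of_hasEigenvector
        (Module.End.hasEigenvector_iff.mpr ⟨hx, hx0⟩)
      rw [← hall μ h3]
      exact hx
  have hTs : T = μ0 • 1 := by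
    ext1 x
    have h3 : ∀ x, T x = μ0 • x := by
      intro x
      rw [← Module.End.mem_eigenspace_iff, htop]
      trivial
    ext i
    simp [h3]
  have hAs : A = μ0 • 1 := by
    have h3 : Matrix.toLin' A = Matrix.toLin' (μ0 • (1 : Matrix (Fin (N + 1)) (Fin (N + 1)) k)) := by
      rw [← hT, hTs, map_smul, Matrix.toLin'_one]
      rfl
    exact Matrix.toLin'.injective h3
  have htr : A.trace = (N + 1) * μ0 := by
    conv_lhs => rw [hAs]
    rw [Matrix.trace_smul, Matrix.trace_one, Fintype.card_fin, smul_eq_mul]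
    push_cast
    ring
  have h0 : μ0 = 0 := by
    have h3 : ((N : k) + d) * μ0 = 0 := by
      linear_combination hμ0' - htr
    refine (mul_eq_zero.mp h3).resolve_left ?_
    have h4 : (N : k) + d = ((N + d : ℕ) : k) := by push_cast; ring
    rw [h4]
    exact_mod_cast (by omega : N + d ≠ 0)
  rw [hAs, h0, zero_smul]

end

end Pool.Agent.Helper819.Dyn
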