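import Pool.Agent.Helper819.Act

/-!
Binary forms: dehomogenisation, resultants and normal forms for maps of the projective line.
-/

open MvPolynomial

namespace Pool.Agent.Helper819.Dyn

open Pool.Agent.Helper819.Zar

noncomputable section

/-- The exponent of `x^a y^b`. -/
def mono (a b : ℕ) : Fin (1 + 1) →₀ ℕ := Finsupp.single 0 a + Finsupp.single 1 b

theorem mono_zero (a b : ℕ) : mono a b 0 = a := by simp [mono]

theorem mono_one (a b : ℕ) : mono a b 1 = b := by simp [mono]

theorem eq_mono (m : Fin (1 + 1) →₀ ℕ) : m = mono (m 0) (m 1) := by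
  ext i
  fin_cases i
  · exact (mono_zero _ _).symm
  · exact (mono_one _ _).symm

theorem mono_inj {a b a' b' : ℕ} : mono a b = mono a' b' ↔ a = a' ∧ b = b' := by
  constructor
  · intro h
    exact ⟨by rw [← mono_zero a b, h, mono_zero], by rw [← mono_one a b, h, mono_one]⟩
  · rintro ⟨rfl, rfl⟩; rfl

theorem mono_degree (a b : ℕ) : (mono a b).degree = a + b := by
  rw [Finsupp.degree_eq_sum]
  rw [Fin.sum_univ_succ]
  simp [mono_zero, mono_one]

/-- Homogenisation in degree `d`. -/
def hom {R : Type} [CommRing R] (d : ℕ) (p : Polynomial R) : MvPolynomial (Fin (1 + 1)) R :=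
  ∑ j ∈ Finset.range (d + 1), monomial (mono j (d - j)) (p.coeff j)

/-- Dehomogenisation. -/
def dh {R : Type} [CommRing R] (F : MvPolynomial (Fin (1 + 1)) R) : Polynomial R :=
  aeval ![Polynomial.X, 1] F

theorem hom_homog {R : Type} [CommRing R] (d : ℕ) (p : Polynomial R) :
    (hom d p).IsHomogeneous d := by
  unfold hom
  refine IsHomogeneous.sum _ _ _ fun j hj => ?_
  apply isHomogeneous_monomial
  rw [mono_degree]
  have := Finset.mem_range.mp hj
  omega

theorem map_hom {R S : Type} [CommRing R] [CommRing S] (φ : R →+* S) (d : ℕ) (p : Polynomial R) :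
    map φ (hom d p) = hom d (p.map φ) := by
  unfold hom
  rw [map_sum]
  simp [map_monomial]

theorem coeff_hom {R : Type} [CommRing R] (d : ℕ) (p : Polynomial R) (m : Fin (1 + 1) →₀ ℕ) :
    coeff m (hom d p) = if m 0 + m 1 = d then p.coeff (m 0) else 0 := by
  unfold hom
  rw [coeff_sum]
  simp only [coeff_monomial]
  split_ifs with h
  · rw [Finset.sum_eq_single (m 0)]
    · rw [if_pos]
      conv_rhs => rw [eq_mono m]
      rw [mono_inj]
      omega
    · intro b _ hb
      rw [if_neg]
      intro he
      apply hb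
      rw [← he, mono_zero]
    · intro hn
      exfalso
      apply hn
      rw [Finset.mem_range]
      omega
  · apply Finset.sum_eq_zero
    intro b hb
    rw [if_neg]
    intro he
    apply h
    have := Finset.mem_range.mp hb
    rw [← he, mono_zero, mono_one]
    omega

theorem hom_ext {R : Type} [CommRing R] {d : ℕ} {F : MvPolynomial (Fin (1 + 1)) R}
    (hF : F.IsHomogeneous d) (p : Polynomial R)
    (h : ∀ j ≤ d, p.coeff j = coeff (mono j (d - j)) F) : F = hom d p := by
  ext m
  rw [coeff_hom]
  split_ifs with hm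
  · rw [h _ (by omega)]
    congr 1
    conv_lhs => rw [eq_mono m]
    congr 1
    omega
  · apply hF.coeff_eq_zero
    rw [eq_mono m, mono_degree]
    exact hm

theorem eval_hom {R : Type} [CommRing R] (d : ℕ) (p : Polynomial R) (P : Fin (1 + 1) → R) :
    eval P (hom d p) = ∑ j ∈ Finset.range (d + 1), p.coeff j * (P 0 ^ j * P 1 ^ (d - j)) := by
  unfold hom
  rw [map_sum]
  refine Finset.sum_congr rfl fun j _ => ?_
  rw [eval_monomial, Finsupp.prod_fintype _ _ (by simp), Fin.prod_univ_succ]
  simp [mono_zero, mono_one]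

theorem eval_hom_fin {R : Type} [CommRing R] {d : ℕ} {p : Polynomial R} (hp : p.natDegree ≤ d)
    (t : R) : eval ![t, 1] (hom d p) = p.eval t := by
  rw [eval_hom, Polynomial.eval_eq_sum_range' (Nat.lt_succ_of_le hp)]
  refine Finset.sum_congr rfl fun j _ => ?_
  simp

theorem eval_hom_inf {R : Type} [CommRing R] (d : ℕ) (p : Polynomial R) :
    eval ![1, 0] (hom d p) = p.coeff d := by
  rw [eval_hom, Finset.sum_eq_single d]
  · simp
  · intro b hb hbd
    have := Finset.mem_range.mp hb
    have h2 : d - b ≠ 0 := by omega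
    simp [h2]
  · simp

theorem dh_monomial {R : Type} [CommRing R] (m : Fin (1 + 1) →₀ ℕ) (a : R) :
    dh (monomial m a) = Polynomial.C a * Polynomial.X ^ (m 0) := by
  unfold dh
  rw [aeval_monomial, Finsupp.prod_fintype _ _ (by simp), Fin.prod_univ_succ]
  simp

theorem dh_hom {R : Type} [CommRing R] {d : ℕ} {p : Polynomial R} (hp : p.natDegree ≤ d) :
    dh (hom d p) = p := by
  have : dh (hom d p) = ∑ j ∈ Finset.range (d + 1), dh (monomial (mono j (d - j)) (p.coeff j)) := by
    unfold dh hom
    rw [map_sum]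
  rw [this]
  simp only [dh_monomial, mono_zero]
  exact (Polynomial.as_sum_range_C_mul_X_pow' p (Nat.lt_succ_of_le hp)).symm

/-- Every form is a homogenisation. -/
theorem exists_hom {R : Type} [CommRing R] {d : ℕ} {F : MvPolynomial (Fin (1 + 1)) R}
    (hF : F.IsHomogeneous d) : ∃ p : Polynomial R, p.natDegree ≤ d ∧ F = hom d p := by
  refine ⟨∑ j ∈ Finset.range (d + 1), Polynomial.monomial j (coeff (mono j (d - j)) F), ?_, ?_⟩
  · apply Polynomial.natDegree_sum_le_of_forall_le
    intro i hi
    refine (Polynomial.natDegree_monomial_le _).trans ?_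
    have := Finset.mem_range.mp hi
    omega
  · apply hom_ext hF
    intro j hj
    rw [Polynomial.finsetSum_coeff]
    simp only [Polynomial.coeff_monomial]
    rw [Finset.sum_ite_eq']
    rw [if_pos (Finset.mem_range.mpr (by omega))]

theorem eval_hom_smul {k : Type} [Field k] (d : ℕ) (p : Polynomial k) (hp : p.natDegree ≤ d)
    (x y : k) (hy : y ≠ 0) : eval ![x, y] (hom d p) = y ^ d * p.eval (x / y) := by
  have h1 : (![x, y] : Fin (1 + 1) → k) = y • ![x / y, 1] := by
    funext i
    fin_cases i
    · simp; field_simp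
    · simp
  rw [h1, eval_smul_homog (hom_homog d p), eval_hom_fin hp]

theorem eval_hom_smul_inf {k : Type} [Field k] (d : ℕ) (p : Polynomial k) (x : k) :
    eval ![x, 0] (hom d p) = x ^ d * p.coeff d := by
  have h1 : (![x, 0] : Fin (1 + 1) → k) = x • ![1, 0] := by
    funext i
    fin_cases i
    · simp
    · simp
  rw [h1, eval_smul_homog (hom_homog d p), eval_hom_inf]

/-- Criterion to define a morphism of the line. -/
theorem isEnd_hom {k : Type} [Field k] {d : ℕ} {p q : Polynomial k} (hp : p.natDegree ≤ d)
    (hq : q.natDegree ≤ d) (hinf : p.coeff d ≠ 0 ∨ q.coeff d ≠ 0)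
    (hfin : ∀ t : AlgebraicClosure k, ¬ (Polynomial.aeval t p = 0 ∧ Polynomial.aeval t q = 0)) :
    IsEnd (N := 1) d ![hom d p, hom d q] := by
  refine ⟨?_, ?_⟩
  · intro i
    fin_cases i
    · exact hom_homog _ _
    · exact hom_homog _ _
  · intro x hx
    have key : ∀ r : Polynomial k, aeval x (hom d r) =
        eval ![x 0, x 1] (hom d (r.map (algebraMap k (AlgebraicClosure k)))) := by
      intro r
      rw [← map_hom, eval_map, aeval_def]
      congr 1
      funext i
      fin_cases i <;> rfl
    have h0 : aeval x (hom d p) = 0 := hx 0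
    have h1 : aeval x (hom d q) = 0 := hx 1
    rw [key] at h0 h1
    by_cases hy : x 1 = 0
    · rw [hy, eval_hom_smul_inf, Polynomial.coeff_map] at h0 h1
      have hx0 : x 0 = 0 := by
        by_contra hne
        rcases hinf with h | h
        · exact (mul_ne_zero (pow_ne_zero _ hne) (by simpa using h)) h0
        · exact (mul_ne_zero (pow_ne_zero _ hne) (by simpa using h)) h1
      funext i
      fin_cases i
      · exact hx0
      · exact hy
    · exfalso
      rw [eval_hom_smul _ _ ((Polynomial.natDegree_map_le).trans hp) _ _ hy] at h0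
      rw [eval_hom_smul _ _ ((Polynomial.natDegree_map_le).trans hq) _ _ hy] at h1
      apply hfin (x 0 / x 1)
      rw [Polynomial.aeval_def, Polynomial.aeval_def, ← Polynomial.eval_map,
        ← Polynomial.eval_map]
      exact ⟨(mul_eq_zero.mp h0).resolve_left (pow_ne_zero _ hy),
        (mul_eq_zero.mp h1).resolve_left (pow_ne_zero _ hy)⟩

end

end Pool.Agent.Helper819.Dyn
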