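import Pool.Agent.Helper819.Upper2

/-!
Lower bound for the dimension of the moduli space of maps of the line.
-/

open MvPolynomial

namespace Pool.Agent.Helper819.Dyn

open Pool.Agent.Helper819.Zar

noncomputable section

theorem dh_map {R S : Type} [CommRing R] [CommRing S] (φ : R →+* S)
    (F : MvPolynomial (Fin (1 + 1)) R) : dh (map φ F) = (dh F).map φ := by
  induction F using MvPolynomial.induction_on' with
  | add p q hp hq =>
    have h1 : dh (map φ (p + q)) = dh (map φ p) + dh (map φ q) := by
      unfold dh; rw [map_add, map_add]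
    have h2 : dh (p + q) = dh p + dh q := by
      unfold dh; rw [map_add]
    rw [h1, h2, hp, hq, Polynomial.map_add]
  | monomial m a =>
    rw [map_monomial, dh_monomial, dh_monomial]
    simp

/-- The resultant of the two coordinate forms. -/
def res {R : Type} [CommRing R] (d : ℕ) (F : Tuple R 1) : R :=
  (dh (F 0)).resultant (dh (F 1)) d d

theorem res_spec {k τ : Type} [Field k] (d : ℕ) (y : τ → k) (G : Tuple (MvPolynomial τ k) 1) :
    eval y (res d G) = res d (spec y G) := by
  unfold res spec
  rw [dh_map, dh_map, Polynomial.resultant_map_map]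

theorem isEnd_of_res {k : Type} [Field k] [IsAlgClosed k] {d : ℕ} (hd : 1 ≤ d) (F : Tuple k 1)
    (hF : ∀ i, (F i).IsHomogeneous d) (hres : res d F ≠ 0) : IsEnd d F := by
  obtain ⟨f, hf, hf'⟩ := exists_hom (hF 0)
  obtain ⟨g, hg, hg'⟩ := exists_hom (hF 1)
  unfold res at hres
  rw [hf', hg', dh_hom hf, dh_hom hg] at hres
  have : F = ![hom d f, hom d g] := by
    funext i
    fin_cases i
    · exact hf'
    · exact hg'
  rw [this]
  apply isEnd_hom hf hg
  · by_contra hcon
    rw [not_or, not_not, not_not] at hcon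
    apply hres
    apply Polynomial.resultant_eq_zero_of_lt_lt
    · refine lt_of_le_of_ne hf ?_
      intro h
      have h2 : f ≠ 0 := by rintro rfl; simp at h; omega
      apply h2
      rw [← Polynomial.leadingCoeff_eq_zero, Polynomial.leadingCoeff, h]
      exact hcon.1
    · refine lt_of_le_of_ne hg ?_
      intro h
      have h2 : g ≠ 0 := by rintro rfl; simp at h; omega
      apply h2
      rw [← Polynomial.leadingCoeff_eq_zero, Polynomial.leadingCoeff, h]
      exact hcon.2
  · rintro t ⟨h1, h2⟩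
    obtain ⟨p, q, _, _, hpq⟩ := Polynomial.exists_mul_add_mul_eq_C_resultant f g hf hg
      (Or.inl (by omega : d ≠ 0))
    have h3 := congrArg (Polynomial.aeval t) hpq
    rw [map_add, map_mul, map_mul, h1, h2, Polynomial.aeval_C] at h3
    simp only [zero_mul, add_zero] at h3
    exact hres ((map_eq_zero (algebraMap k (AlgebraicClosure k))).mp h3.symm)

section family

variable {k : Type} [Field k] [IsAlgClosed k] {d : ℕ}

/-- Index of the `i`-th direction. -/
def idx (d i : ℕ) : Fin (1 + 1) × ℕ := if i < d - 1 then (0, i + 1) else (1, i - (d - 1) + 1)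

theorem idx_pos (d i : ℕ) : 1 ≤ (idx d i).2 := by
  unfold idx; split_ifs <;> simp

theorem idx_lt {d i : ℕ} (hd : 2 ≤ d) (hi : i < 2 * d - 2) : (idx d i).2 < d := by
  unfold idx; split_ifs <;> simp <;> omega

theorem idx_inj {d i j : ℕ} (h : idx d i = idx d j) : i = j := by
  unfold idx at h
  split_ifs at h with h1 h2 h2
  · simpa using h
  · simp at h
  · simp at h
  · simp at h; omega

/-- top exponents -/
def top (d : ℕ) (s : Fin (1 + 1)) : ℕ := if s = 0 then d else 0

theorem top_le (d : ℕ) (s : Fin (1 + 1)) : top d s ≤ d := by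
  unfold top; split_ifs <;> omega

/-- The univariate form of the family. -/
def pol {R : Type} [CommRing R] (d : ℕ) {j : ℕ} (y : Fin j → R) (s : Fin (1 + 1)) :
    Polynomial R :=
  Polynomial.X ^ (top d s) + ∑ l : Fin j, Polynomial.C (y l) *
    (if (idx d l).1 = s then Polynomial.X ^ (idx d l).2 - Polynomial.X ^ (top d s) else 0)

theorem pol_map {R S : Type} [CommRing R] [CommRing S] (φ : R →+* S) {j : ℕ} (y : Fin j → R)
    (s : Fin (1 + 1)) : (pol d y s).map φ = pol d (fun l => φ (y l)) s := by
  unfold pol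
  rw [Polynomial.map_add, Polynomial.map_sum]
  simp only [Polynomial.map_pow, Polynomial.map_X, Polynomial.map_mul, Polynomial.map_C]
  congr 1
  refine Finset.sum_congr rfl fun l _ => ?_
  split_ifs <;> simp

theorem pol_natDegree {R : Type} [CommRing R] (hd : 2 ≤ d) {j : ℕ} (hj : j ≤ 2 * d - 2)
    (y : Fin j → R) (s : Fin (1 + 1)) : (pol d y s).natDegree ≤ d := by
  unfold pol
  refine (Polynomial.natDegree_add_le _ _).trans (max_le ?_ ?_)
  · exact (Polynomial.natDegree_X_pow_le _).trans (top_le d s)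
  · apply Polynomial.natDegree_sum_le_of_forall_le
    intro l _
    refine (Polynomial.natDegree_C_mul_le _ _).trans ?_
    split_ifs
    · refine (Polynomial.natDegree_sub_le _ _).trans (max_le ?_ ?_)
      · exact (Polynomial.natDegree_X_pow_le _).trans (idx_lt hd (by omega)).le
      · exact (Polynomial.natDegree_X_pow_le _).trans (top_le d s)
    · simp

theorem pol_eval_one {R : Type} [CommRing R] {j : ℕ} (y : Fin j → R) (s : Fin (1 + 1)) :
    (pol d y s).eval 1 = 1 := by
  unfold pol
  rw [Polynomial.eval_add, Polynomial.eval_finsetSum]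
  rw [Finset.sum_eq_zero]
  · simp
  · intro l _
    split_ifs <;> simp

theorem pol_eval_zero {R : Type} [CommRing R] (hd : 2 ≤ d) {j : ℕ} (y : Fin j → R) :
    (pol d y 0).eval 0 = 0 := by
  unfold pol
  rw [Polynomial.eval_add, Polynomial.eval_finsetSum]
  rw [Finset.sum_eq_zero]
  · have : top d 0 ≠ 0 := by unfold top; simp; omega
    simp [this]
  · intro l _
    have h1 : top d 0 ≠ 0 := by unfold top; simp; omega
    have h2 : (idx d l).2 ≠ 0 := by have := idx_pos d l; omega
    split_ifs <;> simp [h1, h2]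

theorem pol_coeff_d {R : Type} [CommRing R] (hd : 2 ≤ d) {j : ℕ} (hj : j ≤ 2 * d - 2)
    (y : Fin j → R) : (pol d y 1).coeff d = 0 := by
  unfold pol
  have h1 : top d 1 = 0 := by unfold top; simp
  rw [Polynomial.coeff_add, Polynomial.finsetSum_coeff, Finset.sum_eq_zero]
  · rw [h1, pow_zero, Polynomial.coeff_one]
    simp; omega
  · intro l _
    rw [Polynomial.coeff_C_mul]
    split_ifs
    · have h2 := idx_lt hd (i := l) (by omega)
      rw [Polynomial.coeff_sub, Polynomial.coeff_X_pow, Polynomial.coeff_X_pow, h1]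
      rw [if_neg (by omega), if_neg (by omega)]
      simp
    · simp

theorem pol_coeff_idx {R : Type} [CommRing R] (hd : 2 ≤ d) {j : ℕ} (y : Fin j → R) (i : ℕ)
    (hi : i < 2 * d - 2) :
    (pol d y (idx d i).1).coeff (idx d i).2 = if h : i < j then y ⟨i, h⟩ else 0 := by
  unfold pol
  have h1 : (idx d i).2 ≠ top d (idx d i).1 := by
    have := idx_pos d i
    have := idx_lt hd hi
    unfold top
    split_ifs <;> omega
  rw [Polynomial.coeff_add, Polynomial.finsetSum_coeff, Polynomial.coeff_X_pow, if_neg h1, zero_add]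
  have h2 : ∀ l : Fin j, (Polynomial.C (y l) * (if (idx d l).1 = (idx d i).1 then
      Polynomial.X ^ (idx d l).2 - Polynomial.X ^ (top d (idx d i).1) else 0)).coeff (idx d i).2 =
      if (l : ℕ) = i then y l else 0 := by
    intro l
    rw [Polynomial.coeff_C_mul]
    by_cases hl : (l : ℕ) = i
    · rw [if_pos hl, hl, if_pos rfl, Polynomial.coeff_sub, Polynomial.coeff_X_pow,
        Polynomial.coeff_X_pow, if_pos rfl, if_neg h1]
      simp
    · rw [if_neg hl]
      split_ifs with h3
      · rw [Polynomial.coeff_sub, Polynomial.coeff_X_pow, Polynomial.coeff_X_pow, if_neg h1]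
        rw [if_neg]
        · simp
        · intro h4
          apply hl
          exact idx_inj (Prod.ext h3 h4.symm)
      · simp
  rw [Finset.sum_congr rfl (fun l _ => h2 l)]
  split_ifs with h
  · rw [Finset.sum_eq_single ⟨i, h⟩]
    · simp
    · intro b _ hb
      rw [if_neg]
      intro h5
      exact hb (Fin.ext h5)
    · simp
  · apply Finset.sum_eq_zero
    intro l _
    rw [if_neg]
    omega

/-- The family. -/
def famF (k : Type) [Field k] (d j : ℕ) : Tuple (MvPolynomial (Fin j) k) 1 :=
  fun s => hom d (pol d (X : Fin j → MvPolynomial (Fin j) k) s)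

omit [IsAlgClosed k] in
theorem spec_famF {j : ℕ} (y : Fin j → k) :
    spec y (famF k d j) = fun s => hom d (pol d y s) := by
  funext s
  unfold spec famF
  rw [map_hom, pol_map]
  simp

theorem famF_isEnd (hd : 2 ≤ d) {j : ℕ} (y : Fin j → k)
    (hy : eval y (res d (famF k d j)) ≠ 0) : IsEnd d (spec y (famF k d j)) := by
  apply isEnd_of_res (by omega)
  · intro i
    rw [spec_famF]
    exact hom_homog _ _
  · rwa [res_spec] at hy

omit [IsAlgClosed k] in
theorem res_famF_zero {j : ℕ} :
    eval (fun _ => (0 : k)) (res d (famF k d j)) ≠ 0 := by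
  rw [res_spec, spec_famF]
  unfold res
  have h0 : pol d (fun _ : Fin j => (0 : k)) 0 = Polynomial.X ^ d := by
    unfold pol top; simp
  have h1 : pol d (fun _ : Fin j => (0 : k)) 1 = 1 := by
    unfold pol top; simp
  simp only
  rw [h0, h1, dh_hom (Polynomial.natDegree_X_pow_le _), dh_hom (by simp),
    Polynomial.resultant_one_right]
  simp

omit [IsAlgClosed k] in
theorem res_famF_ne {j : ℕ} : res d (famF k d j) ≠ 0 := by
  intro h
  have := res_famF_zero (k := k) (d := d) (j := j)
  rw [h, map_zero] at this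
  exact this rfl

/-- The sets. -/
abbrev TT {σ : Type} (A : Matrix (Fin (1 + 1)) (Fin (1 + 1)) (MvPolynomial σ k)) (d j : ℕ) :
    Set (EndTuple k 1 d) := famSet d A (res d (famF k d j)) (famF k d j)

theorem TT_irred (hd : 2 ≤ d) {σ : Type}
    {A : Matrix (Fin (1 + 1)) (Fin (1 + 1)) (MvPolynomial σ k)} (hA : A.det ≠ 0) (j : ℕ) :
    IsIrreducible (TT A d j) :=
  famSet_irred (fun y hy => famF_isEnd hd y hy) hA res_famF_ne

omit [IsAlgClosed k] in
theorem mem_TT {σ : Type} {A : Matrix (Fin (1 + 1)) (Fin (1 + 1)) (MvPolynomial σ k)} {j : ℕ}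
    (F : EndTuple k 1 d) : F ∈ TT A d j ↔ ∃ B ∈ grp A, ∃ y : Fin j → k,
      eval y (res d (famF k d j)) ≠ 0 ∧ F.1 = act B (fun s => hom d (pol d y s)) := by
  unfold TT
  rw [famSet_eq]
  constructor
  · rintro ⟨B, hB, y, hy, hF⟩
    rw [spec_famF] at hF
    exact ⟨B, hB, y, hy, hF⟩
  · rintro ⟨B, hB, y, hy, hF⟩
    exact ⟨B, hB, y, hy, by rw [spec_famF]; exact hF⟩

/-- extension by zero does not change the polynomials -/
theorem pol_snoc {R : Type} [CommRing R] {j : ℕ} (y : Fin j → R) (s : Fin (1 + 1)) :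
    pol d (Fin.snoc y 0 : Fin (j + 1) → R) s = pol d y s := by
  unfold pol
  rw [Fin.sum_univ_castSucc]
  simp

omit [IsAlgClosed k] in
theorem res_snoc {j : ℕ} (y : Fin j → k) :
    eval (Fin.snoc y 0 : Fin (j + 1) → k) (res d (famF k d (j + 1))) =
      eval y (res d (famF k d j)) := by
  rw [res_spec, res_spec, spec_famF, spec_famF]
  simp only [pol_snoc]

omit [IsAlgClosed k] in
theorem TT_succ {σ : Type} {A : Matrix (Fin (1 + 1)) (Fin (1 + 1)) (MvPolynomial σ k)} (j : ℕ) :
    TT A d j ⊆ TT A d (j + 1) := by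
  intro F hF
  rw [mem_TT] at hF ⊢
  obtain ⟨B, hB, y, hy, hF⟩ := hF
  refine ⟨B, hB, Fin.snoc y 0, ?_, ?_⟩
  · rw [res_snoc]; exact hy
  · simp only [pol_snoc]; exact hF

theorem TT0_lt (hd : 2 ≤ d) {j : ℕ} (hj : j < 2 * d - 2) :
    icl _ (TT_irred hd (det_A0 (k := k)) j) < icl _ (TT_irred hd (det_A0 (k := k)) (j + 1)) := by
  have hinf : Infinite k := IsAlgClosed.instInfinite
  apply icl_lt2 (isZar_coords k 1 d) _ _ (TT_succ j)
  have hco : ∀ (i : ℕ) (y : Fin i → k) (F : EndTuple k 1 d),
      F.1 = act 1 (fun s => hom d (pol d y s)) →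
      eval (coords F) (X ((idx d j).1, mono (idx d j).2 (d - (idx d j).2))) =
        if h : j < i then y ⟨j, h⟩ else 0 := by
    intro i y F hF
    rw [act_one] at hF
    rw [eval_X]
    unfold coords
    simp only
    rw [hF]
    simp only
    have := idx_lt hd hj
    rw [coeff_hom, mono_zero, mono_one, if_pos (by omega), pol_coeff_idx hd y j hj]
  refine ⟨X ((idx d j).1, mono (idx d j).2 (d - (idx d j).2)), ?_, ?_⟩
  · intro F hF
    rw [mem_TT] at hF
    obtain ⟨B, hB, y, hy, hF⟩ := hF
    rw [mem_grp0] at hB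
    rw [hB] at hF
    rw [hco j y F hF]
    simp
  · have hne : res d (famF k d (j + 1)) * X (Fin.last j) ≠ 0 :=
      mul_ne_zero res_famF_ne (X_ne_zero _)
    obtain ⟨y, hy⟩ : ∃ y : Fin (j + 1) → k,
        eval y (res d (famF k d (j + 1)) * X (Fin.last j)) ≠ 0 := by
      by_contra hcon
      push Not at hcon
      exact hne (MvPolynomial.funext (fun y => by rw [hcon y, map_zero]))
    rw [map_mul, eval_X, mul_ne_zero_iff] at hy
    refine ⟨⟨spec y (famF k d (j + 1)), famF_isEnd hd y hy.1⟩, ?_, ?_⟩
    · rw [mem_TT]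
      refine ⟨1, (mem_grp0 _).mpr rfl, y, hy.1, ?_⟩
      rw [act_one]
      exact spec_famF y
    · rw [hco (j + 1) y _ (by rw [act_one]; exact spec_famF y)]
      rw [dif_pos (Nat.lt_succ_self j)]
      exact hy.2

end family

end

end Pool.Agent.Helper819.Dyn
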