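import Pool.Agent.Helper819.Lower

/-!
Lower bound for the dimension of the moduli space of maps of the line.
-/

open MvPolynomial

namespace Pool.Agent.Helper819.Dyn

open Pool.Agent.Helper819.Zar

noncomputable section

set_option linter.unusedSectionVars false
set_option linter.unusedSimpArgs false
set_option linter.unusedVariables false

variable {k : Type} [Field k] [IsAlgClosed k] {d : ℕ}

theorem hom_X_pow {R : Type} [CommRing R] (d : ℕ) (x y : R) :
    eval ![x, y] (hom d (Polynomial.X ^ d)) = x ^ d := by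
  rw [eval_hom, Finset.sum_eq_single d]
  · simp
  · intro b _ hb
    rw [Polynomial.coeff_X_pow, if_neg hb, zero_mul]
  · simp

theorem hom_one {R : Type} [CommRing R] (d : ℕ) (x y : R) :
    eval ![x, y] (hom d 1) = y ^ d := by
  rw [eval_hom, Finset.sum_eq_single 0]
  · simp
  · intro b _ hb
    rw [Polynomial.coeff_one, if_neg hb, zero_mul]
  · simp

theorem base_mem (hd : 2 ≤ d) {σ : Type}
    {A : Matrix (Fin (1 + 1)) (Fin (1 + 1)) (MvPolynomial σ k)} (j : ℕ)
    (B : Matrix (Fin (1 + 1)) (Fin (1 + 1)) k) (hB : B ∈ grp A) :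
    ∃ F : EndTuple k 1 d, F ∈ TT A d j ∧
      F.1 = act B ![hom d (Polynomial.X ^ d), hom d 1] := by
  have h1 : spec (fun _ => (0 : k)) (famF k d j) = ![hom d (Polynomial.X ^ d), hom d 1] := by
    rw [spec_famF]
    have h0 : pol d (fun _ : Fin j => (0 : k)) 0 = Polynomial.X ^ d := by
      unfold pol top; simp
    have h1 : pol d (fun _ : Fin j => (0 : k)) 1 = 1 := by
      unfold pol top; simp
    funext s
    fin_cases s
    · change hom d (pol d (fun _ : Fin j => (0 : k)) 0) = _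
      rw [h0]; rfl
    · change hom d (pol d (fun _ : Fin j => (0 : k)) 1) = _
      rw [h1]; rfl
  have hBd : B.det ≠ 0 := by
    obtain ⟨x, hx, rfl⟩ := hB
    exact hx
  refine ⟨actE B hBd ⟨spec (fun _ => (0 : k)) (famF k d j), famF_isEnd hd _ res_famF_zero⟩, ?_, ?_⟩
  · rw [mem_TT]
    refine ⟨B, hB, fun _ => 0, res_famF_zero, ?_⟩
    rw [← spec_famF]
    rfl
  · rw [← h1]; rfl

variable [CharZero k]

theorem hy' (P : Polynomial k) (a : k) : eval ![0, a] (hom d P) = a ^ d * eval ![0, 1] (hom d P) := by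
  have h : (![0, a] : Fin (1 + 1) → k) = a • ![0, 1] := by
    funext i
    fin_cases i <;> simp
  rw [h, eval_smul_homog (hom_homog d P)]

theorem hxx (P : Polynomial k) (a : k) : eval ![a, a] (hom d P) = a ^ d * eval ![1, 1] (hom d P) := by
  have h : (![a, a] : Fin (1 + 1) → k) = a • ![1, 1] := by
    funext i
    fin_cases i <;> simp
  rw [h, eval_smul_homog (hom_homog d P)]

theorem TT01 (hd : 2 ≤ d) {j : ℕ} (hj : j ≤ 2 * d - 2) :
    icl _ (TT_irred hd (det_A0 (k := k)) j) < icl _ (TT_irred hd (det_A1 (k := k)) j) := by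
  apply icl_lt2 (isZar_coords k 1 d) _ _ (famSet_mono grp01 _ _)
  refine ⟨evp k 1 d ![1, 1] 0 - 1, ?_, ?_⟩
  · intro F hF
    rw [mem_TT] at hF
    obtain ⟨B, hB, y, hy, hF⟩ := hF
    rw [mem_grp0] at hB
    rw [hB, act_one] at hF
    rw [map_sub, eval_evp, hF]
    simp only
    rw [eval_hom_fin (pol_natDegree hd hj y 0), pol_eval_one]
    simp
  · obtain ⟨F, hF1, hF2⟩ := base_mem (A := A1 k) hd j !![2, 0; 0, 2]
      ((mem_grp1 _).mpr ⟨2, two_ne_zero, rfl⟩)
    refine ⟨F, hF1, ?_⟩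
    rw [map_sub, eval_evp, hF2, eval_act0]
    simp only [mul_one, mul_zero, add_zero, zero_mul, sub_zero, zero_add]
    change 2 * eval ![2, 2] (hom d (Polynomial.X ^ d)) - _ ≠ 0
    rw [hom_X_pow, map_one]
    have := two_pow_ne (k := k) (d + 1) (by omega)
    intro h
    apply this
    rw [pow_succ]
    linear_combination h

theorem TT12 (hd : 2 ≤ d) {j : ℕ} (hj : j ≤ 2 * d - 2) :
    icl _ (TT_irred hd (det_A1 (k := k)) j) < icl _ (TT_irred hd (det_A2 (k := k)) j) := by
  apply icl_lt2 (isZar_coords k 1 d) _ _ (famSet_mono grp12 _ _)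
  refine ⟨evp k 1 d ![1, 1] 0 - evp k 1 d ![1, 1] 1, ?_, ?_⟩
  · intro F hF
    rw [mem_TT] at hF
    obtain ⟨B, hB, y, hy, hF⟩ := hF
    rw [mem_grp1] at hB
    obtain ⟨a, ha, rfl⟩ := hB
    rw [map_sub, eval_evp, eval_evp, hF, eval_act0, eval_act1]
    simp only [mul_one, mul_zero, add_zero, zero_mul, sub_zero, zero_add]
    rw [hxx (pol d y 0) a, hxx (pol d y 1) a, eval_hom_fin (pol_natDegree hd hj y 0), eval_hom_fin (pol_natDegree hd hj y 1),
      pol_eval_one, pol_eval_one, sub_self]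
  · obtain ⟨F, hF1, hF2⟩ := base_mem (A := A2 k) hd j !![2, 0; 0, 1]
      ((mem_grp2 _).mpr ⟨2, 1, by simp, rfl⟩)
    refine ⟨F, hF1, ?_⟩
    rw [map_sub, eval_evp, eval_evp, hF2, eval_act0, eval_act1]
    simp only [mul_one, mul_zero, add_zero, zero_mul, sub_zero, zero_add, one_mul]
    change eval ![2, 1] (hom d (Polynomial.X ^ d)) - 2 * eval ![2, 1] (hom d 1) ≠ 0
    rw [hom_X_pow, hom_one]
    simp only [one_pow, mul_one]
    exact sub_ne_zero.mpr (two_pow_ne2 _ hd)

theorem TT23 (hd : 2 ≤ d) {j : ℕ} (hj : j ≤ 2 * d - 2) :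
    icl _ (TT_irred hd (det_A2 (k := k)) j) < icl _ (TT_irred hd (det_A3 (k := k)) j) := by
  apply icl_lt2 (isZar_coords k 1 d) _ _ (famSet_mono grp23 _ _)
  refine ⟨evp k 1 d ![0, 1] 0, ?_, ?_⟩
  · intro F hF
    rw [mem_TT] at hF
    obtain ⟨B, hB, y, hy, hF⟩ := hF
    rw [mem_grp2] at hB
    obtain ⟨a, e, ha, rfl⟩ := hB
    rw [eval_evp, hF, eval_act0]
    simp only [mul_one, mul_zero, add_zero, zero_mul, sub_zero, zero_add]
    rw [hy', eval_hom_fin (pol_natDegree hd hj y 0), pol_eval_zero hd, mul_zero, mul_zero]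
  · obtain ⟨F, hF1, hF2⟩ := base_mem (A := A3 k) hd j !![1, 2; 0, 1]
      ((mem_grp3 _).mpr ⟨1, 2, 1, by simp, rfl⟩)
    refine ⟨F, hF1, ?_⟩
    rw [eval_evp, hF2, eval_act0]
    simp only [mul_one, mul_zero, add_zero, zero_mul, sub_zero, zero_add, one_mul]
    change eval ![2, 1] (hom d (Polynomial.X ^ d)) - 2 * eval ![2, 1] (hom d 1) ≠ 0
    rw [hom_X_pow, hom_one]
    simp only [one_pow, mul_one]
    exact sub_ne_zero.mpr (two_pow_ne2 _ hd)

theorem TT34 (hd : 2 ≤ d) {j : ℕ} (hj : j ≤ 2 * d - 2) :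
    icl _ (TT_irred hd (det_A3 (k := k)) j) < icl _ (TT_irred hd (det_A4 (k := k)) j) := by
  apply icl_lt2 (isZar_coords k 1 d) _ _ (famSet_mono grp34 _ _)
  refine ⟨evp k 1 d ![1, 0] 1, ?_, ?_⟩
  · intro F hF
    rw [mem_TT] at hF
    obtain ⟨B, hB, y, hy, hF⟩ := hF
    rw [mem_grp3] at hB
    obtain ⟨a, b, e, ha, rfl⟩ := hB
    rw [eval_evp, hF, eval_act1]
    simp only [mul_one, mul_zero, add_zero, zero_mul, sub_zero, zero_add]
    rw [eval_hom_smul_inf, pol_coeff_d hd hj, mul_zero, mul_zero]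
  · obtain ⟨F, hF1, hF2⟩ := base_mem (A := A4 k) hd j !![1, 0; 2, 1]
      ((mem_grp4 _).mpr ⟨1, 0, 2, 1, by simp, rfl⟩)
    refine ⟨F, hF1, ?_⟩
    rw [eval_evp, hF2, eval_act1]
    simp only [mul_one, mul_zero, add_zero, zero_mul, sub_zero, zero_add, one_mul]
    change eval ![1, 2] (hom d 1) - 2 * eval ![1, 2] (hom d (Polynomial.X ^ d)) ≠ 0
    rw [hom_X_pow, hom_one]
    simp only [one_pow, mul_one]
    exact sub_ne_zero.mpr (two_pow_ne2 _ hd)

theorem height_TT0 (hd : 2 ≤ d) : ∀ j : ℕ, j ≤ 2 * d - 2 →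
    (j : ℕ∞) ≤ Order.height (icl _ (TT_irred hd (det_A0 (k := k)) j)) := by
  intro j
  induction j with
  | zero => intro _; simp
  | succ j ih =>
    intro hj
    have h1 := ih (by omega)
    have h2 := Order.height_add_one_le (TT0_lt (k := k) hd (j := j) (by omega))
    refine le_trans ?_ h2
    push_cast
    exact add_le_add_left h1 1

theorem height_TT4 (hd : 2 ≤ d) {j : ℕ} (hj : j ≤ 2 * d - 2) :
    ((j + 4 : ℕ) : ℕ∞) ≤ Order.height (icl _ (TT_irred hd (det_A4 (k := k)) j)) := by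
  have h0 := height_TT0 (k := k) hd j hj
  have t1 := Order.height_add_one_le (TT01 (k := k) hd hj)
  have t2 := Order.height_add_one_le (TT12 (k := k) hd hj)
  have t3 := Order.height_add_one_le (TT23 (k := k) hd hj)
  have t4 := Order.height_add_one_le (TT34 (k := k) hd hj)
  have e1 := (add_le_add_left h0 1).trans t1
  have e2 := (add_le_add_left e1 1).trans t2
  have e3 := (add_le_add_left e2 1).trans t3
  have e4 := (add_le_add_left e3 1).trans t4
  refine le_trans ?_ e4
  push_cast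
  rw [add_assoc, add_assoc, add_assoc]
  norm_num

theorem height_TT4_le (hd : 2 ≤ d) (j : ℕ) :
    Order.height (icl _ (TT_irred hd (det_A4 (k := k)) j)) ≤ ((j + 4 : ℕ) : ℕ∞) := by
  have := famSet_height (k := k) (d := d) (fun y hy => famF_isEnd hd y hy)
    (det_A4 (k := k)) (res_famF_ne (d := d) (j := j)) (icl _ (TT_irred hd (det_A4 (k := k)) j))
    (by rw [coe_icl])
  rw [Fintype.card_fin, Fintype.card_fin] at this
  refine this.trans ?_
  push_cast
  rw [add_comm]

theorem TT4_lt (hd : 2 ≤ d) {j : ℕ} (hj : j + 1 ≤ 2 * d - 2) :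
    icl _ (TT_irred hd (det_A4 (k := k)) j) < icl _ (TT_irred hd (det_A4 (k := k)) (j + 1)) := by
  refine lt_of_le_of_ne (closure_mono (TT_succ j)) ?_
  intro h
  have h1 := height_TT4 (k := k) hd hj
  rw [← h] at h1
  have h2 := h1.trans (height_TT4_le hd j)
  have : j + 1 + 4 ≤ j + 4 := by exact_mod_cast h2
  omega

/-- Stability of the sets under the group. -/
theorem TT4_stable (hd : 2 ≤ d) (j : ℕ) (A : Matrix (Fin (1 + 1)) (Fin (1 + 1)) k)
    (hA : A.det ≠ 0) (F : EndTuple k 1 d) (hF : F ∈ closure (TT (A4 k) d j)) :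
    actE A hA F ∈ closure (TT (A4 k) d j) := by
  refine map_mem_closure (continuous_actE A hA) hF ?_
  intro G hG
  rw [mem_TT] at hG ⊢
  obtain ⟨B, hB, y, hy, hG⟩ := hG
  have hinf : Infinite k := IsAlgClosed.instInfinite
  refine ⟨B * A, ?_, y, hy, ?_⟩
  · rw [mem_grp4] at hB ⊢
    refine ⟨(B * A) 0 0, (B * A) 0 1, (B * A) 1 0, (B * A) 1 1, ?_, ?_⟩
    · have h1 : B.det ≠ 0 := by
        obtain ⟨a, b, c, e, h, rfl⟩ := hB
        rw [Matrix.det_fin_two_of]; exact h
      have h2 : (B * A).det ≠ 0 := by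
        rw [Matrix.det_mul]; exact mul_ne_zero h1 hA
      rw [Matrix.det_fin_two] at h2
      exact h2
    · exact Matrix.eta_fin_two (B * A)
  · rw [← act_act, ← hG]
    rfl

/-- The images in the moduli space. -/
def ZZ (hd : 2 ≤ d) (j : ℕ) : TopologicalSpace.IrreducibleCloseds (Moduli k 1 d) where
  carrier := cls '' (closure (TT (A4 k) d j))
  isIrreducible' := (TT_irred hd det_A4 j).closure.image _ continuous_cls.continuousOn
  isClosed' := by
    rw [isClosed_iff_cls]
    have : (cls : EndTuple k 1 d → Moduli k 1 d) ⁻¹' (cls '' (closure (TT (A4 k) d j))) =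
        closure (TT (A4 k) d j) := by
      ext F
      constructor
      · rintro ⟨G, hG, hGF⟩
        obtain ⟨A, hA, rfl⟩ := (cls_eq_iff (by omega) G F).mp hGF
        exact TT4_stable hd j A hA G hG
      · intro hF
        exact ⟨F, hF, rfl⟩
    rw [this]
    exact isClosed_closure

theorem ZZ_lt (hd : 2 ≤ d) {j : ℕ} (hj : j + 1 ≤ 2 * d - 2) :
    (ZZ hd j : TopologicalSpace.IrreducibleCloseds (Moduli k 1 d)) < ZZ hd (j + 1) := by
  have hpre : ∀ i : ℕ, (cls : EndTuple k 1 d → Moduli k 1 d) ⁻¹'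
      (cls '' (closure (TT (A4 k) d i))) = closure (TT (A4 k) d i) := by
    intro i
    ext F
    constructor
    · rintro ⟨G, hG, hGF⟩
      obtain ⟨A, hA, rfl⟩ := (cls_eq_iff (by omega) G F).mp hGF
      exact TT4_stable hd i A hA G hG
    · intro hF
      exact ⟨F, hF, rfl⟩
  have hlt := TT4_lt (k := k) hd hj
  have hle : (ZZ hd j : TopologicalSpace.IrreducibleCloseds (Moduli k 1 d)) ≤ ZZ hd (j + 1) :=
    Set.image_mono hlt.le
  refine lt_of_le_of_ne hle ?_
  intro h
  apply hlt.ne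
  apply TopologicalSpace.IrreducibleCloseds.ext
  have h' : (cls : EndTuple k 1 d → Moduli k 1 d) '' (closure (TT (A4 k) d j)) =
      cls '' (closure (TT (A4 k) d (j + 1))) :=
    congrArg (fun T : TopologicalSpace.IrreducibleCloseds (Moduli k 1 d) =>
      (T : Set (Moduli k 1 d))) h
  rw [coe_icl, coe_icl, ← hpre j, ← hpre (j + 1), h']

theorem le_krullDim_moduli (hd : 2 ≤ d) :
    ((2 * d - 2 : ℕ) : WithBot ℕ∞) ≤ topologicalKrullDim (Moduli k 1 d) := by
  have key : ∀ j : ℕ, j ≤ 2 * d - 2 →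
      (j : ℕ∞) ≤ Order.height (ZZ hd j : TopologicalSpace.IrreducibleCloseds (Moduli k 1 d)) := by
    intro j
    induction j with
    | zero => intro _; simp
    | succ j ih =>
      intro hj
      have h1 := ih (by omega)
      have h2 := Order.height_add_one_le (ZZ_lt (k := k) hd hj)
      refine le_trans ?_ h2
      push_cast
      exact add_le_add_left h1 1
  have h1 := key _ le_rfl
  have h2 := Order.height_le_krullDim
    (ZZ hd (2 * d - 2) : TopologicalSpace.IrreducibleCloseds (Moduli k 1 d))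
  exact le_trans (WithBot.coe_le_coe.mpr h1) h2

/-- The dimension of `M_d^1` is `2 d - 2`. -/
theorem krullDim_moduli (hd : 2 ≤ d) :
    topologicalKrullDim (Moduli k 1 d) = ((2 * d - 2 : ℕ) : WithBot ℕ∞) :=
  le_antisymm (krullDim_moduli_le hd) (le_krullDim_moduli hd)

end

end Pool.Agent.Helper819.Dyn
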