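import Pool.Agent.Helper819.Elim

/-!
Irreducible sets of pairs lying over the closure of the base of `D` are in the closure of `D`.
-/

open MvPolynomial

namespace Pool.Agent.Helper819.Dyn

open Pool.Agent.Helper819.Zar

noncomputable section

set_option linter.unusedSectionVars false

variable {k : Type} [Field k] {N d n : ℕ}

theorem evB_scale (x y : PtTuple k N d n) (s : k) (h1 : y.1.1 = x.1.1) (h2 : y.1.2 = s • x.1.2)
    {m : ℕ} {b : BB k N} (hb : b.IsHomogeneous m) : evB y b = s ^ m * evB x b := by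
  have hfc : fc y = fc x := by
    unfold fc
    rw [h1]
  unfold evB
  rw [RingHom.comp_apply, RingHom.comp_apply, hfc, h2]
  exact eval_smul_homog (hb.map _) s _

/-- Homogeneous components. -/
theorem component_mem [Infinite k] (D : Set (PtTuple k N d n))
    (hscale : ∀ x ∈ D, ∀ s : k, s ≠ 0 → ∃ y ∈ D, y.1.1 = x.1.1 ∧ y.1.2 = s • x.1.2)
    (b : BB k N) (hb : b ∈ JJ D) (m : ℕ) : homogeneousComponent m b ∈ JJ D := by
  intro x hx
  -- the polynomial in `s`
  let q : Polynomial k := ∑ i ∈ Finset.range (b.totalDegree + 1),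
    Polynomial.C (evB x (homogeneousComponent i b)) * Polynomial.X ^ i
  have hq : ∀ s : k, s ≠ 0 → q.eval s = 0 := by
    intro s hs
    obtain ⟨y, hy, h1, h2⟩ := hscale x hx s hs
    have h3 := hb y hy
    rw [← sum_homogeneousComponent b, map_sum] at h3
    rw [← h3]
    simp only [q]
    rw [Polynomial.eval_finsetSum]
    refine Finset.sum_congr rfl fun i _ => ?_
    rw [evB_scale x y s h1 h2 (homogeneousComponent_isHomogeneous i b), Polynomial.eval_mul,
      Polynomial.eval_C, Polynomial.eval_pow, Polynomial.eval_X, mul_comm]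
  have hq0 : q = 0 := by
    have : (Polynomial.X * q) = 0 := by
      apply Polynomial.funext
      intro s
      rw [Polynomial.eval_mul, Polynomial.eval_X, Polynomial.eval_zero]
      by_cases hs : s = 0
      · rw [hs, zero_mul]
      · rw [hq s hs, mul_zero]
    exact (mul_eq_zero.mp this).resolve_left Polynomial.X_ne_zero
  by_cases hm : m < b.totalDegree + 1
  · have h4 : q.coeff m = evB x (homogeneousComponent m b) := by
      simp only [q]
      rw [Polynomial.finsetSum_coeff]
      simp only [Polynomial.coeff_C_mul, Polynomial.coeff_X_pow]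
      rw [Finset.sum_eq_single m]
      · simp
      · intro i _ hi
        rw [if_neg hi.symm, mul_zero]
      · intro h
        exact absurd (Finset.mem_range.mpr hm) h
    rw [← h4, hq0, Polynomial.coeff_zero]
  · rw [homogeneousComponent_eq_zero _ _ (by omega), map_zero]

theorem factor_identity {B : Type} [CommRing B] (r : ℕ) (g : B) (u : Fin (r + 1) → B) (j : ℕ)
    (h0lt : j < r + 1) :
    g ^ j * (u ⟨j, h0lt⟩ + g * ∑ i : Fin (r + 1), (if j < (i : ℕ) then
        u i * g ^ ((i : ℕ) - j - 1) else 0)) =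
      ∑ i : Fin (r + 1), u i * g ^ (i : ℕ) -
      ∑ i : Fin (r + 1), if (i : ℕ) < j then u i * g ^ (i : ℕ) else 0 := by
  rw [← Finset.sum_sub_distrib]
  have h1 : u ⟨j, h0lt⟩ = ∑ i : Fin (r + 1), if (i : ℕ) = j then u i else 0 := by
    rw [Finset.sum_eq_single ⟨j, h0lt⟩]
    · simp
    · intro b _ hb
      rw [if_neg]
      intro h
      exact hb (Fin.ext h)
    · simp
  rw [h1, Finset.mul_sum, ← Finset.sum_add_distrib, Finset.mul_sum]
  refine Finset.sum_congr rfl fun i _ => ?_
  rcases lt_trichotomy (i : ℕ) j with h | h | h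
  · rw [if_neg (by omega), if_neg (by omega), if_pos h]
    ring
  · rw [if_pos h, if_neg (by omega), if_neg (by omega), h]
    ring
  · rw [if_neg (by omega), if_pos h, if_neg (by omega)]
    have h7 : g ^ (i : ℕ) = g ^ j * (g * g ^ ((i : ℕ) - j - 1)) := by
      rw [← pow_succ', ← pow_add]
      congr 1
      omega
    rw [h7]
    ring

/-- Key theorem. -/
theorem homog_mem [Infinite k] (D D' : Set (PtTuple k N d n)) (hD : IsIrreducible D)
    (hD' : IsIrreducible D') (hsub : D ⊆ D')
    (hI : ∀ a : MvPolynomial (Fin (N + 1) × (Fin (N + 1) →₀ ℕ)) k,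
      (∀ x ∈ D, eval (fc x) a = 0) → ∀ x ∈ D', eval (fc x) a = 0)
    (hdn : 2 ≤ d ^ n) (e : Fin (N + 1)) (x0 : PtTuple k N d n) (hx0 : x0 ∈ D)
    (he : x0.1.2 e ≠ 0) (hδ : eval (fc x0) (delta k N d n) ≠ 0) {m : ℕ} {g : BB k N}
    (hg : g.IsHomogeneous m) (hgD : g ∈ JJ D) : g ∈ JJ D' := by
  by_contra hgD'
  have hp : (JJ D).IsPrime := JJ_isPrime hD
  have hp' : (JJ D').IsPrime := JJ_isPrime hD'
  have hle : JJ D' ≤ JJ D := fun b hb x hx => hb x (hsub hx)
  let I : Ideal (MvPolynomial (Fin (N + 1) × (Fin (N + 1) →₀ ℕ)) k) := (JJ D).comap C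
  have hI' : ∀ a, a ∈ I ↔ ∀ x ∈ D, eval (fc x) a = 0 := by
    intro a
    rw [Ideal.mem_comap, mem_JJ]
    refine forall₂_congr fun x _ => ?_
    rw [evB_C]
  have hItop : I ≠ ⊤ := (Ideal.comap_isPrime C (JJ D)).ne_top
  have hCI : ∀ a ∈ I, (C a : BB k N) ∈ JJ D' := by
    intro a ha x hx
    rw [evB_C]
    exact hI a ((hI' a).mp ha) x hx
  have hXe : (X e : BB k N) ∉ JJ D := by
    intro h
    apply he
    have := h x0 hx0
    rwa [evB_X] at this
  have hde : (C (delta k N d n) : BB k N) ∉ JJ D := by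
    intro h
    apply hδ
    have := h x0 hx0
    rwa [evB_C] at this
  -- choose r
  let r : ℕ := ∑ j ∈ Finset.range (MM N d n), Fintype.card (Ex N j)
  obtain ⟨s, m', hm', hred⟩ := reduce (k := k) (N := N) (d := d) (n := n) hdn e (m * r)
  have hr : Fintype.card (Ex N m') < r + 1 := by
    have : Fintype.card (Ex N m') ≤ r :=
      Finset.single_le_sum (f := fun j => Fintype.card (Ex N j)) (fun _ _ => Nat.zero_le _)
        (Finset.mem_range.mpr hm')
    omega
  have hbi : ∀ i : Fin (r + 1), (g ^ (i : ℕ) * X e ^ (m * (r - i)) : BB k N).IsHomogeneous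
      (m * r) := by
    intro i
    have h1 : m * r = m * i + 1 * (m * (r - i)) := by
      rw [one_mul, ← mul_add]
      congr 1
      have := i.2
      omega
    rw [h1]
    exact (hg.pow _).mul ((isHomogeneous_X _ _).pow _)
  choose b' hb'1 hb'2 using fun i => hred _ (hbi i)
  obtain ⟨a, ⟨i1, hi1⟩, ha⟩ := exists_dep I hItop r hr (fun i (γ : Ex N m') => coeff γ.1 (b' i))
  -- the combination of the `b'` vanishes on D'
  have hcomb' : ∀ x ∈ D', ∑ i, eval (fc x) (a i) * evB x (b' i) = 0 := by
    intro x hx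
    have h1 : ∀ i, evB x (b' i) = ∑ γ : Ex N m', eval (fc x) (coeff γ.1 (b' i)) *
        evB x (monomial γ.1 1) := by
      intro i
      have h2 : b' i = ∑ γ : Ex N m', C (coeff γ.1 (b' i)) * monomial γ.1 1 := by
        ext1 μ
        rw [coeff_sum]
        simp only [coeff_C_mul, coeff_monomial]
        by_cases hμ : μ.degree = m'
        · rw [Finset.sum_eq_single ⟨μ, (mem_Ex μ).mpr hμ⟩]
          · simp
          · intro b _ hb
            rw [if_neg, mul_zero]
            intro h
            exact hb (Subtype.ext h)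
          · simp
        · rw [(hb'1 i).coeff_eq_zero hμ]
          symm
          apply Finset.sum_eq_zero
          intro β _
          rw [if_neg, mul_zero]
          intro h
          apply hμ
          rw [← h]
          exact (mem_Ex β.1).mp β.2
      conv_lhs => rw [h2]
      rw [map_sum]
      refine Finset.sum_congr rfl fun γ _ => ?_
      rw [map_mul, evB_C]
    simp_rw [h1, Finset.mul_sum]
    rw [Finset.sum_comm]
    apply Finset.sum_eq_zero
    intro γ _
    have h3 := hI _ ((hI' _).mp (ha γ)) x hx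
    rw [map_sum] at h3
    simp only [map_mul] at h3
    calc ∑ i, eval (fc x) (a i) * (eval (fc x) (coeff γ.1 (b' i)) * evB x (monomial γ.1 1))
        = (∑ i, eval (fc x) (a i) * eval (fc x) (coeff γ.1 (b' i))) * evB x (monomial γ.1 1) := by
          rw [Finset.sum_mul]
          exact Finset.sum_congr rfl fun i _ => by ring
      _ = 0 := by rw [h3, zero_mul]
  -- so the combination of the `b` vanishes on `D'`
  have hcomb : ∑ i, C (a i) * (g ^ (i : ℕ) * X e ^ (m * (r - i))) ∈ JJ D' := by
    have h1 : (C (delta k N d n) * X e) ^ s *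
        ∑ i, C (a i) * (g ^ (i : ℕ) * X e ^ (m * (r - i))) ∈ JJ D' := by
      intro x hx
      rw [map_mul, map_sum, Finset.mul_sum]
      have h2 : ∀ i : Fin (r + 1), evB x ((C (delta k N d n) * X e) ^ s) *
          evB x (C (a i) * (g ^ (i : ℕ) * X e ^ (m * (r - i)))) =
          (evB x (GG k N d n e)) ^ s * (eval (fc x) (a i) * evB x (b' i)) := by
        intro i
        have h3 := hb'2 i x
        rw [map_mul (evB x) (C (a i)), evB_C, map_pow, map_mul]
        linear_combination (eval (fc x) (a i)) * h3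
      simp_rw [h2]
      rw [← Finset.mul_sum, hcomb' x hx, mul_zero]
    refine (hp'.mem_or_mem h1).resolve_left ?_
    intro h2
    have h3 := hp'.mem_of_pow_mem _ h2
    rcases hp'.mem_or_mem h3 with h4 | h4
    · exact hde (hle h4)
    · exact hXe (hle h4)
  -- minimal index
  have hex : ∃ j : ℕ, ∃ h : j < r + 1, a ⟨j, h⟩ ∉ I := ⟨i1, i1.2, hi1⟩
  classical
  obtain ⟨h0lt, h0⟩ := Nat.find_spec hex
  have hmin : ∀ i : Fin (r + 1), (i : ℕ) < Nat.find hex → a i ∈ I := by
    intro i hi
    have := Nat.find_min hex hi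
    push Not at this
    exact this i.2
  obtain ⟨j, hj⟩ : ∃ j, j = Nat.find hex := ⟨_, rfl⟩
  rw [← hj] at h0lt hmin
  have h0' : a ⟨j, h0lt⟩ ∉ I := by
    convert h0
  -- factor out `g ^ j`
  have h5 : g ^ j * (C (a ⟨j, h0lt⟩) * X e ^ (m * (r - j)) + g *
      ∑ i : Fin (r + 1), if j < (i : ℕ) then
        C (a i) * (g ^ ((i : ℕ) - j - 1) * X e ^ (m * (r - i))) else 0) ∈ JJ D' := by
    have h6 : g ^ j * (C (a ⟨j, h0lt⟩) * X e ^ (m * (r - j)) + g *
      ∑ i : Fin (r + 1), (if j < (i : ℕ) then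
        C (a i) * (g ^ ((i : ℕ) - j - 1) * X e ^ (m * (r - i))) else 0)) =
        ∑ i : Fin (r + 1), C (a i) * (g ^ (i : ℕ) * X e ^ (m * (r - i))) -
        ∑ i : Fin (r + 1), if (i : ℕ) < j then
          C (a i) * (g ^ (i : ℕ) * X e ^ (m * (r - i))) else 0 := by
      have h7 := factor_identity r g (fun i : Fin (r + 1) => C (a i) * X e ^ (m * (r - i))) j h0lt
      simp only at h7
      convert h7 using 3
      · refine congrArg (g * ·) (Finset.sum_congr rfl fun i _ => ?_)
        split_ifs
        · ring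
        · rfl
      · ring
      · ring
    rw [h6]
    refine (JJ D').sub_mem hcomb ?_
    refine (JJ D').sum_mem fun i _ => ?_
    split_ifs with hi
    · exact (JJ D').mul_mem_right _ (hCI _ (hmin i hi))
    · exact (JJ D').zero_mem
  have h8 := (hp'.mem_or_mem h5).resolve_left (fun h => hgD' (hp'.mem_of_pow_mem _ h))
  have h9 := (JJ D).sub_mem (hle h8) ((JJ D).mul_mem_right (∑ i : Fin (r + 1),
    if j < (i : ℕ) then C (a i) * (g ^ ((i : ℕ) - j - 1) * X e ^ (m * (r - i))) else 0) hgD)
  rw [add_sub_cancel_right] at h9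
  rcases hp.mem_or_mem h9 with h10 | h10
  · exact h0' h10
  · exact hXe (hp.mem_of_pow_mem _ h10)

/-- `D'` is contained in the closure of `D`. -/
theorem subset_closure_of [Infinite k] (D D' : Set (PtTuple k N d n)) (hD : IsIrreducible D)
    (hD' : IsIrreducible D') (hsub : D ⊆ D')
    (hscale : ∀ x ∈ D, ∀ s : k, s ≠ 0 → ∃ y ∈ D, y.1.1 = x.1.1 ∧ y.1.2 = s • x.1.2)
    (hI : ∀ a : MvPolynomial (Fin (N + 1) × (Fin (N + 1) →₀ ℕ)) k,
      (∀ x ∈ D, eval (fc x) a = 0) → ∀ x ∈ D', eval (fc x) a = 0)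
    (hdn : 2 ≤ d ^ n) (e : Fin (N + 1)) (x0 : PtTuple k N d n) (hx0 : x0 ∈ D)
    (he : x0.1.2 e ≠ 0) (hδ : eval (fc x0) (delta k N d n) ≠ 0) : D' ⊆ closure D := by
  intro y hy
  rw [(isZar_ptCoords k N d n).mem_closure_iff]
  intro p hp
  rw [eval_ptCoords]
  have h1 : sumAlgEquiv k _ _ p ∈ JJ D := by
    intro x hx
    rw [← eval_ptCoords]
    exact hp x hx
  rw [← sum_homogeneousComponent (sumAlgEquiv k _ _ p), map_sum]
  apply Finset.sum_eq_zero
  intro m _
  exact homog_mem D D' hD hD' hsub hI hdn e x0 hx0 he hδ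
    (homogeneousComponent_isHomogeneous m _) (component_mem D hscale _ h1 m) y hy

end

end Pool.Agent.Helper819.Dyn
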