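import Pool.Agent.Helper819.KDim

/-!
Differentials of generators of the maximal ideal.
-/

open MvPolynomial Topology

namespace Pool.Agent.Helper819.Dyn

open Pool.Agent.Helper819.Apolar Pool.Agent.Helper819.Zar

noncomputable section

set_option linter.unusedSectionVars false

variable {k : Type} [Field k] {N d : ℕ}

theorem IsSemi.prod {ι : Type} (s : Finset ι) (w : ι → ℕ) (Q : ι → SS k N d)
    (h : ∀ i ∈ s, IsSemi (w i) (Q i)) : IsSemi (∑ i ∈ s, w i) (∏ i ∈ s, Q i) := by
  classical
  induction s using Finset.induction_on with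
  | empty => simpa using IsSemi.one
  | insert a s ha ih =>
    rw [Finset.sum_insert ha, Finset.prod_insert ha]
    exact (h a (Finset.mem_insert_self a s)).mul
      (ih fun i hi => h i (Finset.mem_insert_of_mem hi))

/-- common denominators -/
theorem common_rep (f : Ix N d → k) {D : ℕ} (x : Fin D → Of f) :
    ∃ (w : ℕ) (P : Fin D → SS k N d) (Q : SS k N d), IsSemi w Q ∧ eval f Q ≠ 0 ∧
      ∀ i, Rep f w (P i) Q (x i) := by
  classical
  choose w P Q h using fun i => (x i).2
  refine ⟨∑ i, w i, fun i => P i * ∏ j ∈ Finset.univ.erase i, Q j, ∏ i, Q i,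
    IsSemi.prod _ _ _ (fun i _ => (h i).2.1), ?_, fun i => ⟨?_, IsSemi.prod _ _ _
      (fun i _ => (h i).2.1), ?_, ?_⟩⟩
  · rw [map_prod, Finset.prod_ne_zero_iff]
    exact fun i _ => (h i).2.2.1
  · rw [← Finset.add_sum_erase _ _ (Finset.mem_univ i)]
    exact (h i).1.mul (IsSemi.prod _ _ _ (fun j _ => (h j).2.1))
  · rw [map_prod, Finset.prod_ne_zero_iff]
    exact fun i _ => (h i).2.2.1
  · rw [← Finset.mul_prod_erase Finset.univ Q (Finset.mem_univ i)]
    have h1 := (h i).2.2.2
    simp only [am, map_mul] at h1 ⊢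
    rw [← h1]
    ring

/-- common denominators in the local ring of affine space -/
theorem common_rep_L (f : Ix N d → k) {D : ℕ} (x : Fin D → Lc f) :
    ∃ (A : Fin D → SS k N d) (B : SS k N d), eval f B ≠ 0 ∧
      ∀ i, (x i : FractionRing (SS k N d)) * am B = am (A i) := by
  classical
  choose P Q h1 h2 using fun i => (mem_Lc f (x i)).mp (x i).2
  refine ⟨fun i => P i * ∏ j ∈ Finset.univ.erase i, Q j, ∏ i, Q i, ?_, fun i => ?_⟩
  · rw [map_prod, Finset.prod_ne_zero_iff]
    exact fun i _ => h1 i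
  · rw [← Finset.mul_prod_erase Finset.univ Q (Finset.mem_univ i)]
    have h3 := h2 i
    simp only [am, map_mul] at h3 ⊢
    rw [← h3]
    ring

/-- the numerator of the gradient of `P / Q` -/
def Wr (P Q : SS k N d) : Ix N d → SS k N d := fun p => Q * pderiv p P - P * pderiv p Q

/-- image in the local ring -/
def WrL (f : Ix N d → k) (P Q : SS k N d) : Ix N d → Lc f :=
  fun p => algebraMap (SS k N d) (Lc f) (Wr P Q p)

theorem Wr_identity {D : ℕ} (P1 Q' B Q : SS k N d) (A P : Fin D → SS k N d)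
    (h : P1 * (B * Q) = Q' * ∑ i, A i * P i) (p : Ix N d) :
    (B * Q) ^ 2 * Wr P1 Q' p = Q' ^ 2 * ∑ i, (A i * B * Wr (P i) Q p + P i * Q * Wr (A i) B p) := by
  have e1 := congrArg (pderiv p) h
  simp only [Derivation.leibniz, smul_eq_mul, map_sum] at e1
  have e2 : ∑ i, (A i * B * Wr (P i) Q p + P i * Q * Wr (A i) B p) =
      (B * Q) * (∑ i, (A i * pderiv p (P i) + P i * pderiv p (A i))) -
        (∑ i, A i * P i) * (B * pderiv p Q + Q * pderiv p B) := by
    rw [Finset.mul_sum, Finset.sum_mul, ← Finset.sum_sub_distrib]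
    refine Finset.sum_congr rfl fun i _ => ?_
    unfold Wr
    ring
  rw [e2]
  unfold Wr
  linear_combination (B * Q * Q') * e1 - (B * Q * pderiv p Q' +
    Q' * (B * pderiv p Q + Q * pderiv p B)) * h

theorem isUnit_alg (f : Ix N d → k) {Q : SS k N d} (h : eval f Q ≠ 0) :
    IsUnit (algebraMap (SS k N d) (Lc f) Q) :=
  IsLocalization.map_units (Lc f) (⟨Q, fun h' => h ((mem_mf f Q).mp h')⟩ : (mf f).primeCompl)

instance noeth_Lc (f : Ix N d → k) : IsNoetherianRing (Lc f) :=
  IsLocalization.isNoetherianRing (mf f).primeCompl (Lc f) inferInstance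

instance local_Lc (f : Ix N d → k) : IsLocalRing (Lc f) :=
  IsLocalization.AtPrime.isLocalRing (Lc f) (mf f)

theorem mem_max_L (f : Ix N d → k) {P : SS k N d} (h : eval f P = 0) :
    algebraMap (SS k N d) (Lc f) P ∈ IsLocalRing.maximalIdeal (Lc f) := by
  rw [IsLocalization.AtPrime.to_map_mem_maximal_iff (Lc f) (mf f), mem_mf]
  exact h

theorem nak_aux (f : Ix N d → k) {D : ℕ} (x : Fin D → Of f)
    (hx : Ideal.span (Set.range x) = IsLocalRing.maximalIdeal (Of f)) {w : ℕ}
    {P : Fin D → SS k N d} {Q : SS k N d} (hrep : ∀ i, Rep f w (P i) Q (x i))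
    {w' : ℕ} {P' Q' : SS k N d} (hP' : IsSemi w' P') (hQ' : IsSemi w' Q') (hQ'f : eval f Q' ≠ 0) :
    ∃ (w'' : ℕ) (A : Fin D → SS k N d) (B : SS k N d), IsSemi w'' B ∧ eval f B ≠ 0 ∧
      (∀ i, IsSemi w'' (A i)) ∧
      ∀ p, (B * Q) ^ 2 * Wr P' Q' p =
        Q' ^ 2 * ∑ i, (A i * B * Wr (P i) Q p + P i * Q * Wr (A i) B p) := by
  -- the element
  have hne : am Q' ≠ 0 := am_ne_zero (ne_zero_of_eval hQ'f)
  have hg : Rep f w' P' Q' (am P' / am Q') := ⟨hP', hQ', hQ'f, div_mul_cancel₀ _ hne⟩
  let g : Of f := ⟨am P' / am Q', _, _, _, hg⟩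
  let γ : k := evO f g
  have hmem : g - algebraMap k (Of f) γ ∈ Ideal.span (Set.range x) := by
    rw [hx, mem_max_iff, map_sub, evO_alg, sub_self]
  obtain ⟨a, ha⟩ := Ideal.mem_span_range_iff_exists_fun.mp hmem
  obtain ⟨w'', A, B, hB, hBf, hA⟩ := common_rep f a
  refine ⟨w'', A, B, hB, hBf, fun i => (hA i).1, ?_⟩
  -- the polynomial identity
  have hid : (P' - C γ * Q') * (B * Q) = Q' * ∑ i, A i * P i := by
    apply am_inj.mp
    have h1 : (g : FractionRing (SS k N d)) - am (C γ) = ∑ i, (a i : FractionRing (SS k N d)) * x i := by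
      have h2 := congrArg (Subtype.val : Of f → FractionRing (SS k N d)) ha
      rw [← algO f γ]
      change _ = ((g - algebraMap k (Of f) γ : Of f) : FractionRing (SS k N d)) at h2
      change ((g - algebraMap k (Of f) γ : Of f) : FractionRing (SS k N d)) = _
      rw [← h2]
      push_cast
      rfl
    have h2 : am P' = (g : FractionRing (SS k N d)) * am Q' := hg.2.2.2.symm
    have h3 : am ((P' - C γ * Q') * (B * Q)) =
        ((g : FractionRing (SS k N d)) - am (C γ)) * am Q' * (am B * am Q) := by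
      simp only [am, map_mul, map_sub] at h2 ⊢
      rw [h2]
      ring
    have h4 : am (Q' * ∑ i, A i * P i) = am Q' * ∑ i, am (A i) * am (P i) := by
      simp only [am, map_mul, map_sum]
    rw [h3, h4, h1, Finset.mul_sum, Finset.sum_mul, Finset.sum_mul]
    refine Finset.sum_congr rfl fun i _ => ?_
    rw [← (hA i).2.2.2, ← (hrep i).2.2.2]
    ring
  intro p
  have h1 := Wr_identity _ _ _ _ _ _ hid p
  have h2 : Wr (P' - C γ * Q') Q' p = Wr P' Q' p := by
    unfold Wr
    simp only [map_sub, Derivation.leibniz, smul_eq_mul, pderiv_C]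
    ring
  rw [h2] at h1
  exact h1

/-- The gradients of all invariant fractions are combinations of the gradients of generators of the
maximal ideal. -/
theorem nak (f : Ix N d → k) {D : ℕ} (x : Fin D → Of f)
    (hx : Ideal.span (Set.range x) = IsLocalRing.maximalIdeal (Of f)) {w : ℕ}
    {P : Fin D → SS k N d} {Q : SS k N d} (hrep : ∀ i, Rep f w (P i) Q (x i))
    {w' : ℕ} {P' Q' : SS k N d} (hP' : IsSemi w' P') (hQ' : IsSemi w' Q') (hQ'f : eval f Q' ≠ 0) :
    ∃ (A : Fin D → SS k N d) (B : SS k N d), eval f B ≠ 0 ∧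
      ∀ p, B * Wr P' Q' p = ∑ i, A i * Wr (P i) Q p := by
  by_cases hD : D = 0
  · -- no generators: the maximal ideal is zero
    subst hD
    obtain ⟨w'', A, B, hB, hBf, hA, h⟩ := nak_aux f x hx hrep hP' hQ' hQ'f
    by_cases hQ : ∃ i : Fin 0, True
    · obtain ⟨i, _⟩ := hQ
      exact i.elim0
    · have hne : am Q' ≠ 0 := am_ne_zero (ne_zero_of_eval hQ'f)
      have hg : Rep f w' P' Q' (am P' / am Q') := ⟨hP', hQ', hQ'f, div_mul_cancel₀ _ hne⟩
      let g : Of f := ⟨am P' / am Q', _, _, _, hg⟩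
      have hmem : g - algebraMap k (Of f) (evO f g) ∈ Ideal.span (Set.range x) := by
        rw [hx, mem_max_iff, map_sub, evO_alg, sub_self]
      obtain ⟨a, ha⟩ := Ideal.mem_span_range_iff_exists_fun.mp hmem
      rw [Finset.univ_eq_empty, Finset.sum_empty] at ha
      have h1 : P' = C (evO f g) * Q' := by
        apply am_inj.mp
        have h2 : (g : FractionRing (SS k N d)) = am (C (evO f g)) := by
          have h3 := congrArg (Subtype.val : Of f → FractionRing (SS k N d)) (sub_eq_zero.mp ha.symm)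
          exact h3
        have h3 : am P' = (g : FractionRing (SS k N d)) * am Q' := hg.2.2.2.symm
        rw [h3, h2]
        simp only [am, map_mul]
      refine ⟨fun _ => 0, 1, by rw [map_one]; exact one_ne_zero, fun p => ?_⟩
      rw [Finset.univ_eq_empty, Finset.sum_empty, one_mul]
      rw [h1]
      unfold Wr
      simp only [Derivation.leibniz, smul_eq_mul, pderiv_C]
      ring
  · have i0 : Fin D := ⟨0, Nat.pos_of_ne_zero hD⟩
    have hQf : eval f Q ≠ 0 := (hrep i0).2.2.1
    let M : Submodule (Lc f) (Ix N d → Lc f) := Submodule.span (Lc f)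
      {v | ∃ (w' : ℕ) (P' Q' : SS k N d), IsSemi w' P' ∧ IsSemi w' Q' ∧ eval f Q' ≠ 0 ∧
        v = WrL f P' Q'}
    let M' : Submodule (Lc f) (Ix N d → Lc f) := Submodule.span (Lc f)
      (Set.range fun i => WrL f (P i) Q)
    have hPf : ∀ i, eval f (P i) = 0 := by
      intro i
      rw [← evO_eq_zero_iff f (x i) (hrep i), ← mem_max_iff, ← hx]
      exact Ideal.subset_span ⟨i, rfl⟩
    have hMM : M ≤ M' ⊔ IsLocalRing.maximalIdeal (Lc f) • M := by
      rw [Submodule.span_le]
      rintro v ⟨w', P', Q', hP', hQ', hQ'f, rfl⟩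
      obtain ⟨w'', A, B, hB, hBf, hA, h⟩ := nak_aux f x hx hrep hP' hQ' hQ'f
      obtain ⟨u, hu⟩ := isUnit_alg f (Q := (B * Q) ^ 2) (by
        rw [map_pow, map_mul]
        exact pow_ne_zero _ (mul_ne_zero hBf hQf))
      have h1 : (u : Lc f) • WrL f P' Q' = (algebraMap (SS k N d) (Lc f) (Q' ^ 2)) •
          (∑ i, ((algebraMap (SS k N d) (Lc f) (A i * B)) • WrL f (P i) Q +
            (algebraMap (SS k N d) (Lc f) Q) • (algebraMap (SS k N d) (Lc f) (P i)) •
              WrL f (A i) B)) := by
        funext p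
        have h2 := congrArg (algebraMap (SS k N d) (Lc f)) (h p)
        rw [hu]
        simp only [Pi.smul_apply, smul_eq_mul, Finset.sum_apply, Pi.add_apply, WrL]
        simp only [map_mul, map_sum, map_add, map_pow] at h2 ⊢
        rw [h2]
        congr 1
        refine Finset.sum_congr rfl fun i _ => ?_
        ring
      have h2 : WrL f P' Q' = (↑u⁻¹ : Lc f) • ((u : Lc f) • WrL f P' Q') := by
        rw [smul_smul, Units.inv_mul, one_smul]
      rw [SetLike.mem_coe, h2, h1]
      apply Submodule.smul_mem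
      apply Submodule.smul_mem
      apply Submodule.sum_mem
      intro i _
      apply Submodule.add_mem
      · apply Submodule.mem_sup_left
        apply Submodule.smul_mem
        exact Submodule.subset_span ⟨i, rfl⟩
      · apply Submodule.mem_sup_right
        apply Submodule.smul_mem
        apply Submodule.smul_mem_smul (mem_max_L f (hPf i))
        exact Submodule.subset_span ⟨w'', A i, B, hA i, hB, hBf, rfl⟩
    have hM : M ≤ M' := by
      apply Submodule.le_of_le_smul_of_le_jacobson_bot (IsNoetherian.noetherian M) _ hMM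
      exact IsLocalRing.maximalIdeal_le_jacobson _
    have h1 : WrL f P' Q' ∈ M' := hM (Submodule.subset_span ⟨w', P', Q', hP', hQ', hQ'f, rfl⟩)
    obtain ⟨c, hc⟩ := (Submodule.mem_span_range_iff_exists_fun _).mp h1
    obtain ⟨A, B, hBf, hAB⟩ := common_rep_L f c
    refine ⟨A, B, hBf, fun p => ?_⟩
    apply am_inj.mp
    have h2 := congrArg (Subtype.val : Lc f → FractionRing (SS k N d)) (congrFun hc p)
    rw [Finset.sum_apply] at h2
    have h3 : ((∑ i, (c i • WrL f (P i) Q) p : Lc f) : FractionRing (SS k N d)) =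
        ∑ i, (c i : FractionRing (SS k N d)) * am (Wr (P i) Q p) := by
      push_cast
      rfl
    rw [h3] at h2
    have h4 : ((WrL f P' Q' p : Lc f) : FractionRing (SS k N d)) = am (Wr P' Q' p) := rfl
    rw [h4] at h2
    have h5 : am (B * Wr P' Q' p) = am B * am (Wr P' Q' p) := by simp only [am, map_mul]
    have h6 : am (∑ i, A i * Wr (P i) Q p) = ∑ i, am (A i) * am (Wr (P i) Q p) := by
      simp only [am, map_mul, map_sum]
    rw [h5, h6, ← h2, Finset.mul_sum]
    refine Finset.sum_congr rfl fun i _ => ?_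
    rw [← hAB i]
    ring

end

end Pool.Agent.Helper819.Dyn
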