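import Pool.Agent.Helper819.SingBase

/-!
The local ring in terms of semi-invariants.
-/

open MvPolynomial Topology

namespace Pool.Agent.Helper819.Dyn

open Pool.Agent.Helper819.Apolar Pool.Agent.Helper819.Zar

noncomputable section

set_option linter.unusedSectionVars false

variable {k : Type} [Field k] {N d : ℕ}

/-- the embedding of polynomials into rational functions -/
abbrev am (P : SS k N d) : FractionRing (SS k N d) := algebraMap (SS k N d) (FractionRing (SS k N d)) P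

theorem am_inj {P Q : SS k N d} : am P = am Q ↔ P = Q :=
  (FaithfulSMul.algebraMap_injective (SS k N d) (FractionRing (SS k N d))).eq_iff

theorem am_ne_zero {P : SS k N d} (h : P ≠ 0) : am P ≠ 0 := by
  have h1 : am (0 : SS k N d) = 0 := map_zero _
  rw [← h1]
  exact fun h' => h (am_inj.mp h')

theorem ne_zero_of_eval {f : Ix N d → k} {P : SS k N d} (h : eval f P ≠ 0) : P ≠ 0 := by
  rintro rfl
  exact h (map_zero _)

/-- `x = P / Q` with `P`, `Q` semi-invariants of weight `w` and `Q(f) ≠ 0`. -/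
def Rep (f : Ix N d → k) (w : ℕ) (P Q : SS k N d) (x : FractionRing (SS k N d)) : Prop :=
  IsSemi w P ∧ IsSemi w Q ∧ eval f Q ≠ 0 ∧ x * am Q = am P

theorem Rep.add {f : Ix N d → k} {w w' : ℕ} {P Q P' Q' : SS k N d}
    {x x' : FractionRing (SS k N d)} (h : Rep f w P Q x) (h' : Rep f w' P' Q' x') :
    Rep f (w + w') (P * Q' + Q * P') (Q * Q') (x + x') := by
  refine ⟨(h.1.mul h'.2.1).add (h.2.1.mul h'.1), h.2.1.mul h'.2.1, ?_, ?_⟩
  · rw [map_mul]; exact mul_ne_zero h.2.2.1 h'.2.2.1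
  · have h1 := h.2.2.2
    have h2 := h'.2.2.2
    simp only [am, map_add, map_mul] at h1 h2 ⊢
    linear_combination (algebraMap _ _ Q') * h1 + (algebraMap _ _ Q) * h2

theorem Rep.mul {f : Ix N d → k} {w w' : ℕ} {P Q P' Q' : SS k N d}
    {x x' : FractionRing (SS k N d)} (h : Rep f w P Q x) (h' : Rep f w' P' Q' x') :
    Rep f (w + w') (P * P') (Q * Q') (x * x') := by
  refine ⟨h.1.mul h'.1, h.2.1.mul h'.2.1, ?_, ?_⟩
  · rw [map_mul]; exact mul_ne_zero h.2.2.1 h'.2.2.1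
  · have h1 := h.2.2.2
    have h2 := h'.2.2.2
    simp only [am, map_mul] at h1 h2 ⊢
    rw [← h1, ← h2]
    ring

theorem Rep.neg {f : Ix N d → k} {w : ℕ} {P Q : SS k N d}
    {x : FractionRing (SS k N d)} (h : Rep f w P Q x) : Rep f w (-P) Q (-x) := by
  refine ⟨h.1.neg, h.2.1, h.2.2.1, ?_⟩
  have h1 := h.2.2.2
  simp only [am, map_neg] at h1 ⊢
  rw [← h1]
  ring

theorem Rep.zero (f : Ix N d → k) : Rep f 0 0 1 (0 : FractionRing (SS k N d)) := by
  refine ⟨IsSemi.zero, IsSemi.one, ?_, ?_⟩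
  · rw [map_one]; exact one_ne_zero
  · simp [am]

theorem Rep.one (f : Ix N d → k) : Rep f 0 1 1 (1 : FractionRing (SS k N d)) := by
  refine ⟨IsSemi.one, IsSemi.one, ?_, ?_⟩
  · rw [map_one]; exact one_ne_zero
  · simp [am]

/-- The ring of fractions of semi-invariants which are defined at `f`. -/
def Of (f : Ix N d → k) : Subring (FractionRing (SS k N d)) where
  carrier := {x | ∃ w P Q, Rep f w P Q x}
  zero_mem' := ⟨_, _, _, Rep.zero f⟩
  one_mem' := ⟨_, _, _, Rep.one f⟩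
  add_mem' := by
    rintro _ _ ⟨w, P, Q, h⟩ ⟨w', P', Q', h'⟩
    exact ⟨_, _, _, h.add h'⟩
  mul_mem' := by
    rintro _ _ ⟨w, P, Q, h⟩ ⟨w', P', Q', h'⟩
    exact ⟨_, _, _, h.mul h'⟩
  neg_mem' := by
    rintro _ ⟨w, P, Q, h⟩
    exact ⟨_, _, _, h.neg⟩

theorem Rep.cross {f : Ix N d → k} {w w' : ℕ} {P Q P' Q' : SS k N d}
    {x : FractionRing (SS k N d)} (h : Rep f w P Q x) (h' : Rep f w' P' Q' x) :
    P * Q' = P' * Q := by
  have h1 := h.2.2.2
  have h2 := h'.2.2.2
  apply am_inj.mp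
  simp only [am, map_mul] at h1 h2 ⊢
  rw [← h1, ← h2]
  ring

/-- the function on the moduli space given by a fraction -/
def fn (P Q : SS k N d) : Moduli k N d → k := fun m => eval (co m.out) P / eval (co m.out) Q

variable [IsAlgClosed k]

theorem fn_cls (hNd : 0 < N + d) {w : ℕ} {P Q : SS k N d} (hP : IsSemi w P) (hQ : IsSemi w Q)
    (G : EndTuple k N d) : fn P Q (cls G) = eval (co G) P / eval (co G) Q := by
  have h1 : cls (cls G).out = cls G := Quot.out_eq _
  obtain ⟨A, hA, h2⟩ := (cls_eq_iff hNd _ _).mp h1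
  unfold fn
  have h3 : co G = actT A (co (cls G).out) := by
    rw [← co_actE A hA, ← h2]
  rw [h3, hP A, hQ A, mul_div_mul_left _ _ (pow_ne_zero _ hA)]

theorem isRegularAt_fn (hNd : 0 < N + d) {w : ℕ} {P Q : SS k N d} (hP : IsSemi w P)
    (hQ : IsSemi w Q) (G : EndTuple k N d) (hG : eval (co G) Q ≠ 0) : IsRegularAt (fn P Q) G := by
  rw [isRegularAt_iff]
  refine ⟨P, Q, Q, hG, hG, fun G' hG' => ?_⟩
  rw [fn_cls hNd hP hQ, div_mul_cancel₀ _ hG']

theorem germ_mem (hNd : 0 < N + d) (F : EndTuple k N d) {w : ℕ} {P Q : SS k N d}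
    {x : FractionRing (SS k N d)} (h : Rep (co F) w P Q x) :
    (↑(fn P Q) : (𝓝 (cls F)).Germ k) ∈ localRing k N d (cls F) := by
  refine ⟨_, rfl, ?_⟩
  rw [eventually_cls_SS hNd]
  refine ⟨Q, h.2.2.1, fun G hG G' hG' => ?_⟩
  apply isRegularAt_fn hNd h.1 h.2.1
  obtain ⟨A, hA, rfl⟩ := (cls_eq_iff hNd _ _).mp hG'.symm
  rw [co_actE, h.2.1 A]
  exact mul_ne_zero (pow_ne_zero _ hA) hG

theorem germ_eq (hNd : 0 < N + d) (F : EndTuple k N d) {w w' : ℕ} {P Q P' Q' : SS k N d}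
    {x : FractionRing (SS k N d)} (h : Rep (co F) w P Q x) (h' : Rep (co F) w' P' Q' x) :
    (↑(fn P Q) : (𝓝 (cls F)).Germ k) = ↑(fn P' Q') := by
  apply Filter.Germ.coe_eq.mpr
  change ∀ᶠ m in 𝓝 (cls F), _
  rw [eventually_cls_SS hNd]
  refine ⟨Q * Q', by rw [map_mul]; exact mul_ne_zero h.2.2.1 h'.2.2.1, fun G hG => ?_⟩
  rw [map_mul, mul_ne_zero_iff] at hG
  rw [fn_cls hNd h.1 h.2.1, fn_cls hNd h'.1 h'.2.1, div_eq_div_iff hG.1 hG.2, ← map_mul,
    ← map_mul, h.cross h']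

/-- the value of an element of `Of f` in the local ring -/
def toGerm (hNd : 0 < N + d) (F : EndTuple k N d) (x : Of (co F)) : localRing k N d (cls F) :=
  ⟨_, germ_mem hNd F x.2.choose_spec.choose_spec.choose_spec⟩

theorem toGerm_eq (hNd : 0 < N + d) (F : EndTuple k N d) (x : Of (co F)) {w : ℕ}
    {P Q : SS k N d} (h : Rep (co F) w P Q x) :
    (toGerm hNd F x : (𝓝 (cls F)).Germ k) = ↑(fn P Q) :=
  germ_eq hNd F x.2.choose_spec.choose_spec.choose_spec h

/-- the comparison homomorphism -/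
def toGermHom (hNd : 0 < N + d) (F : EndTuple k N d) : Of (co F) →+* localRing k N d (cls F) where
  toFun := toGerm hNd F
  map_zero' := by
    apply Subtype.ext
    rw [toGerm_eq hNd F 0 (Rep.zero _)]
    apply Filter.Germ.coe_eq.mpr
    refine Filter.Eventually.of_forall fun m => ?_
    simp [fn]
  map_one' := by
    apply Subtype.ext
    rw [toGerm_eq hNd F 1 (Rep.one _)]
    apply Filter.Germ.coe_eq.mpr
    refine Filter.Eventually.of_forall fun m => ?_
    simp [fn]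
  map_add' x y := by
    obtain ⟨w, P, Q, h⟩ := x.2
    obtain ⟨w', P', Q', h'⟩ := y.2
    apply Subtype.ext
    rw [toGerm_eq hNd F (x + y) (h.add h')]
    change _ = (toGerm hNd F x : (𝓝 (cls F)).Germ k) + (toGerm hNd F y : (𝓝 (cls F)).Germ k)
    rw [toGerm_eq hNd F x h, toGerm_eq hNd F y h']
    apply Filter.Germ.coe_eq.mpr
    change ∀ᶠ m in 𝓝 (cls F), _
    rw [eventually_cls_SS hNd]
    refine ⟨Q * Q', by rw [map_mul]; exact mul_ne_zero h.2.2.1 h'.2.2.1, fun G hG => ?_⟩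
    rw [map_mul, mul_ne_zero_iff] at hG
    have h3 := h.add h'
    change fn _ _ (cls G) = fn P Q (cls G) + fn P' Q' (cls G)
    rw [fn_cls hNd h.1 h.2.1, fn_cls hNd h'.1 h'.2.1, fn_cls hNd h3.1 h3.2.1,
      div_add_div _ _ hG.1 hG.2]
    simp only [map_add, map_mul]
  map_mul' x y := by
    obtain ⟨w, P, Q, h⟩ := x.2
    obtain ⟨w', P', Q', h'⟩ := y.2
    apply Subtype.ext
    rw [toGerm_eq hNd F (x * y) (h.mul h')]
    change _ = (toGerm hNd F x : (𝓝 (cls F)).Germ k) * (toGerm hNd F y : (𝓝 (cls F)).Germ k)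
    rw [toGerm_eq hNd F x h, toGerm_eq hNd F y h']
    apply Filter.Germ.coe_eq.mpr
    change ∀ᶠ m in 𝓝 (cls F), _
    rw [eventually_cls_SS hNd]
    refine ⟨Q * Q', by rw [map_mul]; exact mul_ne_zero h.2.2.1 h'.2.2.1, fun G hG => ?_⟩
    rw [map_mul, mul_ne_zero_iff] at hG
    have h3 := h.mul h'
    change fn _ _ (cls G) = fn P Q (cls G) * fn P' Q' (cls G)
    rw [fn_cls hNd h.1 h.2.1, fn_cls hNd h'.1 h'.2.1, fn_cls hNd h3.1 h3.2.1,
      div_mul_div_comm]
    simp only [map_mul]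

/-- A polynomial which vanishes at all maps off a divisor is zero. -/
theorem eq_zero_of_forall (F : EndTuple k N d) (s : SS k N d)
    (hs : s ≠ 0) (P : SS k N d) (h : ∀ G : EndTuple k N d, eval (co G) s ≠ 0 → eval (co G) P = 0) :
    P = 0 := by
  have hinf : Infinite k := IsAlgClosed.instInfinite
  obtain ⟨P0, hP0, hP0'⟩ := exists_open (nz_co F)
  have hP0ne : P0 ≠ 0 := by
    rintro rfl
    exact hP0 (map_zero _)
  have h1 : P * (s * P0) = 0 := by
    apply MvPolynomial.funext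
    intro c
    rw [map_mul, map_zero]
    by_cases hc : eval c (s * P0) = 0
    · rw [hc, mul_zero]
    · have hc' : eval c s ≠ 0 ∧ eval c P0 ≠ 0 := by
        rw [← mul_ne_zero_iff, ← map_mul]; exact hc
      have h2 := h (mkE c (hP0' c hc'.2)) (by rw [co_mkE]; exact hc'.1)
      rw [co_mkE] at h2
      rw [h2, zero_mul]
  exact (mul_eq_zero.mp h1).resolve_right (mul_ne_zero hs hP0ne)

theorem toGermHom_inj (hNd : 0 < N + d) (F : EndTuple k N d) :
    Function.Injective (toGermHom hNd F) := by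
  rw [injective_iff_map_eq_zero]
  intro x hx
  obtain ⟨w, P, Q, h⟩ := x.2
  have h1 : (toGerm hNd F x : (𝓝 (cls F)).Germ k) = 0 := congrArg Subtype.val hx
  rw [toGerm_eq hNd F x h] at h1
  have h2 : ∀ᶠ m in 𝓝 (cls F), fn P Q m = 0 := Filter.Germ.coe_eq.mp h1
  rw [eventually_cls_SS hNd] at h2
  obtain ⟨s, hs, h3⟩ := h2
  have hP : P = 0 := by
    apply eq_zero_of_forall F (s * Q) (mul_ne_zero (ne_zero_of_eval hs) (ne_zero_of_eval h.2.2.1))
    intro G hG
    rw [map_mul, mul_ne_zero_iff] at hG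
    have h4 := h3 G hG.1
    rw [fn_cls hNd h.1 h.2.1, div_eq_zero_iff] at h4
    exact h4.resolve_right hG.2
  apply Subtype.ext
  have h4 := h.2.2.2
  rw [hP] at h4
  have h5 : am (0 : SS k N d) = 0 := map_zero _
  rw [h5] at h4
  exact (mul_eq_zero.mp h4).resolve_right (am_ne_zero (ne_zero_of_eval h.2.2.1))

end

end Pool.Agent.Helper819.Dyn
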