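import Pool.Agent.Helper819.OfSurj

/-!
The ring of fractions of semi-invariants is local.
-/

open MvPolynomial Topology

namespace Pool.Agent.Helper819.Dyn

open Pool.Agent.Helper819.Apolar Pool.Agent.Helper819.Zar

noncomputable section

set_option linter.unusedSectionVars false

variable {k : Type} [Field k] {N d : ℕ}

/-- ideal of the point `f` -/
def mf (f : Ix N d → k) : Ideal (SS k N d) := RingHom.ker (eval f)

theorem mem_mf (f : Ix N d → k) (P : SS k N d) : P ∈ mf f ↔ eval f P = 0 := RingHom.mem_ker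

instance mf_max (f : Ix N d → k) : (mf f).IsMaximal :=
  RingHom.ker_isMaximal_of_surjective _ (fun a => ⟨C a, eval_C a⟩)

instance mf_prime (f : Ix N d → k) : (mf f).IsPrime := (mf_max f).isPrime

/-- The local ring of the affine space at `f`. -/
def Lc (f : Ix N d → k) : Subalgebra (SS k N d) (FractionRing (SS k N d)) :=
  Localization.subalgebra.ofField (FractionRing (SS k N d)) (mf f).primeCompl
    (Ideal.primeCompl_le_nonZeroDivisors _)

instance (f : Ix N d → k) : IsLocalization (mf f).primeCompl (Lc f) :=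
  Localization.subalgebra.isLocalization_ofField _ _ _

instance (f : Ix N d → k) : IsLocalization.AtPrime (Lc f) (mf f) :=
  Localization.subalgebra.isLocalization_ofField _ _ _

theorem mem_Lc (f : Ix N d → k) (x : FractionRing (SS k N d)) :
    x ∈ Lc f ↔ ∃ P Q : SS k N d, eval f Q ≠ 0 ∧ x * am Q = am P := by
  constructor
  · rintro ⟨P, Q, hQ, rfl⟩
    have hQ' : eval f Q ≠ 0 := fun h => hQ ((mem_mf f Q).mpr h)
    refine ⟨P, Q, hQ', ?_⟩
    exact inv_mul_cancel_right₀ (am_ne_zero (ne_zero_of_eval hQ')) _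
  · rintro ⟨P, Q, hQ, hx⟩
    refine ⟨P, Q, fun h => hQ ((mem_mf f Q).mp h), ?_⟩
    change x = am P * (am Q)⁻¹
    rw [← hx, mul_inv_cancel_right₀ (am_ne_zero (ne_zero_of_eval hQ))]

theorem Of_le (f : Ix N d → k) {x : FractionRing (SS k N d)} (hx : x ∈ Of f) : x ∈ Lc f := by
  obtain ⟨w, P, Q, h⟩ := hx
  exact (mem_Lc f x).mpr ⟨P, Q, h.2.2.1, h.2.2.2⟩

/-- the inclusion -/
def incO (f : Ix N d → k) : Of f →+* Lc f where
  toFun x := ⟨x.1, Of_le f x.2⟩
  map_zero' := rfl
  map_one' := rfl
  map_add' _ _ := rfl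
  map_mul' _ _ := rfl

theorem incO_inj (f : Ix N d → k) : Function.Injective (incO f) := by
  intro x y h
  exact Subtype.ext (congrArg (Subtype.val : Lc f → FractionRing (SS k N d)) h)

/-- lifting homomorphisms -/
def liftL {K : Type} [CommRing K] (f : Ix N d → k) (τ : SS k N d →+* K)
    (hτ : ∀ Q, eval f Q ≠ 0 → IsUnit (τ Q)) : Lc f →+* K :=
  IsLocalization.lift (M := (mf f).primeCompl) (g := τ)
    (fun y => hτ y.1 (fun h => y.2 ((mem_mf f _).mpr h)))

theorem liftL_eq {K : Type} [CommRing K] (f : Ix N d → k) (τ : SS k N d →+* K)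
    (hτ : ∀ Q, eval f Q ≠ 0 → IsUnit (τ Q)) (x : Lc f) (P Q : SS k N d)
    (h : (x : FractionRing (SS k N d)) * am Q = am P) :
    liftL f τ hτ x * τ Q = τ P := by
  have h1 : x * algebraMap (SS k N d) (Lc f) Q = algebraMap (SS k N d) (Lc f) P := Subtype.ext h
  have h2 := congrArg (liftL f τ hτ) h1
  rw [map_mul] at h2
  have h3 : ∀ R : SS k N d, liftL f τ hτ (algebraMap (SS k N d) (Lc f) R) = τ R := fun R =>
    IsLocalization.lift_eq _ R
  rwa [h3, h3] at h2

/-- evaluation at `f` -/
def evL (f : Ix N d → k) : Lc f →+* k := liftL f (eval f) (fun _ h => isUnit_iff_ne_zero.mpr h)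

theorem evL_eq (f : Ix N d → k) (x : Lc f) (P Q : SS k N d)
    (h : (x : FractionRing (SS k N d)) * am Q = am P) : evL f x * eval f Q = eval f P :=
  liftL_eq f _ _ x P Q h

/-- evaluation at `f` -/
def evO (f : Ix N d → k) : Of f →+* k := (evL f).comp (incO f)

theorem evO_eq (f : Ix N d → k) (x : Of f) {w : ℕ} {P Q : SS k N d}
    (h : Rep f w P Q x) : evO f x * eval f Q = eval f P :=
  evL_eq f _ P Q h.2.2.2

theorem evO_eq_zero_iff (f : Ix N d → k) (x : Of f) {w : ℕ} {P Q : SS k N d}
    (h : Rep f w P Q x) : evO f x = 0 ↔ eval f P = 0 := by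
  rw [← evO_eq f x h, mul_eq_zero, or_iff_left h.2.2.1]

instance (f : Ix N d → k) : IsLocalHom (evO f) := by
  refine ⟨fun x hx => ?_⟩
  obtain ⟨w, P, Q, h⟩ := x.2
  have hP : eval f P ≠ 0 := by
    intro h0
    rw [← evO_eq_zero_iff f x h] at h0
    rw [h0] at hx
    exact not_isUnit_zero hx
  have h0 : (x : FractionRing (SS k N d)) ≠ 0 := by
    intro h0
    have h1 := h.2.2.2
    rw [h0, zero_mul] at h1
    exact am_ne_zero (ne_zero_of_eval hP) h1.symm
  rw [isUnit_iff_exists_inv]
  refine ⟨⟨(x : FractionRing (SS k N d))⁻¹, w, Q, P, h.2.1, h.1, hP, ?_⟩, ?_⟩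
  · rw [← h.2.2.2, ← mul_assoc, inv_mul_cancel₀ h0, one_mul]
  · apply Subtype.ext
    exact mul_inv_cancel₀ h0

instance (f : Ix N d → k) : IsLocalRing (Of f) := RingHom.domain_isLocalRing (evO f)

theorem mem_max_iff (f : Ix N d → k) (x : Of f) :
    x ∈ IsLocalRing.maximalIdeal (Of f) ↔ evO f x = 0 := by
  rw [IsLocalRing.mem_maximalIdeal, mem_nonunits_iff, ← not_iff_not, not_not]
  constructor
  · intro h
    exact (h.map (evO f)).ne_zero
  · intro h
    exact (isUnit_iff_ne_zero.mpr h).of_map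

/-- constants -/
def cO (f : Ix N d → k) : k →+* Of f where
  toFun a := ⟨am (C a), 0, C a, 1, by
    have := (IsSemi.one (k := k) (N := N) (d := d)).C_mul a
    rwa [mul_one] at this, IsSemi.one, by rw [map_one]; exact one_ne_zero, by
    simp [am]⟩
  map_zero' := by
    apply Subtype.ext
    simp [am]
  map_one' := by
    apply Subtype.ext
    simp [am]
  map_add' a b := by
    apply Subtype.ext
    simp [am]
  map_mul' a b := by
    apply Subtype.ext
    simp [am]

instance (f : Ix N d → k) : Algebra k (Of f) := (cO f).toAlgebra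

theorem algO (f : Ix N d → k) (a : k) :
    ((algebraMap k (Of f) a : Of f) : FractionRing (SS k N d)) = am (C a) := rfl

theorem evO_alg (f : Ix N d → k) (a : k) : evO f (algebraMap k (Of f) a) = a := by
  have h := evL_eq f (incO f (algebraMap k (Of f) a)) (C a) 1 (by
    change am (C a) * am 1 = am (C a)
    simp [am])
  rw [map_one, mul_one, eval_C] at h
  exact h

end

end Pool.Agent.Helper819.Dyn
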