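import Pool.Agent.Helper819.OfDef

/-!
Regular germs are quotients of semi-invariants.
-/

open MvPolynomial Topology

namespace Pool.Agent.Helper819.Dyn

open Pool.Agent.Helper819.Apolar Pool.Agent.Helper819.Zar

noncomputable section

set_option linter.unusedSectionVars false

variable {k : Type} [Field k] {N d : ℕ} [IsAlgClosed k] [CharZero k]

/-- coprime representation of a fraction -/
theorem exists_coprime {R : Type} [CommRing R] [IsDomain R] [UniqueFactorizationMonoid R]
    (p q : R) (hq : q ≠ 0) :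
    ∃ g p1 q1 : R, p = g * p1 ∧ q = g * q1 ∧ IsRelPrime q1 p1 := by
  obtain ⟨p1, q1, g, hrel, hp1, hq1⟩ := UniqueFactorizationMonoid.exists_reduced_factors' p q hq
  refine ⟨g, p1, q1, ?_, ?_, hrel.symm⟩
  · rw [hp1]
  · rw [hq1]

/-- A polynomial identity holding at all maps off a divisor and after acting. -/
theorem isSemi_of_forall (F : EndTuple k N d) (s : SS k N d) (hs : s ≠ 0) (w : ℕ) (P : SS k N d)
    (h : ∀ (G : EndTuple k N d) (A : Matrix (Fin (N + 1)) (Fin (N + 1)) k), A.det ≠ 0 →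
      eval (co G) s ≠ 0 → eval (actT A (co G)) P = A.det ^ w * eval (co G) P) :
    IsSemi w P := by
  have hinf : Infinite k := IsAlgClosed.instInfinite
  have h1 : ∀ A : Matrix (Fin (N + 1)) (Fin (N + 1)) k, A.det ≠ 0 →
      compT A P = C (A.det ^ w) * P := by
    intro A hA
    rw [← sub_eq_zero]
    apply eq_zero_of_forall F s hs
    intro G hG
    rw [map_sub, eval_compT, map_mul, eval_C, h G A hA hG, sub_self]
  intro A c
  have h2 : aeval (orb c) P = dt (N + 1) k ^ w * C (eval c P) := by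
    apply poly_ext
    intro A hA
    have h3 := congrArg (eval c) (h1 A hA)
    rw [eval_compT, map_mul, eval_C] at h3
    rw [eval_aeval_orb, h3, map_mul, map_pow, eval_dt, eval_C]
  have h3 := congrArg (eval (ent A)) h2
  rw [eval_aeval_orb, map_mul, map_pow, eval_dt, eval_C] at h3
  exact h3

theorem toGermHom_surj (hN : 0 < N + d) (hd : 2 ≤ d) (F : EndTuple k N d) :
    Function.Surjective (toGermHom hN F) := by
  classical
  have hinf : Infinite k := IsAlgClosed.instInfinite
  rintro ⟨_, h, rfl, hreg⟩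
  rw [eventually_nhds_iff] at hreg
  obtain ⟨V, hV, hVo, hFV⟩ := hreg
  -- the bad set
  let Z : Set (Ix N d → k) := {c | ¬ ∃ G : EndTuple k N d, cls G ∈ V ∧ co G = c}
  have hfZ : co F ∉ Z := fun hc => hc ⟨F, hFV, rfl⟩
  obtain ⟨w0, R, hRs, hRf, hRZ⟩ := exists_semi hd (nz_co F) Z (by
    intro c hc
    by_contra hcZ
    have hcZ' : ∃ G : EndTuple k N d, cls G ∈ V ∧ co G = c := not_not.mp hcZ
    obtain ⟨G, hG, rfl⟩ := hcZ'
    have h1 : ∀ᶠ G' in 𝓝 G, cls G' ∈ V :=
      (hVo.preimage continuous_cls).mem_nhds hG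
    rw [eventually_iff_SS] at h1
    obtain ⟨s, hs, h2⟩ := h1
    obtain ⟨P0, hP0, hP0'⟩ := exists_open (nz_co G)
    have h3 := hc (s * P0) (by
      intro z hz
      by_contra hne
      have hne' : eval z s ≠ 0 ∧ eval z P0 ≠ 0 := by
        rw [← mul_ne_zero_iff, ← map_mul]; exact hne
      apply hz
      refine ⟨mkE z (hP0' z hne'.2), h2 _ (by rw [co_mkE]; exact hne'.1), co_mkE _ _⟩)
    rw [map_mul] at h3
    exact mul_ne_zero hs hP0 h3) (by
    rintro A hA z hz ⟨G, hG, hGz⟩
    apply hz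
    have hAu : IsUnit A.det := isUnit_iff_ne_zero.mpr hA
    have hA' : (A⁻¹).det ≠ 0 := by
      rw [Matrix.det_nonsing_inv, Ring.inverse_eq_inv']
      exact inv_ne_zero hA
    refine ⟨actE A⁻¹ hA' G, ?_, ?_⟩
    · have : cls (actE A⁻¹ hA' G) = cls G := ((cls_eq_iff hN _ _).mpr ⟨_, _, rfl⟩).symm
      rw [this]
      exact hG
    · rw [co_actE, hGz, actT_actT, Matrix.mul_nonsing_inv _ hAu, actT_one]) hfZ
  -- regular points
  have hD : ∀ c, eval c R ≠ 0 → ∃ G : EndTuple k N d, cls G ∈ V ∧ co G = c := by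
    intro c hc
    by_contra hcon
    exact hc (hRZ c hcon)
  have hRne : R ≠ 0 := ne_zero_of_eval hRf
  have hloc : ∀ G : EndTuple k N d, eval (co G) R ≠ 0 → ∃ p q s : SS k N d,
      eval (co G) q ≠ 0 ∧ eval (co G) s ≠ 0 ∧ ∀ G' : EndTuple k N d, eval (co G') s ≠ 0 →
        h (cls G') * eval (co G') q = eval (co G') p := by
    intro G hG
    obtain ⟨G1, hG1, hG1c⟩ := hD _ hG
    have : G1 = G := co_inj hG1c
    subst this
    exact (isRegularAt_iff h G1).mp (hV _ hG1 G1 rfl)
  -- the fraction near `F`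
  obtain ⟨p0, q0, s0, hq0, hs0, hF0⟩ := hloc F hRf
  obtain ⟨g, p1, q1, hp1, hq1, hrel⟩ := exists_coprime p0 q0 (ne_zero_of_eval hq0)
  have hg : eval (co F) g ≠ 0 := by
    intro h0
    apply hq0
    rw [hq1, map_mul, h0, zero_mul]
  have hq1f : eval (co F) q1 ≠ 0 := by
    intro h0
    apply hq0
    rw [hq1, map_mul, h0, mul_zero]
  have hF1 : ∀ G : EndTuple k N d, eval (co G) (s0 * g) ≠ 0 →
      h (cls G) * eval (co G) q1 = eval (co G) p1 := by
    intro G hG
    rw [map_mul, mul_ne_zero_iff] at hG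
    have h1 := hF0 G hG.1
    rw [hp1, hq1, map_mul, map_mul] at h1
    apply mul_left_cancel₀ hG.2
    linear_combination h1
  -- it is valid everywhere on D(R)
  have hall : ∀ G : EndTuple k N d, eval (co G) R ≠ 0 → eval (co G) q1 ≠ 0 ∧
      h (cls G) * eval (co G) q1 = eval (co G) p1 := by
    intro G hG
    obtain ⟨p, q, s, hq, hs, hG1⟩ := hloc G hG
    have h1 : p1 * q - p * q1 = 0 := by
      apply eq_zero_of_forall F (s0 * g * s) (mul_ne_zero (mul_ne_zero (ne_zero_of_eval hs0)
        (ne_zero_of_eval hg)) (ne_zero_of_eval hs))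
      intro G' hG'
      rw [map_mul, mul_ne_zero_iff] at hG'
      have e1 := hF1 G' hG'.1
      have e2 := hG1 G' hG'.2
      rw [map_sub, map_mul, map_mul, ← e1, ← e2]
      ring
    rw [sub_eq_zero] at h1
    have h2 : q1 ∣ q := by
      apply hrel.dvd_of_dvd_mul_left
      exact ⟨p, by rw [h1, mul_comm]⟩
    have h3 : eval (co G) q1 ≠ 0 := by
      obtain ⟨t, ht⟩ := h2
      intro h0
      apply hq
      rw [ht, map_mul, h0, zero_mul]
    refine ⟨h3, ?_⟩
    have h4 := congrArg (eval (co G)) h1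
    rw [map_mul, map_mul] at h4
    have h5 := hG1 G hs
    apply mul_right_cancel₀ hq
    linear_combination (eval (co G) q1) * h5 - h4
  -- `q1` divides a power of `R`
  have hrad : R ∈ (Ideal.span {q1} : Ideal (SS k N d)).radical := by
    rw [← vanishingIdeal_zeroLocus_eq_radical (K := k), mem_vanishingIdeal_iff]
    intro c hc
    have h2 : eval c q1 = 0 := by
      have := (mem_zeroLocus_iff.mp hc) q1 (Ideal.subset_span rfl)
      rw [← coe_aeval_eq_eval]
      exact this
    have goal : eval c R = 0 := by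
      by_contra hne
      obtain ⟨G, _, rfl⟩ := hD c hne
      exact (hall G hne).1 h2
    rw [← coe_aeval_eq_eval] at goal
    exact goal
  obtain ⟨m, hm⟩ := hrad
  obtain ⟨t, ht⟩ := Ideal.mem_span_singleton.mp hm
  let P : SS k N d := p1 * t
  have hP : ∀ G : EndTuple k N d, eval (co G) R ≠ 0 →
      eval (co G) P = h (cls G) * eval (co G) (R ^ m) := by
    intro G hG
    rw [ht, map_mul, map_mul, ← (hall G hG).2]
    ring
  have hPs : IsSemi (w0 * m) P := by
    apply isSemi_of_forall F R hRne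
    intro G A hA hG
    have hG' : eval (co (actE A hA G)) R ≠ 0 := by
      rw [co_actE, hRs A]
      exact mul_ne_zero (pow_ne_zero _ hA) hG
    have h1 := hP (actE A hA G) hG'
    have h2 : cls (actE A hA G) = cls G := ((cls_eq_iff hN _ _).mpr ⟨_, _, rfl⟩).symm
    rw [co_actE, h2, (hRs.pow m) A] at h1
    rw [h1, hP G hG]
    ring
  -- the element
  have hRm : am (R ^ m) ≠ 0 := am_ne_zero (pow_ne_zero _ hRne)
  have hrep : Rep (co F) (w0 * m) P (R ^ m) (am P / am (R ^ m)) := by
    refine ⟨hPs, hRs.pow m, ?_, ?_⟩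
    · rw [map_pow]; exact pow_ne_zero _ hRf
    · exact div_mul_cancel₀ _ hRm
  refine ⟨⟨am P / am (R ^ m), _, _, _, hrep⟩, ?_⟩
  apply Subtype.ext
  change (toGerm hN F _ : (𝓝 (cls F)).Germ k) = _
  rw [toGerm_eq hN F _ hrep]
  apply Filter.Germ.coe_eq.mpr
  change ∀ᶠ m' in 𝓝 (cls F), _
  rw [eventually_cls_SS hN]
  refine ⟨R, hRf, fun G hG => ?_⟩
  rw [fn_cls hN hrep.1 hrep.2.1, hP G hG, mul_div_cancel_right₀]
  rw [map_pow]
  exact pow_ne_zero _ hG

/-- The local ring of the moduli space is the ring of fractions of semi-invariants. -/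
def localRingEquiv (hN : 0 < N + d) (hd : 2 ≤ d) (F : EndTuple k N d) :
    Of (co F) ≃+* localRing k N d (cls F) :=
  RingEquiv.ofBijective (toGermHom hN F) ⟨toGermHom_inj hN F, toGermHom_surj hN hd F⟩

end

end Pool.Agent.Helper819.Dyn
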