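import Pool.Agent.Helper819.Act
import Pool.Agent.Helper819.DynDefs2

/-!
Basic topology of the moduli spaces with a marked periodic point.
-/

open MvPolynomial

namespace Pool.Agent.Helper819.Dyn

open Pool.Agent.Helper819.Zar

noncomputable section

set_option linter.unusedSectionVars false

variable {k : Type} [Field k] {N d n : ℕ}

theorem evalMap_smul {F : Tuple k N} (hF : ∀ i, (F i).IsHomogeneous d) (a : k)
    (P : Fin (N + 1) → k) : evalMap F (a • P) = a ^ d • evalMap F P := by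
  funext i
  exact eval_smul_homog (hF i) a P

theorem evalMap_act (A : Matrix (Fin (N + 1)) (Fin (N + 1)) k) (F : Tuple k N)
    (P : Fin (N + 1) → k) :
    evalMap (act A F) P = A.adjugate.mulVec (evalMap F (A.mulVec P)) := by
  funext i
  unfold evalMap
  rw [eval_act]
  rfl

theorem iter_act (A : Matrix (Fin (N + 1)) (Fin (N + 1)) k) (hA : A.det ≠ 0) {F : Tuple k N}
    (hF : ∀ i, (F i).IsHomogeneous d) (s : k) (hs : s ≠ 0) (P : Fin (N + 1) → k) (m : ℕ) :
    ∃ c : k, c ≠ 0 ∧ (evalMap (act A F))^[m] (s • A.adjugate.mulVec P) =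
      c • A.adjugate.mulVec ((evalMap F)^[m] P) := by
  induction m with
  | zero => exact ⟨s, hs, rfl⟩
  | succ m ih =>
    obtain ⟨c, hc, h⟩ := ih
    refine ⟨(c * A.det) ^ d, pow_ne_zero _ (mul_ne_zero hc hA), ?_⟩
    rw [Function.iterate_succ_apply', Function.iterate_succ_apply', h, evalMap_act,
      Matrix.mulVec_smul, Matrix.mulVec_mulVec, Matrix.mul_adjugate, Matrix.smul_mulVec,
      Matrix.one_mulVec, smul_smul, evalMap_smul hF, Matrix.mulVec_smul]

theorem adj_inj (A : Matrix (Fin (N + 1)) (Fin (N + 1)) k) (hA : A.det ≠ 0)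
    {P Q : Fin (N + 1) → k} (h : A.adjugate.mulVec P = A.adjugate.mulVec Q) : P = Q := by
  have h2 : A.mulVec (A.adjugate.mulVec P) = A.mulVec (A.adjugate.mulVec Q) := by rw [h]
  rw [Matrix.mulVec_mulVec, Matrix.mulVec_mulVec, Matrix.mul_adjugate, Matrix.smul_mulVec,
    Matrix.smul_mulVec, Matrix.one_mulVec, Matrix.one_mulVec] at h2
  exact smul_right_injective _ hA h2

theorem period_act (A : Matrix (Fin (N + 1)) (Fin (N + 1)) k) (hA : A.det ≠ 0) {F : Tuple k N}
    (hF : ∀ i, (F i).IsHomogeneous d) (s : k) (hs : s ≠ 0) (P : Fin (N + 1) → k) (m : ℕ) :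
    (∃ c : k, (evalMap (act A F))^[m] (s • A.adjugate.mulVec P) =
      c • (s • A.adjugate.mulVec P)) ↔ ∃ c : k, (evalMap F)^[m] P = c • P := by
  obtain ⟨e, he, h⟩ := iter_act A hA hF s hs P m
  constructor
  · rintro ⟨c, hc⟩
    refine ⟨e⁻¹ * c * s, ?_⟩
    rw [h, smul_smul] at hc
    apply adj_inj A hA
    rw [Matrix.mulVec_smul]
    have : A.adjugate.mulVec ((evalMap F)^[m] P) = e⁻¹ • (e • A.adjugate.mulVec
        ((evalMap F)^[m] P)) := by rw [smul_smul, inv_mul_cancel₀ he, one_smul]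
    rw [this, hc, smul_smul, mul_assoc]
  · rintro ⟨c, hc⟩
    refine ⟨e * c * s⁻¹, ?_⟩
    rw [h, hc, Matrix.mulVec_smul, smul_smul, smul_smul]
    congr 1
    field_simp

theorem hasExactPeriod_act (A : Matrix (Fin (N + 1)) (Fin (N + 1)) k) (hA : A.det ≠ 0)
    {F : Tuple k N} (hF : ∀ i, (F i).IsHomogeneous d) (s : k) (hs : s ≠ 0)
    {P : Fin (N + 1) → k} (hP : HasExactPeriod n F P) :
    HasExactPeriod n (act A F) (s • A.adjugate.mulVec P) := by
  obtain ⟨h1, h2, h3⟩ := hP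
  refine ⟨?_, ?_, ?_⟩
  · intro h0
    apply h1
    have : A.adjugate.mulVec P = 0 := (smul_eq_zero.mp h0).resolve_left hs
    apply adj_inj A hA
    rw [this, Matrix.mulVec_zero]
  · exact (period_act A hA hF s hs P n).mpr h2
  · intro m hm hmn h
    exact h3 m hm hmn ((period_act A hA hF s hs P m).mp h)

theorem ptTuple_ext {x y : PtTuple k N d n} (h1 : x.1.1 = y.1.1) (h2 : x.1.2 = y.1.2) : x = y :=
  Subtype.ext (Prod.ext h1 h2)

variable [IsAlgClosed k]

/-- The action on pairs. -/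
def act2 (A : Matrix (Fin (N + 1)) (Fin (N + 1)) k) (hA : A.det ≠ 0) (s : k) (hs : s ≠ 0)
    (x : PtTuple k N d n) : PtTuple k N d n :=
  ⟨(act A x.1.1, s • A.adjugate.mulVec x.1.2), act_isEnd A hA x.2.1,
    hasExactPeriod_act A hA x.2.1.1 s hs x.2.2⟩

theorem conj_eq_act (φ : GL (Fin (N + 1)) k) (F : Tuple k N) (i : Fin (N + 1)) :
    act (φ : Matrix (Fin (N + 1)) (Fin (N + 1)) k) F i =
      C (Matrix.det (φ : Matrix (Fin (N + 1)) (Fin (N + 1)) k)) * conj φ F i := by
  have hdet : (φ : Matrix (Fin (N + 1)) (Fin (N + 1)) k).det ≠ 0 :=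
    ((Matrix.isUnit_iff_isUnit_det _).mp φ.isUnit).ne_zero
  have hinf : Infinite k := IsAlgClosed.instInfinite
  apply MvPolynomial.funext
  intro P
  rw [eval_act, map_mul, eval_C, conj_eval, Finset.mul_sum]
  refine Finset.sum_congr rfl fun j _ => ?_
  rw [Matrix.coe_units_inv, Matrix.inv_def, Ring.inverse_eq_inv']
  simp only [Matrix.smul_apply, smul_eq_mul]
  field_simp

theorem ptRel_iff (hNd : 0 < N + d) (x y : PtTuple k N d n) :
    PtRel k N d n x y ↔ ∃ (A : Matrix (Fin (N + 1)) (Fin (N + 1)) k) (hA : A.det ≠ 0) (s : k)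
      (hs : s ≠ 0), y = act2 A hA s hs x := by
  have hinf : Infinite k := IsAlgClosed.instInfinite
  constructor
  · rintro ⟨φ, c, c', h1, h2⟩
    obtain ⟨A, hA, hy⟩ := (rel_iff hNd (⟨x.1.1, x.2.1⟩ : EndTuple k N d) ⟨y.1.1, y.2.1⟩).mp
      ⟨φ, c, h1⟩
    -- we need the precise matrix, so argue directly
    obtain ⟨M, hM⟩ : ∃ M : Matrix (Fin (N + 1)) (Fin (N + 1)) k, M = ↑φ := ⟨_, rfl⟩
    have hdet : M.det ≠ 0 := by
      rw [hM]
      exact ((Matrix.isUnit_iff_isUnit_det _).mp φ.isUnit).ne_zero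
    have hinv : (↑(φ⁻¹) : Matrix (Fin (N + 1)) (Fin (N + 1)) k) = M.det⁻¹ • M.adjugate := by
      rw [Matrix.coe_units_inv, Matrix.inv_def, hM, Ring.inverse_eq_inv']
    obtain ⟨a, ha⟩ := IsAlgClosed.exists_pow_nat_eq ((c : k) / M.det) (n := N + d) hNd
    have ha0 : a ≠ 0 := by
      rintro rfl
      rw [zero_pow hNd.ne'] at ha
      exact div_ne_zero c.ne_zero hdet ha.symm
    have haM : (a • M).det ≠ 0 := by
      rw [Matrix.det_smul]
      exact mul_ne_zero (pow_ne_zero _ ha0) hdet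
    refine ⟨a • M, haM, c' * M.det⁻¹ * (a ^ N)⁻¹,
      mul_ne_zero (mul_ne_zero c'.ne_zero (inv_ne_zero hdet)) (inv_ne_zero (pow_ne_zero _ ha0)),
      ptTuple_ext ?_ ?_⟩
    · rw [h1]
      funext i
      apply MvPolynomial.funext
      intro P
      change _ = eval P (act (a • M) x.1.1 i)
      rw [eval_act, map_mul, eval_C, conj_eval, hinv, Finset.mul_sum]
      refine Finset.sum_congr rfl fun j _ => ?_
      rw [Matrix.adjugate_smul, Matrix.smul_mulVec, eval_smul_homog (x.2.1.1 j)]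
      simp only [Matrix.smul_apply, smul_eq_mul, Fintype.card_fin, ← hM]
      have : (c : k) = a ^ (N + d) * M.det := by
        rw [ha]; field_simp
      rw [this]
      simp only [Nat.add_sub_cancel]
      field_simp
      ring
    · rw [h2, hinv]
      change _ = (c' * M.det⁻¹ * (a ^ N)⁻¹ : k) • (a • M).adjugate.mulVec x.1.2
      rw [Matrix.adjugate_smul, Matrix.smul_mulVec, Matrix.smul_mulVec, smul_smul, smul_smul]
      congr 1
      simp only [Fintype.card_fin, Nat.add_sub_cancel]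
      field_simp
  · rintro ⟨A, hA, s, hs, rfl⟩
    have hu : IsUnit A := (Matrix.isUnit_iff_isUnit_det A).mpr (isUnit_iff_ne_zero.mpr hA)
    have hinv : (↑(hu.unit⁻¹) : Matrix (Fin (N + 1)) (Fin (N + 1)) k) = A.det⁻¹ • A.adjugate := by
      rw [Matrix.coe_units_inv, Matrix.inv_def, Ring.inverse_eq_inv']
      simp
    refine ⟨hu.unit, Units.mk0 A.det hA, Units.mk0 (s * A.det) (mul_ne_zero hs hA), ?_, ?_⟩
    · funext i
      exact conj_eq_act hu.unit x.1.1 i
    · rw [hinv]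
      change s • A.adjugate.mulVec x.1.2 = (s * A.det) • (A.det⁻¹ • A.adjugate).mulVec x.1.2
      rw [Matrix.smul_mulVec, smul_smul]
      congr 1
      field_simp

theorem act2_act2 (A B : Matrix (Fin (N + 1)) (Fin (N + 1)) k) (hA : A.det ≠ 0)
    (hB : B.det ≠ 0) (s t : k) (hs : s ≠ 0) (ht : t ≠ 0) (x : PtTuple k N d n) :
    act2 B hB t ht (act2 A hA s hs x) =
      act2 (A * B) (by rw [Matrix.det_mul]; exact mul_ne_zero hA hB) (t * s)
        (mul_ne_zero ht hs) x := by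
  have hinf : Infinite k := IsAlgClosed.instInfinite
  refine ptTuple_ext (act_act A B x.1.1) ?_
  change t • B.adjugate.mulVec (s • A.adjugate.mulVec x.1.2) =
    (t * s) • (A * B).adjugate.mulVec x.1.2
  rw [Matrix.mulVec_smul, Matrix.mulVec_mulVec, Matrix.adjugate_mul_distrib, smul_smul]

theorem act2_one (x : PtTuple k N d n) : act2 1 (by simp) 1 one_ne_zero x = x := by
  refine ptTuple_ext (act_one x.1.1) ?_
  change (1 : k) • (1 : Matrix (Fin (N + 1)) (Fin (N + 1)) k).adjugate.mulVec x.1.2 = x.1.2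
  rw [Matrix.adjugate_one, Matrix.one_mulVec, one_smul]

theorem ptRel_equiv (hNd : 0 < N + d) : Equivalence (PtRel k N d n) where
  refl x := by
    rw [ptRel_iff hNd]
    exact ⟨1, by simp, 1, one_ne_zero, (act2_one x).symm⟩
  symm := by
    intro x y h
    rw [ptRel_iff hNd] at h ⊢
    obtain ⟨A, hA, s, hs, rfl⟩ := h
    have hAinv : A⁻¹.det ≠ 0 := by
      rw [Matrix.det_nonsing_inv, Ring.inverse_eq_inv']
      exact inv_ne_zero hA
    refine ⟨A⁻¹, hAinv, s⁻¹, inv_ne_zero hs, ?_⟩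
    rw [act2_act2]
    refine ptTuple_ext ?_ ?_
    · change x.1.1 = act (A * A⁻¹) x.1.1
      rw [Matrix.mul_nonsing_inv _ (isUnit_iff_ne_zero.mpr hA), act_one]
    · change x.1.2 = (s⁻¹ * s) • (A * A⁻¹).adjugate.mulVec x.1.2
      rw [Matrix.mul_nonsing_inv _ (isUnit_iff_ne_zero.mpr hA), Matrix.adjugate_one,
        Matrix.one_mulVec, inv_mul_cancel₀ hs, one_smul]
  trans := by
    intro x y z h1 h2
    rw [ptRel_iff hNd] at h1 h2 ⊢
    obtain ⟨A, hA, s, hs, rfl⟩ := h1
    obtain ⟨B, hB, t, ht, rfl⟩ := h2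
    exact ⟨A * B, _, t * s, _, act2_act2 A B hA hB s t hs ht x⟩

theorem ptCls_eq_iff (hNd : 0 < N + d) (x y : PtTuple k N d n) :
    ptCls x = ptCls y ↔ ∃ (A : Matrix (Fin (N + 1)) (Fin (N + 1)) k) (hA : A.det ≠ 0) (s : k)
      (hs : s ≠ 0), y = act2 A hA s hs x := by
  rw [← ptRel_iff hNd]
  exact Quot.eq.trans ((ptRel_equiv hNd).eqvGen_iff)

theorem continuous_ptCls : Continuous (ptCls : PtTuple k N d n → ModuliPt k N d n) :=
  continuous_quot_mk

theorem ptCls_surjective : Function.Surjective (ptCls : PtTuple k N d n → ModuliPt k N d n) :=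
  Quot.mk_surjective

theorem isOpen_iff_ptCls (U : Set (ModuliPt k N d n)) : IsOpen U ↔ IsOpen (ptCls ⁻¹' U) :=
  Iff.rfl

theorem isClosed_iff_ptCls (U : Set (ModuliPt k N d n)) :
    IsClosed U ↔ IsClosed (ptCls ⁻¹' U) := by
  rw [← isOpen_compl_iff, ← isOpen_compl_iff, isOpen_iff_ptCls, Set.preimage_compl]

theorem isZar_ptCoords (k : Type) [Field k] (N d n : ℕ) :
    IsZar (ptCoords : PtTuple k N d n → _ → k) := ⟨rfl⟩

theorem forget_ptCls (x : PtTuple k N d n) :
    forget k N d n (ptCls x) = cls ⟨x.1.1, x.2.1⟩ := rfl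

theorem continuous_act2 (A : Matrix (Fin (N + 1)) (Fin (N + 1)) k) (hA : A.det ≠ 0) (s : k)
    (hs : s ≠ 0) : Continuous (act2 (d := d) (n := n) A hA s hs) := by
  refine (isZar_ptCoords k N d n).continuous (isZar_ptCoords k N d n) _
    (Sum.elim (fun i => C s * ∑ j, C (A.adjugate i j) * X (Sum.inl j))
      (fun p => rename Sum.inr (coeff p.2 (act (A.map C) (gen k N d) p.1)))) ?_
  intro x p
  rcases p with i | p
  · simp [ptCoords, act2, Matrix.mulVec, dotProduct]
  · simp only [Sum.elim_inr]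
    rw [eval_rename, ← coeff_map, map_act]
    have hc : (ptCoords x ∘ Sum.inr : Fin (N + 1) × (Fin (N + 1) →₀ ℕ) → k) =
        coords (⟨x.1.1, x.2.1⟩ : EndTuple k N d) := by
      funext q; rfl
    rw [hc]
    have h1 : (A.map (C : k →+* MvPolynomial (Fin (N + 1) × (Fin (N + 1) →₀ ℕ)) k)).map
        (eval (coords (⟨x.1.1, x.2.1⟩ : EndTuple k N d))) = A := by
      ext i j; simp
    rw [h1]
    have h2 : (fun j => map (eval (coords (⟨x.1.1, x.2.1⟩ : EndTuple k N d))) (gen k N d j)) =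
        x.1.1 := spec_gen (⟨x.1.1, x.2.1⟩ : EndTuple k N d)
    rw [h2]
    rfl

theorem isOpenMap_ptCls (hNd : 0 < N + d) :
    IsOpenMap (ptCls : PtTuple k N d n → ModuliPt k N d n) := by
  intro U hU
  rw [isOpen_iff_ptCls]
  have : (ptCls : PtTuple k N d n → ModuliPt k N d n) ⁻¹' (ptCls '' U) =
      ⋃ (A : Matrix (Fin (N + 1)) (Fin (N + 1)) k) (hA : A.det ≠ 0) (s : k) (hs : s ≠ 0),
        act2 A hA s hs ⁻¹' U := by
    ext x
    simp only [Set.mem_preimage, Set.mem_image, Set.mem_iUnion]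
    constructor
    · rintro ⟨y, hy, hyx⟩
      obtain ⟨A, hA, s, hs, rfl⟩ := (ptCls_eq_iff hNd x y).mp hyx.symm
      exact ⟨A, hA, s, hs, hy⟩
    · rintro ⟨A, hA, s, hs, h⟩
      exact ⟨_, h, ((ptCls_eq_iff hNd x _).mpr ⟨A, hA, s, hs, rfl⟩).symm⟩
  rw [this]
  exact isOpen_iUnion fun A => isOpen_iUnion fun hA => isOpen_iUnion fun s =>
    isOpen_iUnion fun hs => hU.preimage (continuous_act2 A hA s hs)

/-- The orbit of a family of pairs. -/
def pfam (d n : ℕ) {τ : Type} (G : Tuple (MvPolynomial τ k) N)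
    (Q : Fin (N + 1) → MvPolynomial τ k) : Set (PtTuple k N d n) :=
  {x | ∃ (A : Matrix (Fin (N + 1)) (Fin (N + 1)) k) (s : k) (y : τ → k), A.det ≠ 0 ∧ s ≠ 0 ∧
    x.1.1 = act A (spec y G) ∧ x.1.2 = s • A.adjugate.mulVec (fun i => eval y (Q i))}

theorem isFam_pfam {τ : Type} (G : Tuple (MvPolynomial τ k) N)
    (Q : Fin (N + 1) → MvPolynomial τ k)
    (hG : ∀ y, IsEnd d (spec y G) ∧ HasExactPeriod n (spec y G) (fun i => eval y (Q i))) :
    ∃ (h : MvPolynomial ((Fin (N + 1) × Fin (N + 1)) ⊕ (Unit ⊕ τ)) k)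
      (q : Fin (N + 1) ⊕ (Fin (N + 1) × (Fin (N + 1) →₀ ℕ)) →
        MvPolynomial ((Fin (N + 1) × Fin (N + 1)) ⊕ (Unit ⊕ τ)) k),
      IsFam (ptCoords : PtTuple k N d n → _ → k) (pfam d n G Q) h q ∧ h ≠ 0 := by
  let inl' : Fin (N + 1) × Fin (N + 1) → (Fin (N + 1) × Fin (N + 1)) ⊕ (Unit ⊕ τ) := Sum.inl
  let inr' : τ → (Fin (N + 1) × Fin (N + 1)) ⊕ (Unit ⊕ τ) := Sum.inr ∘ Sum.inr
  let u : (Fin (N + 1) × Fin (N + 1)) ⊕ (Unit ⊕ τ) := Sum.inr (Sum.inl ())
  let M := (Matrix.mvPolynomialX (Fin (N + 1)) (Fin (N + 1)) k)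
  have hmat : ∀ z : (Fin (N + 1) × Fin (N + 1)) ⊕ (Unit ⊕ τ) → k,
      (M.map (rename inl')).map (eval z) = Matrix.of fun i j => z (Sum.inl (i, j)) := by
    intro z
    ext i j
    simp [M, Matrix.mvPolynomialX, inl']
  have hdet : ∀ z : (Fin (N + 1) × Fin (N + 1)) ⊕ (Unit ⊕ τ) → k,
      eval z (rename inl' M.det) = (Matrix.of fun i j => z (Sum.inl (i, j))).det := by
    intro z
    rw [AlgHom.map_det, AlgHom.mapMatrix_apply, RingHom.map_det, RingHom.mapMatrix_apply, hmat]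
  have hadj : ∀ (z : (Fin (N + 1) × Fin (N + 1)) ⊕ (Unit ⊕ τ) → k) (i j : Fin (N + 1)),
      eval z ((M.map (rename inl')).adjugate i j) =
        (Matrix.of fun i j => z (Sum.inl (i, j))).adjugate i j := by
    intro z i j
    rw [← hmat z]
    have := RingHom.map_adjugate (eval z) (M.map (rename inl'))
    rw [RingHom.mapMatrix_apply, RingHom.mapMatrix_apply] at this
    rw [← this]; rfl
  have hspec : ∀ z : (Fin (N + 1) × Fin (N + 1)) ⊕ (Unit ⊕ τ) → k,
      spec z (act (M.map (rename inl')) (fun i => map (rename inr').toRingHom (G i))) =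
      act (Matrix.of fun i j => z (Sum.inl (i, j))) (spec (z ∘ inr') G) := by
    intro z
    rw [spec_act, hmat]
    congr 1
    funext i
    unfold spec
    rw [map_map]
    have h3 : (eval z).comp (rename inr').toRingHom = eval (z ∘ inr') := by
      apply MvPolynomial.ringHom_ext
      · intro a; simp
      · intro a; simp
    rw [h3]
  refine ⟨rename inl' M.det * X u,
    Sum.elim (fun i => X u * ∑ j, (M.map (rename inl')).adjugate i j * rename inr' (Q j))
      (fun p => coeff p.2 (act (M.map (rename inl'))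
        (fun i => map (rename inr').toRingHom (G i)) p.1)), ⟨?_, ?_⟩, ?_⟩
  · rintro x ⟨A, s, y, hA, hs, h1, h2⟩
    refine ⟨Sum.elim (fun p => A p.1 p.2) (Sum.elim (fun _ => s) y), ?_, ?_⟩
    · rw [map_mul, hdet, eval_X]
      exact mul_ne_zero hA hs
    · funext p
      rcases p with i | p
      · simp only [Sum.elim_inl]
        rw [map_mul, eval_X, map_sum]
        change x.1.2 i = _
        rw [h2]
        simp only [Pi.smul_apply, smul_eq_mul, Matrix.mulVec, dotProduct]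
        congr 1
        refine Finset.sum_congr rfl fun j _ => ?_
        rw [map_mul, hadj, eval_rename]
        rfl
      · simp only [Sum.elim_inr]
        change coeff p.2 (x.1.1 p.1) = _
        rw [h1, ← coeff_map]
        have := congrFun (hspec (Sum.elim (fun p => A p.1 p.2) (Sum.elim (fun _ => s) y))) p.1
        unfold spec at this
        rw [this]
        rfl
  · intro z hz
    rw [map_mul, hdet, eval_X, mul_ne_zero_iff] at hz
    have hg := hG (z ∘ inr')
    refine ⟨act2 (Matrix.of fun i j => z (Sum.inl (i, j))) hz.1 (z u) hz.2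
      ⟨(spec (z ∘ inr') G, fun i => eval (z ∘ inr') (Q i)), hg⟩,
      ⟨_, z u, z ∘ inr', hz.1, hz.2, rfl, rfl⟩, ?_⟩
    funext p
    rcases p with i | p
    · simp only [Sum.elim_inl]
      rw [map_mul, eval_X, map_sum]
      change (z u • (Matrix.of fun i j => z (Sum.inl (i, j))).adjugate.mulVec
        (fun i => eval (z ∘ inr') (Q i))) i = _
      simp only [Pi.smul_apply, smul_eq_mul, Matrix.mulVec, dotProduct]
      congr 1
      refine Finset.sum_congr rfl fun j _ => ?_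
      rw [map_mul, hadj, eval_rename]
    · simp only [Sum.elim_inr]
      rw [← coeff_map]
      have := congrFun (hspec z) p.1
      unfold spec at this
      rw [this]
      rfl
  · refine mul_ne_zero ?_ (X_ne_zero _)
    rw [Ne, ← map_zero (rename inl'), (rename_injective _ Sum.inl_injective).eq_iff]
    exact Matrix.det_mvPolynomialX_ne_zero _ _

theorem pfam_irred {τ : Type} (G : Tuple (MvPolynomial τ k) N)
    (Q : Fin (N + 1) → MvPolynomial τ k)
    (hG : ∀ y, IsEnd d (spec y G) ∧ HasExactPeriod n (spec y G) (fun i => eval y (Q i))) :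
    IsIrreducible (pfam d n G Q) := by
  have hinf : Infinite k := IsAlgClosed.instInfinite
  obtain ⟨h, q, hf, h0⟩ := isFam_pfam G Q hG
  exact hf.isIrreducible (isZar_ptCoords k N d n) h0

/-- Orbits of pairs are irreducible. -/
theorem ptFiber_irred (hNd : 0 < N + d) (m : ModuliPt k N d n) :
    IsIrreducible ((ptCls : PtTuple k N d n → ModuliPt k N d n) ⁻¹' {m}) := by
  obtain ⟨x, rfl⟩ := ptCls_surjective m
  have h1 : ∀ y : Empty → k, spec y (fun i => map (C : k →+* MvPolynomial Empty k) (x.1.1 i)) =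
      x.1.1 := by
    intro y
    funext i
    unfold spec
    rw [map_map]
    have : (eval y).comp (C : k →+* MvPolynomial Empty k) = RingHom.id k := by
      ext a; simp
    rw [this, map_id]
  have h2 : ∀ y : Empty → k, (fun i => eval y (C (x.1.2 i) : MvPolynomial Empty k)) = x.1.2 := by
    intro y
    funext i
    simp
  have := pfam_irred (d := d) (n := n) (fun i => map (C : k →+* MvPolynomial Empty k) (x.1.1 i))
    (fun i => C (x.1.2 i)) (by
      intro y
      rw [h1, h2]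
      exact x.2)
  convert this using 1
  ext z
  constructor
  · intro hz
    obtain ⟨A, hA, s, hs, rfl⟩ := (ptCls_eq_iff hNd x z).mp (Eq.symm hz)
    refine ⟨A, s, Empty.elim, hA, hs, ?_, ?_⟩
    · rw [h1]; rfl
    · rw [h2]; rfl
  · rintro ⟨A, s, y, hA, hs, h3, h4⟩
    rw [h1] at h3
    rw [h2] at h4
    exact Eq.symm ((ptCls_eq_iff hNd x z).mpr ⟨A, hA, s, hs, ptTuple_ext h3 h4⟩)

theorem ptPreimage_irred (hNd : 0 < N + d) {Z : Set (ModuliPt k N d n)}
    (hZ : IsIrreducible Z) : IsIrreducible ((ptCls : PtTuple k N d n → ModuliPt k N d n) ⁻¹' Z) := by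
  constructor
  · obtain ⟨m, hm⟩ := hZ.nonempty
    obtain ⟨F, rfl⟩ := ptCls_surjective m
    exact ⟨F, hm⟩
  · rintro U V hU hV ⟨F, hFZ, hFU⟩ ⟨G, hGZ, hGV⟩
    obtain ⟨m, hmZ, ⟨F', hF'U, hF'⟩, ⟨G', hG'V, hG'⟩⟩ := hZ.isPreirreducible _ _
      (isOpenMap_ptCls hNd U hU) (isOpenMap_ptCls hNd V hV) ⟨_, hFZ, F, hFU, rfl⟩
      ⟨_, hGZ, G, hGV, rfl⟩
    obtain ⟨H, hH, hHU, hHV⟩ := (ptFiber_irred hNd m).isPreirreducible U V hU hV
      ⟨F', hF', hF'U⟩ ⟨G', hG', hG'V⟩
    refine ⟨H, ?_, hHU, hHV⟩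
    change ptCls H ∈ Z
    rw [show ptCls H = m from hH]
    exact hmZ

end

end Pool.Agent.Helper819.Dyn
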