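import Pool.Agent.Helper819.SingFinal

/-!
Ideals of the ring of fractions of semi-invariants; it is Noetherian.
-/

open MvPolynomial Topology

namespace Pool.Agent.Helper819.Dyn

open Pool.Agent.Helper819.Apolar Pool.Agent.Helper819.Zar

noncomputable section

set_option linter.unusedSectionVars false

variable {k : Type} [Field k] {N d : ℕ} [IsAlgClosed k] [CharZero k]

theorem rho_dt_pow_mul {n : ℕ} (w v : ℕ) (p : MvPolynomial (Fin n × Fin n) k) :
    rho (w + v) (dt n k ^ v * p) = rho w p := by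
  induction v with
  | zero => rw [pow_zero, one_mul, add_zero]
  | succ v ih => rw [pow_succ', mul_assoc, ← add_assoc, rho_det_mul, ih]

theorem aeval_orb_semi {w : ℕ} {P : SS k N d} (hP : IsSemi w P) (c : Ix N d → k) :
    aeval (orb c) P = C (eval c P) * dt (N + 1) k ^ w := by
  have hinf : Infinite k := inferInstance
  apply poly_ext
  intro A _
  rw [eval_aeval_orb, hP A c, map_mul, eval_C, map_pow, eval_dt]
  ring

theorem sharp_semi {w : ℕ} {P : SS k N d} (hP : IsSemi w P) : sharp w P = P := by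
  have hinf : Infinite k := inferInstance
  apply MvPolynomial.funext
  intro c
  rw [eval_sharp, aeval_orb_semi hP, rho_smul, rho_dt, mul_one]

theorem sharp_mul_semi (w : ℕ) {v : ℕ} {P : SS k N d} (hP : IsSemi v P) (A : SS k N d) :
    sharp (w + v) (A * P) = sharp w A * P := by
  have hinf : Infinite k := inferInstance
  apply MvPolynomial.funext
  intro c
  rw [eval_sharp, map_mul, aeval_orb_semi hP, map_mul, eval_sharp]
  have h1 : aeval (orb c) A * (C (eval c P) * dt (N + 1) k ^ v) =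
      C (eval c P) * (dt (N + 1) k ^ v * aeval (orb c) A) := by ring
  rw [h1, rho_smul, rho_dt_pow_mul, mul_comm]

theorem sharp_sum (w : ℕ) {ι : Type} (s : Finset ι) (A : ι → SS k N d) :
    sharp w (∑ i ∈ s, A i) = ∑ i ∈ s, sharp w (A i) := by
  have hinf : Infinite k := inferInstance
  apply MvPolynomial.funext
  intro c
  rw [eval_sharp, map_sum, rho_sum, map_sum]
  exact Finset.sum_congr rfl fun i _ => (eval_sharp _ _ _).symm

/-- a combination of semi-invariants which is a semi-invariant is a combination with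
semi-invariant coefficients -/
theorem transfer {ι : Type} (s : Finset ι) {w : ℕ} {v : ι → ℕ} {P : ι → SS k N d}
    {G : SS k N d} (hP : ∀ i, IsSemi (v i) (P i)) (hv : ∀ i ∈ s, v i ≤ w) (hG : IsSemi w G)
    (A : ι → SS k N d) (hA : G = ∑ i ∈ s, A i * P i) :
    G = ∑ i ∈ s, sharp (w - v i) (A i) * P i := by
  have h1 := sharp_semi hG
  rw [← h1]
  conv_lhs => rw [hA]
  rw [sharp_sum]
  refine Finset.sum_congr rfl fun i hi => ?_
  rw [← sharp_mul_semi _ (hP i), Nat.sub_add_cancel (hv i hi)]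

theorem actT_zero_mat (hNd : 0 < N + d) (c : Ix N d → k) :
    actT (0 : Matrix (Fin (N + 1)) (Fin (N + 1)) k) c = 0 := by
  have h1 : (0 : Matrix (Fin (N + 1)) (Fin (N + 1)) k) = (0 : k) • 1 := by rw [zero_smul]
  rw [h1, actT_scalar, zero_pow (by omega), zero_smul]

theorem weight_pos (hd : 2 ≤ d) {f : Ix N d → k} {w : ℕ} {R : SS k N d} (hR : IsSemi w R)
    (hRf : eval f R ≠ 0) (hRNZ : ∀ c, eval c R ≠ 0 → NZ (tup c)) : 0 < w := by
  rw [Nat.pos_iff_ne_zero]
  rintro rfl
  have h1 := hR 0 f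
  rw [pow_zero, one_mul, actT_zero_mat (by omega)] at h1
  rw [← h1] at hRf
  exact NZ_ne_zero (hRNZ 0 hRf) rfl

theorem mem_span_of (hd : 2 ≤ d) {f : Ix N d → k} (hf : NZ (tup f)) {ι : Type} [Fintype ι]
    (x : ι → Of f) {w : ι → ℕ} {P Q : ι → SS k N d} (hrep : ∀ i, Rep f (w i) (P i) (Q i) (x i))
    (j : Of f) {v : ℕ} {G H : SS k N d} (hj : Rep f v G H j) {s : ℕ} {S : SS k N d}
    (hS : IsSemi s S) (hSf : eval f S ≠ 0) (hmem : S * G ∈ Ideal.span (Set.range P)) :
    j ∈ Ideal.span (Set.range x) := by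
  obtain ⟨w0, R, hRs, hRf, hRNZ⟩ := exists_semi_NZ hd hf
  have hw0 := weight_pos hd hRs hRf hRNZ
  obtain ⟨m, hm⟩ : ∃ m, m = ∑ i, w i := ⟨_, rfl⟩
  have hwm : ∀ i, w i ≤ m := fun i => by
    rw [hm]
    exact Finset.single_le_sum (fun i _ => Nat.zero_le (w i)) (Finset.mem_univ i)
  obtain ⟨A, hA⟩ := Ideal.mem_span_range_iff_exists_fun.mp hmem
  have hGs : IsSemi (s + v + w0 * m) (S * G * R ^ m) := (hS.mul hj.1).mul (hRs.pow m)
  have hA' : S * G * R ^ m = ∑ i, (R ^ m * A i) * P i := by
    rw [← hA, Finset.sum_mul]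
    exact Finset.sum_congr rfl fun i _ => by ring
  have hle : ∀ i ∈ (Finset.univ : Finset ι), w i ≤ s + v + w0 * m := by
    intro i _
    have h1 := hwm i
    have h2 : m ≤ w0 * m := Nat.le_mul_of_pos_left m hw0
    omega
  have htr := transfer Finset.univ (fun i => (hrep i).1) hle hGs _ hA'
  have hHs : IsSemi (s + v + w0 * m) (S * H * R ^ m) := (hS.mul hj.2.1).mul (hRs.pow m)
  have hHf : eval f (S * H * R ^ m) ≠ 0 := by
    rw [map_mul, map_mul, map_pow]
    exact mul_ne_zero (mul_ne_zero hSf hj.2.2.1) (pow_ne_zero _ hRf)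
  have hHne : am (S * H * R ^ m) ≠ 0 := am_ne_zero (ne_zero_of_eval hHf)
  let b : ι → Of f := fun i => ⟨am (sharp (s + v + w0 * m - w i) (R ^ m * A i) * Q i) /
    am (S * H * R ^ m), s + v + w0 * m, sharp (s + v + w0 * m - w i) (R ^ m * A i) * Q i,
    S * H * R ^ m, by
      have h1 := (isSemi_sharp (s + v + w0 * m - w i) (R ^ m * A i)).mul (hrep i).2.1
      rwa [Nat.sub_add_cancel (hle i (Finset.mem_univ i))] at h1, hHs, hHf,
    div_mul_cancel₀ _ hHne⟩
  rw [Ideal.mem_span_range_iff_exists_fun]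
  refine ⟨b, ?_⟩
  apply Subtype.ext
  have h0 : ((∑ i, b i * x i : Of f) : FractionRing (SS k N d)) =
      ∑ i, (b i : FractionRing (SS k N d)) * (x i : FractionRing (SS k N d)) := by
    push_cast
    rfl
  have h1 : ((∑ i, b i * x i : Of f) : FractionRing (SS k N d)) =
      ∑ i, (am (sharp (s + v + w0 * m - w i) (R ^ m * A i) * Q i) /
        am (S * H * R ^ m)) * (x i : FractionRing (SS k N d)) := h0
  rw [h1]
  have h2 : ∀ i, (am (sharp (s + v + w0 * m - w i) (R ^ m * A i) * Q i) /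
        am (S * H * R ^ m)) * (x i : FractionRing (SS k N d)) =
      am (sharp (s + v + w0 * m - w i) (R ^ m * A i) * P i) / am (S * H * R ^ m) := by
    intro i
    have h3 : am (sharp (s + v + w0 * m - w i) (R ^ m * A i) * P i) =
        am (sharp (s + v + w0 * m - w i) (R ^ m * A i) * Q i) * (x i : FractionRing (SS k N d)) := by
      have h4 := (hrep i).2.2.2
      simp only [am, map_mul] at h4 ⊢
      rw [← h4]
      ring
    rw [h3]
    ring
  simp_rw [h2]
  rw [← Finset.sum_div]
  have h3 : ∑ i, am (sharp (s + v + w0 * m - w i) (R ^ m * A i) * P i) = am (S * G * R ^ m) := by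
    rw [htr]
    simp only [am, map_sum]
  rw [h3, div_eq_iff hHne]
  have h4 := hj.2.2.2
  simp only [am, map_mul] at h4 ⊢
  rw [← h4]
  ring

theorem noeth_Of (hd : 2 ≤ d) {f : Ix N d → k} (hf : NZ (tup f)) : IsNoetherianRing (Of f) := by
  classical
  rw [isNoetherianRing_iff_ideal_fg]
  intro J
  let S : Set (SS k N d) := {P | ∃ (w : ℕ) (Q : SS k N d) (x : Of f), x ∈ J ∧ Rep f w P Q x}
  have hfg : (Submodule.span (SS k N d) S).FG := IsNoetherian.noetherian _
  obtain ⟨T, hTS, hT⟩ := (Submodule.fg_span_iff_fg_span_finset_subset S).mp hfg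
  choose w Q x hxJ hrep using fun P : T => hTS P.2
  refine ⟨Finset.univ.image x, ?_⟩
  rw [Finset.coe_image, Finset.coe_univ, Set.image_univ]
  apply le_antisymm
  · rw [Submodule.span_le]
    rintro _ ⟨P, rfl⟩
    exact hxJ P
  · intro j hj
    obtain ⟨v, G, H, hG⟩ := j.2
    have hGT : G ∈ Submodule.span (SS k N d) (T : Set (SS k N d)) := by
      rw [← hT]
      exact Submodule.subset_span ⟨v, H, j, hj, hG⟩
    refine mem_span_of hd hf x (P := fun P : T => P.1) hrep j hG IsSemi.one
      (by rw [map_one]; exact one_ne_zero) ?_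
    have h1 : Set.range (fun P : T => (P : SS k N d)) = (T : Set (SS k N d)) := by
      ext P
      constructor
      · rintro ⟨P, rfl⟩
        exact P.2
      · intro hP
        exact ⟨⟨P, hP⟩, rfl⟩
    rw [one_mul, h1]
    exact hGT

end

end Pool.Agent.Helper819.Dyn
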