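import Pool.Agent.Helper819.Reg1

/-!
The maximal ideal of the affine space is generated by semi-invariants and transversal coordinates
up to its square.
-/

open MvPolynomial Topology

namespace Pool.Agent.Helper819.Dyn

open Pool.Agent.Helper819.Apolar Pool.Agent.Helper819.Zar

noncomputable section

set_option linter.unusedSectionVars false

variable {k : Type} [Field k] {N d : ℕ}

theorem X_sub_mem (f : Ix N d → k) (p : Ix N d) : (X p - C (f p) : SS k N d) ∈ mf f := by
  rw [mem_mf, map_sub, eval_X, eval_C, sub_self]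

theorem taylor (f : Ix N d → k) (P : SS k N d) :
    P - C (eval f P) - ∑ p, C (eval f (pderiv p P)) * (X p - C (f p)) ∈ mf f ^ 2 := by
  classical
  induction P using MvPolynomial.induction_on with
  | C a => simp
  | add P Q hP hQ =>
    have h1 : P + Q - C (eval f (P + Q)) -
        ∑ p, C (eval f (pderiv p (P + Q))) * (X p - C (f p)) =
        (P - C (eval f P) - ∑ p, C (eval f (pderiv p P)) * (X p - C (f p))) +
        (Q - C (eval f Q) - ∑ p, C (eval f (pderiv p Q)) * (X p - C (f p))) := by
      simp only [map_add, add_mul, Finset.sum_add_distrib]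
      ring
    rw [h1]
    exact Ideal.add_mem _ hP hQ
  | mul_X P i hP =>
    have h1 : ∑ p, C (eval f (pderiv p (P * X i))) * (X p - C (f p)) =
        C (f i) * (∑ p, C (eval f (pderiv p P)) * (X p - C (f p))) +
          C (eval f P) * (X i - C (f i)) := by
      rw [Finset.mul_sum]
      have h2 : ∀ p, (C (eval f (pderiv p (P * X i))) * (X p - C (f p)) : SS k N d) =
          C (f i) * (C (eval f (pderiv p P)) * (X p - C (f p))) +
          (if p = i then C (eval f P) * (X i - C (f i)) else 0) := by
        intro p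
        rw [Derivation.leibniz, pderiv_X, smul_eq_mul, smul_eq_mul, map_add, map_mul, map_mul,
          eval_X]
        by_cases hp : p = i
        · subst hp
          rw [if_pos rfl, Pi.single_eq_same, map_one, map_add, map_mul, map_one, map_mul]
          ring
        · rw [if_neg hp, Pi.single_eq_of_ne (fun h => hp h.symm), map_zero, mul_zero, zero_add,
            map_mul, add_zero]
          ring
      simp_rw [h2]
      rw [Finset.sum_add_distrib]
      congr 1
      rw [Finset.sum_ite_eq' Finset.univ i]
      simp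
    have h2 : P * X i - C (eval f (P * X i)) -
        ∑ p, C (eval f (pderiv p (P * X i))) * (X p - C (f p)) =
        C (f i) * (P - C (eval f P) - ∑ p, C (eval f (pderiv p P)) * (X p - C (f p))) +
          (P - C (eval f P)) * (X i - C (f i)) := by
      rw [h1, map_mul, eval_X, map_mul]
      ring
    rw [h2]
    apply Ideal.add_mem
    · exact Ideal.mul_mem_left _ _ hP
    · rw [pow_two]
      apply Ideal.mul_mem_mul _ (X_sub_mem f i)
      rw [mem_mf, map_sub, eval_C, sub_self]

/-- polynomials vanishing to second order -/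
theorem mem_sq (f : Ix N d → k) {P : SS k N d} (h0 : eval f P = 0)
    (h1 : ∀ v, dd P f v = 0) : P ∈ mf f ^ 2 := by
  classical
  have h2 : ∀ p, eval f (pderiv p P) = 0 := by
    intro p
    have h3 := h1 (Pi.single p 1)
    unfold dd at h3
    rw [Finset.sum_eq_single p] at h3
    · rwa [Pi.single_eq_same, one_mul] at h3
    · intro q _ hq
      rw [Pi.single_eq_of_ne hq, zero_mul]
    · simp
  have h3 := taylor f P
  rw [h0] at h3
  simp only [h2, map_zero, zero_mul, Finset.sum_const_zero, sub_zero] at h3
  exact h3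

/-- transversal coordinates -/
def yy (f : Ix N d → k) (c : F2 N → Ix N d → k) (a : F2 N) : SS k N d :=
  ∑ p, C (c a p) * (X p - C (f p))

theorem eval_yy (f : Ix N d → k) (c : F2 N → Ix N d → k) (a : F2 N) :
    eval f (yy f c a) = 0 := by
  unfold yy
  rw [map_sum]
  apply Finset.sum_eq_zero
  intro p _
  rw [map_mul, map_sub, eval_X, eval_C, eval_C, sub_self, mul_zero]

theorem pderiv_yy (f : Ix N d → k) (c : F2 N → Ix N d → k) (a : F2 N) (p : Ix N d) :
    pderiv p (yy f c a) = C (c a p) := by
  classical
  unfold yy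
  rw [map_sum, Finset.sum_eq_single p]
  · rw [Derivation.leibniz, map_sub, pderiv_X_self, pderiv_C, pderiv_C, sub_zero, smul_zero,
      add_zero, smul_eq_mul, mul_one]
  · intro q _ hq
    rw [Derivation.leibniz, map_sub, pderiv_X_of_ne hq, pderiv_C, pderiv_C, sub_zero, smul_zero,
      smul_zero, add_zero]
  · simp

theorem dd_yy (f : Ix N d → k) (c : F2 N → Ix N d → k) (a : F2 N) (g v : Ix N d → k) :
    dd (yy f c a) g v = ∑ p, c a p * v p := by
  unfold dd
  refine Finset.sum_congr rfl fun p _ => ?_
  rw [pderiv_yy, eval_C, mul_comm]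

theorem span_top_of_ker {V : Type} [AddCommGroup V] [Module k V] [FiniteDimensional k V]
    {ι : Type} (φ : ι → Module.Dual k V) (h : ∀ v, (∀ i, φ i v = 0) → v = 0) :
    Submodule.span k (Set.range φ) = ⊤ := by
  have hE : (Submodule.span k (Set.range φ)).dualCoannihilator = ⊥ := by
    rw [eq_bot_iff]
    intro v hv
    rw [Submodule.mem_dualCoannihilator] at hv
    exact h v fun i => hv _ (Submodule.subset_span ⟨i, rfl⟩)
  have h1 := Subspace.finrank_add_finrank_dualCoannihilator_eq (Submodule.span k (Set.range φ))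
  rw [hE, finrank_bot, add_zero] at h1
  apply Submodule.eq_top_of_finrank_eq
  rw [h1, Subspace.dual_finrank_eq]

theorem mf_le (f : Ix N d → k) {D : ℕ} (P : Fin D → SS k N d) (hPf : ∀ j, eval f (P j) = 0)
    (c : F2 N → Ix N d → k)
    (hkill : ∀ v : Ix N d → k, (∀ i, dd (P i) f v = 0) → (∀ a, ∑ p, c a p * v p = 0) → v = 0) :
    mf f ≤ Ideal.span (Set.range P) ⊔ Ideal.span (Set.range (yy f c)) ⊔ mf f ^ 2 := by
  intro G hG
  rw [mem_mf] at hG
  have htop := span_top_of_ker (fun i : Fin D ⊕ F2 N => Sum.elim (fun j => ddL (P j) f)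
    (fun a => ddL (yy f c a) f) i) (by
    intro v hv
    apply hkill v
    · intro i
      exact hv (Sum.inl i)
    · intro a
      rw [← dd_yy f c a f v]
      exact hv (Sum.inr a))
  have hmem : ddL G f ∈ Submodule.span k (Set.range (fun i : Fin D ⊕ F2 N =>
      Sum.elim (fun j => ddL (P j) f) (fun a => ddL (yy f c a) f) i)) := by
    rw [htop]; trivial
  obtain ⟨α, hα⟩ := (Submodule.mem_span_range_iff_exists_fun _).mp hmem
  rw [Fintype.sum_sum_type] at hα
  simp only [Sum.elim_inl, Sum.elim_inr] at hα
  let G1 : SS k N d := ∑ j, C (α (Sum.inl j)) * P j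
  let G2 : SS k N d := ∑ a, C (α (Sum.inr a)) * yy f c a
  have hdd : ∀ v, dd (G - G1 - G2) f v = 0 := by
    intro v
    have h1 : ∀ (A B : SS k N d), dd (A - B) f v = dd A f v - dd B f v := by
      intro A B
      unfold dd
      simp only [map_sub, mul_sub, Finset.sum_sub_distrib]
    have h2 : ∀ (ι : Type) [Fintype ι] (β : ι → k) (A : ι → SS k N d),
        dd (∑ i, C (β i) * A i) f v = ∑ i, β i * dd (A i) f v := by
      intro ι _ β A
      unfold dd
      simp only [map_sum, Finset.mul_sum]
      rw [Finset.sum_comm]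
      refine Finset.sum_congr rfl fun p _ => Finset.sum_congr rfl fun i _ => ?_
      rw [Derivation.leibniz, pderiv_C, smul_zero, add_zero, smul_eq_mul, map_mul, eval_C]
      ring
    rw [h1, h1, h2, h2]
    have h3 := congrArg (fun φ : Module.Dual k (Ix N d → k) => φ v) hα
    simp only [LinearMap.add_apply, LinearMap.sum_apply, LinearMap.smul_apply, ddL_apply,
      smul_eq_mul] at h3
    rw [← h3]
    ring
  have hev : eval f (G - G1 - G2) = 0 := by
    rw [map_sub, map_sub, hG, map_sum, map_sum, Finset.sum_eq_zero, Finset.sum_eq_zero]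
    · ring
    · intro a _
      rw [map_mul, eval_yy, mul_zero]
    · intro j _
      rw [map_mul, hPf, mul_zero]
  have h1 := mem_sq f hev hdd
  have h2 : G = (G1 + G2) + (G - G1 - G2) := by ring
  rw [h2]
  apply Submodule.add_mem_sup _ h1
  apply Submodule.add_mem_sup
  · exact Ideal.sum_mem _ fun j _ => Ideal.mul_mem_left _ _ (Ideal.subset_span ⟨j, rfl⟩)
  · exact Ideal.sum_mem _ fun j _ => Ideal.mul_mem_left _ _ (Ideal.subset_span ⟨j, rfl⟩)

end

end Pool.Agent.Helper819.Dyn
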