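import Pool.Agent.Helper819.Reg2

/-!
An Euler derivation along the orbits.
-/

open MvPolynomial Topology

namespace Pool.Agent.Helper819.Dyn

open Pool.Agent.Helper819.Apolar Pool.Agent.Helper819.Zar

noncomputable section

set_option linter.unusedSectionVars false

variable {k : Type} [Field k] {N d : ℕ}

theorem der_sum_apply {ι : Type} (s : Finset ι) (E : ι → Derivation k (SS k N d) (SS k N d))
    (x : SS k N d) : (∑ i ∈ s, E i) x = ∑ i ∈ s, E i x := by
  classical
  induction s using Finset.induction_on with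
  | empty => simp
  | insert a s ha ih => rw [Finset.sum_insert ha, Finset.sum_insert ha, Derivation.add_apply, ih]

/-- vector field of an infinitesimal matrix -/
def Xi (k : Type) [Field k] (N d : ℕ) (b : F2 N) : Derivation k (SS k N d) (SS k N d) :=
  ∑ p, (xi (Matrix.single b.1 b.2 1) (X : Ix N d → SS k N d) p) •
    (pderiv p : Derivation k (SS k N d) (SS k N d))

theorem Xi_apply (b : F2 N) (P : SS k N d) : Xi k N d b P =
    ∑ p, xi (Matrix.single b.1 b.2 1) (X : Ix N d → SS k N d) p * pderiv p P := by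
  unfold Xi
  rw [der_sum_apply]
  rfl

theorem eval_xi_X (b : F2 N) (g : Ix N d → k) (p : Ix N d) :
    eval g (xi (Matrix.single b.1 b.2 1) (X : Ix N d → SS k N d) p) =
      xi (Matrix.single b.1 b.2 1) g p := by
  rw [map_xi]
  congr 1
  · ext i j
    rw [Matrix.map_apply, Matrix.single_apply, Matrix.single_apply]
    split_ifs <;> simp
  · funext q
    exact eval_X _

theorem eval_Xi (b : F2 N) (P : SS k N d) (g : Ix N d → k) :
    eval g (Xi k N d b P) = dd P g (xi (Matrix.single b.1 b.2 1) g) := by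
  rw [Xi_apply, map_sum]
  unfold dd
  refine Finset.sum_congr rfl fun p _ => ?_
  rw [map_mul, eval_xi_X]

theorem Xi_semi [Infinite k] {w : ℕ} {P : SS k N d} (hP : IsSemi w P) (b : F2 N) :
    Xi k N d b P = C (w * (Matrix.single b.1 b.2 (1 : k)).trace) * P := by
  apply MvPolynomial.funext
  intro g
  rw [eval_Xi, semi_lie hP, map_mul, eval_C]

/-- the transversality matrix -/
def TrM (c : F2 N → Ix N d → k) : Matrix (F2 N) (F2 N) (SS k N d) :=
  Matrix.of fun a b => ∑ p, C (c a p) * xi (Matrix.single b.1 b.2 1) (X : Ix N d → SS k N d) p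

theorem det_TrM (c : F2 N → Ix N d → k) : (TrM c).det = tr0 c := rfl

theorem Xi_yy (f : Ix N d → k) (c : F2 N → Ix N d → k) (a b : F2 N) :
    Xi k N d b (yy f c a) = TrM c a b := by
  rw [Xi_apply]
  unfold TrM
  rw [Matrix.of_apply]
  refine Finset.sum_congr rfl fun p _ => ?_
  rw [pderiv_yy, mul_comm]

/-- the Euler derivation along the orbits -/
def theta (f : Ix N d → k) (c : F2 N → Ix N d → k) : Derivation k (SS k N d) (SS k N d) :=
  ∑ a, yy f c a • ∑ b, (TrM c).adjugate b a • Xi k N d b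

theorem theta_apply (f : Ix N d → k) (c : F2 N → Ix N d → k) (P : SS k N d) :
    theta f c P = ∑ a, yy f c a * ∑ b, (TrM c).adjugate b a * Xi k N d b P := by
  unfold theta
  rw [der_sum_apply]
  refine Finset.sum_congr rfl fun a _ => ?_
  rw [Derivation.coe_smul, Pi.smul_apply, smul_eq_mul, der_sum_apply]
  rfl

theorem theta_yy (f : Ix N d → k) (c : F2 N → Ix N d → k) (a : F2 N) :
    theta f c (yy f c a) = tr0 c * yy f c a := by
  rw [theta_apply]
  have h1 : ∀ a', ∑ b, (TrM c).adjugate b a' * Xi k N d b (yy f c a) =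
      if a' = a then tr0 c else 0 := by
    intro a'
    have h2 : ∑ b, (TrM c).adjugate b a' * Xi k N d b (yy f c a) =
        (TrM c * (TrM c).adjugate) a a' := by
      rw [Matrix.mul_apply]
      refine Finset.sum_congr rfl fun b _ => ?_
      rw [Xi_yy, mul_comm]
    rw [h2, Matrix.mul_adjugate, Matrix.smul_apply, Matrix.one_apply, det_TrM, smul_eq_mul]
    by_cases h : a' = a
    · rw [if_pos h, if_pos h.symm, mul_one]
    · rw [if_neg h, if_neg (fun h' => h h'.symm), mul_zero]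
  simp_rw [h1]
  rw [Finset.sum_eq_single a]
  · rw [if_pos rfl, mul_comm]
  · intro b _ hb
    rw [if_neg hb, mul_zero]
  · simp

theorem yy_le (f : Ix N d → k) (c : F2 N → Ix N d → k) :
    Ideal.span (Set.range (yy f c)) ≤ mf f := by
  rw [Ideal.span_le]
  rintro _ ⟨a, rfl⟩
  exact (mem_mf f _).mpr (eval_yy f c a)

theorem theta_mem (f : Ix N d → k) (c : F2 N → Ix N d → k) (z : SS k N d) :
    theta f c z ∈ mf f := by
  rw [theta_apply]
  apply Ideal.sum_mem
  intro a _
  exact Ideal.mul_mem_right _ _ ((mem_mf f _).mpr (eval_yy f c a))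

theorem theta_semi [Infinite k] (f : Ix N d → k) (c : F2 N → Ix N d → k) {w : ℕ} {P : SS k N d}
    (hP : IsSemi w P) : ∃ μ ∈ mf f, theta f c P = μ * P := by
  refine ⟨∑ a, yy f c a * ∑ b, (TrM c).adjugate b a *
    C (w * (Matrix.single b.1 b.2 (1 : k)).trace), ?_, ?_⟩
  · apply Ideal.sum_mem
    intro a _
    exact Ideal.mul_mem_right _ _ ((mem_mf f _).mpr (eval_yy f c a))
  · rw [theta_apply, Finset.sum_mul]
    refine Finset.sum_congr rfl fun a _ => ?_
    rw [mul_assoc, Finset.sum_mul]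
    congr 1
    refine Finset.sum_congr rfl fun b _ => ?_
    rw [Xi_semi hP, mul_assoc]

theorem theta_sq (f : Ix N d → k) (c : F2 N → Ix N d → k) {z : SS k N d} (hz : z ∈ mf f ^ 2) :
    theta f c z ∈ mf f ^ 2 := by
  rw [pow_two] at hz ⊢
  refine Submodule.mul_induction_on hz ?_ ?_
  · intro u hu v hv
    rw [Derivation.leibniz, smul_eq_mul, smul_eq_mul]
    exact Ideal.add_mem _ (Ideal.mul_mem_mul hu (theta_mem f c v))
      (Ideal.mul_mem_mul hv (theta_mem f c u))
  · intro u v hu hv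
    rw [map_add]
    exact Ideal.add_mem _ hu hv

theorem theta_span (f : Ix N d → k) (c : F2 N → Ix N d → k) {z : SS k N d}
    (hz : z ∈ Ideal.span (Set.range (yy f c))) : theta f c z - tr0 c * z ∈ mf f ^ 2 := by
  induction hz using Submodule.span_induction with
  | mem x hx =>
    obtain ⟨a, rfl⟩ := hx
    rw [theta_yy, sub_self]
    exact zero_mem _
  | zero => simp
  | add x y _ _ hx hy =>
    have h4 : theta f c (x + y) - tr0 c * (x + y) =
        (theta f c x - tr0 c * x) + (theta f c y - tr0 c * y) := by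
      rw [map_add]; ring
    rw [h4]
    exact Ideal.add_mem _ hx hy
  | smul a x hx' hx =>
    have h4 : theta f c (a • x) - tr0 c * (a • x) =
        a * (theta f c x - tr0 c * x) + theta f c a * x := by
      rw [smul_eq_mul, Derivation.leibniz, smul_eq_mul, smul_eq_mul]; ring
    rw [h4]
    apply Ideal.add_mem _ (Ideal.mul_mem_left _ _ hx)
    rw [pow_two]
    exact Ideal.mul_mem_mul (theta_mem f c a) (yy_le f c hx')

theorem theta_one_step (f : Ix N d → k) (c : F2 N → Ix N d → k) (𝔭 : Ideal (SS k N d))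
    (hle : mf f ≤ 𝔭 ⊔ Ideal.span (Set.range (yy f c)) ⊔ mf f ^ 2)
    (h𝔭 : ∀ z ∈ 𝔭, theta f c z ∈ 𝔭) {u : SS k N d} (hu : u ∈ mf f) :
    theta f c u - tr0 c * u ∈ 𝔭 ⊔ mf f ^ 2 := by
  obtain ⟨u1, hu1, u3, hu3, rfl⟩ := Submodule.mem_sup.mp (hle hu)
  obtain ⟨u1, hu1', u2, hu2, rfl⟩ := Submodule.mem_sup.mp hu1
  have h1 : theta f c u1 - tr0 c * u1 ∈ 𝔭 :=
    Ideal.sub_mem _ (h𝔭 u1 hu1') (Ideal.mul_mem_left _ _ hu1')
  have h3 : theta f c u3 - tr0 c * u3 ∈ mf f ^ 2 :=
    Ideal.sub_mem _ (theta_sq f c hu3) (Ideal.mul_mem_left _ _ hu3)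
  have h2 : theta f c u2 - tr0 c * u2 ∈ mf f ^ 2 := theta_span f c hu2
  have h4 : theta f c (u1 + u2 + u3) - tr0 c * (u1 + u2 + u3) =
      (theta f c u1 - tr0 c * u1) + ((theta f c u2 - tr0 c * u2) +
        (theta f c u3 - tr0 c * u3)) := by
    rw [map_add, map_add]; ring
  rw [h4]
  exact Submodule.add_mem_sup h1 (Ideal.add_mem _ h2 h3)

theorem theta_pow (f : Ix N d → k) (c : F2 N → Ix N d → k) (𝔭 : Ideal (SS k N d))
    (hle : mf f ≤ 𝔭 ⊔ Ideal.span (Set.range (yy f c)) ⊔ mf f ^ 2)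
    (h𝔭 : ∀ z ∈ 𝔭, theta f c z ∈ 𝔭) (j : ℕ) {z : SS k N d} (hz : z ∈ mf f ^ j) :
    theta f c z - (j : SS k N d) * tr0 c * z ∈ 𝔭 ⊔ mf f ^ (j + 1) := by
  induction j generalizing z with
  | zero =>
    rw [Nat.cast_zero, zero_mul, zero_mul, sub_zero, zero_add, pow_one]
    exact Ideal.mem_sup_right (theta_mem f c z)
  | succ j ih =>
    rw [pow_succ'] at hz
    refine Submodule.mul_induction_on hz ?_ ?_
    · intro u hu v hv
      have h1 := theta_one_step f c 𝔭 hle h𝔭 hu
      have h2 := ih hv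
      have h3 : theta f c (u * v) - ((j + 1 : ℕ) : SS k N d) * tr0 c * (u * v) =
          (theta f c u - tr0 c * u) * v + u * (theta f c v - (j : SS k N d) * tr0 c * v) := by
        rw [Derivation.leibniz, smul_eq_mul, smul_eq_mul]
        push_cast
        ring
      rw [h3]
      apply Ideal.add_mem
      · obtain ⟨a, ha, b, hb, hab⟩ := Submodule.mem_sup.mp h1
        rw [← hab, add_mul]
        apply Submodule.add_mem_sup (Ideal.mul_mem_right _ _ ha)
        have : j + 1 + 1 = 2 + j := by ring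
        rw [this, pow_add]
        exact Ideal.mul_mem_mul hb hv
      · obtain ⟨a, ha, b, hb, hab⟩ := Submodule.mem_sup.mp h2
        rw [← hab, mul_add]
        apply Submodule.add_mem_sup (Ideal.mul_mem_left _ _ ha)
        rw [pow_succ' _ (j + 1)]
        exact Ideal.mul_mem_mul hu hb
    · intro u v hu hv
      have h3 : theta f c (u + v) - ((j + 1 : ℕ) : SS k N d) * tr0 c * (u + v) =
          (theta f c u - ((j + 1 : ℕ) : SS k N d) * tr0 c * u) +
            (theta f c v - ((j + 1 : ℕ) : SS k N d) * tr0 c * v) := by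
        rw [map_add]; ring
      rw [h3]
      exact Ideal.add_mem _ hu hv

variable [CharZero k]

theorem mem_all (f : Ix N d → k) (c : F2 N → Ix N d → k) (hc : eval f (tr0 c) ≠ 0)
    (𝔭 : Ideal (SS k N d)) (hle : mf f ≤ 𝔭 ⊔ Ideal.span (Set.range (yy f c)) ⊔ mf f ^ 2)
    (h𝔭 : ∀ z ∈ 𝔭, theta f c z ∈ 𝔭) {w : ℕ} {G : SS k N d} (hG : IsSemi w G)
    (hGf : eval f G = 0) (j : ℕ) : G ∈ 𝔭 ⊔ mf f ^ (j + 1) := by
  have hinf : Infinite k := inferInstance
  obtain ⟨μ, hμ, hθ⟩ := theta_semi f c hG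
  induction j with
  | zero =>
    rw [zero_add, pow_one]
    exact Ideal.mem_sup_right ((mem_mf f G).mpr hGf)
  | succ j ih =>
    obtain ⟨z', hz', z, hz, rfl⟩ := Submodule.mem_sup.mp ih
    apply Submodule.add_mem _ (Ideal.mem_sup_left hz')
    have h1 := theta_pow f c 𝔭 hle h𝔭 (j + 1) hz
    have h2 : theta f c z ∈ 𝔭 ⊔ mf f ^ (j + 1 + 1) := by
      have h3 : theta f c z = (μ * z' - theta f c z') + μ * z := by
        rw [map_add] at hθ
        linear_combination hθ
      rw [h3]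
      apply Submodule.add_mem_sup
      · exact Ideal.sub_mem _ (Ideal.mul_mem_left _ _ hz') (h𝔭 z' hz')
      · rw [pow_succ' _ (j + 1)]
        exact Ideal.mul_mem_mul hμ hz
    have h3 : (tr0 c - C (eval f (tr0 c))) * z ∈ 𝔭 ⊔ mf f ^ (j + 1 + 1) := by
      apply Ideal.mem_sup_right
      rw [pow_succ' _ (j + 1)]
      apply Ideal.mul_mem_mul _ hz
      rw [mem_mf, map_sub, eval_C, sub_self]
    have hjne : ((j + 1 : ℕ) : k) ≠ 0 := Nat.cast_ne_zero.mpr (Nat.succ_ne_zero j)
    have h4 : z = C (((j + 1 : ℕ) : k) * eval f (tr0 c))⁻¹ * (theta f c z -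
        (theta f c z - ((j + 1 : ℕ) : SS k N d) * tr0 c * z) -
        ((j + 1 : ℕ) : SS k N d) * ((tr0 c - C (eval f (tr0 c))) * z)) := by
      have h5 : C (((j + 1 : ℕ) : k) * eval f (tr0 c))⁻¹ *
          (((j + 1 : ℕ) : SS k N d) * C (eval f (tr0 c))) = 1 := by
        have h6 : ((j + 1 : ℕ) : SS k N d) = C ((j + 1 : ℕ) : k) := by
          rw [map_natCast]
        rw [h6, ← C_mul, ← C_mul, inv_mul_cancel₀ (mul_ne_zero hjne hc), C_1]
      linear_combination (-z) * h5
    rw [h4]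
    apply Ideal.mul_mem_left
    apply Ideal.sub_mem _ (Ideal.sub_mem _ h2 h1)
    exact Ideal.mul_mem_left _ _ h3

/-- Krull's intersection theorem -/
theorem krull_int (f : Ix N d → k) (𝔭 : Ideal (SS k N d)) {G : SS k N d}
    (hG : ∀ j, G ∈ 𝔭 ⊔ mf f ^ (j + 1)) : ∃ B : SS k N d, eval f B ≠ 0 ∧ B * G ∈ 𝔭 := by
  have h1 : (Ideal.Quotient.mk 𝔭 G) ∈
      (⨅ i : ℕ, mf f ^ i • ⊤ : Submodule (SS k N d) (SS k N d ⧸ 𝔭)) := by
    rw [Submodule.mem_iInf]
    intro i
    have h2 : G ∈ 𝔭 ⊔ mf f ^ i := by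
      apply (sup_le_sup_left (Ideal.pow_le_pow_right (Nat.le_succ i)) 𝔭) (hG i)
    obtain ⟨a, ha, b, hb, rfl⟩ := Submodule.mem_sup.mp h2
    have h3 : Ideal.Quotient.mk 𝔭 (a + b) = b • (1 : SS k N d ⧸ 𝔭) := by
      rw [map_add, Ideal.Quotient.eq_zero_iff_mem.mpr ha, zero_add]
      change Ideal.Quotient.mk 𝔭 b = Ideal.Quotient.mk 𝔭 (b * 1)
      rw [mul_one]
    rw [h3]
    exact Submodule.smul_mem_smul hb trivial
  obtain ⟨r, hr⟩ := (Ideal.mem_iInf_smul_pow_eq_bot_iff (mf f) _).mp h1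
  refine ⟨1 - (r : SS k N d), ?_, ?_⟩
  · rw [map_sub, map_one, (mem_mf f _).mp r.2, sub_zero]
    exact one_ne_zero
  · rw [← Ideal.Quotient.eq_zero_iff_mem, map_mul, map_sub, map_one, sub_mul, one_mul]
    have h4 : (Ideal.Quotient.mk 𝔭) (r : SS k N d) * (Ideal.Quotient.mk 𝔭) G =
        (r : SS k N d) • (Ideal.Quotient.mk 𝔭) G := by
      rw [← map_mul]
      rfl
    rw [h4, hr, sub_self]

end

end Pool.Agent.Helper819.Dyn
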