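import Pool.Agent.Helper819.Reg3

/-!
The maximal ideal of the ring of fractions of semi-invariants at a free point.
-/

open MvPolynomial Topology

namespace Pool.Agent.Helper819.Dyn

open Pool.Agent.Helper819.Apolar Pool.Agent.Helper819.Zar

noncomputable section

set_option linter.unusedSectionVars false

variable {k : Type} [Field k] {N d : ℕ} [IsAlgClosed k] [CharZero k]

theorem compT_semi {w : ℕ} {P : SS k N d} (hP : IsSemi w P)
    (A : Matrix (Fin (N + 1)) (Fin (N + 1)) k) : compT A P = C (A.det ^ w) * P := by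
  have hinf : Infinite k := inferInstance
  apply MvPolynomial.funext
  intro c
  rw [eval_compT, hP A c, map_mul, eval_C]

theorem compT_span {ι : Type} {w : ι → ℕ} {P : ι → SS k N d} (hP : ∀ j, IsSemi (w j) (P j))
    (A : Matrix (Fin (N + 1)) (Fin (N + 1)) k) {z : SS k N d}
    (hz : z ∈ Ideal.span (Set.range P)) : compT A z ∈ Ideal.span (Set.range P) := by
  induction hz using Submodule.span_induction with
  | mem x hx =>
    obtain ⟨j, rfl⟩ := hx
    rw [compT_semi (hP j)]
    exact Ideal.mul_mem_left _ _ (Ideal.subset_span ⟨j, rfl⟩)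
  | zero => rw [map_zero]; exact zero_mem _
  | add x y _ _ hx hy => rw [map_add]; exact Ideal.add_mem _ hx hy
  | smul a x _ hx => rw [smul_eq_mul, map_mul]; exact Ideal.mul_mem_left _ _ hx

/-- multipliers into an ideal generated by semi-invariants -/
theorem exists_semi_mem (hd : 2 ≤ d) {f : Ix N d → k} (hf : NZ (tup f)) {ι : Type} {w : ι → ℕ}
    {P : ι → SS k N d} (hP : ∀ j, IsSemi (w j) (P j)) {v : ℕ} {G : SS k N d} (hG : IsSemi v G)
    {B : SS k N d} (hBf : eval f B ≠ 0) (hB : B * G ∈ Ideal.span (Set.range P)) :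
    ∃ (s : ℕ) (S : SS k N d), IsSemi s S ∧ eval f S ≠ 0 ∧ S * G ∈ Ideal.span (Set.range P) := by
  let I : Ideal (SS k N d) :=
    { carrier := {B | B * G ∈ Ideal.span (Set.range P)}
      add_mem' := by
        intro a b ha hb
        change (a + b) * G ∈ Ideal.span (Set.range P)
        rw [add_mul]
        exact Ideal.add_mem _ ha hb
      zero_mem' := by
        change 0 * G ∈ Ideal.span (Set.range P)
        rw [zero_mul]
        exact zero_mem _
      smul_mem' := by
        intro a b hb
        change a * b * G ∈ Ideal.span (Set.range P)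
        rw [mul_assoc]
        exact Ideal.mul_mem_left _ _ hb }
  have hI : ∀ B, B ∈ I ↔ B * G ∈ Ideal.span (Set.range P) := fun _ => Iff.rfl
  let Z : Set (Ix N d → k) := {z | ∀ B ∈ I, eval z B = 0}
  obtain ⟨s, S, hS, hSf, hSZ⟩ := exists_semi hd hf Z (by
    intro c hc B hB
    apply hc
    intro z hz
    exact hz B hB) (by
    intro A hA z hz B hB
    rw [← eval_compT]
    apply hz
    rw [hI]
    have h1 := compT_span hP A ((hI B).mp hB)
    rw [map_mul, compT_semi hG] at h1
    have h2 : compT A B * G = C (A.det ^ v)⁻¹ * (compT A B * (C (A.det ^ v) * G)) := by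
      have h3 : (C (A.det ^ v)⁻¹ * C (A.det ^ v) : SS k N d) = 1 := by
        rw [← C_mul, inv_mul_cancel₀ (pow_ne_zero _ hA), C_1]
      linear_combination (-compT A B * G) * h3
    rw [h2]
    exact Ideal.mul_mem_left _ _ h1) (by
    intro h
    exact hBf (h B hB))
  have hrad : S ∈ I.radical := by
    rw [← vanishingIdeal_zeroLocus_eq_radical (K := k), mem_vanishingIdeal_iff]
    intro c hc
    have hc' : eval c S = 0 := by
      apply hSZ
      intro B hB
      have := (mem_zeroLocus_iff.mp hc) B hB
      rw [← coe_aeval_eq_eval]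
      exact this
    rw [← coe_aeval_eq_eval] at hc'
    exact hc'
  obtain ⟨m, hm⟩ := hrad
  refine ⟨s * m, S ^ m, hS.pow m, ?_, hm⟩
  rw [map_pow]
  exact pow_ne_zero _ hSf

/-- the maximal ideal is generated by invariants with independent differentials -/
theorem span_eq_max (hd : 2 ≤ d) {f : Ix N d → k} (hf : NZ (tup f)) {D : ℕ} {w : Fin D → ℕ}
    {P Q : Fin D → SS k N d} {h : Fin D → Of f} (hrep : ∀ i, Rep f (w i) (P i) (Q i) (h i))
    (hPf : ∀ i, eval f (P i) = 0) (c : F2 N → Ix N d → k) (hc : eval f (tr0 c) ≠ 0)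
    (hkill : ∀ v : Ix N d → k, (∀ i, dd (P i) f v = 0) → (∀ a, ∑ p, c a p * v p = 0) → v = 0) :
    Ideal.span (Set.range h) = IsLocalRing.maximalIdeal (Of f) := by
  have hinf : Infinite k := inferInstance
  apply le_antisymm
  · rw [Ideal.span_le]
    rintro _ ⟨i, rfl⟩
    rw [SetLike.mem_coe, mem_max_iff, evO_eq_zero_iff f (h i) (hrep i)]
    exact hPf i
  · intro x hx
    obtain ⟨v, G, H, hG⟩ := x.2
    rw [mem_max_iff, evO_eq_zero_iff f x hG] at hx
    have hle := mf_le f P hPf c hkill
    have h𝔭 : ∀ z ∈ Ideal.span (Set.range P), theta f c z ∈ Ideal.span (Set.range P) := by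
      intro z hz
      induction hz using Submodule.span_induction with
      | mem x hx =>
        obtain ⟨j, rfl⟩ := hx
        obtain ⟨μ, _, hμ⟩ := theta_semi f c (hrep j).1
        rw [hμ]
        exact Ideal.mul_mem_left _ _ (Ideal.subset_span ⟨j, rfl⟩)
      | zero => rw [map_zero]; exact zero_mem _
      | add x y _ _ hx hy => rw [map_add]; exact Ideal.add_mem _ hx hy
      | smul a x hx' hx =>
        rw [smul_eq_mul, Derivation.leibniz, smul_eq_mul, smul_eq_mul]
        exact Ideal.add_mem _ (Ideal.mul_mem_left _ _ hx) (Ideal.mul_mem_right _ _ hx')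
    obtain ⟨B, hBf, hB⟩ := krull_int f (Ideal.span (Set.range P))
      (mem_all f c hc _ hle h𝔭 hG.1 hx)
    obtain ⟨s, S, hS, hSf, hSG⟩ := exists_semi_mem hd hf (fun j => (hrep j).1) hG.1 hBf hB
    exact mem_span_of hd hf h hrep x hG hS hSf hSG

/-- translation -/
def trans (u : Ix N d → k) : SS k N d →ₐ[k] SS k N d := bind₁ (fun p => X p + C (u p))

theorem trans_trans (u v : Ix N d → k) (h : ∀ p, u p + v p = 0) :
    (trans u).comp (trans v) = AlgHom.id k (SS k N d) := by
  apply MvPolynomial.algHom_ext
  intro p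
  rw [AlgHom.comp_apply, AlgHom.id_apply]
  unfold trans
  rw [bind₁_X_right, map_add, bind₁_X_right, algHom_C, add_assoc]
  change X p + (C (u p) + C (v p)) = X p
  rw [← C_add, h, C_0, add_zero]

theorem eval_trans (u g : Ix N d → k) (P : SS k N d) : eval g (trans u P) = eval (g + u) P := by
  have h1 : eval g (bind₁ (fun p => (X p + C (u p) : SS k N d)) P) =
      eval (fun p => eval g (X p + C (u p) : SS k N d)) P := eval_bind' _ _ _
  unfold trans
  rw [h1]
  congr 2
  funext p
  rw [map_add, eval_X, eval_C]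
  rfl

/-- translation -/
def trE (u : Ix N d → k) : SS k N d ≃ₐ[k] SS k N d :=
  AlgEquiv.ofAlgHom (trans u) (trans (-u)) (trans_trans _ _ fun p => by simp)
    (trans_trans _ _ fun p => by simp)

theorem comap_trE (u g : Ix N d → k) : (mf g).comap (trE u).toRingEquiv = mf (g + u) := by
  ext P
  rw [Ideal.mem_comap, mem_mf, mem_mf]
  change eval g (trans u P) = 0 ↔ _
  rw [eval_trans]

theorem height_eq (f g : Ix N d → k) : (mf f).height = (mf g).height := by
  have h1 := RingEquiv.height_comap (trE (f - g)).toRingEquiv (mf g)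
  rw [comap_trE, add_sub_cancel] at h1
  exact h1

theorem height_mf (f : Ix N d → k) : (mf f).height = (Fintype.card (Ix N d) : ℕ∞) := by
  have h1 := Ideal.sup_isMaximal_height_eq_ringKrullDim (R := SS k N d)
  have h2 : (⨆ (I : Ideal (SS k N d)) (_ : I.IsMaximal), I.height) = (mf f).height := by
    apply le_antisymm
    · refine iSup₂_le fun I hI => ?_
      obtain ⟨y, hy⟩ := isMaximal_iff_eq_vanishingIdeal_singleton.mp hI
      have h3 : I = mf y := by
        ext P
        rw [hy, mem_vanishingIdeal_singleton_iff, mem_mf, ← coe_aeval_eq_eval]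
        rfl
      rw [h3, height_eq y f]
    · exact le_iSup₂_of_le (mf f) (mf_max f) le_rfl
  rw [h2, MvPolynomial.ringKrullDim_of_isNoetherianRing, ringKrullDim_eq_zero_of_field, zero_add,
    Nat.card_eq_fintype_card] at h1
  exact_mod_cast h1

theorem height_L (f : Ix N d → k) :
    (IsLocalRing.maximalIdeal (Lc f)).height = (Fintype.card (Ix N d) : ℕ∞) := by
  rw [← height_mf f, ← IsLocalization.height_under (mf f).primeCompl,
    IsLocalization.AtPrime.under_maximalIdeal (Lc f) (mf f)]

end

end Pool.Agent.Helper819.Dyn
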