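import Pool.Agent.Helper819.Reg4

/-!
Points with trivial automorphism group are regular.
-/

open MvPolynomial Topology

namespace Pool.Agent.Helper819.Dyn

open Pool.Agent.Helper819.Apolar Pool.Agent.Helper819.Zar

noncomputable section

set_option linter.unusedSectionVars false

variable {k : Type} [Field k] {N d : ℕ} [IsAlgClosed k] [CharZero k]

theorem evL_alg (f : Ix N d → k) (P : SS k N d) :
    evL f (algebraMap (SS k N d) (Lc f) P) = eval f P := by
  have h := evL_eq f (algebraMap (SS k N d) (Lc f) P) P 1 (by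
    change am P * am 1 = am P
    simp [am])
  rwa [map_one, mul_one] at h

theorem mem_max_L_iff (f : Ix N d → k) (x : Lc f) :
    x ∈ IsLocalRing.maximalIdeal (Lc f) ↔ evL f x = 0 := by
  rw [← IsLocalRing.ker_eq_maximalIdeal (evL f) (fun a => ⟨algebraMap (SS k N d) (Lc f) (C a), by
    rw [evL_alg, eval_C]⟩), RingHom.mem_ker]

theorem max_L_le (f : Ix N d → k) {D : ℕ} {w : Fin D → ℕ}
    {P Q : Fin D → SS k N d} {h : Fin D → Of f} (hrep : ∀ i, Rep f (w i) (P i) (Q i) (h i))
    (hPf : ∀ i, eval f (P i) = 0) (c : F2 N → Ix N d → k)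
    (hkill : ∀ v : Ix N d → k, (∀ i, dd (P i) f v = 0) → (∀ a, ∑ p, c a p * v p = 0) → v = 0) :
    IsLocalRing.maximalIdeal (Lc f) ≤ (IsLocalRing.maximalIdeal (Of f)).map (incO f) ⊔
      Ideal.span (Set.range fun a => algebraMap (SS k N d) (Lc f) (yy f c a)) := by
  have hle := mf_le f P hPf c hkill
  have hmap : (mf f).map (algebraMap (SS k N d) (Lc f)) = IsLocalRing.maximalIdeal (Lc f) :=
    IsLocalization.AtPrime.map_eq_maximalIdeal (mf f) (Lc f)
  have h1 := Ideal.map_mono (f := algebraMap (SS k N d) (Lc f)) hle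
  rw [Ideal.map_sup, Ideal.map_sup, Ideal.map_pow, hmap, Ideal.map_span, Ideal.map_span] at h1
  have h2 : IsLocalRing.maximalIdeal (Lc f) ≤
      (Ideal.span (algebraMap (SS k N d) (Lc f) '' Set.range P) ⊔
        Ideal.span (algebraMap (SS k N d) (Lc f) '' Set.range (yy f c))) := by
    apply Submodule.le_of_le_smul_of_le_jacobson_bot (I := IsLocalRing.maximalIdeal (Lc f))
      (IsNoetherian.noetherian _) (IsLocalRing.maximalIdeal_le_jacobson _)
    rw [smul_eq_mul, ← pow_two]
    exact h1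
  refine h2.trans (sup_le_sup ?_ ?_)
  · rw [Ideal.span_le]
    rintro _ ⟨_, ⟨i, rfl⟩, rfl⟩
    have h3 : algebraMap (SS k N d) (Lc f) (P i) =
        incO f (h i) * algebraMap (SS k N d) (Lc f) (Q i) := by
      apply Subtype.ext
      exact (hrep i).2.2.2.symm
    rw [h3]
    apply Ideal.mul_mem_right
    apply Ideal.mem_map_of_mem
    rw [mem_max_iff, evO_eq_zero_iff f (h i) (hrep i)]
    exact hPf i
  · apply Ideal.span_mono
    rintro _ ⟨_, ⟨a, rfl⟩, rfl⟩
    exact ⟨a, rfl⟩

theorem card_le_height (f : Ix N d → k) (hN : IsNoetherianRing (Of f)) {D : ℕ} {w : Fin D → ℕ}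
    {P Q : Fin D → SS k N d} {h : Fin D → Of f} (hrep : ∀ i, Rep f (w i) (P i) (Q i) (h i))
    (hPf : ∀ i, eval f (P i) = 0) (c : F2 N → Ix N d → k)
    (hkill : ∀ v : Ix N d → k, (∀ i, dd (P i) f v = 0) → (∀ a, ∑ p, c a p * v p = 0) → v = 0) :
    (Fintype.card (Ix N d) : ℕ∞) ≤
      (IsLocalRing.maximalIdeal (Of f)).height + ((N + 1) * (N + 1) : ℕ) := by
  have hle := max_L_le f hrep hPf c hkill
  let _ : Algebra (Of f) (Lc f) := (incO f).toAlgebra
  have hlies : (IsLocalRing.maximalIdeal (Lc f)).LiesOver (IsLocalRing.maximalIdeal (Of f)) := by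
    constructor
    ext x
    rw [Ideal.mem_comap, mem_max_iff, mem_max_L_iff]
    rfl
  have h1 := Ideal.height_le_height_add_of_liesOver (IsLocalRing.maximalIdeal (Of f))
    (IsLocalRing.maximalIdeal (Lc f))
  rw [height_L] at h1
  refine h1.trans (add_le_add le_rfl ?_)
  set J : Ideal (Lc f) := (IsLocalRing.maximalIdeal (Of f)).map (algebraMap (Of f) (Lc f)) with hJ
  have hJle : J ≤ IsLocalRing.maximalIdeal (Lc f) := by
    rw [hJ, Ideal.map_le_iff_le_comap]
    intro x hx
    rw [Ideal.mem_comap, mem_max_L_iff]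
    exact (mem_max_iff f x).mp hx
  have hspan : (IsLocalRing.maximalIdeal (Lc f)).map (Ideal.Quotient.mk J) =
      Ideal.span (Set.range fun a => Ideal.Quotient.mk J
        (algebraMap (SS k N d) (Lc f) (yy f c a))) := by
    apply le_antisymm
    · rw [Ideal.map_le_iff_le_comap]
      refine hle.trans (sup_le ?_ ?_)
      · intro x hx
        have hx' : x ∈ J := hx
        rw [Ideal.mem_comap, Ideal.Quotient.eq_zero_iff_mem.mpr hx']
        exact zero_mem _
      · rw [Ideal.span_le]
        rintro _ ⟨a, rfl⟩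
        exact Ideal.subset_span ⟨a, rfl⟩
    · rw [Ideal.span_le]
      rintro _ ⟨a, rfl⟩
      apply Ideal.mem_map_of_mem
      exact mem_max_L f (eval_yy f c a)
  have htop : (IsLocalRing.maximalIdeal (Lc f)).map (Ideal.Quotient.mk J) ≠ ⊤ := by
    intro h0
    have h2 := congrArg (Ideal.comap (Ideal.Quotient.mk J)) h0
    rw [Ideal.comap_map_mk hJle, Ideal.comap_top] at h2
    exact (IsLocalRing.maximalIdeal.isMaximal (Lc f)).ne_top h2
  have hNq : IsNoetherianRing (Lc f ⧸ J) := inferInstance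
  have h2 := Ideal.height_le_spanFinrank
    ((IsLocalRing.maximalIdeal (Lc f)).map (Ideal.Quotient.mk J)) htop
  refine h2.trans ?_
  rw [hspan]
  have h3 : (Submodule.span (Lc f ⧸ J) (Set.range fun a => Ideal.Quotient.mk J
        (algebraMap (SS k N d) (Lc f) (yy f c a)))).spanFinrank ≤ (N + 1) * (N + 1) := by
    refine (Submodule.spanFinrank_span_le_ncard_of_finite (Set.finite_range _)).trans ?_
    have h4 := Set.ncard_image_le (f := fun a => Ideal.Quotient.mk J
        (algebraMap (SS k N d) (Lc f) (yy f c a))) (Set.finite_univ (α := F2 N))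
    rw [Set.image_univ, Set.ncard_univ, Nat.card_eq_fintype_card] at h4
    refine h4.trans (le_of_eq ?_)
    unfold F2
    rw [Fintype.card_prod, Fintype.card_fin]
  exact_mod_cast h3

theorem regular_of_free (hd : 2 ≤ d) {f : Ix N d → k} (hf : NZ (tup f)) (hfree : IsFree f) :
    IsRegularLocalRing (Of f) := by
  have hinf : Infinite k := IsAlgClosed.instInfinite
  have hNoeth := noeth_Of hd hf
  have hcard1 : (N + 1) * (N + 1) ≤ Fintype.card (Ix N d) := by
    have h1 := Submodule.finrank_le (LinearMap.range (xiL f))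
    rw [finrank_xi hd hf, Module.finrank_fintype_fun_eq_card] at h1
    exact h1
  obtain ⟨D, hDdef⟩ : ∃ D, D = Fintype.card (Ix N d) - (N + 1) * (N + 1) := ⟨_, rfl⟩
  have hD : Fintype.card (Ix N d) = D + (N + 1) * (N + 1) := by omega
  obtain ⟨w0, R, hRs, hRf, hRNZ⟩ := exists_semi_NZ hd hf
  obtain ⟨c, hc⟩ := exists_transversal hd hf
  obtain ⟨ω, hωS, hω⟩ := exists_select
    {ω : Module.Dual k (Ix N d → k) | ∃ (m : ℕ) (P' : SS k N d), IsSemi (w0 * m) P' ∧
      eval f P' = 0 ∧ ω = ddL P' f} (LinearMap.range (xiL f)) (D := D) (by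
      rw [finrank_xi hd hf, Module.finrank_fintype_fun_eq_card, hD]) (by
    intro v
    constructor
    · intro hv
      by_contra hcon
      obtain ⟨m, P', hP', hP'g, hP'v⟩ := free_span hd hf hfree hRs hRf hRNZ v (by
        intro Y hY
        exact hcon ⟨Y, hY⟩)
      exact hP'v (hv _ ⟨m, P', hP', hP'g, rfl⟩)
    · rintro ⟨Y, rfl⟩ _ ⟨m, P', hP', hP'g, rfl⟩
      rw [ddL_apply]
      change dd P' f (xi Y f) = 0
      rw [semi_lie hP', hP'g, mul_zero])
  choose m P hP hPf hωP using hωS
  have hRm : ∀ i, eval f (R ^ m i) ≠ 0 := fun i => by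
    rw [map_pow]; exact pow_ne_zero _ hRf
  let h : Fin D → Of f := fun i => ⟨am (P i) / am (R ^ m i), w0 * m i, P i, R ^ m i, hP i,
    hRs.pow (m i), hRm i, div_mul_cancel₀ _ (am_ne_zero (ne_zero_of_eval (hRm i)))⟩
  have hrep : ∀ i, Rep f (w0 * m i) (P i) (R ^ m i) (h i) := fun i => ⟨hP i,
    hRs.pow (m i), hRm i, div_mul_cancel₀ _ (am_ne_zero (ne_zero_of_eval (hRm i)))⟩
  have hkill : ∀ v : Ix N d → k, (∀ i, dd (P i) f v = 0) → (∀ a, ∑ p, c a p * v p = 0) →
      v = 0 := by
    intro v hv1 hv2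
    have h1 : v ∈ LinearMap.range (xiL f) := by
      apply hω
      intro j
      rw [hωP j, ddL_apply]
      exact hv1 j
    obtain ⟨Y, rfl⟩ := h1
    exact tr0_inj c f hc Y hv2
  have hspan := span_eq_max hd hf hrep hPf c hc hkill
  apply IsRegularLocalRing.of_spanFinrank_maximalIdeal_le
  have h1 : (IsLocalRing.maximalIdeal (Of f)).spanFinrank ≤ D := by
    rw [← hspan]
    refine (Submodule.spanFinrank_span_le_ncard_of_finite (Set.finite_range _)).trans ?_
    have h4 := Set.ncard_image_le (f := h) (Set.finite_univ (α := Fin D))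
    rw [Set.image_univ, Set.ncard_univ, Nat.card_eq_fintype_card, Fintype.card_fin] at h4
    exact h4
  have h2 := card_le_height f hNoeth hrep hPf c hkill
  rw [hD] at h2
  have h3 : (D : ℕ∞) ≤ (IsLocalRing.maximalIdeal (Of f)).height := by
    push_cast at h2
    have h4 : ((N : ℕ∞) + 1) * ((N : ℕ∞) + 1) ≠ ⊤ := by
      have : ((N : ℕ∞) + 1) * ((N : ℕ∞) + 1) = (((N + 1) * (N + 1) : ℕ) : ℕ∞) := by push_cast; rfl
      rw [this]
      exact ENat.natCast_ne_top _
    exact (ENat.add_le_add_iff_right h4).mp h2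
  rw [← IsLocalRing.maximalIdeal_height_eq_ringKrullDim]
  have h5 : (((IsLocalRing.maximalIdeal (Of f)).spanFinrank : ℕ∞)) ≤
      (IsLocalRing.maximalIdeal (Of f)).height :=
    le_trans (by exact_mod_cast h1) h3
  exact_mod_cast h5

/-- The singular locus of `M_d^N`. -/
theorem mem_singularLocus_iff (hN : 2 ≤ N) (hd : 2 ≤ d) (F : EndTuple k N d) :
    cls F ∈ singularLocus k N d ↔ ¬ AutTrivial F.1 := by
  have hNd : 0 < N + d := by omega
  constructor
  · intro hs haut
    apply hs
    rw [autTrivial_iff hNd] at haut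
    have := regular_of_free hd (nz_co F) haut
    exact IsRegularLocalRing.of_ringEquiv (localRingEquiv hNd hd F)
  · exact sing_of_aut hN hd F

end

end Pool.Agent.Helper819.Dyn
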