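import Pool.Agent.Helper819.Apolar

/-!
The Reynolds functional of the general linear group.
-/

open MvPolynomial

namespace Pool.Agent.Helper819.Apolar

noncomputable section

set_option linter.unusedSectionVars false

variable {n : ℕ} {k : Type} [Field k]

/-- the determinant polynomial -/
def dt (n : ℕ) (k : Type) [Field k] : MvPolynomial (Fin n × Fin n) k :=
  (Matrix.mvPolynomialX (Fin n) (Fin n) k).det

/-- the entries -/
def ent {R : Type} (A : Matrix (Fin n) (Fin n) R) : Fin n × Fin n → R := fun p => A p.1 p.2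

theorem eval_dt (A : Matrix (Fin n) (Fin n) k) : eval (ent A) (dt n k) = A.det := by
  unfold dt
  rw [Matrix.eval_det_mvPolynomialX]
  rfl

/-- `p(A) ↦ p(B A)` -/
def Lsub (B : Matrix (Fin n) (Fin n) k) :
    MvPolynomial (Fin n × Fin n) k →ₐ[k] MvPolynomial (Fin n × Fin n) k :=
  bind₁ (fun p => ∑ l, C (B p.1 l) * X (l, p.2))

/-- `p(A) ↦ p(A B)` -/
def Rsub (B : Matrix (Fin n) (Fin n) k) :
    MvPolynomial (Fin n × Fin n) k →ₐ[k] MvPolynomial (Fin n × Fin n) k :=
  bind₁ (fun p => ∑ l, C (B l p.2) * X (p.1, l))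

theorem eval_bind' {σ τ : Type} (x : τ → k) (q : σ → MvPolynomial τ k) (p : MvPolynomial σ k) :
    eval x (bind₁ q p) = eval (fun i => eval x (q i)) p :=
  eval₂Hom_bind₁ (RingHom.id k) x q p

theorem eval_Lsub (A B : Matrix (Fin n) (Fin n) k) (p : MvPolynomial (Fin n × Fin n) k) :
    eval (ent A) (Lsub B p) = eval (ent (B * A)) p := by
  unfold Lsub
  rw [eval_bind']
  congr 1
  congr 1
  funext q
  rw [map_sum]
  simp only [map_mul, eval_C, eval_X]
  rfl

theorem eval_Rsub (A B : Matrix (Fin n) (Fin n) k) (p : MvPolynomial (Fin n × Fin n) k) :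
    eval (ent A) (Rsub B p) = eval (ent (A * B)) p := by
  unfold Rsub
  rw [eval_bind']
  congr 1
  congr 1
  funext q
  rw [map_sum]
  simp only [map_mul, eval_C, eval_X]
  change _ = (A * B) q.1 q.2
  rw [Matrix.mul_apply]
  exact Finset.sum_congr rfl fun l _ => mul_comm _ _

/-- the big matrix -/
def hat (B : Matrix (Fin n) (Fin n) k) : Matrix (Fin n × Fin n) (Fin n × Fin n) k :=
  fun p q => if p.2 = q.2 then B p.1 q.1 else 0

theorem lsub_hat (B : Matrix (Fin n) (Fin n) k) : lsub (hat B) = Lsub B := by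
  unfold lsub Lsub
  congr 1
  funext p
  rw [Fintype.sum_prod_type]
  refine Finset.sum_congr rfl fun l _ => ?_
  rw [Finset.sum_eq_single p.2]
  · simp [hat]
  · intro j _ hj
    simp [hat, hj.symm]
  · simp

theorem hat_transpose (B : Matrix (Fin n) (Fin n) k) : (hat B).transpose = hat B.transpose := by
  ext p q
  simp only [hat, Matrix.transpose_apply, eq_comm]

theorem pr_Lsub (B : Matrix (Fin n) (Fin n) k) (f g : MvPolynomial (Fin n × Fin n) k) :
    pr (Lsub B.transpose f) g = pr f (Lsub B g) := by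
  rw [← lsub_hat, ← lsub_hat, ← hat_transpose]
  exact pr_lsub (hat B) f g

theorem ent_surj (x : Fin n × Fin n → k) : ∃ A : Matrix (Fin n) (Fin n) k, x = ent A :=
  ⟨Matrix.of fun i j => x (i, j), rfl⟩

theorem poly_ext [Infinite k] {p q : MvPolynomial (Fin n × Fin n) k}
    (h : ∀ A : Matrix (Fin n) (Fin n) k, A.det ≠ 0 → eval (ent A) p = eval (ent A) q) : p = q := by
  refine eq_of_eval_eq_on_gl fun g => h _ ?_
  exact ((Matrix.isUnit_iff_isUnit_det _).mp g.isUnit).ne_zero

theorem Lsub_dt [Infinite k] (B : Matrix (Fin n) (Fin n) k) (w : ℕ) :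
    Lsub B (dt n k ^ w) = C (B.det ^ w) * dt n k ^ w := by
  apply poly_ext
  intro A _
  rw [eval_Lsub, map_pow, eval_dt, map_mul, eval_C, map_pow, eval_dt, Matrix.det_mul, mul_pow]

variable [CharZero k]

theorem pr_self_ne_zero {σ : Type} {g : MvPolynomial σ ℤ} (hg : g ≠ 0) :
    pr (map (Int.castRingHom k) g) (map (Int.castRingHom k) g) ≠ 0 := by
  have h1 : pr (map (Int.castRingHom k) g) (map (Int.castRingHom k) g) =
      ((∑ m ∈ g.support, (mfact m : ℤ) * coeff m g * coeff m g : ℤ) : k) := by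
    rw [pr_eq_of_subset (support_map_subset _ _)]
    push_cast
    refine Finset.sum_congr rfl fun m _ => ?_
    rw [coeff_map]
    simp
  rw [h1]
  have h2 : 0 < ∑ m ∈ g.support, (mfact m : ℤ) * coeff m g * coeff m g := by
    apply Finset.sum_pos
    · intro m hm
      have h3 : coeff m g ≠ 0 := mem_support_iff.mp hm
      have h4 : 0 < (mfact m : ℤ) := by exact_mod_cast Nat.pos_of_ne_zero (mfact_ne_zero m)
      rw [mul_assoc]
      exact mul_pos h4 (mul_self_pos.mpr h3)
    · rw [Finset.nonempty_iff_ne_empty]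
      intro h
      exact hg (support_eq_empty.mp h)
  exact_mod_cast h2.ne'

/-- normalisation constant -/
def cw (n : ℕ) (k : Type) [Field k] (w : ℕ) : k := pr (dt n k ^ w) (dt n k ^ w)

theorem cw_ne_zero (w : ℕ) : cw n k w ≠ 0 := by
  have h1 : dt n k ^ w = map (Int.castRingHom k) ((Matrix.mvPolynomialX (Fin n) (Fin n) ℤ).det ^ w) := by
    rw [map_pow, RingHom.map_det]
    unfold dt
    congr 2
    ext i j
    simp [Matrix.mvPolynomialX]
  unfold cw
  rw [h1]
  exact pr_self_ne_zero (pow_ne_zero _ (Matrix.det_mvPolynomialX_ne_zero _ _))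

/-- The Reynolds functional of weight `w`. -/
def rho (w : ℕ) (p : MvPolynomial (Fin n × Fin n) k) : k := pr (dt n k ^ w) p / cw n k w

theorem rho_add (w : ℕ) (p q : MvPolynomial (Fin n × Fin n) k) :
    rho w (p + q) = rho w p + rho w q := by
  unfold rho
  rw [pr_add_right, add_div]

theorem rho_zero (w : ℕ) : rho w (0 : MvPolynomial (Fin n × Fin n) k) = 0 := by
  unfold rho
  rw [pr_zero_right, zero_div]

theorem rho_smul (w : ℕ) (r : k) (p : MvPolynomial (Fin n × Fin n) k) :
    rho w (C r * p) = r * rho w p := by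
  unfold rho
  rw [pr_smul_right, mul_div_assoc]

theorem rho_sum (w : ℕ) {ι : Type} (s : Finset ι) (g : ι → MvPolynomial (Fin n × Fin n) k) :
    rho w (∑ i ∈ s, g i) = ∑ i ∈ s, rho w (g i) := by
  unfold rho
  rw [pr_sum_right, Finset.sum_div]

theorem rho_dt (w : ℕ) : rho w (dt n k ^ w) = 1 := div_self (cw_ne_zero w)

theorem rho_Lsub (w : ℕ) (B : Matrix (Fin n) (Fin n) k) (p : MvPolynomial (Fin n × Fin n) k) :
    rho w (Lsub B p) = B.det ^ w * rho w p := by
  have hinf : Infinite k := inferInstance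
  unfold rho
  rw [← pr_Lsub, Lsub_dt, pr_smul_left, Matrix.det_transpose, mul_div_assoc]

theorem exists_adjoint {σ : Type} (f g : MvPolynomial σ k) :
    ∃ q : MvPolynomial σ k, ∀ p, pr f (g * p) = pr q p := by
  induction g using MvPolynomial.induction_on generalizing f with
  | C a => exact ⟨C a * f, fun p => by rw [pr_smul_right, pr_smul_left]⟩
  | add g h hg hh =>
    obtain ⟨q1, h1⟩ := hg f
    obtain ⟨q2, h2⟩ := hh f
    exact ⟨q1 + q2, fun p => by rw [add_mul, pr_add_right, pr_add_left, h1, h2]⟩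
  | mul_X g i hg =>
    obtain ⟨q1, h1⟩ := hg f
    refine ⟨pderiv i q1, fun p => ?_⟩
    rw [mul_assoc, h1, pr_comm, pr_X_mul, pr_comm]

theorem rho_det_mul (w : ℕ) (p : MvPolynomial (Fin n × Fin n) k) :
    rho (w + 1) (dt n k * p) = rho w p := by
  have hinf : Infinite k := inferInstance
  obtain ⟨q, hq⟩ := exists_adjoint (dt n k ^ (w + 1)) (dt n k)
  have h1 : ∀ B : Matrix (Fin n) (Fin n) k, B.det ≠ 0 →
      Lsub B.transpose q = C (B.det ^ w) * q := by
    intro B hB
    apply pr_ext
    intro p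
    rw [pr_Lsub, pr_smul_left, ← hq, ← hq]
    have h2 : Lsub B (dt n k * p) = C B.det * (dt n k * Lsub B p) := by
      rw [map_mul]
      have := Lsub_dt (k := k) B 1
      rw [pow_one, pow_one] at this
      rw [this]
      ring
    have h3 : B.det * pr (dt n k ^ (w + 1)) (dt n k * Lsub B p) =
        B.det ^ (w + 1) * pr (dt n k ^ (w + 1)) (dt n k * p) := by
      rw [← pr_smul_right, ← h2, ← pr_Lsub, Lsub_dt, pr_smul_left, Matrix.det_transpose]
    apply mul_left_cancel₀ hB
    rw [h3, pow_succ]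
    ring
  have h2 : q = C (eval (ent 1) q) * dt n k ^ w := by
    apply poly_ext
    intro A hA
    have h3 := congrArg (eval (ent (1 : Matrix (Fin n) (Fin n) k)))
      (h1 A.transpose (by rwa [Matrix.det_transpose]))
    rw [Matrix.transpose_transpose, eval_Lsub, mul_one, map_mul, eval_C, Matrix.det_transpose] at h3
    rw [h3, map_mul, eval_C, map_pow, eval_dt, mul_comm]
  have h3 : cw n k (w + 1) = eval (ent 1) q * cw n k w := by
    unfold cw
    conv_lhs => rw [pow_succ' (dt n k) w]
    rw [← pow_succ' (dt n k) w, pow_succ' (dt n k) w]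
    have := hq (dt n k ^ w)
    rw [pow_succ' (dt n k) w] at this
    rw [this]
    conv_lhs => rw [h2]
    rw [pr_smul_left]
  unfold rho
  rw [hq]
  conv_lhs => rw [h2]
  rw [pr_smul_left, h3]
  have h4 : eval (ent 1) q ≠ 0 := by
    intro h
    rw [h, zero_mul] at h3
    exact cw_ne_zero _ h3
  exact mul_div_mul_left _ _ h4

end

end Pool.Agent.Helper819.Apolar
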