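import Pool.Agent.Helper819.Elim

/-!
The action of matrices on coefficient vectors of tuples of forms of degree `d`.
-/

open MvPolynomial

namespace Pool.Agent.Helper819.Dyn

noncomputable section

set_option linter.unusedSectionVars false

section general

variable {R S : Type} [CommRing R] [CommRing S] {N d : ℕ}

/-- linear substitution -/
theorem bind_lin (A B : Matrix (Fin (N + 1)) (Fin (N + 1)) R) (l : Fin (N + 1)) :
    bind₁ (fun l => ∑ m, C (B l m) * X m) (∑ m, C (A l m) * X m : MvPolynomial (Fin (N + 1)) R) =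
      ∑ m, C ((A * B) l m) * X m := by
  rw [map_sum]
  simp_rw [map_mul, bind₁_C_right, bind₁_X_right, Finset.mul_sum, ← mul_assoc, ← C_mul]
  rw [Finset.sum_comm]
  refine Finset.sum_congr rfl fun m _ => ?_
  rw [← Finset.sum_mul, ← map_sum]
  rfl

theorem act_actR (A B : Matrix (Fin (N + 1)) (Fin (N + 1)) R) (F : Tuple R N) :
    act B (act A F) = act (A * B) F := by
  funext i
  unfold act
  rw [Matrix.adjugate_mul_distrib]
  simp_rw [map_sum, map_mul, bind₁_C_right, bind₁_bind₁, bind_lin, Finset.mul_sum, ← mul_assoc,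
    ← C_mul]
  rw [Finset.sum_comm]
  refine Finset.sum_congr rfl fun m _ => ?_
  rw [← Finset.sum_mul, ← map_sum]
  rfl

theorem act_oneR (F : Tuple R N) : act 1 F = F := by
  funext i
  unfold act
  have h1 : (fun l => ∑ m, C ((1 : Matrix (Fin (N + 1)) (Fin (N + 1)) R) l m) * X m) =
      (X : Fin (N + 1) → MvPolynomial (Fin (N + 1)) R) := by
    funext l
    rw [Finset.sum_eq_single l]
    · simp
    · intro b _ hb
      rw [Matrix.one_apply_ne hb.symm]; simp
    · simp
  rw [h1, bind₁_X_left, Finset.sum_eq_single i]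
  · simp
  · intro j _ hj
    rw [Matrix.adjugate_one, Matrix.one_apply_ne hj.symm]; simp
  · simp

theorem act_add (A : Matrix (Fin (N + 1)) (Fin (N + 1)) R) (F G : Tuple R N) :
    act A (F + G) = act A F + act A G := by
  funext i
  simp only [act, Pi.add_apply, map_add, mul_add, Finset.sum_add_distrib]

theorem act_C_mul (A : Matrix (Fin (N + 1)) (Fin (N + 1)) R) (r : R) (F : Tuple R N) :
    act A (fun i => C r * F i) = fun i => C r * act A F i := by
  funext i
  simp only [act, map_mul, bind₁_C_right, Finset.mul_sum]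
  exact Finset.sum_congr rfl fun j _ => by ring

/-- index set of the coefficients -/
abbrev Ix (N d : ℕ) : Type := Fin (N + 1) × Ex N d

/-- The tuple with given coefficients. -/
def tup (c : Ix N d → R) : Tuple R N := fun i => ∑ m : Ex N d, monomial m.1 (c (i, m))

/-- The coefficients of a tuple. -/
def cf (F : Tuple R N) : Ix N d → R := fun p => coeff p.2.1 (F p.1)

theorem tup_homog (c : Ix N d → R) (i : Fin (N + 1)) : (tup c i).IsHomogeneous d := by
  unfold tup
  refine IsHomogeneous.sum _ _ _ fun m _ => ?_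
  apply isHomogeneous_monomial
  exact (mem_Ex m.1).mp m.2

theorem coeff_tup (c : Ix N d → R) (p : Ix N d) : coeff p.2.1 (tup c p.1) = c p := by
  unfold tup
  rw [coeff_sum]
  simp only [coeff_monomial]
  rw [Finset.sum_eq_single p.2]
  · simp
  · intro b _ hb
    rw [if_neg]
    intro h
    exact hb (Subtype.ext h)
  · simp

theorem cf_tup (c : Ix N d → R) : cf (tup c) = c := funext fun p => coeff_tup c p

theorem tup_cf {F : Tuple R N} (hF : ∀ i, (F i).IsHomogeneous d) :
    tup (cf (d := d) F) = F := by
  funext i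
  ext m
  by_cases hm : m.degree = d
  · exact coeff_tup (cf (d := d) F) (i, ⟨m, (mem_Ex m).mpr hm⟩)
  · rw [(tup_homog _ i).coeff_eq_zero hm, (hF i).coeff_eq_zero hm]

theorem map_tup (φ : R →+* S) (c : Ix N d → R) (i : Fin (N + 1)) :
    map φ (tup c i) = tup (fun p => φ (c p)) i := by
  unfold tup
  rw [map_sum]
  exact Finset.sum_congr rfl fun m _ => map_monomial _ _ _

theorem tup_add (c c' : Ix N d → R) : tup (c + c') = tup c + tup c' := by
  funext i
  simp only [tup, Pi.add_apply, map_add, Finset.sum_add_distrib]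

theorem tup_smul (r : R) (c : Ix N d → R) : tup (r • c) = fun i => C r * tup c i := by
  funext i
  simp only [tup, Pi.smul_apply, smul_eq_mul, Finset.mul_sum, C_mul_monomial]

theorem cf_add (F G : Tuple R N) : cf (d := d) (F + G) = cf F + cf G := by
  funext p
  simp [cf]

theorem cf_C_mul (r : R) (F : Tuple R N) : cf (d := d) (fun i => C r * F i) = r • cf F := by
  funext p
  simp [cf]

/-- The action on coefficient vectors. -/
def actT (A : Matrix (Fin (N + 1)) (Fin (N + 1)) R) (c : Ix N d → R) : Ix N d → R :=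
  cf (act A (tup c))

theorem tup_actT (A : Matrix (Fin (N + 1)) (Fin (N + 1)) R) (c : Ix N d → R) :
    tup (actT A c) = act A (tup c) :=
  tup_cf (act_homog A (tup_homog c))

theorem actT_actT (A B : Matrix (Fin (N + 1)) (Fin (N + 1)) R) (c : Ix N d → R) :
    actT B (actT A c) = actT (A * B) c := by
  unfold actT
  rw [tup_cf (act_homog A (tup_homog c)), act_actR]

theorem actT_one (c : Ix N d → R) : actT 1 c = c := by
  unfold actT
  rw [act_oneR, cf_tup]

theorem actT_add (A : Matrix (Fin (N + 1)) (Fin (N + 1)) R) (c c' : Ix N d → R) :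
    actT A (c + c') = actT A c + actT A c' := by
  unfold actT
  rw [tup_add, act_add, cf_add]

theorem actT_smul (A : Matrix (Fin (N + 1)) (Fin (N + 1)) R) (r : R) (c : Ix N d → R) :
    actT A (r • c) = r • actT A c := by
  unfold actT
  rw [tup_smul, act_C_mul, cf_C_mul]

/-- linear version -/
def actL (A : Matrix (Fin (N + 1)) (Fin (N + 1)) R) : (Ix N d → R) →ₗ[R] (Ix N d → R) where
  toFun := actT A
  map_add' := actT_add A
  map_smul' := actT_smul A

theorem map_actT (φ : R →+* S) (A : Matrix (Fin (N + 1)) (Fin (N + 1)) R) (c : Ix N d → R)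
    (p : Ix N d) : φ (actT A c p) = actT (A.map φ) (fun p => φ (c p)) p := by
  unfold actT cf
  rw [← coeff_map, map_act]
  congr 2
  funext j
  exact map_tup φ c j

theorem adjugate_smul_one (r : R) :
    (r • (1 : Matrix (Fin (N + 1)) (Fin (N + 1)) R)).adjugate = r ^ N • 1 := by
  rw [Matrix.adjugate_smul, Matrix.adjugate_one]
  simp

theorem bind_scale {F : MvPolynomial (Fin (N + 1)) R} (hF : F.IsHomogeneous d) (r : R) :
    bind₁ (fun l => C r * X l) F = C (r ^ d) * F := by
  conv_lhs => rw [F.as_sum]
  conv_rhs => rw [F.as_sum]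
  rw [map_sum, Finset.mul_sum]
  refine Finset.sum_congr rfl fun m hm => ?_
  have hdeg : m.degree = d := by
    by_contra h
    exact (mem_support_iff.mp hm) (hF.coeff_eq_zero h)
  rw [bind₁_monomial, C_mul_monomial]
  simp_rw [mul_pow]
  rw [Finset.prod_mul_distrib, ← mul_assoc, Finset.prod_pow_eq_pow_sum, ← C_pow]
  have : ∑ i ∈ m.support, m i = d := by rw [← hdeg]; rfl
  rw [this, monomial_eq, Finsupp.prod, ← C_mul, mul_comm (coeff m F)]

theorem actT_scalar (r : R) (c : Ix N d → R) :
    actT (r • (1 : Matrix (Fin (N + 1)) (Fin (N + 1)) R)) c = r ^ (N + d) • c := by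
  have h : act (r • (1 : Matrix (Fin (N + 1)) (Fin (N + 1)) R)) (tup c) =
      fun i => C (r ^ (N + d)) * tup c i := by
    funext i
    unfold act
    rw [adjugate_smul_one, Finset.sum_eq_single i]
    · have h1 : (fun l => ∑ m, C ((r • (1 : Matrix (Fin (N + 1)) (Fin (N + 1)) R)) l m) * X m) =
          (fun l => C r * X l : Fin (N + 1) → MvPolynomial (Fin (N + 1)) R) := by
        funext l
        rw [Finset.sum_eq_single l]
        · simp
        · intro b _ hb
          rw [Matrix.smul_apply, Matrix.one_apply_ne hb.symm]; simp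
        · simp
      rw [h1, bind_scale (tup_homog c i), ← mul_assoc, ← C_mul, pow_add]
      simp
    · intro j _ hj
      rw [Matrix.smul_apply, Matrix.one_apply_ne hj.symm]; simp
    · simp
  unfold actT
  rw [h, cf_C_mul, cf_tup]

end general

end

end Pool.Agent.Helper819.Dyn
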