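import Pool.Agent.Helper819.OpenU

/-!
Semi-invariants separating orbits from closed invariant sets.
-/

open MvPolynomial

namespace Pool.Agent.Helper819.Dyn

open Pool.Agent.Helper819.Apolar

noncomputable section

set_option linter.unusedSectionVars false

variable {k : Type} [Field k] {N d : ℕ}

/-- vanishing ideal of a set of coefficient vectors -/
def van {σ : Type} (Z : Set (σ → k)) : Ideal (MvPolynomial σ k) where
  carrier := {P | ∀ z ∈ Z, eval z P = 0}
  add_mem' := by
    intro a b ha hb z hz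
    rw [map_add, ha z hz, hb z hz, add_zero]
  zero_mem' := by intro z _; rw [map_zero]
  smul_mem' := by
    intro a b hb z hz
    rw [smul_eq_mul, map_mul, hb z hz, mul_zero]

theorem mem_van {σ : Type} (Z : Set (σ → k)) (P : MvPolynomial σ k) :
    P ∈ van Z ↔ ∀ z ∈ Z, eval z P = 0 := Iff.rfl

/-- `P` is a semi-invariant of weight `w`. -/
def IsSemi (w : ℕ) (P : SS k N d) : Prop :=
  ∀ (A : Matrix (Fin (N + 1)) (Fin (N + 1)) k) (c : Ix N d → k),
    eval (actT A c) P = A.det ^ w * eval c P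

theorem IsSemi.mul {w w' : ℕ} {P Q : SS k N d} (hP : IsSemi w P) (hQ : IsSemi w' Q) :
    IsSemi (w + w') (P * Q) := by
  intro A c
  rw [map_mul, map_mul, hP A c, hQ A c, pow_add]
  ring

theorem IsSemi.add {w : ℕ} {P Q : SS k N d} (hP : IsSemi w P) (hQ : IsSemi w Q) :
    IsSemi w (P + Q) := by
  intro A c
  rw [map_add, map_add, hP A c, hQ A c]
  ring

theorem IsSemi.zero {w : ℕ} : IsSemi w (0 : SS k N d) := by
  intro A c
  rw [map_zero, map_zero, mul_zero]

theorem IsSemi.one : IsSemi 0 (1 : SS k N d) := by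
  intro A c
  rw [map_one, map_one, pow_zero, one_mul]

theorem IsSemi.C_mul {w : ℕ} {P : SS k N d} (hP : IsSemi w P) (a : k) : IsSemi w (C a * P) := by
  intro A c
  rw [map_mul, map_mul, hP A c, eval_C, eval_C]
  ring

theorem IsSemi.neg {w : ℕ} {P : SS k N d} (hP : IsSemi w P) : IsSemi w (-P) := by
  intro A c
  rw [map_neg, map_neg, hP A c]
  ring

theorem IsSemi.sub {w : ℕ} {P Q : SS k N d} (hP : IsSemi w P) (hQ : IsSemi w Q) :
    IsSemi w (P - Q) := by
  rw [sub_eq_add_neg]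
  exact hP.add hQ.neg

theorem IsSemi.pow {w : ℕ} {P : SS k N d} (hP : IsSemi w P) (m : ℕ) : IsSemi (w * m) (P ^ m) := by
  intro A c
  rw [map_pow, map_pow, hP A c, mul_pow, pow_mul]

theorem IsSemi.sum {w : ℕ} {ι : Type} (s : Finset ι) {P : ι → SS k N d}
    (hP : ∀ i ∈ s, IsSemi w (P i)) : IsSemi w (∑ i ∈ s, P i) := by
  intro A c
  rw [map_sum, map_sum, Finset.mul_sum]
  exact Finset.sum_congr rfl fun i hi => hP i hi A c

variable [IsAlgClosed k] [CharZero k]

theorem isSemi_sharp (w : ℕ) (P : SS k N d) : IsSemi w (sharp w P) :=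
  fun A c => eval_sharp_act w A c P

theorem exists_semi (hd : 2 ≤ d) {f : Ix N d → k} (hf : NZ (tup f)) (Z : Set (Ix N d → k))
    (hZc : ∀ c, (∀ P ∈ van Z, eval c P = 0) → c ∈ Z)
    (hZs : ∀ (A : Matrix (Fin (N + 1)) (Fin (N + 1)) k), A.det ≠ 0 → ∀ z ∈ Z, actT A z ∈ Z)
    (hfZ : f ∉ Z) : ∃ (w : ℕ) (R : SS k N d), IsSemi w R ∧ eval f R ≠ 0 ∧
      ∀ z ∈ Z, eval z R = 0 := by
  let S : Set (Ix N d → k) :=
    {c | ∃ A : Matrix (Fin (N + 1)) (Fin (N + 1)) k, A.det = 1 ∧ actT A f = c}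
  have htop : van Z ⊔ van S = ⊤ := by
    by_contra hne
    obtain ⟨𝔪, hm, hle⟩ := Ideal.exists_le_maximal _ hne
    obtain ⟨y, hy⟩ := isMaximal_iff_eq_vanishingIdeal_singleton.mp hm
    have hvy : ∀ P ∈ 𝔪, eval y P = 0 := by
      intro P hP
      rw [hy, mem_vanishingIdeal_singleton_iff] at hP
      rw [← coe_aeval_eq_eval]
      exact hP
    have hyZ : y ∈ Z := hZc y fun P hP => hvy P (hle (Ideal.mem_sup_left hP))
    obtain ⟨A, hA, hAy⟩ := closed_SL hd hf y (by
      intro P hP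
      apply hvy
      apply hle
      apply Ideal.mem_sup_right
      rintro z ⟨A, hA, rfl⟩
      exact hP A hA)
    apply hfZ
    have hAu : IsUnit A.det := by rw [hA]; exact isUnit_one
    have h1 := hZs A⁻¹ (by
      rw [Matrix.det_nonsing_inv, hA]; simp) y hyZ
    rw [← hAy, actT_actT, Matrix.mul_nonsing_inv _ hAu, actT_one] at h1
    exact h1
  have h1 : (1 : SS k N d) ∈ van Z ⊔ van S := by rw [htop]; trivial
  obtain ⟨a, ha, b, hb, hab⟩ := Submodule.mem_sup.mp h1
  have hbr : aeval (orb f) b ∈ (Ideal.span {dt (N + 1) k - 1} : Ideal (KA k N)).radical := by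
    rw [← vanishingIdeal_zeroLocus_eq_radical (K := k), mem_vanishingIdeal_iff]
    intro x hx
    obtain ⟨A, rfl⟩ := ent_surj x
    have h2 : eval (ent A) (dt (N + 1) k - 1) = 0 := by
      have h3 := (mem_zeroLocus_iff.mp hx) (dt (N + 1) k - 1) (Ideal.subset_span rfl)
      rw [← coe_aeval_eq_eval]
      exact h3
    rw [map_sub, eval_dt, map_one, sub_eq_zero] at h2
    have h4 : aeval (ent A) (aeval (orb f) b) = eval (ent A) (aeval (orb f) b) := by
      rw [← coe_aeval_eq_eval]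
      rfl
    rw [h4, eval_aeval_orb]
    exact hb _ ⟨A, h2, rfl⟩
  obtain ⟨r, hr⟩ := hbr
  obtain ⟨q, hq⟩ := Ideal.mem_span_singleton.mp hr
  let a' : SS k N d := 1 - b ^ r
  have ha' : a' ∈ van Z := by
    have h2 : (1 - b) ∣ (1 - b ^ r) := by
      have := sub_dvd_pow_sub_pow (1 : SS k N d) b r
      rwa [one_pow] at this
    obtain ⟨t, ht⟩ := h2
    have h3 : (1 : SS k N d) - b = a := by rw [← hab]; ring
    change 1 - b ^ r ∈ van Z
    rw [ht, h3]
    exact Ideal.mul_mem_right _ _ ha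
  have h2 : aeval (orb f) a' = 1 + (dt (N + 1) k - 1) * (-q) := by
    change aeval (orb f) (1 - b ^ r) = _
    rw [map_sub, map_one, map_pow, hq]
    ring
  have h3 := sum_rho_eq_one h2 (B := (-q).totalDegree + 1) (by nlinarith)
  have h4 : ∃ w, rho w (aeval (orb f) a') ≠ 0 := by
    by_contra hcon
    push Not at hcon
    simp only [hcon, Finset.sum_const_zero] at h3
    exact zero_ne_one h3
  obtain ⟨w, hw⟩ := h4
  refine ⟨w, sharp w a', isSemi_sharp w a', ?_, ?_⟩
  · rwa [eval_sharp]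
  · intro z hz
    rw [eval_sharp]
    have h5 : aeval (orb z) a' = 0 := by
      have hinf : Infinite k := inferInstance
      apply poly_ext
      intro A hA
      rw [eval_aeval_orb, map_zero]
      exact ha' _ (hZs A hA z hz)
    rw [h5, rho_zero]

/-- A semi-invariant which does not vanish at `f` and vanishes off the nondegenerate locus. -/
theorem exists_semi_NZ (hd : 2 ≤ d) {f : Ix N d → k} (hf : NZ (tup f)) :
    ∃ (w : ℕ) (R : SS k N d), IsSemi w R ∧ eval f R ≠ 0 ∧
      ∀ c, eval c R ≠ 0 → NZ (tup c) := by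
  obtain ⟨w, R, h1, h2, h3⟩ := exists_semi hd hf {c | ¬ NZ (tup c)} (by
    intro c hc hcNZ
    obtain ⟨P, hP1, hP2⟩ := exists_open hcNZ
    apply hP1
    apply hc
    intro z hz
    by_contra hne
    exact hz (hP2 z hne)) (by
    intro A hA z hz hcon
    apply hz
    have hAu : IsUnit A.det := isUnit_iff_ne_zero.mpr hA
    have h1 := NZ_act hcon A⁻¹ (by
      rw [Matrix.det_nonsing_inv, Ring.inverse_eq_inv']
      exact inv_ne_zero hA)
    rw [← tup_actT, actT_actT, Matrix.mul_nonsing_inv _ hAu, actT_one] at h1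
    exact h1) (by
    intro hcon
    exact hcon hf)
  refine ⟨w, R, h1, h2, fun c hc => ?_⟩
  by_contra hne
  exact hc (h3 c hne)

end

end Pool.Agent.Helper819.Dyn
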