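import Pool.Agent.Helper819.S0
import Pool.Agent.Helper819.Reyn

/-!
The orbit map and the Reynolds operator.
-/

open MvPolynomial

namespace Pool.Agent.Helper819.Dyn

open Pool.Agent.Helper819.Apolar

noncomputable section

set_option linter.unusedSectionVars false

/-- polynomials in the entries of a matrix -/
abbrev KA (k : Type) [Field k] (N : ℕ) : Type := MvPolynomial (Fin (N + 1) × Fin (N + 1)) k

/-- polynomials in the coefficients -/
abbrev SS (k : Type) [Field k] (N d : ℕ) : Type := MvPolynomial (Ix N d) k

/-- the generic matrix -/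
abbrev gm (k : Type) [Field k] (N : ℕ) : Matrix (Fin (N + 1)) (Fin (N + 1)) (KA k N) :=
  Matrix.mvPolynomialX (Fin (N + 1)) (Fin (N + 1)) k

variable {k : Type} [Field k] {N d : ℕ}

/-- The orbit map of `c` as a vector of polynomials in the matrix. -/
def orb (c : Ix N d → k) : Ix N d → KA k N := actT (gm k N) (fun p => C (c p))

theorem gm_map (A : Matrix (Fin (N + 1)) (Fin (N + 1)) k) :
    (gm k N).map (eval (ent A)) = A := by
  ext i j
  simp [gm, Matrix.mvPolynomialX, ent]

theorem eval_orb (A : Matrix (Fin (N + 1)) (Fin (N + 1)) k) (c : Ix N d → k) (p : Ix N d) :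
    eval (ent A) (orb c p) = actT A c p := by
  unfold orb
  rw [map_actT, gm_map]
  simp only [eval_C]

theorem eval_aeval_orb (A : Matrix (Fin (N + 1)) (Fin (N + 1)) k) (c : Ix N d → k)
    (P : SS k N d) : eval (ent A) (aeval (orb c) P) = eval (actT A c) P := by
  have h1 : eval (ent A) (bind₁ (orb c) P) = eval (fun i => eval (ent A) (orb c i)) P :=
    eval_bind' _ _ _
  rw [aeval_eq_bind₁, h1]
  congr 1
  congr 1
  funext p
  exact eval_orb A c p

theorem dt_homog (n : ℕ) (k : Type) [Field k] : (dt n k).IsHomogeneous n := by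
  unfold dt
  rw [Matrix.det_apply]
  refine IsHomogeneous.sum _ _ _ fun s _ => ?_
  have h1 : (∏ i, Matrix.mvPolynomialX (Fin n) (Fin n) k (s i) i).IsHomogeneous n := by
    have := IsHomogeneous.prod (Finset.univ : Finset (Fin n))
      (fun i => Matrix.mvPolynomialX (Fin n) (Fin n) k (s i) i) (fun _ => 1)
      (fun i _ => isHomogeneous_X _ _)
    simpa using this
  rcases Int.units_eq_one_or (Equiv.Perm.sign s) with h | h
  · rw [h, one_smul]; exact h1
  · rw [h, Units.neg_smul, one_smul]; exact h1.neg

theorem eval_smul_hom {σ : Type} {p : MvPolynomial σ k} {j : ℕ} (hp : p.IsHomogeneous j)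
    (r : k) (x : σ → k) : eval (r • x) p = r ^ j * eval x p := by
  rw [eval_eq, eval_eq, Finset.mul_sum]
  refine Finset.sum_congr rfl fun m hm => ?_
  have hdeg : ∑ i ∈ m.support, m i = j := by
    have : m.degree = j := by
      by_contra hne
      exact (mem_support_iff.mp hm) (hp.coeff_eq_zero hne)
    rw [← this]
    rfl
  simp only [Pi.smul_apply, smul_eq_mul, mul_pow]
  rw [Finset.prod_mul_distrib, Finset.prod_pow_eq_pow_sum, hdeg]
  ring

theorem homog_of_scale {σ : Type} [Infinite k] {p : MvPolynomial σ k} {e : ℕ}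
    (h : ∀ (r : k) (x : σ → k), eval (r • x) p = r ^ e * eval x p) : p.IsHomogeneous e := by
  have h1 : ∀ (r : k) (x : σ → k), eval (r • x) p =
      ∑ j ∈ Finset.range (p.totalDegree + 1), r ^ j * eval x (homogeneousComponent j p) := by
    intro r x
    conv_lhs => rw [← sum_homogeneousComponent p]
    rw [map_sum]
    exact Finset.sum_congr rfl fun j _ =>
      eval_smul_hom (homogeneousComponent_isHomogeneous j p) r x
  have h2 : ∀ j, j ≠ e → homogeneousComponent j p = 0 := by
    intro j hj
    by_cases hjd : j ∈ Finset.range (p.totalDegree + 1)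
    · apply MvPolynomial.funext
      intro x
      rw [map_zero]
      have h3 : (∑ j ∈ Finset.range (p.totalDegree + 1),
          Polynomial.C (eval x (homogeneousComponent j p)) * Polynomial.X ^ j -
          Polynomial.C (eval x p) * Polynomial.X ^ e : Polynomial k) = 0 := by
        apply Polynomial.funext
        intro r
        rw [Polynomial.eval_sub, Polynomial.eval_finsetSum]
        simp only [Polynomial.eval_mul, Polynomial.eval_C, Polynomial.eval_pow, Polynomial.eval_X,
          Polynomial.eval_zero]
        have h4 := h1 r x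
        rw [h r x] at h4
        rw [sub_eq_zero, mul_comm _ (r ^ e), h4]
        exact Finset.sum_congr rfl fun j _ => mul_comm _ _
      have h4 := congrArg (fun q => Polynomial.coeff q j) h3
      simp only [Polynomial.coeff_sub, Polynomial.finsetSum_coeff, Polynomial.coeff_C_mul,
        Polynomial.coeff_X_pow, Polynomial.coeff_zero] at h4
      rw [if_neg hj, mul_zero, sub_zero, Finset.sum_eq_single j] at h4
      · simpa using h4
      · intro b _ hb
        rw [if_neg hb.symm, mul_zero]
      · intro hn
        exact absurd hjd hn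
    · exact homogeneousComponent_eq_zero _ _ (by simpa using hjd)
  rw [← sum_homogeneousComponent p]
  refine IsHomogeneous.sum _ _ _ fun j _ => ?_
  by_cases hj : j = e
  · rw [← hj]
    exact homogeneousComponent_isHomogeneous j p
  · rw [h2 j hj]
    exact isHomogeneous_zero _ _ _

theorem actT_smul_mat (r : k) (A : Matrix (Fin (N + 1)) (Fin (N + 1)) k) (c : Ix N d → k) :
    actT (r • A) c = r ^ (N + d) • actT A c := by
  have h1 : r • A = (r • (1 : Matrix (Fin (N + 1)) (Fin (N + 1)) k)) * A := by
    rw [Matrix.smul_mul, one_mul]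
  rw [h1, ← actT_actT, actT_scalar, actT_smul]

theorem orb_homog [Infinite k] (c : Ix N d → k) (p : Ix N d) :
    (orb c p).IsHomogeneous (N + d) := by
  apply homog_of_scale
  intro r x
  obtain ⟨A, rfl⟩ := ent_surj x
  have h1 : (r • ent A : Fin (N + 1) × Fin (N + 1) → k) = ent (r • A) := rfl
  rw [h1, eval_orb, eval_orb, actT_smul_mat]
  rfl

theorem aeval_orb_homog [Infinite k] (c : Ix N d → k) {P : SS k N d} {δ : ℕ}
    (hP : P.IsHomogeneous δ) : (aeval (orb c) P).IsHomogeneous ((N + d) * δ) :=
  hP.aeval (orb c) (orb_homog c)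

theorem Lsub_aeval_orb [Infinite k] (B : Matrix (Fin (N + 1)) (Fin (N + 1)) k)
    (c : Ix N d → k) (P : SS k N d) :
    Lsub B (aeval (orb c) P) = aeval (orb (actT B c)) P := by
  apply poly_ext
  intro A _
  rw [eval_Lsub, eval_aeval_orb, eval_aeval_orb, actT_actT]

/-- composition with the action -/
def compT (B : Matrix (Fin (N + 1)) (Fin (N + 1)) k) : SS k N d →ₐ[k] SS k N d :=
  aeval (actT (B.map C) (X : Ix N d → SS k N d))

theorem eval_compT (B : Matrix (Fin (N + 1)) (Fin (N + 1)) k) (c : Ix N d → k) (P : SS k N d) :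
    eval c (compT B P) = eval (actT B c) P := by
  have h1 : eval c (bind₁ (actT (B.map C) (X : Ix N d → SS k N d)) P) =
      eval (fun i => eval c (actT (B.map C) (X : Ix N d → SS k N d) i)) P :=
    eval_bind' _ _ _
  unfold compT
  rw [aeval_eq_bind₁, h1]
  congr 1
  congr 1
  funext p
  have hB : (B.map (C : k →+* SS k N d)).map (eval c) = B := by
    ext i j : 2
    simp only [Matrix.map_apply, eval_C]
  rw [map_actT, hB]
  simp only [eval_X]

theorem Rsub_aeval_orb [Infinite k] (B : Matrix (Fin (N + 1)) (Fin (N + 1)) k)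
    (c : Ix N d → k) (P : SS k N d) :
    Rsub B (aeval (orb c) P) = aeval (orb c) (compT B P) := by
  apply poly_ext
  intro A _
  rw [eval_Rsub, eval_aeval_orb, eval_aeval_orb, eval_compT, actT_actT]

/-- The generic form of `P(act A c)`. -/
def bigP (P : SS k N d) : MvPolynomial (Ix N d) (KA k N) :=
  aeval (actT ((gm k N).map C) (X : Ix N d → MvPolynomial (Ix N d) (KA k N))) P

theorem eval_bigP (c : Ix N d → k) (P : SS k N d) :
    eval (fun p => C (c p)) (bigP P) = aeval (orb c) P := by
  unfold bigP
  have h0 : (eval (fun p => (C (c p) : KA k N))).comp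
      (algebraMap k (MvPolynomial (Ix N d) (KA k N))) = algebraMap k (KA k N) := by
    ext1 a
    rw [RingHom.comp_apply, IsScalarTower.algebraMap_apply k (KA k N)
      (MvPolynomial (Ix N d) (KA k N)) a]
    exact eval_C _
  have hA : ((gm k N).map (C : KA k N →+* MvPolynomial (Ix N d) (KA k N))).map
      (eval (fun p => (C (c p) : KA k N))) = gm k N := by
    ext i j : 2
    simp only [Matrix.map_apply, eval_C]
  rw [aeval_def, hom_eval₂, h0, aeval_def]
  congr 1
  funext p
  rw [map_actT, hA]
  simp only [eval_X]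
  rfl

/-- The Reynolds operator of weight `w`. -/
def sharp (w : ℕ) (P : SS k N d) : SS k N d :=
  ∑ m ∈ (bigP P).support, monomial m (rho w (coeff m (bigP P)))

variable [CharZero k]

theorem eval_sharp (w : ℕ) (c : Ix N d → k) (P : SS k N d) :
    eval c (sharp w P) = rho w (aeval (orb c) P) := by
  rw [← eval_bigP, eval_eq (fun p => C (c p)) (bigP P), rho_sum]
  unfold sharp
  rw [map_sum]
  refine Finset.sum_congr rfl fun m _ => ?_
  rw [eval_monomial]
  have h1 : (coeff m (bigP P) * ∏ i ∈ m.support, (C (c i) : KA k N) ^ m i) =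
      C (∏ i ∈ m.support, c i ^ m i) * coeff m (bigP P) := by
    rw [map_prod, mul_comm]
    simp only [C_pow]
  rw [h1, rho_smul, mul_comm]
  rfl

theorem eval_sharp_act (w : ℕ) (B : Matrix (Fin (N + 1)) (Fin (N + 1)) k) (c : Ix N d → k)
    (P : SS k N d) : eval (actT B c) (sharp w P) = B.det ^ w * eval c (sharp w P) := by
  have hinf : Infinite k := inferInstance
  rw [eval_sharp, eval_sharp, ← Lsub_aeval_orb, rho_Lsub]

/-- The functional of weight `w` vanishes on forms of another degree. -/
theorem rho_homog {w e : ℕ} {p : KA k N} (hp : p.IsHomogeneous e) (he : e ≠ (N + 1) * w) :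
    rho w p = 0 := by
  unfold rho
  have h1 : pr (dt (N + 1) k ^ w) p = 0 := by
    unfold pr
    apply Finset.sum_eq_zero
    intro m hm
    have h2 : m.degree = (N + 1) * w := by
      by_contra hne
      exact (mem_support_iff.mp hm) (((dt_homog (N + 1) k).pow w).coeff_eq_zero hne)
    rw [hp.coeff_eq_zero (by rw [h2]; exact he.symm), mul_zero]
  rw [h1, zero_div]

theorem rho_of_degree_lt {w : ℕ} {p : KA k N} (hp : p.totalDegree < (N + 1) * w) :
    rho w p = 0 := by
  rw [← sum_homogeneousComponent p, rho_sum]
  apply Finset.sum_eq_zero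
  intro j hj
  apply rho_homog (homogeneousComponent_isHomogeneous j p)
  have := Finset.mem_range.mp hj
  omega

theorem rho_zero_det_mul (p : KA k N) : rho 0 (dt (N + 1) k * p) = 0 := by
  rw [← sum_homogeneousComponent p, Finset.mul_sum, rho_sum]
  apply Finset.sum_eq_zero
  intro j _
  refine rho_homog ((dt_homog (N + 1) k).mul (homogeneousComponent_isHomogeneous j p)) ?_
  omega

/-- A polynomial congruent to `1` modulo `det - 1` has total average `1`. -/
theorem sum_rho_eq_one {p q : KA k N} (h : p = 1 + (dt (N + 1) k - 1) * q) {B : ℕ}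
    (hB : q.totalDegree < (N + 1) * B) : ∑ w ∈ Finset.range (B + 1), rho w p = 1 := by
  have h1 : ∀ w, rho w p = rho w (1 : KA k N) + (rho w (dt (N + 1) k * q) - rho w q) := by
    intro w
    have h2 : p = 1 + (dt (N + 1) k * q + C (-1) * q) := by
      rw [h, map_neg, map_one]; ring
    rw [h2, rho_add, rho_add, rho_smul]
    ring
  simp_rw [h1]
  rw [Finset.sum_add_distrib, Finset.sum_range_succ', Finset.sum_range_succ']
  have h3 : ∀ w, rho (w + 1) (1 : KA k N) = 0 := fun w =>
    rho_homog (isHomogeneous_one _ _) (by rw [mul_add]; omega)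
  have h4 : rho 0 (1 : KA k N) = 1 := by
    have := rho_dt (n := N + 1) (k := k) 0
    rwa [pow_zero] at this
  simp only [h3, rho_det_mul, Finset.sum_const_zero, zero_add, h4, rho_zero_det_mul, zero_sub]
  rw [Finset.sum_range_sub' (fun w => rho w q) B, rho_of_degree_lt hB]
  ring

end

end Pool.Agent.Helper819.Dyn
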