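import Pool.Agent.Helper819.SingDefs
import Pool.Agent.Helper819.Codim

/-!
Translation between tuples and coefficient vectors.
-/

open MvPolynomial Topology

namespace Pool.Agent.Helper819.Dyn

open Pool.Agent.Helper819.Apolar Pool.Agent.Helper819.Zar

noncomputable section

set_option linter.unusedSectionVars false

variable {k : Type} [Field k] {N d : ℕ}

/-- coefficient vector -/
def co (F : EndTuple k N d) : Ix N d → k := cf F.1

theorem tup_co (F : EndTuple k N d) : tup (co F) = F.1 := tup_cf F.2.1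

/-- inclusion of index sets -/
def inc (N d : ℕ) : Ix N d → Fin (N + 1) × (Fin (N + 1) →₀ ℕ) := fun p => (p.1, p.2.1)

/-- polynomials in the coefficients, in all variables -/
def toBig (P : SS k N d) : MvPolynomial (Fin (N + 1) × (Fin (N + 1) →₀ ℕ)) k :=
  rename (inc N d) P

theorem eval_toBig (F : EndTuple k N d) (P : SS k N d) :
    eval (coords F) (toBig P) = eval (co F) P := by
  unfold toBig
  rw [eval_rename]
  rfl

/-- restriction to the relevant variables -/
def toSS (P : MvPolynomial (Fin (N + 1) × (Fin (N + 1) →₀ ℕ)) k) : SS k N d :=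
  aeval (fun q => if h : q.2 ∈ Finset.finsuppAntidiag Finset.univ d then
    (X (q.1, ⟨q.2, h⟩) : SS k N d) else 0) P

theorem eval_toSS (F : EndTuple k N d) (P : MvPolynomial (Fin (N + 1) × (Fin (N + 1) →₀ ℕ)) k) :
    eval (co F) (toSS P) = eval (coords F) P := by
  unfold toSS
  have h1 : ∀ q : Fin (N + 1) × (Fin (N + 1) →₀ ℕ) → SS k N d,
      eval (co F) (bind₁ q P) = eval (fun i => eval (co F) (q i)) P := fun q => eval_bind' _ _ _
  rw [aeval_eq_bind₁, h1]
  congr 2
  funext q
  split_ifs with h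
  · rw [eval_X]; rfl
  · rw [map_zero]
    symm
    apply (F.2.1 q.1).coeff_eq_zero
    intro hq
    exact h ((mem_Ex _).mpr hq)

theorem eventually_iff_SS (F : EndTuple k N d) (φ : EndTuple k N d → Prop) :
    (∀ᶠ G in 𝓝 F, φ G) ↔ ∃ s : SS k N d, eval (co F) s ≠ 0 ∧
      ∀ G : EndTuple k N d, eval (co G) s ≠ 0 → φ G := by
  rw [(isZar_coords k N d).isTopologicalBasis.nhds_hasBasis.eventually_iff]
  constructor
  · rintro ⟨U, ⟨⟨p, rfl⟩, hF⟩, h⟩
    refine ⟨toSS p, by rw [eval_toSS]; exact hF, fun G hG => h ?_⟩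
    rw [eval_toSS] at hG
    exact hG
  · rintro ⟨s, hs, h⟩
    refine ⟨_, ⟨⟨toBig s, rfl⟩, ?_⟩, fun G hG => h G ?_⟩
    · change eval (coords F) (toBig s) ≠ 0
      rw [eval_toBig]; exact hs
    · have hG' : eval (coords G) (toBig s) ≠ 0 := hG
      rw [eval_toBig] at hG'
      exact hG'

variable [IsAlgClosed k]

theorem nz_co (F : EndTuple k N d) : NZ (tup (co F)) := by
  rw [tup_co]
  exact ((isEnd_iff F.1).mp F.2).2

/-- the tuple with given coefficients -/
def mkE (c : Ix N d → k) (h : NZ (tup c)) : EndTuple k N d :=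
  ⟨tup c, (isEnd_iff _).mpr ⟨tup_homog c, h⟩⟩

theorem co_mkE (c : Ix N d → k) (h : NZ (tup c)) : co (mkE c h) = c := cf_tup c

theorem mkE_co (F : EndTuple k N d) (h : NZ (tup (co F))) : mkE (co F) h = F :=
  Subtype.ext (tup_co F)

theorem co_inj {F G : EndTuple k N d} (h : co F = co G) : F = G := by
  apply Subtype.ext
  rw [← tup_co F, ← tup_co G, h]

theorem co_actE (A : Matrix (Fin (N + 1)) (Fin (N + 1)) k) (hA : A.det ≠ 0)
    (F : EndTuple k N d) : co (actE A hA F) = actT A (co F) := by
  unfold actT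
  rw [tup_co]
  rfl

theorem eventually_cls (hNd : 0 < N + d) (F : EndTuple k N d) (φ : Moduli k N d → Prop) :
    (∀ᶠ m in 𝓝 (cls F), φ m) ↔ ∀ᶠ G in 𝓝 F, φ (cls G) := by
  constructor
  · intro h
    exact (continuous_cls.tendsto F).eventually h
  · intro h
    have h1 := (isOpenMap_cls (k := k) (N := N) (d := d) hNd).nhds_le F
    exact h1 h

theorem eventually_cls_SS (hNd : 0 < N + d) (F : EndTuple k N d) (φ : Moduli k N d → Prop) :
    (∀ᶠ m in 𝓝 (cls F), φ m) ↔ ∃ s : SS k N d, eval (co F) s ≠ 0 ∧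
      ∀ G : EndTuple k N d, eval (co G) s ≠ 0 → φ (cls G) := by
  rw [eventually_cls hNd, eventually_iff_SS]

theorem isRegularAt_iff (h : Moduli k N d → k) (F : EndTuple k N d) :
    IsRegularAt h F ↔ ∃ p q s : SS k N d, eval (co F) q ≠ 0 ∧ eval (co F) s ≠ 0 ∧
      ∀ G : EndTuple k N d, eval (co G) s ≠ 0 → h (cls G) * eval (co G) q = eval (co G) p := by
  constructor
  · rintro ⟨p, q, hq, hev⟩
    rw [eventually_iff_SS] at hev
    obtain ⟨s, hs, h⟩ := hev
    refine ⟨toSS p, toSS q, s, by rw [eval_toSS]; exact hq, hs, fun G hG => ?_⟩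
    rw [eval_toSS, eval_toSS]
    exact h G hG
  · rintro ⟨p, q, s, hq, hs, h⟩
    refine ⟨toBig p, toBig q, by rw [eval_toBig]; exact hq, ?_⟩
    rw [eventually_iff_SS]
    refine ⟨s, hs, fun G hG => ?_⟩
    rw [eval_toBig, eval_toBig]
    exact h G hG

/-- Trivial automorphism groups in terms of coefficient vectors. -/
theorem autTrivial_iff (hNd : 0 < N + d) (F : EndTuple k N d) :
    AutTrivial F.1 ↔ IsFree (co F) := by
  have hinf : Infinite k := IsAlgClosed.instInfinite
  constructor
  · intro h A hA hAf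
    have hu : IsUnit A := (Matrix.isUnit_iff_isUnit_det A).mpr (isUnit_iff_ne_zero.mpr hA)
    have hAF : F = actE A hA F := by
      apply co_inj
      rw [co_actE, hAf]
    obtain ⟨r, hr⟩ := h hu.unit ⟨(Units.mk0 A.det hA)⁻¹, by
      have h1 : F.1 = fun i => C (A.det : k) * conj hu.unit F.1 i := by
        have h2 : (actE A hA F).1 = fun i => C (A.det : k) * conj hu.unit F.1 i := by
          funext i
          apply MvPolynomial.funext
          intro P
          change eval P (act A F.1 i) = _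
          rw [eval_act, map_mul, eval_C, conj_eval, Finset.mul_sum]
          refine Finset.sum_congr rfl fun j _ => ?_
          have hinv : (↑(hu.unit⁻¹) : Matrix (Fin (N + 1)) (Fin (N + 1)) k) =
              A.det⁻¹ • A.adjugate := by
            rw [Matrix.coe_units_inv, Matrix.inv_def, Ring.inverse_eq_inv']
            simp
          rw [hinv]
          simp only [Matrix.smul_apply, smul_eq_mul, IsUnit.unit_spec]
          field_simp
        rw [← hAF] at h2
        exact h2
      funext i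
      conv_rhs => rw [h1]
      rw [← mul_assoc, ← C_mul, Units.val_inv_eq_inv_val, Units.val_mk0, inv_mul_cancel₀ hA, C_1,
        one_mul]⟩
    exact ⟨r, by rw [← hr]; rfl⟩
  · intro h φ hφ
    obtain ⟨c, hc⟩ := hφ
    obtain ⟨M, hM⟩ : ∃ M : Matrix (Fin (N + 1)) (Fin (N + 1)) k, M = ↑φ := ⟨_, rfl⟩
    have hdet : M.det ≠ 0 := by
      rw [hM]
      exact ((Matrix.isUnit_iff_isUnit_det _).mp φ.isUnit).ne_zero
    have hinv : (↑(φ⁻¹) : Matrix (Fin (N + 1)) (Fin (N + 1)) k) = M.det⁻¹ • M.adjugate := by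
      rw [Matrix.coe_units_inv, Matrix.inv_def, hM, Ring.inverse_eq_inv']
    obtain ⟨a, ha⟩ := IsAlgClosed.exists_pow_nat_eq ((c : k) * M.det)⁻¹ hNd
    have ha0 : a ≠ 0 := by
      rintro rfl
      rw [zero_pow hNd.ne'] at ha
      exact inv_ne_zero (mul_ne_zero c.ne_zero hdet) ha.symm
    have h1 : act M F.1 = fun i => C (c * M.det) * F.1 i := by
      funext i
      apply MvPolynomial.funext
      intro P
      have h2 := congrArg (eval P) (congrFun hc i)
      rw [conj_eval, map_mul, eval_C, hinv] at h2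
      rw [eval_act, map_mul, eval_C, mul_comm (c : k) M.det, mul_assoc, ← h2, Finset.mul_sum]
      refine Finset.sum_congr rfl fun j _ => ?_
      simp only [Matrix.smul_apply, smul_eq_mul, ← hM]
      field_simp
    have h2 : actT M (co F) = (c * M.det : k) • co F := by
      unfold actT
      rw [tup_co, h1, cf_C_mul]
      rfl
    obtain ⟨r, hr⟩ := h (a • M) (by
      rw [Matrix.det_smul]
      exact mul_ne_zero (pow_ne_zero _ ha0) hdet) (by
      rw [actT_smul_mat, h2, smul_smul, ha, inv_mul_cancel₀ (mul_ne_zero c.ne_zero hdet),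
        one_smul])
    refine ⟨a⁻¹ * r, ?_⟩
    rw [← hM, mul_smul, ← hr, smul_smul, inv_mul_cancel₀ ha0, one_smul]

end

end Pool.Agent.Helper819.Dyn
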