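import Pool.Agent.Helper819.DynDefs

/-!
The local rings of the moduli space `M_d^N` and the automorphism groups of its points.
-/

open MvPolynomial Topology

namespace Pool.Agent.Helper819.Dyn

noncomputable section

variable {k : Type} [Field k] {N d : ℕ}

/-- The pull back to coefficient tuples of a function `h` on `M_d^N(k)` is regular at the tuple
`F`: near `F` it is a quotient of two polynomials in the coefficients, with denominator not
vanishing at `F`. -/
def IsRegularAt (h : Moduli k N d → k) (F : EndTuple k N d) : Prop :=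
  ∃ p q : MvPolynomial (Fin (N + 1) × (Fin (N + 1) →₀ ℕ)) k, eval (coords F) q ≠ 0 ∧
    ∀ᶠ G in 𝓝 F, h (cls G) * eval (coords G) q = eval (coords G) p

/-- A function on `M_d^N(k)` is regular at the point `m` of the geometric quotient when its pull
back is regular at all tuples representing `m`. -/
def IsRegularFun (h : Moduli k N d → k) (m : Moduli k N d) : Prop :=
  ∀ F, cls F = m → IsRegularAt h F

theorem IsRegularAt.add {h h' : Moduli k N d → k} {F : EndTuple k N d} (H : IsRegularAt h F)
    (H' : IsRegularAt h' F) : IsRegularAt (h + h') F := by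
  obtain ⟨p, q, hq, hp⟩ := H
  obtain ⟨p', q', hq', hp'⟩ := H'
  refine ⟨p * q' + p' * q, q * q', by rw [map_mul]; exact mul_ne_zero hq hq', ?_⟩
  filter_upwards [hp, hp'] with G h1 h2
  simp only [Pi.add_apply, map_add, map_mul]
  linear_combination (eval (coords G) q') * h1 + (eval (coords G) q) * h2

theorem IsRegularAt.mul {h h' : Moduli k N d → k} {F : EndTuple k N d} (H : IsRegularAt h F)
    (H' : IsRegularAt h' F) : IsRegularAt (h * h') F := by
  obtain ⟨p, q, hq, hp⟩ := H
  obtain ⟨p', q', hq', hp'⟩ := H'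
  refine ⟨p * p', q * q', by rw [map_mul]; exact mul_ne_zero hq hq', ?_⟩
  filter_upwards [hp, hp'] with G h1 h2
  simp only [Pi.mul_apply, map_mul]
  rw [← h1, ← h2]
  ring

theorem IsRegularAt.neg {h : Moduli k N d → k} {F : EndTuple k N d} (H : IsRegularAt h F) :
    IsRegularAt (-h) F := by
  obtain ⟨p, q, hq, hp⟩ := H
  refine ⟨-p, q, hq, ?_⟩
  filter_upwards [hp] with G h1
  simp only [Pi.neg_apply, map_neg]
  rw [← h1]
  ring

theorem isRegularAt_const (a : k) (F : EndTuple k N d) : IsRegularAt (fun _ => a) F := by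
  refine ⟨C a, 1, by simp, Filter.Eventually.of_forall fun G => ?_⟩
  simp

/-- The local ring of `M_d^N` at the point `m`: the germs at `m` of functions which are regular in
a neighbourhood of `m`. -/
def localRing (k : Type) [Field k] (N d : ℕ) (m : Moduli k N d) : Subring ((𝓝 m).Germ k) where
  carrier := {g | ∃ h : Moduli k N d → k, (h : (𝓝 m).Germ k) = g ∧
    ∀ᶠ m' in 𝓝 m, IsRegularFun h m'}
  zero_mem' := ⟨fun _ => 0, rfl, Filter.Eventually.of_forall fun _ F _ => isRegularAt_const 0 F⟩
  one_mem' := ⟨fun _ => 1, rfl, Filter.Eventually.of_forall fun _ F _ => isRegularAt_const 1 F⟩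
  add_mem' := by
    rintro _ _ ⟨h, rfl, H⟩ ⟨h', rfl, H'⟩
    refine ⟨h + h', rfl, ?_⟩
    filter_upwards [H, H'] with m' h1 h2 F hF
    exact (h1 F hF).add (h2 F hF)
  mul_mem' := by
    rintro _ _ ⟨h, rfl, H⟩ ⟨h', rfl, H'⟩
    refine ⟨h * h', rfl, ?_⟩
    filter_upwards [H, H'] with m' h1 h2 F hF
    exact (h1 F hF).mul (h2 F hF)
  neg_mem' := by
    rintro _ ⟨h, rfl, H⟩
    refine ⟨-h, rfl, ?_⟩
    filter_upwards [H] with m' h1 F hF
    exact (h1 F hF).neg

/-- The singular locus of `M_d^N`: the points whose local ring is not a regular local ring. -/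
def singularLocus (k : Type) [Field k] (N d : ℕ) : Set (Moduli k N d) :=
  {m | ¬ IsRegularLocalRing (localRing k N d m)}

/-- `Aut(f) = 1`: every `φ` in `GL_{N+1}(k)` such that `φ⁻¹ ∘ f ∘ φ` and `f` are the same morphism
of `ℙ^N` is a scalar matrix. -/
def AutTrivial (F : Tuple k N) : Prop :=
  ∀ φ : GL (Fin (N + 1)) k, (∃ c : kˣ, conj φ F = fun i => C (c : k) * F i) →
    ∃ r : k, (φ : Matrix (Fin (N + 1)) (Fin (N + 1)) k) = r • 1

end

end Pool.Agent.Helper819.Dyn
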