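import Pool.Agent.Helper819.Jac2

/-!
Points with nontrivial automorphism group are singular.
-/

open MvPolynomial Topology

namespace Pool.Agent.Helper819.Dyn

open Pool.Agent.Helper819.Apolar Pool.Agent.Helper819.Zar

noncomputable section

set_option linter.unusedSectionVars false

variable {k : Type} [Field k] {N d : ℕ} [IsAlgClosed k] [CharZero k]

theorem exists_transversal (hd : 2 ≤ d) {f : Ix N d → k} (hf : NZ (tup f)) :
    ∃ c : F2 N → Ix N d → k, eval f (tr0 c) ≠ 0 := by
  have hinj : LinearMap.ker (xiL f) = ⊥ := by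
    rw [LinearMap.ker_eq_bot']
    intro Y hY
    exact xi_inj hd hf Y hY
  obtain ⟨r, hr⟩ := LinearMap.exists_leftInverse_of_injective (xiL f) hinj
  refine ⟨fun a p => r (Pi.single p 1) a.1 a.2, ?_⟩
  have h1 : ∀ (v : Ix N d → k) (a : F2 N), ∑ p, r (Pi.single p 1) a.1 a.2 * v p = r v a.1 a.2 := by
    intro v a
    have h2 : r v = ∑ p, v p • r (Pi.single p 1) := by
      conv_lhs => rw [pi_eq_sum_univ v, map_sum]
      refine Finset.sum_congr rfl fun p _ => ?_
      rw [map_smul]
      congr 2
      funext q
      rw [Pi.single_apply]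
      simp only [eq_comm]
    rw [h2, Matrix.sum_apply]
    refine Finset.sum_congr rfl fun p _ => ?_
    rw [Matrix.smul_apply, smul_eq_mul, mul_comm]
  rw [eval_tr0]
  have h2 : (Matrix.of fun (a b : F2 N) => ∑ p, r (Pi.single p 1) a.1 a.2 *
      xi (Matrix.single b.1 b.2 1) f p) = 1 := by
    ext a b
    rw [Matrix.of_apply, h1, Matrix.one_apply]
    have h3 : r (xi (Matrix.single b.1 b.2 1) f) = Matrix.single b.1 b.2 1 :=
      congrFun (congrArg DFunLike.coe hr) (Matrix.single b.1 b.2 1)
    rw [h3, Matrix.single_apply]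
    by_cases hab : a = b
    · subst hab; simp
    · rw [if_neg hab, if_neg]
      rintro ⟨h4, h5⟩
      exact hab (Prod.ext h4.symm h5.symm)
  rw [h2, Matrix.det_one]
  exact one_ne_zero

theorem oneEps_comm {R S : Type} [CommRing R] [CommRing S] [Algebra R S] (e : S)
    {L Y : Matrix (Fin (N + 1)) (Fin (N + 1)) R} (hLY : L * Y = Y * L) :
    oneEps e Y * L.map (algebraMap R S) = L.map (algebraMap R S) * oneEps e Y := by
  have h1 : Y.map (algebraMap R S) * L.map (algebraMap R S) =
      L.map (algebraMap R S) * Y.map (algebraMap R S) := by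
    rw [← Matrix.map_mul, ← Matrix.map_mul, hLY]
  unfold oneEps
  rw [add_mul, mul_add, one_mul, mul_one, Matrix.smul_mul, Matrix.mul_smul, h1]

theorem xi_fixed_aux {R S : Type} [CommRing R] [CommRing S] [Algebra R S] (e : S)
    (he : e * e = 0) {f : Ix N d → R} {L Y : Matrix (Fin (N + 1)) (Fin (N + 1)) R}
    (hL : actT L f = f) (hLY : L * Y = Y * L) (p : Ix N d) :
    algebraMap R S (f p) + e * algebraMap R S (actT L (xi Y f) p) =
      algebraMap R S (f p) + e * algebraMap R S (xi Y f p) := by
  have h0 : ∀ (v : Ix N d → R), actT (L.map (algebraMap R S)) (fun p => algebraMap R S (v p)) =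
      fun p => algebraMap R S (actT L v p) := by
    intro v
    funext p
    exact (map_actT (algebraMap R S) L v p).symm
  have h2 : actT (oneEps e Y) (fun p => algebraMap R S (f p)) =
      (fun p => algebraMap R S (f p)) + e • (fun p => algebraMap R S (xi Y f p)) := by
    funext p
    exact actT_eps e he Y f p
  have h1 : actT (L.map (algebraMap R S)) (actT (oneEps e Y) (fun p => algebraMap R S (f p))) =
      actT (oneEps e Y) (fun p => algebraMap R S (f p)) := by
    rw [actT_actT, oneEps_comm e hLY, ← actT_actT, h0, hL]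
  rw [h2, actT_add, actT_smul, h0, h0, hL] at h1
  exact congrFun h1 p

/-- the infinitesimal action commutes with matrices fixing the point -/
theorem xi_fixed {f : Ix N d → k} {L Y : Matrix (Fin (N + 1)) (Fin (N + 1)) k}
    (hL : actT L f = f) (hLY : L * Y = Y * L) : actT L (xi Y f) = xi Y f := by
  funext p
  have h1 := xi_fixed_aux (DualNumber.eps : DualNumber k) DualNumber.eps_mul_eps hL hLY p
  have h3 := congrArg TrivSqZeroExt.snd h1
  rw [snd_form, snd_form] at h3
  exact h3

theorem exists_generators {f : Ix N d → k} (h : IsRegularLocalRing (Of f)) (D : ℕ)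
    (hD : ringKrullDim (Of f) ≤ (D : WithBot ℕ∞)) :
    ∃ x : Fin D → Of f, Ideal.span (Set.range x) = IsLocalRing.maximalIdeal (Of f) := by
  classical
  set I := IsLocalRing.maximalIdeal (Of f) with hI
  have hfg : I.FG := IsNoetherian.noetherian I
  have h1 : I.generators.ncard ≤ D := by
    rw [Submodule.FG.generators_ncard hfg]
    have h2 := h.spanFinrank_maximalIdeal
    rw [← h2] at hD
    exact_mod_cast hD
  have hfin : I.generators.Finite := Submodule.FG.finite_generators hfg
  have hcard : hfin.toFinset.card ≤ D := by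
    rw [← Set.ncard_eq_toFinset_card _ hfin]
    exact h1
  let e := hfin.toFinset.equivFin
  refine ⟨fun i => if hi : (i : ℕ) < hfin.toFinset.card then (e.symm ⟨i, hi⟩ : Of f) else 0, ?_⟩
  have hspan : Submodule.span (Of f) I.generators = I := Submodule.span_generators I
  apply le_antisymm
  · rw [Ideal.span_le]
    rintro _ ⟨i, rfl⟩
    simp only
    split_ifs with hi
    · have h3 : (e.symm ⟨i, hi⟩ : Of f) ∈ I.generators := by
        have := (e.symm ⟨i, hi⟩).2
        rwa [Set.Finite.mem_toFinset] at this
      have h4 : (e.symm ⟨i, hi⟩ : Of f) ∈ Submodule.span (Of f) I.generators :=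
        Submodule.subset_span h3
      rw [hspan] at h4
      exact h4
    · exact zero_mem _
  · have h3 : Submodule.span (Of f) I.generators ≤ Ideal.span (Set.range
        fun i : Fin D => if hi : (i : ℕ) < hfin.toFinset.card then (e.symm ⟨i, hi⟩ : Of f) else 0) := by
      apply Submodule.span_mono
      intro y hy
      have hy' : y ∈ hfin.toFinset := by rwa [Set.Finite.mem_toFinset]
      let i := e ⟨y, hy'⟩
      refine ⟨⟨i, lt_of_lt_of_le i.2 hcard⟩, ?_⟩
      simp only
      rw [dif_pos i.2]
      have : e.symm ⟨(i : ℕ), i.2⟩ = ⟨y, hy'⟩ := by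
        rw [Fin.eta]
        exact e.symm_apply_apply _
      rw [this]
    rw [hspan] at h3
    exact h3

theorem not_regular_diag (hN : 2 ≤ N) (hd : 2 ≤ d) {f : Ix N d → k} (hf : NZ (tup f))
    (l : Fin (N + 1) → k) (hl : ∀ i, l i ≠ 0) (hne : ∃ i j, l i ≠ l j)
    (hfix : actT (Matrix.diagonal l) f = f) : ¬ IsRegularLocalRing (Of f) := by
  classical
  have hinf : Infinite k := IsAlgClosed.instInfinite
  intro hreg
  -- numerics
  have hcard1 : (N + 1) * (N + 1) ≤ Fintype.card (Ix N d) := by
    have h1 := Submodule.finrank_le (LinearMap.range (xiL f))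
    rw [finrank_xi hd hf, Module.finrank_fintype_fun_eq_card] at h1
    exact h1
  obtain ⟨D, hDdef⟩ : ∃ D, D = Fintype.card (Ix N d) - (N + 1) * (N + 1) := ⟨_, rfl⟩
  have hD : Fintype.card (Ix N d) = D + (N + 1) * (N + 1) := by omega
  have hdim := krullDim_le hd hf
  rw [← hDdef] at hdim
  obtain ⟨x, hx⟩ := exists_generators hreg D hdim
  obtain ⟨w, P, Q, hQs, hQf, hrep⟩ := common_rep f x
  obtain ⟨c, hc⟩ := exists_transversal hd hf
  have hF2 : Fintype.card (F2 N) = (N + 1) * (N + 1) := by
    unfold F2
    rw [Fintype.card_prod, Fintype.card_fin]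
  have e : Ix N d ≃ Fin D ⊕ F2 N := Fintype.equivOfCardEq (by
    rw [Fintype.card_sum, hF2, Fintype.card_fin, hD])
  have hjac := jac_ne hN hd hf hD x hx hrep e c hc
  rw [jac_ne_zero_iff] at hjac
  have hPf : ∀ i, eval f (P i) = 0 := by
    intro i
    rw [← evO_eq_zero_iff f (x i) (hrep i), ← mem_max_iff, ← hx]
    exact Ideal.subset_span ⟨i, rfl⟩
  have hkill : ∀ v : Ix N d → k, (∀ i, dd (P i) f v = 0) → (∀ a, ∑ p, c a p * v p = 0) → v = 0 := by
    intro v hv1 hv2
    apply hjac v _ hv2
    intro i
    rw [sum_Wr _ _ _ _ (hPf i), hv1 i, mul_zero]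
  -- the determinant weight is trivial
  have hdetw : (Matrix.diagonal l).det ^ w = 1 := by
    have h1 := hQs (Matrix.diagonal l) f
    rw [hfix] at h1
    exact mul_right_cancel₀ hQf (h1.symm.trans (one_mul _).symm)
  -- bad directions are killed
  have hbad : ∀ p : Ix N d, chi l p ≠ 1 → ∀ i, dd (P i) f (Pi.single p 1) = 0 := by
    intro p hp i
    have h1 := semi_equiv (hrep i).1 (Matrix.diagonal l) f (Pi.single p 1)
    have h2 : actT (Matrix.diagonal l) (Pi.single p (1 : k)) = chi l p • Pi.single p 1 := by
      funext q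
      rw [actT_diag, Pi.smul_apply, smul_eq_mul]
      by_cases hq : q = p
      · subst hq; rfl
      · rw [Pi.single_eq_of_ne hq, mul_zero, mul_zero]
    rw [hfix, h2, hdetw, one_mul] at h1
    have h3 : dd (P i) f (chi l p • Pi.single p 1) = chi l p * dd (P i) f (Pi.single p 1) :=
      (ddL (P i) f).map_smul (chi l p) (Pi.single p 1)
    rw [h3] at h1
    have h4 : (chi l p - 1) * dd (P i) f (Pi.single p 1) = 0 := by linear_combination h1
    exact (mul_eq_zero.mp h4).resolve_left (sub_ne_zero.mpr hp)
  -- the family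
  let T : Type := {p : Ix N d // chi l p ≠ 1} ⊕ {b : F2 N // l b.1 = l b.2}
  let vec : T → (Ix N d → k) := Sum.elim (fun p => Pi.single p.1 1)
    (fun b => xi (Matrix.single b.1.1 b.1.2 1) f)
  have hvec : ∀ (t : T) (i : Fin D), dd (P i) f (vec t) = 0 := by
    rintro (p | b) i
    · exact hbad p.1 p.2 i
    · change dd (P i) f (xi _ f) = 0
      rw [semi_lie (hrep i).1, hPf i, mul_zero]
  have hsupp : ∀ (b : F2 N), l b.1 = l b.2 → ∀ p : Ix N d, chi l p ≠ 1 →
      xi (Matrix.single b.1 b.2 (1 : k)) f p = 0 := by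
    intro b hb p hp
    have h1 : actT (Matrix.diagonal l) (xi (Matrix.single b.1 b.2 (1 : k)) f) =
        xi (Matrix.single b.1 b.2 1) f := by
      apply xi_fixed hfix
      ext i j
      rw [Matrix.diagonal_mul, Matrix.mul_diagonal, Matrix.single_apply]
      split_ifs with h
      · rw [← h.1, ← h.2, hb]; ring
      · simp
    have h2 := congrFun h1 p
    rw [actT_diag] at h2
    have h4 : (chi l p - 1) * xi (Matrix.single b.1 b.2 (1 : k)) f p = 0 := by
      linear_combination h2
    exact (mul_eq_zero.mp h4).resolve_left (sub_ne_zero.mpr hp)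
  -- the linear map
  let Φ : (T → k) →ₗ[k] (F2 N → k) :=
    { toFun := fun z a => ∑ p, c a p * (∑ t, z t • vec t) p
      map_add' := by
        intro z z'
        funext a
        simp only [Pi.add_apply, add_smul, Finset.sum_add_distrib, mul_add]
      map_smul' := by
        intro r z
        funext a
        simp only [Pi.smul_apply, smul_eq_mul, RingHom.id_apply, Finset.sum_apply,
          Finset.mul_sum]
        refine Finset.sum_congr rfl fun p _ => Finset.sum_congr rfl fun t _ => ?_
        ring }
  have hΦ : Function.Injective Φ := by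
    rw [injective_iff_map_eq_zero]
    intro z hz
    have h1 : ∑ t, z t • vec t = 0 := by
      apply hkill
      · intro i
        have h2 : dd (P i) f (∑ t, z t • vec t) = ∑ t, z t * dd (P i) f (vec t) := by
          have h3 := map_sum (ddL (P i) f) (fun t => z t • vec t) Finset.univ
          simp only [map_smul, smul_eq_mul, ddL_apply] at h3
          exact h3
        rw [h2]
        exact Finset.sum_eq_zero fun t _ => by rw [hvec, mul_zero]
      · intro a
        exact congrFun hz a
    rw [Fintype.sum_sum_type] at h1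
    have hzl : ∀ p : {p : Ix N d // chi l p ≠ 1}, z (Sum.inl p) = 0 := by
      intro p
      have h2 := congrFun h1 p.1
      rw [Pi.add_apply, Finset.sum_apply, Finset.sum_apply] at h2
      have h3 : ∑ b : {b : F2 N // l b.1 = l b.2}, (z (Sum.inr b) • vec (Sum.inr b)) p.1 = 0 := by
        apply Finset.sum_eq_zero
        intro b _
        change z (Sum.inr b) * xi (Matrix.single b.1.1 b.1.2 (1 : k)) f p.1 = 0
        rw [hsupp b.1 b.2 p.1 p.2, mul_zero]
      rw [h3, add_zero, Finset.sum_eq_single p] at h2
      · change z (Sum.inl p) * (Pi.single p.1 1 : Ix N d → k) p.1 = 0 at h2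
        rwa [Pi.single_eq_same, mul_one] at h2
      · intro q _ hq
        change z (Sum.inl q) * (Pi.single q.1 1 : Ix N d → k) p.1 = 0
        rw [Pi.single_eq_of_ne (fun h => hq (Subtype.ext h.symm)), mul_zero]
      · simp
    have h2 : ∑ b : {b : F2 N // l b.1 = l b.2}, z (Sum.inr b) • vec (Sum.inr b) = 0 := by
      rw [← h1]
      symm
      rw [add_eq_right]
      apply Finset.sum_eq_zero
      intro p _
      rw [hzl p, zero_smul]
    have h3 : xi (∑ b : {b : F2 N // l b.1 = l b.2}, z (Sum.inr b) •
        Matrix.single b.1.1 b.1.2 (1 : k)) f = 0 := by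
      have h4 := map_sum (xiL f) (fun b : {b : F2 N // l b.1 = l b.2} => z (Sum.inr b) •
        Matrix.single b.1.1 b.1.2 (1 : k)) Finset.univ
      simp only [map_smul] at h4
      exact h4.trans h2
    have h4 := xi_inj hd hf _ h3
    have hzr : ∀ b : {b : F2 N // l b.1 = l b.2}, z (Sum.inr b) = 0 := by
      intro b
      have h5 := congrFun (congrFun h4 b.1.1) b.1.2
      rw [Matrix.sum_apply, Matrix.zero_apply, Finset.sum_eq_single b] at h5
      · rw [Matrix.smul_apply, Matrix.single_apply_same, smul_eq_mul, mul_one] at h5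
        exact h5
      · intro b' _ hb'
        rw [Matrix.smul_apply, Matrix.single_apply, if_neg, smul_zero]
        rintro ⟨h6, h7⟩
        exact hb' (Subtype.ext (Prod.ext h6 h7))
      · simp
    funext t
    rcases t with p | b
    · exact hzl p
    · exact hzr b
  have hle := LinearMap.finrank_le_finrank_of_injective hΦ
  rw [Module.finrank_fintype_fun_eq_card, Module.finrank_fintype_fun_eq_card,
    Fintype.card_sum, Fintype.card_subtype, Fintype.card_subtype] at hle
  obtain ⟨i0, j0, hij⟩ := hne
  have h1 := count_bad (d := d) hN hd l hl i0 j0 hij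
  have h2 := Finset.card_filter_add_card_filter_not (s := (Finset.univ : Finset (F2 N)))
    (fun b => l b.1 = l b.2)
  rw [Finset.card_univ] at h2
  obtain ⟨j, hj⟩ : ∃ j, j = (Finset.univ.filter (fun a : F2 N => ¬ l a.1 = l a.2)).card := ⟨_, rfl⟩
  have h3 : j + 2 ≤ (Finset.univ.filter (fun p : Ix N d => chi l p ≠ 1)).card := by
    rw [hj]
    convert h1
  have h4 : (Finset.univ.filter (fun b : F2 N => l b.1 = l b.2)).card + j =
      Fintype.card (F2 N) := by
    rw [hj, ← h2]
  omega

/-- Points with nontrivial automorphism group are singular. -/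
theorem sing_of_aut (hN : 2 ≤ N) (hd : 2 ≤ d) (F : EndTuple k N d) (hF : ¬ AutTrivial F.1) :
    ¬ IsRegularLocalRing (localRing k N d (cls F)) := by
  have hNd : 0 < N + d := by omega
  rw [autTrivial_iff hNd] at hF
  unfold IsFree at hF
  push Not at hF
  obtain ⟨A, hA, hAf, hns⟩ := hF
  obtain ⟨g, l, hg, hgl⟩ := exists_diag hd (nz_co F) A hA hAf
  have hgu : IsUnit g.det := isUnit_iff_ne_zero.mpr hg
  have hAg : A = g * Matrix.diagonal l * g⁻¹ := by
    rw [← hgl, mul_assoc, Matrix.mul_nonsing_inv _ hgu, mul_one]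
  have hl : ∀ i, l i ≠ 0 := by
    have h1 := congrArg Matrix.det hgl
    rw [Matrix.det_mul, Matrix.det_mul, Matrix.det_diagonal] at h1
    have h2 : ∏ i, l i ≠ 0 := by
      intro h0
      rw [h0, mul_zero] at h1
      exact mul_ne_zero hA hg h1
    intro i
    exact (Finset.prod_ne_zero_iff.mp h2) i (Finset.mem_univ i)
  have hne : ∃ i j, l i ≠ l j := by
    by_contra hcon
    push Not at hcon
    apply hns (l 0)
    have h1 : Matrix.diagonal l = l 0 • (1 : Matrix (Fin (N + 1)) (Fin (N + 1)) k) := by
      rw [Matrix.smul_one_eq_diagonal]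
      congr 1
      funext i
      exact hcon i 0
    rw [hAg, h1, Matrix.mul_smul, mul_one, Matrix.smul_mul, Matrix.mul_nonsing_inv _ hgu]
  have hcls : cls F = cls (actE g hg F) := (cls_eq_iff hNd _ _).mpr ⟨g, hg, rfl⟩
  rw [hcls]
  intro hreg
  apply not_regular_diag hN hd (nz_co (actE g hg F)) l hl hne
  · rw [co_actE, actT_actT, ← hgl, ← actT_actT, hAf]
  · exact IsRegularLocalRing.of_ringEquiv (localRingEquiv hNd hd (actE g hg F)).symm

end

end Pool.Agent.Helper819.Dyn
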