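import Pool.Agent.Helper819.Lie

/-!
Differentials of semi-invariants.
-/

open MvPolynomial

namespace Pool.Agent.Helper819.Dyn

open Pool.Agent.Helper819.Apolar

noncomputable section

set_option linter.unusedSectionVars false

variable {k : Type} [Field k] {N d : ℕ}

/-- directional derivative -/
def dd {R σ : Type} [CommRing R] [Fintype σ] (P : MvPolynomial σ R) (c v : σ → R) : R :=
  ∑ p, v p * eval c (pderiv p P)

theorem aeval_orb_S {S : Type} [CommRing S] [Algebra k S] (f : Ix N d → k)
    (M : Matrix (Fin (N + 1)) (Fin (N + 1)) S) (p : Ix N d) :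
    aeval (ent M) (orb f p) = actT M (fun p => algebraMap k S (f p)) p := by
  unfold orb
  have h1 := map_actT (aeval (ent M) : KA k N →ₐ[k] S).toRingHom (gm k N)
    (fun p => C (f p)) p
  change aeval (ent M) (actT (gm k N) (fun p => C (f p)) p) = _ at h1
  rw [h1]
  congr 1
  · ext i j
    simp [gm, Matrix.mvPolynomialX, ent]
  · funext q
    exact algHom_C _ _

theorem aeval_dt_S {S : Type} [CommRing S] [Algebra k S]
    (M : Matrix (Fin (N + 1)) (Fin (N + 1)) S) :
    aeval (ent M) (dt (N + 1) k) = M.det := by
  unfold dt
  rw [AlgHom.map_det]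
  congr 1
  ext i j
  simp [Matrix.mvPolynomialX, ent]

theorem aeval_aeval_orb_S {S : Type} [CommRing S] [Algebra k S] (f : Ix N d → k)
    (M : Matrix (Fin (N + 1)) (Fin (N + 1)) S) (P : SS k N d) :
    aeval (ent M) (aeval (orb f) P) = aeval (actT M (fun p => algebraMap k S (f p))) P := by
  have h1 := comp_aeval_apply (orb f) (aeval (ent M) : KA k N →ₐ[k] S) P
  rw [h1]
  congr 2
  funext p
  exact aeval_orb_S f M p

theorem aeval_compT_S {S : Type} [CommRing S] [Algebra k S]
    (B : Matrix (Fin (N + 1)) (Fin (N + 1)) k) (y : Ix N d → S) (P : SS k N d) :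
    aeval y (compT B P) = aeval (actT (B.map (algebraMap k S)) y) P := by
  unfold compT
  have h1 := comp_aeval_apply (actT (B.map C) (X : Ix N d → SS k N d))
    (aeval y : SS k N d →ₐ[k] S) P
  rw [h1]
  congr 2
  funext p
  have h2 := map_actT (aeval y : SS k N d →ₐ[k] S).toRingHom (B.map C)
    (X : Ix N d → SS k N d) p
  change aeval y (actT (B.map C) (X : Ix N d → SS k N d) p) = _ at h2
  rw [h2]
  congr 1
  · ext i j
    simp
  · funext q
    exact aeval_X y q

theorem semi_univ [Infinite k] {S : Type} [CommRing S] [Algebra k S] {w : ℕ} {P : SS k N d}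
    (hP : IsSemi w P) (M : Matrix (Fin (N + 1)) (Fin (N + 1)) S) (c : Ix N d → k) :
    aeval (actT M (fun p => algebraMap k S (c p))) P =
      M.det ^ w * algebraMap k S (eval c P) := by
  have h1 : aeval (orb c) P = dt (N + 1) k ^ w * C (eval c P) := by
    apply poly_ext
    intro A _
    rw [eval_aeval_orb, map_mul, map_pow, eval_dt, eval_C]
    exact hP A c
  rw [← aeval_aeval_orb_S, h1, map_mul, map_pow, aeval_dt_S, algHom_C]

theorem snd_form (a b : k) : TrivSqZeroExt.snd (algebraMap k (DualNumber k) a +
    DualNumber.eps * algebraMap k (DualNumber k) b) = b := by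
  rw [TrivSqZeroExt.algebraMap_eq_inl]
  simp

theorem fst_form (a b : k) : TrivSqZeroExt.fst (algebraMap k (DualNumber k) a +
    DualNumber.eps * algebraMap k (DualNumber k) b) = a := by
  rw [TrivSqZeroExt.algebraMap_eq_inl]
  simp

theorem semi_lie [Infinite k] {w : ℕ} {P : SS k N d} (hP : IsSemi w P)
    (A : Matrix (Fin (N + 1)) (Fin (N + 1)) k) (c : Ix N d → k) :
    dd P c (xi A c) = w * A.trace * eval c P := by
  have h1 := semi_univ hP (oneEps (DualNumber.eps : DualNumber k) A) c
  have h2 : actT (oneEps (DualNumber.eps : DualNumber k) A)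
      (fun p => algebraMap k (DualNumber k) (c p)) = fun p => algebraMap k (DualNumber k) (c p) +
        DualNumber.eps * algebraMap k (DualNumber k) (xi A c p) := by
    funext p
    exact actT_eps _ DualNumber.eps_mul_eps A c p
  rw [h2, eval_eps _ DualNumber.eps_mul_eps, det_oneEps _ DualNumber.eps_mul_eps] at h1
  have h3 : ∀ w : ℕ, (1 + (DualNumber.eps : DualNumber k) * algebraMap k (DualNumber k) A.trace) ^ w =
      1 + DualNumber.eps * algebraMap k (DualNumber k) (w * A.trace) := by
    intro w
    induction w with
    | zero => simp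
    | succ w ih =>
      rw [pow_succ, ih, Nat.cast_succ]
      have e1 : algebraMap k (DualNumber k) (((w : k) + 1) * A.trace) =
          ((w : DualNumber k) + 1) * algebraMap k (DualNumber k) A.trace := by
        rw [map_mul, map_add, map_natCast, map_one]
      have e2 : algebraMap k (DualNumber k) ((w : k) * A.trace) =
          (w : DualNumber k) * algebraMap k (DualNumber k) A.trace := by
        rw [map_mul, map_natCast]
      rw [e1, e2]
      linear_combination ((w : DualNumber k) * algebraMap k (DualNumber k) A.trace *
        algebraMap k (DualNumber k) A.trace) * (DualNumber.eps_mul_eps (R := k))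
  have h4 := congrArg TrivSqZeroExt.snd h1
  rw [snd_form, h3] at h4
  have h5 : (1 + (DualNumber.eps : DualNumber k) * algebraMap k (DualNumber k) (w * A.trace)) *
      algebraMap k (DualNumber k) (eval c P) = algebraMap k (DualNumber k) (eval c P) +
        DualNumber.eps * algebraMap k (DualNumber k) (w * A.trace * eval c P) := by
    rw [map_mul _ (w * A.trace) (eval c P)]
    ring
  rw [h5, snd_form] at h4
  exact h4

theorem semi_equiv [Infinite k] {w : ℕ} {P : SS k N d} (hP : IsSemi w P)
    (B : Matrix (Fin (N + 1)) (Fin (N + 1)) k) (c v : Ix N d → k) :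
    dd P (actT B c) (actT B v) = B.det ^ w * dd P c v := by
  have h1 : compT B P = C (B.det ^ w) * P := by
    apply MvPolynomial.funext
    intro c
    rw [eval_compT, map_mul, eval_C]
    exact hP B c
  have h2 := congrArg (aeval (fun p => algebraMap k (DualNumber k) (c p) +
    DualNumber.eps * algebraMap k (DualNumber k) (v p))) h1
  have h3 : actT (B.map (algebraMap k (DualNumber k))) (fun p => algebraMap k (DualNumber k) (c p) +
    DualNumber.eps * algebraMap k (DualNumber k) (v p)) =
      fun p => algebraMap k (DualNumber k) (actT B c p) +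
        DualNumber.eps * algebraMap k (DualNumber k) (actT B v p) := by
    have e1 : (fun p => algebraMap k (DualNumber k) (c p) +
        DualNumber.eps * algebraMap k (DualNumber k) (v p)) =
        (fun p => algebraMap k (DualNumber k) (c p)) +
          (DualNumber.eps : DualNumber k) • (fun p => algebraMap k (DualNumber k) (v p)) := rfl
    rw [e1, actT_add, actT_smul]
    funext p
    simp only [Pi.add_apply, Pi.smul_apply, smul_eq_mul]
    rw [map_actT, map_actT]
  rw [aeval_compT_S, h3, map_mul, algHom_C, eval_eps _ DualNumber.eps_mul_eps,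
    eval_eps _ DualNumber.eps_mul_eps] at h2
  have h4 := congrArg TrivSqZeroExt.snd h2
  rw [snd_form] at h4
  have h5 : algebraMap k (DualNumber k) (B.det ^ w) * (algebraMap k (DualNumber k) (eval c P) +
      DualNumber.eps * algebraMap k (DualNumber k) (∑ p, v p * eval c (pderiv p P))) =
      algebraMap k (DualNumber k) (B.det ^ w * eval c P) +
        DualNumber.eps * algebraMap k (DualNumber k)
          (B.det ^ w * ∑ p, v p * eval c (pderiv p P)) := by
    rw [map_mul, map_mul]
    ring
  rw [h5, snd_form] at h4
  exact h4

/-- The polynomial `A ↦ dP(A c)(A v)`. -/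
def qq (c v : Ix N d → k) (P : SS k N d) : KA k N :=
  ∑ p, orb v p * aeval (orb c) (pderiv p P)

theorem eval_qq (c v : Ix N d → k) (P : SS k N d) (A : Matrix (Fin (N + 1)) (Fin (N + 1)) k) :
    eval (ent A) (qq c v P) = dd P (actT A c) (actT A v) := by
  unfold qq dd
  rw [map_sum]
  refine Finset.sum_congr rfl fun p _ => ?_
  rw [map_mul, eval_orb, eval_aeval_orb]

theorem coeff_one_line {S σ : Type} [Fintype σ] [CommRing S] [Algebra k S] (x v : σ → S)
    (P : MvPolynomial σ k) :
    (aeval (fun p => Polynomial.C (x p) + Polynomial.X * Polynomial.C (v p)) P).coeff 1 =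
      ∑ p, v p * aeval x (pderiv p P) := by
  have h1 := deriv_aeval ((Polynomial.derivative' (R := S)).restrictScalars k)
    (fun p => Polynomial.C (x p) + Polynomial.X * Polynomial.C (v p)) P
  change Polynomial.derivative (aeval (fun p => Polynomial.C (x p) +
    Polynomial.X * Polynomial.C (v p)) P) = ∑ l, aeval (fun p => Polynomial.C (x p) +
    Polynomial.X * Polynomial.C (v p)) (pderiv l P) *
      Polynomial.derivative (Polynomial.C (x l) + Polynomial.X * Polynomial.C (v l)) at h1
  have h2 := congrArg (fun q => Polynomial.coeff q 0) h1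
  simp only [Polynomial.coeff_derivative] at h2
  simp only [Nat.cast_zero, zero_add, mul_one] at h2
  rw [h2, Polynomial.finsetSum_coeff]
  refine Finset.sum_congr rfl fun p _ => ?_
  have h3 : Polynomial.derivative (Polynomial.C (x p) + Polynomial.X * Polynomial.C (v p)) =
      Polynomial.C (v p) := by
    simp
  rw [h3, Polynomial.coeff_mul_C, mul_comm]
  congr 1
  have h4 : ∀ q : Polynomial S, q.coeff 0 = Polynomial.eval 0 q :=
    fun q => Polynomial.coeff_zero_eq_eval_zero q
  rw [h4]
  change Polynomial.evalRingHom 0 (aeval _ (pderiv p P)) = _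
  have h5 : Polynomial.evalRingHom (0 : S) (aeval (fun p => Polynomial.C (x p) +
      Polynomial.X * Polynomial.C (v p)) (pderiv p P)) =
      aeval (fun p => Polynomial.evalRingHom (0 : S) (Polynomial.C (x p) +
        Polynomial.X * Polynomial.C (v p))) (pderiv p P) := by
    rw [aeval_def, hom_eval₂, aeval_def]
    congr 1
    ext a
    simp [Polynomial.algebraMap_apply]
  rw [h5]
  congr 2
  funext q
  simp

theorem coeff_zero_line {S σ : Type} [Fintype σ] [CommRing S] [Algebra k S] (x v : σ → S)
    (P : MvPolynomial σ k) :
    (aeval (fun p => Polynomial.C (x p) + Polynomial.X * Polynomial.C (v p)) P).coeff 0 =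
      aeval x P := by
  rw [Polynomial.coeff_zero_eq_eval_zero]
  change Polynomial.evalRingHom 0 (aeval _ P) = _
  have h5 : Polynomial.evalRingHom (0 : S) (aeval (fun p => Polynomial.C (x p) +
      Polynomial.X * Polynomial.C (v p)) P) =
      aeval (fun p => Polynomial.evalRingHom (0 : S) (Polynomial.C (x p) +
        Polynomial.X * Polynomial.C (v p))) P := by
    rw [aeval_def, hom_eval₂, aeval_def]
    congr 1
    ext a
    simp [Polynomial.algebraMap_apply]
  rw [h5]
  congr 2
  funext q
  simp

theorem dd_sharp [CharZero k] (w : ℕ) (P : SS k N d) (c v : Ix N d → k) :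
    dd (sharp w P) c v = rho w (qq c v P) := by
  have hinf : Infinite k := inferInstance
  let G : Polynomial k := aeval (fun p => Polynomial.C (c p) + Polynomial.X * Polynomial.C (v p))
    (sharp w P)
  let H : Polynomial (KA k N) := aeval (fun p => Polynomial.C (orb c p) +
    Polynomial.X * Polynomial.C (orb v p)) P
  have hG1 : G.coeff 1 = dd (sharp w P) c v := by
    change (aeval (fun p => Polynomial.C (c p) + Polynomial.X * Polynomial.C (v p))
      (sharp w P)).coeff 1 = _
    rw [coeff_one_line]
    rfl
  have hH1 : H.coeff 1 = qq c v P := coeff_one_line (orb c) (orb v) P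
  have hGeval : ∀ t : k, G.eval t = eval (c + t • v) (sharp w P) := by
    intro t
    change Polynomial.evalRingHom t (aeval _ (sharp w P)) = _
    rw [aeval_def, hom_eval₂]
    have e1 : (Polynomial.evalRingHom t).comp (algebraMap k (Polynomial k)) = RingHom.id k := by
      ext a; simp
    rw [e1]
    congr 1
    funext p
    simp only [Polynomial.coe_evalRingHom, Polynomial.eval_add, Polynomial.eval_mul,
      Polynomial.eval_C, Polynomial.eval_X, Pi.add_apply, Pi.smul_apply, smul_eq_mul]
  have hHeval : ∀ t : k, H.eval (C t) = aeval (orb (c + t • v)) P := by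
    intro t
    change Polynomial.evalRingHom (C t) (aeval _ P) = _
    rw [aeval_def, hom_eval₂, aeval_def]
    congr 1
    · ext a
      simp [Polynomial.algebraMap_apply]
    · funext p
      have e1 : (fun p => (C ((c + t • v) p) : KA k N)) = (fun p => C (c p)) +
          (C t : KA k N) • (fun p => C (v p)) := by
        funext q
        simp
      unfold orb
      rw [e1, actT_add, actT_smul, Polynomial.coe_evalRingHom, Polynomial.eval_add,
        Polynomial.eval_mul, Polynomial.eval_C, Polynomial.eval_X, Polynomial.eval_C]
      rfl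
  have hpoly : G = ∑ j ∈ Finset.range (H.natDegree + 1),
      Polynomial.C (rho w (H.coeff j)) * Polynomial.X ^ j := by
    apply Polynomial.funext
    intro t
    rw [hGeval, eval_sharp, ← hHeval, Polynomial.eval_eq_sum_range, rho_sum,
      Polynomial.eval_finsetSum]
    refine Finset.sum_congr rfl fun j _ => ?_
    rw [← C_pow, mul_comm, rho_smul, Polynomial.eval_mul, Polynomial.eval_C, Polynomial.eval_pow,
      Polynomial.eval_X, mul_comm]
  rw [← hG1, hpoly, Polynomial.finsetSum_coeff, ← hH1]
  simp only [Polynomial.coeff_C_mul, Polynomial.coeff_X_pow]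
  by_cases h1 : 1 ∈ Finset.range (H.natDegree + 1)
  · rw [Finset.sum_eq_single 1]
    · simp
    · intro b _ hb
      rw [if_neg hb.symm, mul_zero]
    · intro hn
      exact absurd h1 hn
  · rw [Polynomial.coeff_eq_zero_of_natDegree_lt (by simpa using h1), rho_zero]
    apply Finset.sum_eq_zero
    intro b hb
    rw [if_neg, mul_zero]
    intro h
    exact h1 (h ▸ hb)

end

end Pool.Agent.Helper819.Dyn
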