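import Pool.Agent.Helper819.Dim

/-!
Upper bound for the dimension of the moduli space of maps of the line.
-/

open MvPolynomial

namespace Pool.Agent.Helper819.Dyn

open Pool.Agent.Helper819.Zar

noncomputable section

variable {k : Type} [Field k] [IsAlgClosed k] [CharZero k] {d : ℕ}

/-- constant family -/
def cst (F : Tuple k 1) : Tuple (MvPolynomial (Fin 0) k) 1 := fun i => map C (F i)

omit [IsAlgClosed k] [CharZero k] in
theorem spec_cst (F : Tuple k 1) (y : Fin 0 → k) : spec y (cst F) = F := by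
  funext i
  unfold spec cst
  rw [map_map]
  have : (eval y).comp (C : k →+* MvPolynomial (Fin 0) k) = RingHom.id k := by
    ext a; simp
  rw [this, map_id]

/-- The coordinates of a map of the line as univariate polynomials. -/
theorem exists_pair (F : EndTuple k 1 d) : ∃ f g : Polynomial k, f.natDegree ≤ d ∧
    g.natDegree ≤ d ∧ F.1 0 = hom d f ∧ F.1 1 = hom d g ∧
    (∀ t, ¬ (f.eval t = 0 ∧ g.eval t = 0)) ∧ ¬ (f.coeff d = 0 ∧ g.coeff d = 0) := by
  obtain ⟨f, hf, hf'⟩ := exists_hom (F.2.1 0)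
  obtain ⟨g, hg, hg'⟩ := exists_hom (F.2.1 1)
  have hend := ((isEnd_iff F.1).mp F.2).2
  refine ⟨f, g, hf, hg, hf', hg', ?_, ?_⟩
  · rintro t ⟨h1, h2⟩
    have := hend ![t, 1] (by
      intro i
      fin_cases i
      · change eval ![t, 1] (F.1 0) = 0
        rw [hf', eval_hom_fin hf, h1]
      · change eval ![t, 1] (F.1 1) = 0
        rw [hg', eval_hom_fin hg, h2])
    have h3 := congrFun this 1
    simp at h3
  · rintro ⟨h1, h2⟩
    have := hend ![1, 0] (by
      intro i
      fin_cases i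
      · change eval ![1, 0] (F.1 0) = 0
        rw [hf', eval_hom_inf, h1]
      · change eval ![1, 0] (F.1 1) = 0
        rw [hg', eval_hom_inf, h2])
    have h3 := congrFun this 0
    simp at h3

theorem normal_form1 (F : EndTuple k 1 d) :
    ∃ (A : Matrix (Fin (1 + 1)) (Fin (1 + 1)) k) (hA : A.det ≠ 0),
      eval ![1, 0] ((actE A hA F).1 1) = 0 := by
  obtain ⟨f, g, hf, hg, hf', hg', hfin, hinf⟩ := exists_pair F
  by_cases hgd : g.coeff d = 0
  · refine ⟨1, by simp, ?_⟩
    change eval ![1, 0] (act 1 F.1 1) = 0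
    rw [act_one, hg', eval_hom_inf, hgd]
  · have hco : (Polynomial.X * g - f).coeff (d + 1) = g.coeff d := by
      rw [Polynomial.coeff_sub, Polynomial.coeff_X_mul,
        Polynomial.coeff_eq_zero_of_natDegree_lt (by omega : f.natDegree < d + 1), sub_zero]
    have hdeg : (Polynomial.X * g - f).degree ≠ 0 := by
      intro h0
      have h1 := Polynomial.eq_C_of_degree_eq_zero h0
      rw [h1, Polynomial.coeff_C_succ] at hco
      exact hgd hco.symm
    obtain ⟨t, ht⟩ := IsAlgClosed.exists_root _ hdeg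
    have ht' : t * g.eval t - f.eval t = 0 := by
      have := ht
      rw [Polynomial.IsRoot.def] at this
      simpa using this
    refine ⟨!![t, 1; 1, 0], by rw [Matrix.det_fin_two_of]; simp, ?_⟩
    change eval ![1, 0] (act !![t, 1; 1, 0] F.1 1) = 0
    rw [eval_act1]
    simp only [mul_one, mul_zero, add_zero, one_mul]
    rw [hf', hg', eval_hom_fin hf, eval_hom_fin hg]
    exact ht'

theorem normal_form2 (hd : 2 ≤ d) (F : EndTuple k 1 d) (h1 : eval ![1, 0] (F.1 1) = 0) :
    ∃ (A : Matrix (Fin (1 + 1)) (Fin (1 + 1)) k) (hA : A.det ≠ 0),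
      eval ![1, 0] ((actE A hA F).1 1) = 0 ∧
      eval ![0, 1] ((actE A hA F).1 0) * eval ![0, 1] ((actE A hA F).1 1) = 0 := by
  obtain ⟨f, g, hf, hg, hf', hg', hfin, hinf⟩ := exists_pair F
  have hgd : g.coeff d = 0 := by rw [hg', eval_hom_inf] at h1; exact h1
  have hfd : f.coeff d ≠ 0 := fun h => hinf ⟨h, hgd⟩
  have hμ : ∃ μ : k, (f.eval μ - μ * g.eval μ) * g.eval μ = 0 := by
    by_cases hg0 : g.degree = 0
    · have h2 := Polynomial.eq_C_of_degree_eq_zero hg0
      have hdeg : (f - Polynomial.X * g).degree ≠ 0 := by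
        intro h0
        have h3 := Polynomial.eq_C_of_degree_eq_zero h0
        have h4 : (f - Polynomial.X * g).coeff d = f.coeff d := by
          rw [h2]
          obtain ⟨e, rfl⟩ : ∃ e, d = e + 1 + 1 := ⟨d - 2, by omega⟩
          rw [Polynomial.coeff_sub, Polynomial.coeff_X_mul, Polynomial.coeff_C_succ, sub_zero]
        rw [h3] at h4
        obtain ⟨e, rfl⟩ : ∃ e, d = e + 1 := ⟨d - 1, by omega⟩
        rw [Polynomial.coeff_C_succ] at h4
        exact hfd h4.symm
      obtain ⟨t, ht⟩ := IsAlgClosed.exists_root _ hdeg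
      refine ⟨t, ?_⟩
      have : f.eval t - t * g.eval t = 0 := by
        have := ht
        rw [Polynomial.IsRoot.def] at this
        simpa using this
      rw [this, zero_mul]
    · obtain ⟨t, ht⟩ := IsAlgClosed.exists_root _ hg0
      exact ⟨t, by rw [Polynomial.IsRoot.def] at ht; rw [ht, mul_zero]⟩
  obtain ⟨μ, hμ⟩ := hμ
  refine ⟨!![1, μ; 0, 1], by rw [Matrix.det_fin_two_of]; simp, ?_, ?_⟩
  · change eval ![1, 0] (act !![1, μ; 0, 1] F.1 1) = 0
    rw [eval_act1]
    simp only [mul_one, mul_zero, add_zero, one_mul, zero_mul, sub_zero]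
    exact h1
  · change eval ![0, 1] (act !![1, μ; 0, 1] F.1 0) * eval ![0, 1] (act !![1, μ; 0, 1] F.1 1) = 0
    rw [eval_act1, eval_act0]
    simp only [mul_one, mul_zero, zero_add, one_mul, zero_mul, sub_zero]
    rw [hf', hg', eval_hom_fin hf, eval_hom_fin hg]
    exact hμ

omit [IsAlgClosed k] in
theorem two_pow_ne (n : ℕ) (hn : 1 ≤ n) : (2 : k) ^ n ≠ 1 := by
  intro h
  have h2 : ((2 ^ n : ℕ) : k) = ((1 : ℕ) : k) := by push_cast; exact h
  have h3 : 2 ^ n = 1 := Nat.cast_injective h2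
  have : 2 ^ 1 ≤ 2 ^ n := Nat.pow_le_pow_right (by norm_num) hn
  omega

omit [IsAlgClosed k] in
theorem two_pow_ne2 (n : ℕ) (hn : 2 ≤ n) : (2 : k) ^ n ≠ 2 := by
  intro h
  have h2 : ((2 ^ n : ℕ) : k) = ((2 : ℕ) : k) := by push_cast; exact h
  have h3 : 2 ^ n = 2 := Nat.cast_injective h2
  have : 2 ^ 2 ≤ 2 ^ n := Nat.pow_le_pow_right (by norm_num) hn
  omega

theorem orb_irred {σ : Type} {A : Matrix (Fin (1 + 1)) (Fin (1 + 1)) (MvPolynomial σ k)}
    (hA : A.det ≠ 0) (F : EndTuple k 1 d) :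
    IsIrreducible (famSet d A (1 : MvPolynomial (Fin 0) k) (cst F.1)) :=
  famSet_irred (fun y _ => by rw [spec_cst]; exact F.2) hA one_ne_zero

omit [IsAlgClosed k] [CharZero k] in
theorem mem_orb {σ : Type} {A : Matrix (Fin (1 + 1)) (Fin (1 + 1)) (MvPolynomial σ k)}
    (F G : EndTuple k 1 d) : G ∈ famSet d A (1 : MvPolynomial (Fin 0) k) (cst F.1) ↔
      ∃ B ∈ grp A, G.1 = act B F.1 := by
  rw [famSet_eq]
  constructor
  · rintro ⟨B, hB, y, _, hG⟩
    rw [spec_cst] at hG
    exact ⟨B, hB, hG⟩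
  · rintro ⟨B, hB, hG⟩
    exact ⟨B, hB, Fin.elim0, by simp, by rw [spec_cst]; exact hG⟩

omit [CharZero k] in
theorem exists_good_mu (hd : 2 ≤ d) (f g : Polynomial k) (hf : f.natDegree ≤ d)
    (hfd : f.coeff d ≠ 0) (hfin : ∀ t, ¬ (f.eval t = 0 ∧ g.eval t = 0)) :
    ∃ μ : k, f.eval μ - μ * g.eval μ ≠ 0 ∧ g.eval μ ≠ 0 := by
  have hinf : Infinite k := IsAlgClosed.instInfinite
  have hfnat : f.natDegree = d := le_antisymm hf (Polynomial.le_natDegree_of_ne_zero hfd)
  have hg0 : g ≠ 0 := by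
    rintro rfl
    have : f.degree ≠ 0 := by
      intro h0
      have := Polynomial.natDegree_eq_zero_iff_degree_le_zero.mpr h0.le
      omega
    obtain ⟨t, ht⟩ := IsAlgClosed.exists_root _ this
    exact hfin t ⟨ht, by simp⟩
  have hH : f - Polynomial.X * g ≠ 0 := by
    intro h0
    have h1 : f = Polynomial.X * g := sub_eq_zero.mp h0
    have h2 : g.natDegree = d - 1 := by
      have := hfnat
      rw [h1, Polynomial.natDegree_X_mul hg0] at this
      omega
    have : g.degree ≠ 0 := by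
      intro h0
      have := Polynomial.natDegree_eq_zero_iff_degree_le_zero.mpr h0.le
      omega
    obtain ⟨t, ht⟩ := IsAlgClosed.exists_root _ this
    rw [Polynomial.IsRoot.def] at ht
    exact hfin t ⟨by rw [h1]; simp [ht], ht⟩
  obtain ⟨μ, hμ⟩ : ∃ μ, ((f - Polynomial.X * g) * g).eval μ ≠ 0 := by
    by_contra hcon
    push Not at hcon
    exact (mul_ne_zero hH hg0) (Polynomial.funext (fun r => by rw [hcon r]; simp))
  rw [Polynomial.eval_mul, mul_ne_zero_iff] at hμ
  refine ⟨μ, ?_, hμ.2⟩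
  have := hμ.1
  simpa using this

/-- Any closed irreducible set containing an orbit has height at least `4`. -/
theorem four_le_height (hd : 2 ≤ d) (F : EndTuple k 1 d) (h1 : eval ![1, 0] (F.1 1) = 0)
    (h2 : eval ![0, 1] (F.1 0) * eval ![0, 1] (F.1 1) = 0)
    (W : TopologicalSpace.IrreducibleCloseds (EndTuple k 1 d))
    (hW : ∀ (A : Matrix (Fin (1 + 1)) (Fin (1 + 1)) k) (hA : A.det ≠ 0),
      actE A hA F ∈ (W : Set (EndTuple k 1 d))) : 4 ≤ Order.height W := by
  obtain ⟨f, g, hf, hg, hf', hg', hfin, hinf⟩ := exists_pair F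
  have hgd : g.coeff d = 0 := by rw [hg', eval_hom_inf] at h1; exact h1
  have hfd : f.coeff d ≠ 0 := fun h => hinf ⟨h, hgd⟩
  obtain ⟨μ, hμ1, hμ2⟩ := exists_good_mu hd f g hf hfd hfin
  have hzar := isZar_coords k 1 d
  have hx : ∀ (P : Polynomial k) (a : k), eval ![a, 0] (hom d P) = a ^ d * P.coeff d :=
    fun P a => eval_hom_smul_inf d P a
  have hy : ∀ (P : Polynomial k) (a : k), eval ![0, a] (hom d P) = a ^ d * eval ![0, 1] (hom d P) := by
    intro P a
    have h : (![0, a] : Fin (1 + 1) → k) = a • ![0, 1] := by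
      funext i
      fin_cases i <;> simp
    rw [h, eval_smul_homog (hom_homog d P)]
  have h20 : (2 : k) ≠ 0 := two_ne_zero
  -- the four strict inclusions
  have s01 : icl _ (orb_irred (det_A0 (k := k)) F) < icl _ (orb_irred (det_A1 (k := k)) F) := by
    apply icl_lt2 hzar _ _ (famSet_mono grp01 _ _)
    refine ⟨evp k 1 d ![1, 0] 0 - C (f.coeff d), ?_, ?_⟩
    · intro G hG
      obtain ⟨B, hB, hG⟩ := (mem_orb F G).mp hG
      rw [mem_grp0] at hB
      rw [hB, act_one] at hG
      rw [map_sub, eval_evp, eval_C, hG, hf', eval_hom_inf, sub_self]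
    · refine ⟨actE !![2, 0; 0, 2] (by rw [Matrix.det_fin_two_of]; simp) F,
        (mem_orb F _).mpr ⟨_, (mem_grp1 _).mpr ⟨2, h20, rfl⟩, rfl⟩, ?_⟩
      rw [map_sub, eval_evp, eval_C]
      change eval ![1, 0] (act !![2, 0; 0, 2] F.1 0) - _ ≠ 0
      rw [eval_act0]
      simp only [mul_one, mul_zero, add_zero, zero_mul, sub_zero, hf', hx]
      have : (2 : k) * (2 ^ d * f.coeff d) - f.coeff d = (2 ^ (d + 1) - 1) * f.coeff d := by ring
      rw [this]
      exact mul_ne_zero (sub_ne_zero.mpr (two_pow_ne _ (by omega))) hfd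
  have s12 : icl _ (orb_irred (det_A1 (k := k)) F) < icl _ (orb_irred (det_A2 (k := k)) F) := by
    apply icl_lt2 hzar _ _ (famSet_mono grp12 _ _)
    have hcase : eval ![0, 1] (hom d f) ≠ 0 ∨ eval ![0, 1] (hom d g) ≠ 0 := by
      by_contra hcon
      rw [not_or, not_not, not_not, eval_hom_fin hf, eval_hom_fin hg] at hcon
      exact hfin 0 hcon
    rcases hcase with he | he
    · refine ⟨C (eval ![0, 1] (hom d f)) * evp k 1 d ![1, 0] 0 -
        C (f.coeff d) * evp k 1 d ![0, 1] 0, ?_, ?_⟩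
      · intro G hG
        obtain ⟨B, hB, hG⟩ := (mem_orb F G).mp hG
        rw [mem_grp1] at hB
        obtain ⟨a, ha, rfl⟩ := hB
        rw [map_sub, map_mul, map_mul, eval_evp, eval_evp, eval_C, eval_C, hG, eval_act0,
          eval_act0]
        simp only [mul_one, mul_zero, add_zero, zero_mul, sub_zero, zero_add, hf', hx]
        rw [hy f a]
        ring
      · refine ⟨actE !![2, 0; 0, 1] (by rw [Matrix.det_fin_two_of]; simp) F,
          (mem_orb F _).mpr ⟨_, (mem_grp2 _).mpr ⟨2, 1, by simp, rfl⟩, rfl⟩, ?_⟩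
        rw [map_sub, map_mul, map_mul, eval_evp, eval_evp, eval_C, eval_C]
        change _ * eval ![1, 0] (act !![2, 0; 0, 1] F.1 0) -
          _ * eval ![0, 1] (act !![2, 0; 0, 1] F.1 0) ≠ 0
        rw [eval_act0, eval_act0]
        simp only [mul_one, mul_zero, add_zero, zero_mul, sub_zero, zero_add, hf', hx, one_mul]
        have : eval ![0, 1] (hom d f) * (2 ^ d * f.coeff d) -
            f.coeff d * eval ![0, 1] (hom d f) =
            (2 ^ d - 1) * (f.coeff d * eval ![0, 1] (hom d f)) := by ring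
        rw [this]
        exact mul_ne_zero (sub_ne_zero.mpr (two_pow_ne _ (by omega))) (mul_ne_zero hfd he)
    · refine ⟨C (eval ![0, 1] (hom d g)) * evp k 1 d ![1, 0] 0 -
        C (f.coeff d) * evp k 1 d ![0, 1] 1, ?_, ?_⟩
      · intro G hG
        obtain ⟨B, hB, hG⟩ := (mem_orb F G).mp hG
        rw [mem_grp1] at hB
        obtain ⟨a, ha, rfl⟩ := hB
        rw [map_sub, map_mul, map_mul, eval_evp, eval_evp, eval_C, eval_C, hG, eval_act0,
          eval_act1]
        simp only [mul_one, mul_zero, add_zero, zero_mul, sub_zero, zero_add, hf', hg', hx]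
        rw [hy g a]
        ring
      · refine ⟨actE !![2, 0; 0, 1] (by rw [Matrix.det_fin_two_of]; simp) F,
          (mem_orb F _).mpr ⟨_, (mem_grp2 _).mpr ⟨2, 1, by simp, rfl⟩, rfl⟩, ?_⟩
        rw [map_sub, map_mul, map_mul, eval_evp, eval_evp, eval_C, eval_C]
        change _ * eval ![1, 0] (act !![2, 0; 0, 1] F.1 0) -
          _ * eval ![0, 1] (act !![2, 0; 0, 1] F.1 1) ≠ 0
        rw [eval_act0, eval_act1]
        simp only [mul_one, mul_zero, add_zero, zero_mul, sub_zero, zero_add, hf', hg', hx,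
          one_mul]
        have : eval ![0, 1] (hom d g) * (2 ^ d * f.coeff d) -
            f.coeff d * (2 * eval ![0, 1] (hom d g)) =
            (2 ^ d - 2) * (f.coeff d * eval ![0, 1] (hom d g)) := by ring
        rw [this]
        exact mul_ne_zero (sub_ne_zero.mpr (two_pow_ne2 _ hd)) (mul_ne_zero hfd he)
  have s23 : icl _ (orb_irred (det_A2 (k := k)) F) < icl _ (orb_irred (det_A3 (k := k)) F) := by
    apply icl_lt2 hzar _ _ (famSet_mono grp23 _ _)
    refine ⟨evp k 1 d ![0, 1] 0 * evp k 1 d ![0, 1] 1, ?_, ?_⟩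
    · intro G hG
      obtain ⟨B, hB, hG⟩ := (mem_orb F G).mp hG
      rw [mem_grp2] at hB
      obtain ⟨a, e, ha, rfl⟩ := hB
      rw [map_mul, eval_evp, eval_evp, hG, eval_act0, eval_act1]
      simp only [mul_one, mul_zero, add_zero, zero_mul, sub_zero, zero_add, hf', hg']
      rw [hy f e, hy g e]
      rw [hf', hg'] at h2
      have : e * (e ^ d * eval ![0, 1] (hom d f)) * (a * (e ^ d * eval ![0, 1] (hom d g))) =
        e * e ^ d * a * e ^ d * (eval ![0, 1] (hom d f) * eval ![0, 1] (hom d g)) := by ring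
      rw [this, h2, mul_zero]
    · refine ⟨actE !![1, μ; 0, 1] (by rw [Matrix.det_fin_two_of]; simp) F,
        (mem_orb F _).mpr ⟨_, (mem_grp3 _).mpr ⟨1, μ, 1, by simp, rfl⟩, rfl⟩, ?_⟩
      rw [map_mul, eval_evp, eval_evp]
      change eval ![0, 1] (act !![1, μ; 0, 1] F.1 0) *
        eval ![0, 1] (act !![1, μ; 0, 1] F.1 1) ≠ 0
      rw [eval_act0, eval_act1]
      simp only [mul_one, mul_zero, zero_mul, sub_zero, zero_add, one_mul, hf', hg']
      rw [eval_hom_fin hf, eval_hom_fin hg]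
      exact mul_ne_zero hμ1 hμ2
  have s34 : icl _ (orb_irred (det_A3 (k := k)) F) < icl _ (orb_irred (det_A4 (k := k)) F) := by
    apply icl_lt2 hzar _ _ (famSet_mono grp34 _ _)
    refine ⟨evp k 1 d ![1, 0] 1, ?_, ?_⟩
    · intro G hG
      obtain ⟨B, hB, hG⟩ := (mem_orb F G).mp hG
      rw [mem_grp3] at hB
      obtain ⟨a, b, e, ha, rfl⟩ := hB
      rw [eval_evp, hG, eval_act1]
      simp only [mul_one, mul_zero, add_zero, zero_mul, sub_zero, hg', hx, hgd]
    · refine ⟨actE !![μ, 1; 1, 0] (by rw [Matrix.det_fin_two_of]; simp) F,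
        (mem_orb F _).mpr ⟨_, (mem_grp4 _).mpr ⟨μ, 1, 1, 0, by simp, rfl⟩, rfl⟩, ?_⟩
      rw [eval_evp]
      change eval ![1, 0] (act !![μ, 1; 1, 0] F.1 1) ≠ 0
      rw [eval_act1]
      simp only [mul_one, mul_zero, one_mul, add_zero, hf', hg']
      rw [eval_hom_fin hf, eval_hom_fin hg]
      intro h
      apply hμ1
      rw [sub_eq_zero] at h ⊢
      exact h.symm
  have s4W : icl _ (orb_irred (det_A4 (k := k)) F) ≤ W := by
    change closure _ ⊆ (W : Set (EndTuple k 1 d))
    apply closure_minimal _ W.isClosed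
    intro G hG
    obtain ⟨B, hB, hG⟩ := (mem_orb F G).mp hG
    rw [mem_grp4] at hB
    obtain ⟨a, b, c, e, ha, rfl⟩ := hB
    have hdet : (!![a, b; c, e] : Matrix (Fin (1 + 1)) (Fin (1 + 1)) k).det ≠ 0 := by
      rw [Matrix.det_fin_two_of]; exact ha
    have : G = actE !![a, b; c, e] hdet F := Subtype.ext hG
    rw [this]
    exact hW _ hdet
  have t1 := Order.height_add_one_le s01
  have t2 := Order.height_add_one_le s12
  have t3 := Order.height_add_one_le s23
  have t4 := Order.height_add_one_le s34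
  have t5 := Order.height_mono s4W
  have e1 : (1 : ℕ∞) ≤ Order.height (icl _ (orb_irred (det_A1 (k := k)) F)) :=
    le_trans (by simp) t1
  have e2 : (2 : ℕ∞) ≤ Order.height (icl _ (orb_irred (det_A2 (k := k)) F)) :=
    le_trans (by rw [← one_add_one_eq_two]; exact add_le_add_left e1 1) t2
  have e3 : (3 : ℕ∞) ≤ Order.height (icl _ (orb_irred (det_A3 (k := k)) F)) :=
    le_trans (by rw [← two_add_one_eq_three]; exact add_le_add_left e2 1) t3
  have e4 : (4 : ℕ∞) ≤ Order.height (icl _ (orb_irred (det_A4 (k := k)) F)) :=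
    le_trans (by rw [← three_add_one_eq_four]; exact add_le_add_left e3 1) t4
  exact e4.trans t5

end

end Pool.Agent.Helper819.Dyn
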