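import Pool.Agent.Helper819.Upper

/-!
Upper bound for the dimension of the moduli space of maps of the line.
-/

open MvPolynomial

namespace Pool.Agent.Helper819.Dyn

open Pool.Agent.Helper819.Zar

noncomputable section

variable {k : Type} [Field k] [IsAlgClosed k] {d : ℕ}

omit [IsAlgClosed k] in
/-- Every chain of irreducible closed subsets of the coefficient space has length at most
`2 (d + 1)`. -/
theorem height_le_space (Z : TopologicalSpace.IrreducibleCloseds (EndTuple k 1 d)) :
    Order.height Z ≤ ((2 * (d + 1) : ℕ) : ℕ∞) := by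
  have := Zar.height_le (isZar_coords k 1 d) Z (σ := Fin 2 × Fin (d + 1))
    (bind₁ (fun p : Fin (1 + 1) × (Fin (1 + 1) →₀ ℕ) =>
      if h : p.2 0 + p.2 1 = d then (X (p.1, ⟨p.2 0, by omega⟩) :
        MvPolynomial (Fin 2 × Fin (d + 1)) k) else 0)) (by
      intro p hp F _
      have h1 := congrArg (eval (fun q : Fin 2 × Fin (d + 1) =>
        coeff (mono q.2 (d - q.2)) (F.1 q.1))) hp
      rw [eval_bind, map_zero] at h1
      rw [← h1]
      congr 2
      funext q
      obtain ⟨i, m⟩ := q
      simp only [coords]
      split_ifs with h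
      · rw [eval_X]
        simp only
        congr 1
        conv_lhs => rw [eq_mono m]
        congr 1
        omega
      · rw [map_zero]
        apply (F.2.1 i).coeff_eq_zero
        rw [eq_mono m, mono_degree]
        exact h)
  simpa using this

/-- Preimage of an irreducible closed set. -/
def pre {N : ℕ} (hNd : 0 < N + d) (Z : TopologicalSpace.IrreducibleCloseds (Moduli k N d)) :
    TopologicalSpace.IrreducibleCloseds (EndTuple k N d) where
  carrier := cls ⁻¹' (Z : Set (Moduli k N d))
  isIrreducible' := preimage_irred hNd Z.isIrreducible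
  isClosed' := Z.isClosed.preimage continuous_cls

theorem pre_strictMono {N : ℕ} (hNd : 0 < N + d) :
    StrictMono (pre (k := k) (N := N) (d := d) hNd) := by
  intro Z W h
  have hle : pre hNd Z ≤ pre hNd W := by
    intro F hF
    exact h.le hF
  refine lt_of_le_of_ne hle ?_
  intro heq
  apply h.ne
  have h1 : (cls : EndTuple k N d → _) ⁻¹' (Z : Set (Moduli k N d)) =
      cls ⁻¹' (W : Set (Moduli k N d)) := by
    exact congrArg (fun T : TopologicalSpace.IrreducibleCloseds (EndTuple k N d) =>
      (T : Set (EndTuple k N d))) heq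
  exact TopologicalSpace.IrreducibleCloseds.ext ((Set.preimage_injective.mpr cls_surjective) h1)

theorem four_le_pre [CharZero k] (hd : 2 ≤ d)
    (Z : TopologicalSpace.IrreducibleCloseds (Moduli k 1 d)) :
    4 ≤ Order.height (pre (N := 1) (by omega) Z) := by
  have hNd : 0 < 1 + d := by omega
  obtain ⟨m, hm⟩ := Z.isIrreducible.nonempty
  obtain ⟨F, rfl⟩ := cls_surjective m
  obtain ⟨A, hA, h1⟩ := normal_form1 F
  obtain ⟨B, hB, h2, h3⟩ := normal_form2 hd _ h1
  refine four_le_height hd _ h2 h3 _ ?_
  intro C hC
  change cls _ ∈ (Z : Set (Moduli k 1 d))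
  have : cls (actE C hC (actE B hB (actE A hA F))) = cls F := by
    rw [actE_actE, actE_actE]
    symm
    rw [cls_eq_iff hNd]
    exact ⟨_, _, rfl⟩
  rw [this]
  exact hm

theorem krullDim_moduli_le [CharZero k] (hd : 2 ≤ d) :
    topologicalKrullDim (Moduli k 1 d) ≤ ((2 * d - 2 : ℕ) : WithBot ℕ∞) := by
  have hNd : 0 < 1 + d := by omega
  unfold topologicalKrullDim Order.krullDim
  refine iSup_le fun s => ?_
  have key : ∀ n : ℕ, ∀ hn : n < s.length + 1,
      ((4 + n : ℕ) : ℕ∞) ≤ Order.height (pre (N := 1) hNd (s.toFun ⟨n, hn⟩)) := by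
    intro n
    induction n with
    | zero =>
      intro hn
      exact four_le_pre hd _
    | succ n ih =>
      intro hn
      have h1 := ih (by omega)
      have h2 : s.toFun ⟨n, by omega⟩ < s.toFun ⟨n + 1, hn⟩ := s.strictMono (by simp [Fin.lt_def])
      have h3 := Order.height_add_one_le (pre_strictMono hNd h2)
      refine le_trans ?_ h3
      have : ((4 + (n + 1) : ℕ) : ℕ∞) = ((4 + n : ℕ) : ℕ∞) + 1 := by push_cast; ring
      rw [this]
      exact add_le_add_left h1 1
  have h := (key s.length (by omega)).trans (height_le_space _)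
  have h2 : 4 + s.length ≤ 2 * (d + 1) := by exact_mod_cast h
  have h3 : s.length ≤ 2 * d - 2 := by omega
  exact_mod_cast h3

end

end Pool.Agent.Helper819.Dyn
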