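import Pool.Agent.Helper819.Sharp

/-!
Points over extensions, valuations and good reduction.
-/

open MvPolynomial

namespace Pool.Agent.Helper819.Dyn

open Pool.Agent.Helper819.Apolar

noncomputable section

set_option linter.unusedSectionVars false

/-- A point over an extension field specialises to a point over the algebraically closed field. -/
theorem exists_point {k K σ : Type} [Field k] [IsAlgClosed k] [Field K] [Algebra k K] [Finite σ]
    (x : σ → K) (q : MvPolynomial σ k) (hq : aeval x q ≠ 0) :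
    ∃ y : σ → k, (∀ p : MvPolynomial σ k, aeval x p = 0 → eval y p = 0) ∧ eval y q ≠ 0 := by
  let z : Option σ → K := fun o => o.elim (aeval x q)⁻¹ x
  let J : Ideal (MvPolynomial (Option σ) k) := RingHom.ker (aeval z)
  have hJ : J ≠ ⊤ := by
    intro h
    have h1 : (1 : MvPolynomial (Option σ) k) ∈ J := by rw [h]; trivial
    rw [RingHom.mem_ker, map_one] at h1
    exact one_ne_zero h1
  obtain ⟨M, hM, hJM⟩ := Ideal.exists_le_maximal J hJ
  obtain ⟨y, hy⟩ := isMaximal_iff_eq_vanishingIdeal_singleton.mp hM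
  have hJy : ∀ p ∈ J, eval y p = 0 := by
    intro p hp
    have h1 := hJM hp
    rw [hy, mem_vanishingIdeal_singleton_iff] at h1
    rw [← coe_aeval_eq_eval]
    exact h1
  have hren : ∀ p : MvPolynomial σ k, aeval z (rename some p) = aeval x p := by
    intro p
    rw [aeval_rename]
    rfl
  refine ⟨fun i => y (some i), fun p hp => ?_, ?_⟩
  · have h1 := hJy (rename some p) (by rw [RingHom.mem_ker, hren, hp])
    rw [eval_rename] at h1
    exact h1
  · intro h0
    have h1 := hJy (X none * rename some q - 1) (by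
      rw [RingHom.mem_ker, map_sub, map_mul, hren, aeval_X, map_one]
      change (aeval x q)⁻¹ * aeval x q - 1 = 0
      rw [inv_mul_cancel₀ hq, sub_self])
    rw [map_sub, map_mul, eval_rename, map_one] at h1
    have h2 : eval (y ∘ some) q = 0 := h0
    rw [h2, mul_zero, zero_sub] at h1
    exact one_ne_zero (neg_eq_zero.mp h1)

/-- No nonzero common zero over the ground field. -/
def NZ {K : Type} [Field K] {N : ℕ} (F : Tuple K N) : Prop :=
  ∀ x : Fin (N + 1) → K, (∀ i, eval x (F i) = 0) → x = 0

theorem NZ_map {k K : Type} [Field k] [IsAlgClosed k] [Field K] [Algebra k K] {N : ℕ}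
    {F : Tuple k N} (hF : NZ F) : NZ (fun i => map (algebraMap k K) (F i)) := by
  intro x hx
  by_contra hne
  obtain ⟨j, hj⟩ := Function.ne_iff.mp hne
  obtain ⟨y, hy1, hy2⟩ := exists_point x (X j : MvPolynomial (Fin (N + 1)) k) (by
    rw [aeval_X]; exact hj)
  have h1 := hF y (fun i => hy1 _ (by
    rw [← hx i, eval_map, aeval_def]))
  rw [eval_X, h1] at hy2
  exact hy2 rfl

theorem isEnd_iff_NZ {k : Type} [Field k] [IsAlgClosed k] {N d : ℕ} (F : Tuple k N) :
    IsEnd d F ↔ (∀ i, (F i).IsHomogeneous d) ∧ NZ F := isEnd_iff F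

theorem eval_act_vec {R : Type} [CommRing R] {N : ℕ} (A : Matrix (Fin (N + 1)) (Fin (N + 1)) R)
    (F : Tuple R N) (x : Fin (N + 1) → R) :
    (fun i => eval x (act A F i)) = A.adjugate.mulVec (fun j => eval (A.mulVec x) (F j)) := by
  funext i
  rw [eval_act]
  rfl

theorem NZ_act {K : Type} [Field K] {N : ℕ} {F : Tuple K N} (hF : NZ F)
    (A : Matrix (Fin (N + 1)) (Fin (N + 1)) K) (hA : A.det ≠ 0) : NZ (act A F) := by
  intro x hx
  have h1 : A.adjugate.mulVec (fun j => eval (A.mulVec x) (F j)) = 0 := by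
    rw [← eval_act_vec]
    funext i
    exact hx i
  have h2 : (fun j => eval (A.mulVec x) (F j)) = 0 := by
    have h3 : A.mulVec (A.adjugate.mulVec (fun j => eval (A.mulVec x) (F j))) = 0 := by
      rw [h1, Matrix.mulVec_zero]
    rw [Matrix.mulVec_mulVec, Matrix.mul_adjugate, Matrix.smul_mulVec, Matrix.one_mulVec] at h3
    exact (smul_eq_zero.mp h3).resolve_left hA
  have h3 := hF _ (fun i => congrFun h2 i)
  have h4 : A.adjugate.mulVec (A.mulVec x) = 0 := by rw [h3, Matrix.mulVec_zero]
  rw [Matrix.mulVec_mulVec, Matrix.adjugate_mul, Matrix.smul_mulVec, Matrix.one_mulVec] at h4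
  exact (smul_eq_zero.mp h4).resolve_left hA

section val

variable {L Γ : Type} [Field L] [LinearOrderedCommGroupWithZero Γ] (v : Valuation L Γ)
  {N d : ℕ}

/-- maximum norm -/
def nrm (x : Fin (N + 1) → L) : Γ := Finset.univ.sup' ⟨0, Finset.mem_univ _⟩ (fun i => v (x i))

theorem le_nrm (x : Fin (N + 1) → L) (i : Fin (N + 1)) : v (x i) ≤ nrm v x :=
  Finset.le_sup' (fun i => v (x i)) (Finset.mem_univ i)

theorem exists_nrm (x : Fin (N + 1) → L) : ∃ i, nrm v x = v (x i) := by
  obtain ⟨i, _, hi⟩ := Finset.exists_mem_eq_sup' (s := (Finset.univ : Finset (Fin (N + 1))))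
    ⟨0, Finset.mem_univ _⟩ (fun i => v (x i))
  exact ⟨i, hi⟩

theorem nrm_le {x : Fin (N + 1) → L} {g : Γ} (h : ∀ i, v (x i) ≤ g) : nrm v x ≤ g :=
  Finset.sup'_le _ _ fun i _ => h i

theorem nrm_eq_of {x : Fin (N + 1) → L} {g : Γ} (h : ∀ i, v (x i) ≤ g) (i : Fin (N + 1))
    (hi : v (x i) = g) : nrm v x = g :=
  le_antisymm (nrm_le v h) (hi ▸ le_nrm v x i)

theorem val_eval_le {G : MvPolynomial (Fin (N + 1)) L} (hG : G.IsHomogeneous d)
    (hc : ∀ m, v (coeff m G) ≤ 1) (x : Fin (N + 1) → L) : v (eval x G) ≤ nrm v x ^ d := by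
  rw [eval_eq]
  refine v.map_sum_le fun m hm => ?_
  rw [map_mul, map_prod]
  have hdeg : ∑ i ∈ m.support, m i = d := by
    have : m.degree = d := by
      by_contra hne
      exact (mem_support_iff.mp hm) (hG.coeff_eq_zero hne)
    rw [← this]
    rfl
  have h1 : ∏ i ∈ m.support, v (x i ^ m i) ≤ nrm v x ^ d := by
    rw [← hdeg, ← Finset.prod_pow_eq_pow_sum]
    refine Finset.prod_le_prod' fun i _ => ?_
    rw [map_pow]
    exact pow_le_pow_left' (le_nrm v x i) _
  calc v (coeff m G) * ∏ i ∈ m.support, v (x i ^ m i) ≤ 1 * nrm v x ^ d :=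
        mul_le_mul' (hc m) h1
    _ = nrm v x ^ d := one_mul _

theorem v_monomial_le {N d : ℕ} {G : Tuple L N} (hc : ∀ p : Ix N d, v (coeff p.2.1 (G p.1)) ≤ 1)
    (hG : ∀ i, (G i).IsHomogeneous d) (i : Fin (N + 1)) (m : Fin (N + 1) →₀ ℕ) :
    v (coeff m (G i)) ≤ 1 := by
  by_cases hm : m.degree = d
  · exact hc (i, ⟨m, (mem_Ex m).mpr hm⟩)
  · rw [(hG i).coeff_eq_zero hm, map_zero]
    exact zero_le_one

end val

section vs

variable {L : Type} [Field L] (O : ValuationSubring L) {N d : ℕ}

/-- Good reduction of a coefficient vector with integral coefficients. -/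
def Good (c : Ix N d → O) : Prop :=
  NZ (tup (fun p => IsLocalRing.residue O (c p)))

theorem norm_eq {c : Ix N d → O} (hc : Good O c) (hd : 1 ≤ d) (x : Fin (N + 1) → L) :
    nrm O.valuation (fun i => eval x (tup (fun p => (c p : L)) i)) = nrm O.valuation x ^ d := by
  by_cases hx : x = 0
  · have h1 : (fun i => eval x (tup (fun p => (c p : L)) i)) = 0 := by
      funext i
      have := eval_smul_hom (tup_homog (fun p => (c p : L)) i) 0 x
      rw [zero_smul, zero_pow (by omega), zero_mul] at this
      rw [hx]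
      exact this
    rw [h1, hx]
    have h2 : nrm O.valuation (0 : Fin (N + 1) → L) = 0 := by
      refine nrm_eq_of _ (fun i => ?_) 0 ?_ <;> simp
    rw [h2, zero_pow (by omega)]
  · obtain ⟨j, hj⟩ := exists_nrm O.valuation x
    have hxj : x j ≠ 0 := by
      intro h0
      apply hx
      funext i
      have h1 := le_nrm O.valuation x i
      rw [hj, h0, map_zero, le_zero_iff] at h1
      exact (map_eq_zero _).mp h1
    have hy : ∀ i, x i / x j ∈ O := by
      intro i
      rw [← O.valuation_le_one_iff, map_div₀]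
      apply div_le_one_of_le₀
      · rw [← hj]
        exact le_nrm _ x i
      · exact zero_le
    let y : Fin (N + 1) → O := fun i => ⟨x i / x j, hy i⟩
    have hxy : x = x j • (fun i => (y i : L)) := by
      funext i
      change x i = x j * (x i / x j)
      field_simp
    have h1 : ∀ i, eval x (tup (fun p => (c p : L)) i) =
        x j ^ d * ((eval y (tup c i) : O) : L) := by
      intro i
      conv_lhs => rw [hxy]
      rw [eval_smul_hom (tup_homog _ i)]
      congr 1
      have h2 : tup (fun p => (c p : L)) i = map O.subtype (tup c i) := (map_tup O.subtype c i).symm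
      rw [h2, eval_map]
      exact (hom_eval₂ (tup c i) (RingHom.id O) O.subtype y).symm
    have hyj : (fun i => IsLocalRing.residue O (y i)) ≠ 0 := by
      intro h
      have h2 := congrFun h j
      have h3 : y j = 1 := Subtype.ext (div_self hxj)
      simp only [h3, map_one, Pi.zero_apply] at h2
      exact one_ne_zero h2
    have h4 : ∃ i, IsLocalRing.residue O (eval y (tup c i)) ≠ 0 := by
      by_contra hcon
      push Not at hcon
      apply hyj
      apply hc
      intro i
      rw [← hcon i, ← map_tup (IsLocalRing.residue O) c i, eval_map]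
      exact (hom_eval₂ (tup c i) (RingHom.id O) (IsLocalRing.residue O) y).symm
    obtain ⟨i, hi⟩ := h4
    have h5 : O.valuation ((eval y (tup c i) : O) : L) = 1 := by
      rw [← O.valuation_eq_one_iff]
      exact (IsLocalRing.residue_ne_zero_iff_isUnit _).mp hi
    rw [hj]
    refine nrm_eq_of _ (fun l => ?_) i ?_
    · rw [h1, map_mul, map_pow]
      calc O.valuation (x j) ^ d * O.valuation ((eval y (tup c l) : O) : L)
          ≤ O.valuation (x j) ^ d * 1 := mul_le_mul' le_rfl (O.valuation_le_one _)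
        _ = _ := mul_one _
    · rw [h1, map_mul, map_pow, h5, mul_one]

/-- Key inequality. -/
theorem key_ineq {c : Ix N d → O} (hc : Good O c) (hd : 2 ≤ d)
    (A : Matrix (Fin (N + 1)) (Fin (N + 1)) L)
    (hG : ∀ p, actT A (fun p => (c p : L)) p ∈ O) (i0 j0 : Fin (N + 1))
    (hmax : ∀ i j, O.valuation (A i j) ≤ O.valuation (A i0 j0)) (h0 : A i0 j0 ≠ 0) :
    O.valuation A.det * O.valuation (A i0 j0) ^ (d - 1) ≤ 1 := by
  set v := O.valuation
  set a := v (A i0 j0)
  have ha : a ≠ 0 := (Valuation.ne_zero_iff _).mpr h0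
  let x : Fin (N + 1) → L := Pi.single j0 1
  have hx1 : nrm v x = 1 := by
    refine nrm_eq_of _ (fun i => ?_) j0 ?_
    · by_cases hi : i = j0
      · subst hi; simp [x]
      · simp [x, hi]
    · simp [x]
  have hAx : A.mulVec x = fun i => A i j0 := by
    funext i
    simp [x]
  have hAxn : nrm v (A.mulVec x) = a := by
    rw [hAx]
    exact nrm_eq_of _ (fun i => hmax i j0) i0 rfl
  let f : Tuple L N := tup (fun p => (c p : L))
  let g : Fin (N + 1) → L := fun i => eval x (act A f i)
  have hg : ∀ i, v (g i) ≤ 1 := by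
    intro i
    have h1 : act A f = tup (actT A (fun p => (c p : L))) := (tup_actT _ _).symm
    have h2 := val_eval_le v (act_homog A (tup_homog (fun p => (c p : L))) i)
      (v_monomial_le v (d := d) (G := act A f) (fun p => by
        rw [h1, coeff_tup]
        exact (O.valuation_le_one_iff _).mpr (hG p)) (act_homog A (tup_homog _)) i) x
    rw [hx1, one_pow] at h2
    exact h2
  have hAg : A.mulVec g = A.det • (fun i => eval (A.mulVec x) (f i)) := by
    have h1 : g = A.adjugate.mulVec (fun j => eval (A.mulVec x) (f j)) := eval_act_vec A f x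
    rw [h1, Matrix.mulVec_mulVec, Matrix.mul_adjugate, Matrix.smul_mulVec, Matrix.one_mulVec]
  have hle : nrm v (A.mulVec g) ≤ a := by
    apply nrm_le
    intro i
    change v (∑ j, A i j * g j) ≤ a
    refine v.map_sum_le fun j _ => ?_
    rw [map_mul]
    calc v (A i j) * v (g j) ≤ a * 1 := mul_le_mul' (hmax i j) (hg j)
      _ = a := mul_one a
  have heq : nrm v (A.mulVec g) = v A.det * a ^ d := by
    rw [hAg]
    have h1 := norm_eq O hc (by omega) (A.mulVec x)
    rw [hAxn] at h1
    obtain ⟨i, hi⟩ := exists_nrm v (fun i => eval (A.mulVec x) (f i))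
    have h2 : nrm v (fun i => eval (A.mulVec x) (f i)) = a ^ d := h1
    refine nrm_eq_of _ (fun l => ?_) i ?_
    · rw [Pi.smul_apply, smul_eq_mul, map_mul]
      refine mul_le_mul' le_rfl ?_
      rw [← h2]
      exact le_nrm v (fun i => eval (A.mulVec x) (f i)) l
    · rw [Pi.smul_apply, smul_eq_mul, map_mul, ← h2, hi]
  rw [heq] at hle
  have h3 : v A.det * a ^ (d - 1) * a ≤ 1 * a := by
    rw [mul_assoc, ← pow_succ, Nat.sub_add_cancel (by omega), one_mul]
    exact hle
  exact le_of_mul_le_mul_right h3 (zero_lt_iff.mpr ha)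

end vs

end

end Pool.Agent.Helper819.Dyn
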